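import Pool.Agent.H96.R1.Two
import Pool.Agent.H9.GEN.PkJ
import Pool.Agent.H53.JM.Own2

/-!
# Good windows and the volume

`Gwd P P' Λ w`: the good windows of a package: a greedy order, continuity and finite slopes
of the diagonals. `gw_ae`: almost every window is good. `vol`: the sum of the numbers at a good
window; `vx`: its extension, a monotone function.
-/

set_option autoImplicit false

namespace Pool.R1

open MeasureTheory Set Filter Topology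
open Pool.Agent.H49.Ent Pool.Agent.H32.Dense Pool.STK Pool.KA Pool.KSAT Pool.K2S Pool.PB
open Pool.GEN Pool.S6C Pool.GRW Pool.PKG
open Pool.CHT (chsys bet tau Up1)
open Pool.JPN (Dn1)
open Pool.LBT (ThrOf)
open Pool.ONE (lst)
open Pool.ALL (RateOf)
open Pool.FRN (Wgd Gdy)

variable {n : ℕ}

/-- Finite slopes at both sides of a point of differentiability. -/
theorem slope_of_diff {f : ℝ → ℝ} {w : ℝ} (h : DifferentiableAt ℝ f w) :
    ∃ C η : ℝ, 0 ≤ C ∧ 0 < η ∧ ∀ x : ℝ, |x - w| < η → |f x - f w| ≤ C * |x - w| := by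
  have h1 := h.isBigO_sub
  rw [Asymptotics.isBigO_iff] at h1
  obtain ⟨C, hC⟩ := h1
  rw [Metric.eventually_nhds_iff] at hC
  obtain ⟨η, hη, h2⟩ := hC
  refine ⟨|C|, η, abs_nonneg C, hη, fun x h3 => ?_⟩
  have h5 := h2 (y := x) (by rw [Real.dist_eq]; exact h3)
  rw [Real.norm_eq_abs, Real.norm_eq_abs] at h5
  exact h5.trans (mul_le_mul_of_nonneg_right (le_abs_self C) (abs_nonneg _))

/-- The diagonal of a threshold, on the whole line. -/
def dia (f : ℝ → ℝ → ℝ) (v : ℝ) : ℝ := f (max 0 (min v 1)) (max 0 (min v 1))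

theorem dia_eq (f : ℝ → ℝ → ℝ) {v : ℝ} (h0 : 0 ≤ v) (h1 : v ≤ 1) : dia f v = f v v := by
  unfold dia
  rw [min_eq_left h1, max_eq_right h0]

/-- **Finite slopes of a threshold** along the diagonal. -/
theorem slopes_of {f : ℝ → ℝ → ℝ} {w : ℝ} (h0 : 0 < w) (h1 : w < 1)
    (h : DifferentiableAt ℝ (dia f) w) : Dn1 f w ∧ Up1 f w w := by
  obtain ⟨C, η, hC, hη, h2⟩ := slope_of_diff h
  constructor
  · refine ⟨C, min (η / 2) (w / 2), lt_min (by linarith) (by linarith), fun o h3 h4 => ?_⟩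
    have h5 := h4.trans (min_le_left _ _)
    have h6 := h4.trans (min_le_right _ _)
    have h7 := h2 (w - o) (by rw [sub_sub_cancel_left, abs_neg, abs_of_nonneg h3]; linarith)
    rw [sub_sub_cancel_left, abs_neg o, abs_of_nonneg h3, dia_eq f h0.le h1.le,
      dia_eq f (by linarith) (by linarith)] at h7
    have h8 := (abs_le.1 h7).1
    linarith
  · refine ⟨C, min η (1 - w), hC, lt_min hη (by linarith), fun o h3 h4 => ?_⟩
    have h5 := h4.trans_le (min_le_left _ _)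
    have h6 := h4.trans_le (min_le_right _ _)
    have h7 := h2 (w + o) (by rw [add_sub_cancel_left, abs_of_pos h3]; exact h5)
    rw [add_sub_cancel_left, abs_of_pos h3, dia_eq f h0.le h1.le,
      dia_eq f (by linarith) (by linarith)] at h7
    have h8 := (abs_le.1 h7).2
    linarith

/-- The orders which begin with the active coordinate. -/
def Og (n : ℕ) : Set (Equiv.Perm (Fin (n - 1))) :=
  {σ | ∀ i : Fin (n - 1), (i : ℕ) = 0 → (σ i : ℕ) = 0}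

/-- **The good windows.** -/
structure Gwd (P : ℝ → ℝ → ℝ) (P' : ℕ → List (Fin n) × Fin n → ℝ → ℝ → ℝ)
    (Λ : Finset (Fin n) → Fin n → ℝ → ℝ → ℝ) (w : ℝ) : Prop where
  pos : 0 < w
  lt : w < 1
  ord : ∃ σ : Equiv.Perm (Fin (n - 1)), σ ∈ Og n ∧ w ∈ Wv Λ (fun i => bse (σ i))
  con : ∀ j l, ContinuousAt (dg (P' j) l) w
  conP : ContinuousAt (dgP P) w
  wgd : ∀ j, w ∈ Wgd (P' j)
  dn : ∀ j l, Dn1 (P' j l) w
  dnP : Dn1 P w
  upP : Up1 P w w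

variable {hn : 2 ≤ n} {S : PCl n} {P : ℝ → ℝ → ℝ} {r : ℝ → ℝ}
  {P' : ℕ → List (Fin n) × Fin n → ℝ → ℝ → ℝ} {Λ : Finset (Fin n) → Fin n → ℝ → ℝ → ℝ}

/-- **Almost every window is good.** -/
theorem gw_ae (H : Pk hn S P r P' Λ) : ∀ᵐ w : ℝ, 0 < w → w < 1 → Gwd P P' Λ w := by
  obtain ⟨al, g₀, s, d, e, K₀, N, hal, hg₀, hC⟩ := H.cl
  have hκ : (0 : ℕ) < n - 1 := by omega
  have hact : ∀ w : ℝ, 0 ≤ w → w < 1 → Λ ∅ (bse (⟨0, hκ⟩ : Fin (n - 1))) w w = w :=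
    fun w h0 h1 => H.lam.act hC.ne hal (hC.actm.q hg₀) (hC.actb _ rfl) H.pos h0 h1
  obtain ⟨D, hD, hcov⟩ := wv_cover (φ := bse (n := n)) (κ := ⟨0, hκ⟩) H.lam hact
  have h1 : ∀ᵐ w : ℝ, w ∉ D := hD.ae_notMem _
  have h2 : ∀ᵐ w : ℝ, ∀ j l, ContinuousAt (dg (P' j) l) w := by
    refine ae_all_iff.2 fun j => ?_
    have h3 : ∀ᵐ w : ℝ, w ∉ {w | ¬ ∀ l, ContinuousAt (dg (P' j) l) w} :=
      (dg_ae (H.cht j)).ae_notMem _
    filter_upwards [h3] with w h4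
    by_contra hcon
    exact h4 hcon
  have h3 : ∀ᵐ w : ℝ, ContinuousAt (dgP P) w := by
    have h4 : ∀ᵐ w : ℝ, w ∉ {w | ¬ ContinuousAt (dgP P) w} :=
      (dgP_mono (H.tgs.law ())).countable_not_continuousAt.ae_notMem _
    filter_upwards [h4] with w h5
    by_contra hcon
    exact h5 hcon
  have h4 : ∀ᵐ w : ℝ, ∀ j l, DifferentiableAt ℝ (dia (P' j l)) w := by
    have : Countable (List (Fin n) × Fin n) := inferInstance
    exact ae_all_iff.2 fun j => ae_all_iff.2 fun l => (dg_mono (H.cht j) l).ae_differentiableAt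
  have h5 : ∀ᵐ w : ℝ, DifferentiableAt ℝ (dia P) w :=
    (dgP_mono (H.tgs.law ())).ae_differentiableAt
  filter_upwards [h1, h2, h3, h4, h5, H.wgd] with w a1 a2 a3 a4 a5 a6 h0 h1'
  obtain ⟨σ, b1, b2⟩ := hcov w h0 h1' a1
  exact ⟨h0, h1', ⟨σ, fun i hi => by rw [b2 i hi], b1⟩, a2, a3, a6 h0 h1',
    fun j l => (slopes_of h0 h1' (a4 j l)).1, (slopes_of h0 h1' a5).1, (slopes_of h0 h1' a5).2⟩

/-- Exactness of the closed labels at a good window. -/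
theorem pk_exa (H : Pk hn S P r P' Λ) (hF : FZX (n - 1)) {σ : Equiv.Perm (Fin (n - 1))}
    (hσ : σ ∈ Og n) {w : ℝ} (hw : w ∈ Wv Λ (fun i => bse (σ i))) :
    VExa S Λ (fun i => bse (σ i)) w := by
  obtain ⟨al, g₀, s, d, e, K₀, N, hal, hg₀, hC⟩ := H.cl
  intro ρ hρ
  refine vst_exa hF hC.ne (C₀ := 6) (by norm_num) H.tmc H.lam hal hg₀ hC.actm H.pos
    (bse_inj.comp σ.injective) (fun k hk => hC.actb _ ?_) hw.1 hw.2.1 hw.2.2.1 hw.2.2.2 hρ
  exact hσ k hk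

/-- The order of a window. -/
noncomputable def ow (Λ : Finset (Fin n) → Fin n → ℝ → ℝ → ℝ) (w : ℝ) :
    Equiv.Perm (Fin (n - 1)) :=
  open Classical in
  if h : ∃ σ : Equiv.Perm (Fin (n - 1)), σ ∈ Og n ∧ w ∈ Wv Λ (fun i => bse (σ i)) then h.choose
  else 1

theorem Gwd.ow {w : ℝ} (h : Gwd P P' Λ w) :
    ow Λ w ∈ Og n ∧ w ∈ Wv Λ (fun i => bse (ow Λ w i)) := by
  unfold R1.ow
  rw [dif_pos h.ord]
  exact h.ord.choose_spec

/-- **The volume of the labels** at a window. -/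
noncomputable def vol (Λ : Finset (Fin n) → Fin n → ℝ → ℝ → ℝ) (w : ℝ) : ℝ :=
  ∑ j : Fin (n - 1), vs Λ (fun i => bse (ow Λ w i)) w (j + 1)

theorem bse_cov (σ σ' : Equiv.Perm (Fin (n - 1))) (j : Fin (n - 1)) :
    ∃ i, bse (σ i) = bse (n := n) (σ' j) := ⟨σ.symm (σ' j), by rw [Equiv.apply_symm_apply]⟩

theorem vol_le (H : Pk hn S P r P' Λ) (hF : FZX (n - 1)) {w w' : ℝ} (h : Gwd P P' Λ w)
    (h' : Gwd P P' Λ w') (hww : w ≤ w') : vol Λ w ≤ vol Λ w' :=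
  vol_mono H.ne H.pos H.lam (bse_cov _ _) hww h.ow.2 h'.lt.le (pk_exa H hF h'.ow.1 h'.ow.2)

theorem vol_nonneg (H : Pk hn S P r P' Λ) {w : ℝ} (h : Gwd P P' Λ w) : 0 ≤ vol Λ w :=
  Finset.sum_nonneg fun _ _ => h.pos.le.trans (le_vs H.lam _ h.lt.le _)

theorem vol_le_n (H : Pk hn S P r P' Λ) {w : ℝ} (h : Gwd P P' Λ w) : vol Λ w ≤ (n - 1 : ℕ) := by
  unfold vol
  calc _ ≤ ∑ _j : Fin (n - 1), (1 : ℝ) :=
        Finset.sum_le_sum fun _ _ => vs_le1 H.lam _ h.lt.le _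
    _ = _ := by rw [Finset.sum_const, Finset.card_univ, Fintype.card_fin, nsmul_eq_mul, mul_one]

/-- **The volume**, on the whole line. -/
noncomputable def vx (P : ℝ → ℝ → ℝ) (P' : ℕ → List (Fin n) × Fin n → ℝ → ℝ → ℝ)
    (Λ : Finset (Fin n) → Fin n → ℝ → ℝ → ℝ) (x : ℝ) : ℝ :=
  sSup (insert 0 (vol Λ '' {w | Gwd P P' Λ w ∧ w ≤ x}))

theorem vx_bdd (H : Pk hn S P r P' Λ) (x : ℝ) :
    BddAbove (insert 0 (vol Λ '' {w | Gwd P P' Λ w ∧ w ≤ x})) := by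
  refine ⟨(n - 1 : ℕ), ?_⟩
  rintro y (rfl | ⟨w, ⟨hw, -⟩, rfl⟩)
  · exact Nat.cast_nonneg _
  · exact vol_le_n H hw

theorem vx_mono (H : Pk hn S P r P' Λ) : Monotone (vx P P' Λ) := by
  intro x x' h
  refine csSup_le_csSup (vx_bdd H x') (Set.insert_nonempty _ _) ?_
  refine Set.insert_subset_insert (Set.image_mono ?_)
  rintro w ⟨h1, h2⟩
  exact ⟨h1, h2.trans h⟩

theorem vx_eq (H : Pk hn S P r P' Λ) (hF : FZX (n - 1)) {w : ℝ} (h : Gwd P P' Λ w) :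
    vx P P' Λ w = vol Λ w := by
  refine le_antisymm (csSup_le (Set.insert_nonempty _ _) ?_) (le_csSup (vx_bdd H w)
    (Set.mem_insert_of_mem _ ⟨w, ⟨h, le_rfl⟩, rfl⟩))
  rintro y (rfl | ⟨w', ⟨hw, h1⟩, rfl⟩)
  · exact vol_nonneg H h
  · exact vol_le H hF hw h h1

/-- **The windows of the row.** -/
def Wr (P : ℝ → ℝ → ℝ) (P' : ℕ → List (Fin n) × Fin n → ℝ → ℝ → ℝ)
    (Λ : Finset (Fin n) → Fin n → ℝ → ℝ → ℝ) : Set ℝ :=
  {w | Gwd P P' Λ w ∧ ContinuousAt (vx P P' Λ) w}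

theorem wr_ae (H : Pk hn S P r P' Λ) : ∀ᵐ w : ℝ, 0 < w → w < 1 → w ∈ Wr P P' Λ := by
  have h4 : ∀ᵐ w : ℝ, w ∉ {w | ¬ ContinuousAt (vx P P' Λ) w} :=
    (vx_mono H).countable_not_continuousAt.ae_notMem _
  filter_upwards [gw_ae H, h4] with w h1 h2 h3 h4
  refine ⟨h1 h3 h4, ?_⟩
  by_contra hcon
  exact h2 hcon

theorem ex_gw (H : Pk hn S P r P' Λ) {x y : ℝ} (hx : 0 ≤ x) (hxy : x < y) (hy : y ≤ 1) :
    ∃ w, x < w ∧ w < y ∧ w ∈ Wr P P' Λ := by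
  by_contra hcon
  push Not at hcon
  have h1 := wr_ae H
  have h2 : volume (Set.Ioo x y) = 0 := by
    refine measure_mono_null (fun v hv => ?_) (ae_iff.1 h1)
    intro h3
    exact hcon v hv.1 hv.2 (h3 (hx.trans_lt hv.1) (hv.2.trans_le hy))
  rw [Real.volume_Ioo, ENNReal.ofReal_eq_zero] at h2
  linarith

end Pool.R1
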