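import Pool.Agent.H96.R1.Prs

/-!
# Row R1: the local theorem for leaves with real gradients

`core_g`: `core` with the hypotheses in the form of the geometry of the pairs: the leaves `a`, `b`
have the gradients `2 ^ G` in the coordinates `y l / 2 ^ gd l`, the height is rescaled by
`2 ^ (-G)`; doubling with an additive error, a large value in the unit box.
-/

set_option autoImplicit false

namespace Pool.R1

open Finset Real
open Pool.Agent.H49.Ent Pool.Agent.H32.Dense Pool.STK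
open Pool.JMN (shf tdg)
open Pool.JMP (InC)
open Pool.BFL (Pb)

theorem pow_le_sum (k : ℕ) : (2 : ℝ) * k + 2 ≤ 2 ^ (k + 2) := by
  have h1 : k + 1 ≤ 2 ^ k := Nat.succ_le_of_lt Nat.lt_two_pow_self
  have h2 : ((k : ℝ) + 1) ≤ 2 ^ k := by exact_mod_cast h1
  have h3 : (2 : ℝ) ^ (k + 2) = 4 * 2 ^ k := by rw [pow_add]; ring
  have h4 : (0 : ℝ) < 2 ^ k := by positivity
  rw [h3]
  linarith

/-- The array divided by `2 ^ G`. -/
theorem ev_div {k K : ℕ} (q : (Fin k → Fin (K + 1)) → ℝ) (t : ℝ) (x : Fin k → ℝ) :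
    Pool.JMN.ev (fun α => q α / t) x = Pool.JMN.ev q x / t := by
  unfold Pool.JMN.ev
  rw [Finset.sum_div]
  exact Finset.sum_congr rfl fun a _ => by ring

theorem ev_sub {k K : ℕ} (q q' : (Fin k → Fin (K + 1)) → ℝ) (x : Fin k → ℝ) :
    Pool.JMN.ev (fun α => q α - q' α) x = Pool.JMN.ev q x - Pool.JMN.ev q' x := by
  unfold Pool.JMN.ev
  rw [← Finset.sum_sub_distrib]
  exact Finset.sum_congr rfl fun a _ => by ring

/-- **The local theorem, for leaves with real gradients.** -/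
theorem core_g (k r : ℕ) : ∃ C1 : ℝ, 0 ≤ C1 ∧ ∀ K : ℕ, ∃ (c : ℕ) (C2 : ℝ), 0 ≤ C2 ∧
    ∀ {Ω : Type} [Fintype Ω] (p : Ω → ℝ) (X Sf h P P₀ Pn J G u lo hi : ℕ) (gd : Fin k → ℕ)
    (y : Ω → Fin k → ℝ) (N : Ω → ℝ) (a b : Ω → (Fin k → Fin (K + 1)) → ℝ) (F : Ω → Prop),
    c ≤ h → 1 ≤ X → 1 ≤ Sf → J ≤ Sf * X → k * K * (Sf * X) + P₀ + G + h + c < h * P →
    u + 2 * h + c < (r + 1) * X → lo ≤ hi → hi + r * X + X + h + c ≤ J →
    hi + r * X + h + c ≤ Pn + G → P₀ + G + u + h + c ≤ hi + r * X →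
    (∀ ω i, 0 ≤ y ω i) → (∀ ω i, y ω i < 1) →
    (∀ ω, F ω → 0 < p ω → |N ω - Pool.JMN.ev (a ω) (y ω)| ≤ 1 / 2 ^ Pn) →
    (∀ ω, F ω → 0 < p ω → |N ω - Pool.JMN.ev (b ω) (y ω)| ≤ 1 / 2 ^ Pn) →
    (∀ ω, F ω → 0 < p ω → ∀ z z' : Fin k → ℝ, (∀ l, |z l| ≤ 2) → (∀ l, |z' l| ≤ 2) →
      |Pool.JMN.ev (a ω) z - Pool.JMN.ev (a ω) z'| ≤ 2 ^ G * ∑ l, |z l - z' l| / 2 ^ gd l) →
    (∀ ω, F ω → 0 < p ω → ∀ z z' : Fin k → ℝ, (∀ l, |z l| ≤ 2) → (∀ l, |z' l| ≤ 2) →
      |Pool.JMN.ev (b ω) z - Pool.JMN.ev (b ω) z'| ≤ 2 ^ G * ∑ l, |z l - z' l| / 2 ^ gd l) →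
    (∀ ω, F ω → 0 < p ω → ∀ s : ℝ, 0 ≤ s →
      (∀ x, InC X y 1 ω x → |Pool.JMN.ev (fun α => a ω α - b ω α) x| ≤ s) →
      ∀ x : Fin k → ℝ, (∀ l, 0 ≤ x l ∧ x l ≤ 1) →
        |Pool.JMN.ev (fun α => a ω α - b ω α) x| ≤ 2 ^ u * s + 1 / 2 ^ Pn) →
    (∀ ω, F ω → 0 < p ω → ∃ x : Fin k → ℝ, (∀ l, 0 ≤ x l ∧ x l ≤ 1) ∧
      1 / 2 ^ P₀ ≤ |Pool.JMN.ev (fun α => a ω α - b ω α) x|) → 0 < Pb p F →
    ∃ (n₁ n₂ M : ℕ) (E : Ω → Prop), (∀ ω, E ω → F ω) ∧ 0 < Pb p E ∧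
      Pb p F ≤ ((P : ℝ) + 1) ^ (k * K + 1) * Pb p E ∧ lo ≤ n₁ ∧
      n₁ ≤ max (P₀ + G + u + h + c) (lo + r * X) ∧ n₁ ≤ n₂ ∧ hi ≤ n₂ ∧ n₂ ≤ hi + r * X ∧
      M * X ≤ hi - lo + X ∧
      ∀ {α β τ δ : Type} {Q : Ω → ℝ} {A : Ω → α} {B : Ω → β} {W : Ω → τ} {D : Ω → δ}
        {th Lf : ℝ}, IsLaw Q → (∀ ω, 0 < Q ω → E ω ∧ 0 < p ω) → 0 ≤ th →
        Det Q (fun ω => (A ω, W ω)) a → Det Q (fun ω => (B ω, W ω)) b →
        Det Q (fun ω => (D ω, W ω)) (cv X y fun l => (J - gd l) / X) →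
        (∀ d : Fin k → ℕ, (∀ l, d l ≤ (J - gd l) / X) →
          CH Q D (fun ω => (W ω, cv X y d ω)) ≤ Lf - (∑ l, (d l : ℝ)) * (X * Real.log 2) + h) →
        Lf - th ≤ CH Q D (fun ω => (B ω, W ω)) → Lf - th ≤ CH Q D (fun ω => (A ω, W ω)) →
        Rows Q (fun ω => N ω / 2 ^ G) D W n₁ n₂
          (C1 * (((M : ℝ) + 1) * th + X) + C2 * (((M : ℝ) + 1) * (1 + h))) := by
  classical
  obtain ⟨C1, hC1, hcore⟩ := core k r
  refine ⟨C1, hC1, fun K => ?_⟩
  obtain ⟨c₁, C2, hC2, hcore⟩ := hcore K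
  obtain ⟨Cc, hCc, hcoef⟩ := Pool.JMN.coef_le k K
  obtain ⟨c₂, hc₂⟩ : ∃ n : ℕ, Cc * (2 * k + 2) ≤ 2 ^ n := by
    obtain ⟨n, hn⟩ := pow_unbounded_of_one_lt (Cc * (2 * k + 2)) (by norm_num : (1 : ℝ) < 2)
    exact ⟨n, hn.le⟩
  obtain ⟨c, hc⟩ : ∃ c, c = 2 * c₁ + c₂ + k + 6 := ⟨_, rfl⟩
  refine ⟨c, C2, hC2, ?_⟩
  intro Ω _ p X Sf h P P₀ Pn J G u lo hi gd y N a b F hch hX hSf hJ hcap hu hlh hJ2 hPn hP₀ y0 y1
    hna hnb hga hgb hdbl hno hF
  have pG : (0 : ℝ) < 2 ^ G := by positivity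
  obtain ⟨a', ha'⟩ : ∃ a' : Ω → (Fin k → Fin (K + 1)) → ℝ, a' = fun ω α => a ω α / 2 ^ G := ⟨_, rfl⟩
  obtain ⟨b', hb'⟩ : ∃ b' : Ω → (Fin k → Fin (K + 1)) → ℝ, b' = fun ω α => b ω α / 2 ^ G := ⟨_, rfl⟩
  have ea : ∀ ω x, Pool.JMN.ev (a' ω) x = Pool.JMN.ev (a ω) x / 2 ^ G := by
    intro ω x
    rw [ha']
    exact ev_div _ _ _
  have eb : ∀ ω x, Pool.JMN.ev (b' ω) x = Pool.JMN.ev (b ω) x / 2 ^ G := by
    intro ω x
    rw [hb']
    exact ev_div _ _ _
  have eab : ∀ ω x, Pool.JMN.ev (fun α => a' ω α - b' ω α) x =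
      Pool.JMN.ev (fun α => a ω α - b ω α) x / 2 ^ G := by
    intro ω x
    rw [ev_sub, ev_sub, ea, eb, sub_div]
  have e2 : ∀ n : ℕ, (1 : ℝ) / 2 ^ (n + G) = 1 / 2 ^ n / 2 ^ G := by
    intro n
    rw [pow_add, div_div]
  have dv : ∀ {s t : ℝ}, s ≤ t → s / 2 ^ G ≤ t / 2 ^ G := fun h => div_le_div_of_nonneg_right h pG.le
  have yab : ∀ ω l, |y ω l| ≤ 1 := fun ω l => by
    rw [abs_of_nonneg (y0 ω l)]
    exact (y1 ω l).le
  -- the values of the rescaled leaves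
  have hna' : ∀ ω, F ω → 0 < p ω → |N ω / 2 ^ G - Pool.JMN.ev (a' ω) (y ω)| ≤ 1 / 2 ^ (Pn + G) := by
    intro ω hω hp
    rw [ea, ← sub_div, abs_div, abs_of_pos pG, e2]
    exact dv (hna ω hω hp)
  have hnb' : ∀ ω, F ω → 0 < p ω → |N ω / 2 ^ G - Pool.JMN.ev (b' ω) (y ω)| ≤ 1 / 2 ^ (Pn + G) := by
    intro ω hω hp
    rw [eb, ← sub_div, abs_div, abs_of_pos pG, e2]
    exact dv (hnb ω hω hp)
  have hga' : ∀ ω, F ω → 0 < p ω → ∀ z z' : Fin k → ℝ, (∀ l, |z l| ≤ 2) → (∀ l, |z' l| ≤ 2) →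
      |Pool.JMN.ev (a' ω) z - Pool.JMN.ev (a' ω) z'| ≤ ∑ l, |z l - z' l| / 2 ^ gd l := by
    intro ω hω hp z z' h1 h2
    rw [ea, ea, ← sub_div, abs_div, abs_of_pos pG, div_le_iff₀ pG, mul_comm]
    exact hga ω hω hp z z' h1 h2
  have hgb' : ∀ ω, F ω → 0 < p ω → ∀ z z' : Fin k → ℝ, (∀ l, |z l| ≤ 2) → (∀ l, |z' l| ≤ 2) →
      |Pool.JMN.ev (b' ω) z - Pool.JMN.ev (b' ω) z'| ≤ ∑ l, |z l - z' l| / 2 ^ gd l := by
    intro ω hω hp z z' h1 h2
    rw [eb, eb, ← sub_div, abs_div, abs_of_pos pG, div_le_iff₀ pG, mul_comm]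
    exact hgb ω hω hp z z' h1 h2
  have hsum : ∀ (t : ℝ), 0 ≤ t → ∀ z z' : Fin k → ℝ, (∀ l, |z l - z' l| ≤ t) →
      ∑ l, |z l - z' l| / 2 ^ gd l ≤ k * t := by
    intro t ht z z' hz
    calc ∑ l, |z l - z' l| / 2 ^ gd l ≤ ∑ _l : Fin k, t := by
          refine Finset.sum_le_sum fun l _ => ?_
          refine (div_le_self (abs_nonneg _) (one_le_pow₀ (by norm_num))).trans (hz l)
      _ = k * t := by rw [Finset.sum_const, Finset.card_univ, Fintype.card_fin, nsmul_eq_mul]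
  -- the difference near the point
  have hdif : ∀ ω, F ω → 0 < p ω → ∀ (t : ℝ), 0 ≤ t → ∀ x : Fin k → ℝ, (∀ l, |x l| ≤ 2) →
      (∀ l, |x l - y ω l| ≤ t) →
      |Pool.JMN.ev (fun α => a' ω α - b' ω α) x| ≤ 2 * (1 / 2 ^ (Pn + G)) + 2 * (k * t) := by
    intro ω hω hp t ht x hx hxy
    have hy2 : ∀ l, |y ω l| ≤ 2 := fun l => (yab ω l).trans (by norm_num)
    have h1 := hga' ω hω hp x (y ω) hx hy2
    have h2 := hgb' ω hω hp x (y ω) hx hy2
    have h3 := hsum t ht x (y ω) hxy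
    have h4 := hna' ω hω hp
    have h5 := hnb' ω hω hp
    rw [ev_sub]
    have h6 : Pool.JMN.ev (a' ω) x - Pool.JMN.ev (b' ω) x =
        (Pool.JMN.ev (a' ω) x - Pool.JMN.ev (a' ω) (y ω)) -
        (N ω / 2 ^ G - Pool.JMN.ev (a' ω) (y ω)) + (N ω / 2 ^ G - Pool.JMN.ev (b' ω) (y ω)) -
        (Pool.JMN.ev (b' ω) x - Pool.JMN.ev (b' ω) (y ω)) := by ring
    rw [h6]
    rw [abs_le] at h1 h2 h4 h5 ⊢
    constructor <;> linarith [h1.1, h1.2, h2.1, h2.2, h4.1, h4.2, h5.1, h5.2]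
  have hk0 : (0 : ℝ) ≤ k := Nat.cast_nonneg k
  obtain ⟨n₁, n₂, M, E, e1, e3, e4, e5, e6, e7, e8, e9, e10, e11⟩ := hcore p X Sf h P (P₀ + G)
    (hi + h + c₁) (u + 1) lo hi (J - X - k - 2) (Pn + G) (fun l => (J - gd l) / X) y
    (fun ω => N ω / 2 ^ G) a' b' F (by omega) hX hSf (by omega) (by omega) hlh le_rfl (by omega)
    (by omega) (by omega) y0 y1
    (by
      -- the coefficients
      intro ω hω hp al
      have h1 := hcoef (shf (y ω) fun α => a' ω α - b' ω α) 1 (2 * k + 2) one_pos (by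
        intro x hx
        rw [Pool.JMN.ev_shf]
        refine (hdif ω hω hp 1 zero_le_one _ (fun l => ?_) fun l => ?_).trans ?_
        · have h2 := y0 ω l
          have h3 := (y1 ω l).le
          have h4 := hx l
          rw [abs_le]
          constructor <;> linarith [h4.1, h4.2]
        · have h4 := hx l
          rw [abs_le]
          constructor <;> linarith [h4.1, h4.2]
        · have h5 : (1 : ℝ) / 2 ^ (Pn + G) ≤ 1 := by
            rw [div_le_one (by positivity)]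
            exact one_le_pow₀ (by norm_num)
          linarith) al
      rw [one_pow, mul_one] at h1
      refine h1.trans (hc₂.trans ?_)
      exact pow_le_pow_right₀ (by norm_num) (by omega))
    (by
      -- the large value
      intro ω hω hp
      obtain ⟨x, hx, h1⟩ := hno ω hω hp
      refine ⟨x, fun l => ?_, ?_⟩
      · have h2 := y0 ω l
        have h3 := (y1 ω l).le
        have h4 := hx l
        rw [abs_le]
        constructor <;> linarith [h4.1, h4.2]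
      · rw [eab, abs_div, abs_of_pos pG, e2]
        exact dv h1)
    (by
      -- near the point
      intro ω hω hp x hx
      have h1 := fun l => hx.near l
      have h2 : (1 : ℝ) / 2 ^ (Sf * X) ≤ 1 / 2 ^ J :=
        one_div_le_one_div_of_le (by positivity) (pow_le_pow_right₀ (by norm_num) hJ)
      have h3 : (1 : ℝ) / 2 ^ J ≤ 1 := by
        rw [div_le_one (by positivity)]
        exact one_le_pow₀ (by norm_num)
      refine (hdif ω hω hp (1 / 2 ^ J) (by positivity) x (fun l => ?_) fun l =>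
        (h1 l).trans h2).trans ?_
      · have h4 := (h1 l).trans (h2.trans h3)
        have h5 := y0 ω l
        have h6 := (y1 ω l).le
        rw [abs_le] at h4 ⊢
        constructor <;> linarith [h4.1, h4.2]
      · have h4 : (1 : ℝ) / 2 ^ (Pn + G) ≤ 1 / 2 ^ (hi + h + c₁ + (k + 2)) :=
          one_div_le_one_div_of_le (by positivity) (pow_le_pow_right₀ (by norm_num) (by omega))
        have h5 : (1 : ℝ) / 2 ^ J ≤ 1 / 2 ^ (hi + h + c₁ + (k + 2)) :=
          one_div_le_one_div_of_le (by positivity) (pow_le_pow_right₀ (by norm_num) (by omega))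
        have h6 : 2 * (1 / (2 : ℝ) ^ (Pn + G)) + 2 * (k * (1 / 2 ^ J)) ≤
            (2 * k + 2) * (1 / 2 ^ (hi + h + c₁ + (k + 2))) := by
          have h7 := mul_le_mul_of_nonneg_left h5 (by positivity : (0 : ℝ) ≤ 2 * k)
          linarith
        refine h6.trans ?_
        rw [pow_add _ _ (k + 2), mul_one_div, ← div_div, div_right_comm]
        refine div_le_div_of_nonneg_right ?_ (by positivity)
        rw [div_le_one (by positivity)]
        exact pow_le_sum k)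
    (by
      -- doubling
      intro ω hω hp n hn x hx
      have h1 := hdbl ω hω hp (2 ^ G * (1 / 2 ^ (n + (u + 1)))) (by positivity) (by
        intro x' hx'
        have h2 := hn x' hx'
        rw [eab, abs_div, abs_of_pos pG, div_le_iff₀ pG] at h2
        rw [mul_comm]
        exact h2)
      have h3 : (2 : ℝ) ^ u * (2 ^ G * (1 / 2 ^ (n + (u + 1)))) = 2 ^ G * (1 / 2 ^ (n + 1)) := by
        rw [pow_add, pow_add, pow_add, pow_one]
        field_simp
      rw [h3] at h1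
      have h4 : n + 1 ≤ Pn + G := by
        by_contra hcon
        push Not at hcon
        obtain ⟨x', hx', h5⟩ := hno ω hω hp
        have h6 := h5.trans (h1 x' hx')
        have h7 : (2 : ℝ) ^ G * (1 / 2 ^ (n + 1)) ≤ 1 / 2 ^ Pn := by
          rw [mul_one_div, div_le_div_iff₀ (by positivity) (by positivity), one_mul, ← pow_add]
          exact pow_le_pow_right₀ (by norm_num) (by omega)
        have h8 : (1 : ℝ) / 2 ^ Pn ≤ 1 / 2 ^ (P₀ + 2) :=
          one_div_le_one_div_of_le (by positivity) (pow_le_pow_right₀ (by norm_num) (by omega))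
        have h9 : (1 : ℝ) / 2 ^ (P₀ + 2) = 1 / 2 ^ P₀ / 4 := by
          rw [pow_add, ← div_div]
          norm_num
        have h10 : (0 : ℝ) < 1 / 2 ^ P₀ := by positivity
        linarith
      have h5 := h1 x hx
      rw [eab, abs_div, abs_of_pos pG, div_le_iff₀ pG]
      refine h5.trans ?_
      have h6 : (1 : ℝ) / 2 ^ Pn ≤ 2 ^ G * (1 / 2 ^ (n + 1)) := by
        rw [mul_one_div, div_le_div_iff₀ (by positivity) (by positivity), one_mul, ← pow_add]
        exact pow_le_pow_right₀ (by norm_num) (by omega)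
      have h7 : (1 : ℝ) / 2 ^ n = 2 * (1 / 2 ^ (n + 1)) := by
        rw [pow_succ]
        field_simp
      rw [h7]
      linarith)
    (by
      -- exhausted coordinates
      intro ω hω hp z z' hz hz' hzz
      have h1 : ∑ l, |z l - z' l| / 2 ^ gd l ≤ 1 / 2 ^ (J - X - k - 2) := by
        calc ∑ l, |z l - z' l| / 2 ^ gd l ≤ ∑ _l : Fin k, 2 / (2 : ℝ) ^ (J - X) := by
              refine Finset.sum_le_sum fun l _ => ?_
              calc |z l - z' l| / 2 ^ gd l ≤ 2 / 2 ^ ((J - gd l) / X * X) / 2 ^ gd l :=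
                    div_le_div_of_nonneg_right (hzz l) (by positivity)
                _ = 2 / 2 ^ ((J - gd l) / X * X + gd l) := by rw [pow_add, div_div]
                _ ≤ 2 / 2 ^ (J - X) := by
                  refine div_le_div_of_nonneg_left (by norm_num) (by positivity) ?_
                  refine pow_le_pow_right₀ (by norm_num) ?_
                  have h2 := Nat.div_add_mod (J - gd l) X
                  have h3 := Nat.mod_lt (J - gd l) (by omega : 0 < X)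
                  rw [mul_comm] at h2
                  omega
          _ = (2 * k) / 2 ^ (J - X) := by
            rw [Finset.sum_const, Finset.card_univ, Fintype.card_fin, nsmul_eq_mul]
            ring
          _ ≤ 1 / 2 ^ (J - X - k - 2) := by
            have h2 : J - X = J - X - k - 2 + (k + 2) := by omega
            rw [div_le_div_iff₀ (by positivity) (by positivity), one_mul]
            nth_rewrite 2 [h2]
            rw [pow_add _ _ (k + 2), mul_comm]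
            refine mul_le_mul_of_nonneg_left ?_ (by positivity)
            have := pow_le_sum k
            linarith
      exact ⟨(hga' ω hω hp z z' hz hz').trans h1, (hgb' ω hω hp z z' hz hz').trans h1⟩)
    hna' hF
  refine ⟨n₁, n₂, M, E, e1, e3, e4, e5, e6.trans (max_le_max (by omega) le_rfl), e7, e8, e9, e10, ?_⟩
  intro α β τ δ Q A B W D th Lf hQ hQE hth hda hdb hdc hcnt hfb hfa
  refine e11 hQ hQE hth ?_ ?_ hdc hcnt hfb hfa
  · intro ω ω' h1 h2 h3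
    rw [ha']
    show (fun α => a ω α / 2 ^ G) = fun α => a ω' α / 2 ^ G
    rw [hda ω ω' h1 h2 h3]
  · intro ω ω' h1 h2 h3
    rw [hb']
    show (fun α => b ω α / 2 ^ G) = fun α => b ω' α / 2 ^ G
    rw [hdb ω ω' h1 h2 h3]

end Pool.R1
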