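import Pool.Agent.H53.JM.Inp
import Pool.Agent.H96.R1.Cor

/-!
# Row R1: the geometry of the pairs, at one member

`GeoJ`: the data of the labels at the windows `w₀ ≤ w₁`. The chart `P` at the window `w₀` gives the
natural coordinates of the first point; `d` is the depth of the cell. On the event `E` of pairs the
coordinate `c k`, divided by `2 ^ sg`, is on the leaves of both labels at the window `w₁`, up to
`2 ^ (-Pn)`; the leaves are polynomials `a`, `b` on the cell, with gradients at most `2 ^ G`; the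
difference of the leaves is at least `2 ^ (-P₀)` somewhere in the cell, and its size on the cell is
at most `2 ^ u` times its size on the box of depth `1`, up to `2 ^ (-Pn)`.
`GeoS`: the same in a class, for all small depths of the cell.
`fam`: the rows, for one member.
-/

set_option autoImplicit false

namespace Pool.R1

open Finset Real
open Pool.Agent.H49.Ent Pool.Agent.H32.Dense Pool.STK Pool.KA Pool.KSAT Pool.K2S Pool.PB Pool.STAT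
  Pool.GEN Pool.M3F Pool.KM7 Pool.S6C Pool.JPN
open Pool.JMN (shf tdg)
open Pool.JMP (InC)
open Pool.BFL (Pb)

variable {m J : ℕ}

/-- **The geometry of the pairs.** -/
structure GeoJ (k K n₀ : ℕ) (F : Fam m J) (A : F.Ω → Prop) (c : ℕ → Fin m)
    (w₀ w₁ sg d X u G Pn P₀ : ℕ) (g : ℕ → ℕ) {V₀ V₁ : Type} (P : V₀ → ℕ → PN) (z₀ : PtT F → V₀)
    (z₀' : LnT F → V₀) (z₁ : PtT F → V₁) (z₁' : LnT F → V₁) (br : F.Ω × F.Ω → Fin n₀)
    (a b : F.Ω × F.Ω → (Fin k → Fin (K + 1)) → ℝ) (E : F.Ω × F.Ω → Prop) : Prop where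
  /-- the chart at the window `w₀` is triangular -/
  tri : ∀ v, TriN (P v)
  /-- the chart is closed at the window `w₀` -/
  cls₀ : ∀ ω, A ω → z₀ (ptr F J ω) = z₀' (slam F w₀ ω)
  /-- the label is closed at the window `w₁` -/
  cls₁ : ∀ ω, A ω → z₁ (ptr F J ω) = z₁' (slam F w₁ ω)
  /-- the points are in the natural boxes -/
  pos : ∀ ω, A ω → ∀ i < k, |ntc F c P z₀ ω i| ≤ 1 / 2 ^ g i
  /-- the event is not small -/
  mass : 1 / 2 ≤ Pe (P2 (Pool.Agent.H49.Ent.cond F.p A True) (slam F w₀)) E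
  /-- the leaf of the second sample, on the cell of the first one -/
  da : ∀ e e', E e → E e' → AA F z₁' w₁ e = AA F z₁' w₁ e' →
    WW k F c P z₀ z₀' g d w₀ br e = WW k F c P z₀ z₀' g d w₀ br e' → a e = a e'
  /-- the leaf of the first sample, on its cell -/
  db : ∀ e e', E e → E e' → BB F z₁' w₁ e = BB F z₁' w₁ e' →
    WW k F c P z₀ z₀' g d w₀ br e = WW k F c P z₀ z₀' g d w₀ br e' → b e = b e'
  na : ∀ e, E e → |F.x e.1 (c k) / 2 ^ sg - Pool.JMN.ev (a e) (yc k F c P z₀ g d e.1)| ≤ 1 / 2 ^ Pn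
  nb : ∀ e, E e → |F.x e.1 (c k) / 2 ^ sg - Pool.JMN.ev (b e) (yc k F c P z₀ g d e.1)| ≤ 1 / 2 ^ Pn
  ga : ∀ e, E e → ∀ z z' : Fin k → ℝ, (∀ l, |z l| ≤ 2) → (∀ l, |z' l| ≤ 2) →
    |Pool.JMN.ev (a e) z - Pool.JMN.ev (a e) z'| ≤ 2 ^ G * ∑ l : Fin k, |z l - z' l| / 2 ^ (g l + d)
  gb : ∀ e, E e → ∀ z z' : Fin k → ℝ, (∀ l, |z l| ≤ 2) → (∀ l, |z' l| ≤ 2) →
    |Pool.JMN.ev (b e) z - Pool.JMN.ev (b e) z'| ≤ 2 ^ G * ∑ l : Fin k, |z l - z' l| / 2 ^ (g l + d)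
  /-- doubling -/
  dbl : ∀ e, E e → ∀ s : ℝ, 0 ≤ s →
    (∀ x, InC X (fun e => yc k F c P z₀ g d e.1) 1 e x →
      |Pool.JMN.ev (fun α => a e α - b e α) x| ≤ s) →
    ∀ x : Fin k → ℝ, (∀ l, 0 ≤ x l ∧ x l ≤ 1) →
      |Pool.JMN.ev (fun α => a e α - b e α) x| ≤ 2 ^ u * (s + 1 / 2 ^ Pn)
  /-- the leaves are different -/
  no : ∀ e, E e → ∃ x : Fin k → ℝ, (∀ l, 0 ≤ x l ∧ x l ≤ 1) ∧
    1 / 2 ^ P₀ ≤ |Pool.JMN.ev (fun α => a e α - b e α) x|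

theorem pb_pe {Ω : Type} [Fintype Ω] (p : Ω → ℝ) (A : Ω → Prop) : Pb p A = Pe p A := by
  rw [Pe_eq]
  rfl

/-- **The geometry of the pairs, in a class.** `β`: the numbers of the chart at the window `w₀`;
`y` is the length of the window together with the fall of the volume; `P0`: the threshold at `w₀`;
`P1`: the precision of the leaves; `sg`: the slope. The depth `q` of the cell, the mesh `X` and the
error `η` are arbitrary. -/
def GeoS (S : PCl m) (k r C : ℕ) (c : ℕ → Fin m) (β : ℕ → ℝ) (w₀ w₁ y P0 P1 sg cc : ℝ) : Prop :=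
  ∀ q X η : ℝ, 0 < η → C * (y + η) ≤ q → q ≤ X → C * X ≤ cc → X ≤ 1 →
    ∃ (K n₀ : ℕ) (κ : ℝ), 0 < κ ∧ Bas S (fun J F A => ∃ (A' : F.Ω → Prop) (g : ℕ → ℕ)
      (V₀ V₁ : Type) (P : V₀ → ℕ → PN) (z₀ : PtT F → V₀) (z₀' : LnT F → V₀) (z₁ : PtT F → V₁)
      (z₁' : LnT F → V₁) (br : F.Ω × F.Ω → Fin n₀)
      (a b : F.Ω × F.Ω → (Fin k → Fin (K + 1)) → ℝ) (E : F.Ω × F.Ω → Prop),
      Sub A' A ∧ κ * Pe F.p A ≤ Pe F.p A' ∧ (∀ i < k, |(g i : ℝ) - β i * J| ≤ η * J) ∧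
      (∀ i < k, g i + ⌊q * J⌋₊ ≤ J) ∧
      GeoJ k K n₀ F A' c ⌊w₀ * J⌋₊ ⌊w₁ * J⌋₊ ⌊sg * J⌋₊ ⌊q * J⌋₊ ⌊X * J⌋₊
        (r * ⌊X * J⌋₊ + ⌊η * J⌋₊) ⌊C * q * J⌋₊ ⌊(P1 + sg - C * q) * J⌋₊
        ⌈(P0 + sg + C * q) * J⌉₊ g P z₀ z₀' z₁ z₁' br a b E)

/-- **The rows, for one member.** -/
theorem fam (k r : ℕ) : ∃ C1 : ℝ, 0 ≤ C1 ∧ ∀ K : ℕ, ∃ (c₀ : ℕ) (C2 : ℝ), 0 ≤ C2 ∧
    ∀ {m J : ℕ} {F : Fam m J} {A : F.Ω → Prop} {c : ℕ → Fin m} {n₀ w₀ w₁ sg d X u G Pn P₀ : ℕ}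
      {g : ℕ → ℕ} {V₀ V₁ : Type} {P : V₀ → ℕ → PN} {z₀ : PtT F → V₀} {z₀' : LnT F → V₀}
      {z₁ : PtT F → V₁} {z₁' : LnT F → V₁} {br : F.Ω × F.Ω → Fin n₀}
      {a b : F.Ω × F.Ω → (Fin k → Fin (K + 1)) → ℝ} {E : F.Ω × F.Ω → Prop},
      GeoJ k K n₀ F A c w₀ w₁ sg d X u G Pn P₀ g P z₀ z₀' z₁ z₁' br a b E → 0 < Pe F.p A →
      w₀ ≤ w₁ → w₁ ≤ J → (∀ i < k, g i + d ≤ J) →
      ∀ (Sf h Pp lo hi : ℕ), c₀ ≤ h → 1 ≤ X → 1 ≤ Sf → J ≤ Sf * X →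
      k * K * (Sf * X) + P₀ + G + h + c₀ < h * Pp → u + 2 * h + c₀ < (r + 1) * X → lo ≤ hi →
      hi + r * X + X + h + c₀ ≤ J → hi + r * X + h + c₀ + u ≤ Pn + G →
      P₀ + G + u + h + c₀ ≤ hi + r * X →
      ∃ (n₁ n₂ M : ℕ) (E' : F.Ω × F.Ω → Prop), (∀ e, E' e → E e) ∧
        1 / 2 ≤ ((Pp : ℝ) + 1) ^ (k * K + 1) *
          Pe (P2 (Pool.Agent.H49.Ent.cond F.p A True) (slam F w₀)) E' ∧ lo ≤ n₁ ∧
        n₁ ≤ max (P₀ + G + u + h + c₀) (lo + r * X) ∧ n₁ ≤ n₂ ∧ hi ≤ n₂ ∧ n₂ ≤ hi + r * X ∧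
        M * X ≤ hi - lo + X ∧
        ∀ {Q : F.Ω × F.Ω → ℝ} {E₀ th : ℝ}, IsLaw Q →
          (∀ e, 0 < Q e → E' e ∧
            0 < P2 (Pool.Agent.H49.Ent.cond F.p A True) (slam F w₀) e) → 0 ≤ th →
          (∀ (V : Type) (z : PtT F → V) (z' : LnT F → V),
            (∀ ω, A ω → z (ptr F J ω) = z' (slam F w₁ ω)) →
            E₀ ≤ CH Q (fun e (i : Fin k) => F.X J e.1 (c i))
              (fun e => (F.T e.1, (z' (slam F w₁ e.2), F.W e.2))) ∧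
            E₀ ≤ CH Q (fun e (i : Fin k) => F.X J e.1 (c i))
              (fun e => (z' (slam F w₁ e.1), F.W e.1))) →
          (∑ i : Fin k, ((J : ℝ) - g i - d)) * Real.log 2 - th ≤
            E₀ - k * (d * Real.log 2 + Real.log 5) - Real.log n₀ →
          Rows Q (fun e => F.x e.1 (c k) / 2 ^ (sg + G)) (fun e (i : Fin k) => F.X J e.1 (c i))
            (WW k F c P z₀ z₀' g d w₀ br) n₁ n₂
            (C1 * (((M : ℝ) + 1) * th + X) + C2 * (((M : ℝ) + 1) * (1 + h))) := by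
  classical
  obtain ⟨C1, hC1, hcore⟩ := core_g k r
  refine ⟨C1, hC1, fun K => ?_⟩
  obtain ⟨c₁, C2, hC2, hcore⟩ := hcore K
  refine ⟨c₁ + 2 * k, C2, hC2, ?_⟩
  intro m J F A c n₀ w₀ w₁ sg d X u G Pn P₀ g V₀ V₁ P z₀ z₀' z₁ z₁' br a b E H hA hw hw₁ hgJ Sf h
    Pp lo hi hc hX hSf hJ hcap hu hlh hJ2 hPn hP₀
  have hl := isLaw_cond F.isLaw hA
  have hP2 := P2_isLaw hl (slam F w₀)
  have huP : u ≤ Pn := by omega
  have hPu : (1 : ℝ) / 2 ^ Pn ≤ 1 / 2 ^ (Pn - u) :=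
    one_div_le_one_div_of_le (by positivity) (pow_le_pow_right₀ (by norm_num) (by omega))
  have hPu2 : (2 : ℝ) ^ u * (1 / 2 ^ Pn) ≤ 1 / 2 ^ (Pn - u) := by
    have h1 : (2 : ℝ) ^ Pn = 2 ^ (Pn - u) * 2 ^ u := by
      rw [← pow_add]
      congr 1
      omega
    rw [h1]
    have h2 : (0 : ℝ) < 2 ^ u := by positivity
    have h3 : (0 : ℝ) < 2 ^ (Pn - u) := by positivity
    have h4 : (2 : ℝ) ^ u * (1 / (2 ^ (Pn - u) * 2 ^ u)) = 1 / 2 ^ (Pn - u) := by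
      field_simp
    exact h4.le
  obtain ⟨n₁, n₂, M, E', e1, e2, e3, e4, e5, e6, e7, e8, e9, e10⟩ := hcore
    (P2 (Pool.Agent.H49.Ent.cond F.p A True) (slam F w₀)) X Sf h Pp P₀ (Pn - u) J G u lo hi
    (fun l => g l + d) (fun e => yc k F c P z₀ g d e.1) (fun e => F.x e.1 (c k) / 2 ^ sg) a b E
    (by omega) hX hSf hJ (by omega) (by omega) hlh (by omega) (by omega) (by omega)
    (fun e i => yc_nonneg e.1 i) (fun e i => yc_lt e.1 i) (fun e h1 _ => (H.na e h1).trans hPu)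
    (fun e h1 _ => (H.nb e h1).trans hPu) (fun e h1 _ => H.ga e h1) (fun e h1 _ => H.gb e h1)
    (fun e h1 _ s hs hx x h2 => (H.dbl e h1 s hs hx x h2).trans (by
      rw [mul_add]
      exact add_le_add le_rfl hPu2)) (fun e h1 _ => H.no e h1) (by
      rw [pb_pe]
      linarith [H.mass])
  refine ⟨n₁, n₂, M, E', e1, ?_, e4, e5.trans (max_le_max (by omega) le_rfl), e6, e7, e8, e9, ?_⟩
  · rw [pb_pe, pb_pe] at e3
    exact H.mass.trans e3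
  intro Q E₀ th hQ hQE hth hfull hE₀
  have hs : ∀ e, 0 < Q e → A e.1 ∧ A e.2 ∧ slam F w₀ e.1 = slam F w₀ e.2 := by
    intro e he
    obtain ⟨c1, c2, c3⟩ := (P2_pos hl e).1 (hQE e he).2
    exact ⟨of_eq_true ((cond_pos_iff F.isLaw.nonneg A True e.1).1 c1).2,
      of_eq_true ((cond_pos_iff F.isLaw.nonneg A True e.2).1 c2).2, c3⟩
  have hfa := inp_fa (k := k) (c := c) (P := P) (z₀ := z₀) (z₀' := z₀') (z₁ := z₁) (z₁' := z₁')
    (g := g) (d := d) (br := br) hQ hw hw₁ hs H.cls₀ H.cls₁ H.pos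
    (fun V z z' h1 => (hfull V z z' h1).1)
  have hfb := inp_fb (k := k) (c := c) (P := P) (z₀ := z₀) (z₀' := z₀') (z₁ := z₁) (z₁' := z₁')
    (g := g) (d := d) (br := br) hQ hw hw₁ (fun e he => (hs e he).1) H.cls₀ H.cls₁ H.pos
    (fun V z z' h1 => (hfull V z z' h1).2)
  have hEE : ∀ e, 0 < Q e → E e := fun e he => e1 e (hQE e he).1
  have key := e10 (α := V₁ × ℕ) (β := V₁) (A := AA F z₁' w₁) (B := BB F z₁' w₁)
    (W := WW k F c P z₀ z₀' g d w₀ br) (D := fun e (i : Fin k) => F.X J e.1 (c i))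
    (Lf := (∑ i : Fin k, ((J : ℝ) - g i - d)) * Real.log 2) hQ hQE hth
    (fun e e' h1 h2 h3 => by
      simp only [Prod.mk.injEq] at h3
      exact H.da e e' (hEE e h1) (hEE e' h2) h3.1 h3.2)
    (fun e e' h1 h2 h3 => by
      simp only [Prod.mk.injEq] at h3
      exact H.db e e' (hEE e h1) (hEE e' h2) h3.1 h3.2)
    (inp_dc H.tri (fun e he => (hs e he).1) H.cls₀ X _)
    (fun t ht => by
      refine (inp_cnt hQ H.tri (fun e he => (hs e he).1) H.cls₀ fun i => ?_).trans ?_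
      · have h1 := hgJ i i.2
        have h2 := Nat.mul_le_of_le_div _ _ _ (ht i)
        show g i + d + t i * X ≤ J
        have h3 : t i * X ≤ J - (g i + d) := h2
        omega
      · have h1 : (k : ℝ) * Real.log 3 ≤ h := by
          have h2 : Real.log 3 ≤ 2 := by
            have := Real.log_le_sub_one_of_pos (show (0 : ℝ) < 3 by norm_num)
            linarith
          have h3 : (k : ℝ) * Real.log 3 ≤ k * 2 := mul_le_mul_of_nonneg_left h2 (Nat.cast_nonneg k)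
          have h4 : ((k * 2 : ℕ) : ℝ) ≤ h := by exact_mod_cast (by omega : k * 2 ≤ h)
          push_cast at h4
          linarith
        linarith)
    (hE₀.trans hfb) (hE₀.trans hfa)
  have e11 : (fun e : F.Ω × F.Ω => F.x e.1 (c k) / 2 ^ sg / 2 ^ G) =
      fun e => F.x e.1 (c k) / 2 ^ (sg + G) := by
    funext e
    rw [pow_add, div_div]
  rw [← e11]
  exact key

end Pool.R1
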