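import Pool.Agent.H53.JM.Exv
import Pool.Agent.H27.TOP.Rt
import Pool.Agent.H96.R1.Geo

/-!
# Row R1: the rows of one falling level

`row_one`: the theorem for two windows of a class, from the geometry of the pairs (`GeoS`).
-/

set_option autoImplicit false

namespace Pool.R1

open Finset Real
open Pool.Agent.H49.Ent Pool.Agent.H32.Dense Pool.STK Pool.KA Pool.KSAT Pool.K2S Pool.PB Pool.STAT
  Pool.GEN Pool.M3F Pool.KM7 Pool.S6C Pool.JPN
open Pool.ALL (RateOf)
open Pool.JPR (bas_big)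

variable {m J : ℕ}

/-- The measure of the nonfull rows. -/
def nfl (ρ : ℝ → ℝ) (u v : ℝ) : ℝ := v - u - (ρ v - ρ u)

section nf

variable {ρ : ℝ → ℝ} (hl : LipschitzWith 1 ρ) (hm : Monotone ρ)

include hl in
theorem nfl_nonneg {u v : ℝ} (h : u ≤ v) : 0 ≤ nfl ρ u v := by
  have h1 := hl.dist_le_mul v u
  rw [NNReal.coe_one, one_mul, Real.dist_eq, Real.dist_eq, abs_of_nonneg (by linarith :
    (0 : ℝ) ≤ v - u)] at h1
  unfold nfl
  linarith [(abs_le.1 h1).2]

include hm in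
theorem nfl_le {u v : ℝ} (h : u ≤ v) : nfl ρ u v ≤ v - u := by
  have h1 := hm h
  unfold nfl
  linarith

theorem nfl_add (u v w : ℝ) : nfl ρ u v + nfl ρ v w = nfl ρ u w := by
  unfold nfl
  ring

include hl in
/-- The row with a given measure of nonfull rows above it. -/
theorem nfl_row {u v t : ℝ} (h : u ≤ v) (ht : 0 ≤ t) (ht' : t ≤ nfl ρ u v) :
    ∃ w, u ≤ w ∧ w ≤ v ∧ nfl ρ w v = t := by
  have hc : ContinuousOn (fun w => nfl ρ w v) (Set.Icc u v) := by
    refine Continuous.continuousOn ?_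
    have h1 := hl.continuous
    unfold nfl
    fun_prop
  have h2 := intermediate_value_Icc' h hc
  have h3 : t ∈ Set.Icc (nfl ρ v v) (nfl ρ u v) := by
    refine ⟨?_, ht'⟩
    have : nfl ρ v v = 0 := by
      unfold nfl
      ring
    rw [this]
    exact ht
  obtain ⟨w, hw, h4⟩ := h2 h3
  exact ⟨w, hw.1, hw.2, h4⟩

end nf

theorem nat_fl {x : ℝ} (hx : 0 ≤ x) (J : ℕ) :
    ((⌊x * J⌋₊ : ℕ) : ℝ) ≤ x * J ∧ x * J < ((⌊x * J⌋₊ : ℕ) : ℝ) + 1 :=
  ⟨Nat.floor_le (by positivity), Nat.lt_floor_add_one _⟩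

/-- **The numbers** for the local theorem. -/
theorem num_in {J c₀ r k K Sf Pp Xn en Gn Pnn P0n hn : ℕ} {sg X e G P1 P0 hm : ℝ}
    (hX : 0 < X) (hX1 : X ≤ 1) (hhm : 0 < hm) (hhm1 : hm ≤ 1)
    (hJ : (1 : ℝ) ≤ J)
    (x1 : (Xn : ℝ) ≤ X * J) (x2 : X * J < Xn + 1) (e1 : (en : ℝ) ≤ e * J)
    (g1 : (Gn : ℝ) ≤ G * J) (p1 : (Pnn : ℝ) ≤ (P1 + sg - G) * J)
    (p2 : (P1 + sg - G) * J < Pnn + 1 + (r * Xn + en))
    (q2 : (P0n : ℝ) < (P0 + sg + G) * J + 1) (h1 : (hn : ℝ) ≤ hm * J) (h2 : hm * J < hn + 1)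
    (b1 : (2 : ℝ) * (c₀ + 3) ≤ hm * J) (_b2 : (2 : ℝ) * (c₀ + 3) ≤ X * J) (_b3 : 2 ≤ X * (X * J))
    (hSf1 : 2 / X ≤ Sf) (hSf2 : (Sf : ℝ) ≤ 2 / X + 1)
    (hPp : 2 * (3 * (k * K) + 5) / hm < Pp) (hG : G ≤ 1) (hP0 : P0 + sg + G ≤ 1)
    (t1 : e + 3 * hm ≤ X / 2) (t2 : P1 + sg + X ≤ 1)
    (t3 : 2 * G + 2 * (r * X) + e + X ≤ P1 - P0) :
    c₀ ≤ hn ∧ 1 ≤ Xn ∧ 1 ≤ Sf ∧ J ≤ Sf * Xn ∧
      k * K * (Sf * Xn) + P0n + Gn + hn + c₀ < hn * Pp ∧
      (r * Xn + en) + 2 * hn + c₀ < (r + 1) * Xn ∧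
      P0n + Gn + (r * Xn + hn + c₀) ≤ Pnn + Gn ∧ Pnn + Gn + Xn ≤ J ∧
      P0n + Gn + (r * Xn + en) + hn + c₀ + (hn + c₀) ≤ Pnn + Gn := by
  have hr0 : (0 : ℝ) ≤ r := Nat.cast_nonneg r
  have hc0 : (0 : ℝ) ≤ c₀ := Nat.cast_nonneg c₀
  have hJ0 : (0 : ℝ) < J := lt_of_lt_of_le one_pos hJ
  have hrX : (r : ℝ) * Xn ≤ r * (X * J) := mul_le_mul_of_nonneg_left x1 hr0
  have t1' := mul_le_mul_of_nonneg_right t1 hJ0.le
  have t2' := mul_le_mul_of_nonneg_right t2 hJ0.le
  have t3' := mul_le_mul_of_nonneg_right t3 hJ0.le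
  have hmJ : 0 < hm * J := by positivity
  have hSf0 : (0 : ℝ) < Sf := lt_of_lt_of_le (by positivity) hSf1
  refine ⟨?_, ?_, ?_, ?_, ?_, ?_, ?_, ?_, ?_⟩
  · have : (c₀ : ℝ) ≤ hn := by linarith only [h2, b1]
    exact_mod_cast this
  · have : (1 : ℝ) ≤ Xn := by linarith only [x2, e1, b1, t1']
    exact_mod_cast this
  · exact_mod_cast hSf0
  · have h3 : (J : ℝ) ≤ Sf * Xn := by
      calc (J : ℝ) ≤ 2 / X * (X * J - 1) := by
            rw [div_mul_eq_mul_div, le_div_iff₀ hX]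
            have : 2 ≤ X * J := by
              have h4 : X * (X * J) ≤ 1 * (X * J) :=
                mul_le_mul_of_nonneg_right hX1 (by positivity)
              linarith only [e1, b1, t1']
            nlinarith only [e1, b1, t1']
        _ ≤ 2 / X * Xn := mul_le_mul_of_nonneg_left (by linarith only [x2]) (by positivity)
        _ ≤ Sf * Xn := mul_le_mul_of_nonneg_right hSf1 (Nat.cast_nonneg _)
    exact_mod_cast h3
  · have hSX : (Sf : ℝ) * Xn ≤ 3 * J := by
      calc (Sf : ℝ) * Xn ≤ (2 / X + 1) * (X * J) :=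
            mul_le_mul hSf2 x1 (Nat.cast_nonneg _) (by positivity)
        _ = (2 + X) * J := by field_simp
        _ ≤ 3 * J := mul_le_mul_of_nonneg_right (by linarith only [hX1]) hJ0.le
    have hkK : (0 : ℝ) ≤ (k : ℝ) * K := by positivity
    have h3 : (k : ℝ) * K * (Sf * Xn) + P0n + Gn + hn + c₀ ≤ (3 * (k * K) + 5) * J := by
      have h4 := mul_le_mul_of_nonneg_left hSX hkK
      have h5 : (P0n : ℝ) ≤ 2 * J := by
        have := mul_le_mul_of_nonneg_right hP0 hJ0.le
        linarith only [e1, g1, p1, q2, b1, t1', t2', this]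
      have h6 : (Gn : ℝ) ≤ J := by
        have := mul_le_mul_of_nonneg_right hG hJ0.le
        linarith only [e1, g1, p1, b1, t1', t2']
      have h7 : (hn : ℝ) ≤ J := by
        have := mul_le_mul_of_nonneg_right hhm1 hJ0.le
        linarith only [e1, g1, p1, h1, b1, t1', t2']
      have h8 : (c₀ : ℝ) ≤ J := by
        have := mul_le_mul_of_nonneg_right hhm1 hJ0.le
        linarith only [e1, g1, p1, b1, t1', t2']
      linarith only [e1, g1, p1, h1, b1, t1', t2', h4, h5]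
    have h9 : (3 * (k * K) + 5 : ℝ) * J < hn * Pp := by
      rw [div_lt_iff₀ hhm] at hPp
      have h10 : hm * J / 2 ≤ hn := by linarith only [h2, b1]
      have hPp0 : (0 : ℝ) ≤ Pp := Nat.cast_nonneg _
      have h11 : hm * J / 2 * Pp ≤ hn * Pp := mul_le_mul_of_nonneg_right h10 hPp0
      nlinarith only [e1, g1, q2, b1, hrX, t1', t2', t3', hPp, hkK, h2]
    have h12 : (k : ℝ) * K * (Sf * Xn) + P0n + Gn + hn + c₀ < hn * Pp := lt_of_le_of_lt h3 h9
    exact_mod_cast h12
  · have h3 : (en : ℝ) + 2 * hn + c₀ < Xn := by linarith only [x2, e1, h1, b1, t1']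
    have h4 : en + 2 * hn + c₀ < Xn := by exact_mod_cast h3
    rw [Nat.add_mul, Nat.one_mul]
    omega
  · have h3 : (P0n : ℝ) + (r * Xn + hn + c₀) ≤ Pnn := by linarith only [e1, p2, q2, h1, b1, hrX, t1', t3']
    have h4 : P0n + (r * Xn + hn + c₀) ≤ Pnn := by exact_mod_cast h3
    omega
  · have h3 : (Pnn : ℝ) + Gn + Xn ≤ J := by linarith only [x1, g1, p1, t2']
    exact_mod_cast h3
  · have h3 : (P0n : ℝ) + (r * Xn + en) + hn + c₀ + (hn + c₀) ≤ Pnn := by linarith only [e1, p2, q2, h1, b1, hrX, t1', t3']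
    have h4 : P0n + (r * Xn + en) + hn + c₀ + (hn + c₀) ≤ Pnn := by exact_mod_cast h3
    omega

/-- **The conclusion** of the local theorem, in terms of the measure of the nonfull rows. -/
theorem num_out {ρ : ℝ → ℝ} (hl : LipschitzWith 1 ρ) (hm : Monotone ρ)
    {J c₀ r sgn Xn en Gn Pnn P0n hn n₁ n₂ : ℕ} {sg X e G P1 P0 hm' R : ℝ}
    (hJ : (1 : ℝ) ≤ J) (hG : 1 ≤ G * J)
    (s1 : (sgn : ℝ) ≤ sg * J) (s2 : sg * J < sgn + 1)
    (x1 : (Xn : ℝ) ≤ X * J) (e1 : (en : ℝ) ≤ e * J) (p1 : (Pnn : ℝ) ≤ (P1 + sg - G) * J)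
    (p2 : (P1 + sg - G) * J < Pnn + 1 + (r * Xn + en)) (q1 : (P0 + sg + G) * J ≤ P0n)
    (q2 : (P0n : ℝ) < (P0 + sg + G) * J + 1) (h1 : (hn : ℝ) ≤ hm' * J)
    (a1 : P0n + Gn ≤ n₁) (a2 : n₁ ≤ P0n + Gn + (r * Xn + en) + hn + c₀) (a3 : n₁ ≤ n₂)
    (a4 : Pnn + Gn ≤ n₂ + (r * Xn + hn + c₀)) (a5 : n₂ ≤ Pnn + Gn)
    (hs : sgn ≤ P0n)
    (hR : ((n₂ : ℝ) - n₁) * Real.log 2 ≤
      (ρ (((n₂ - (sgn + Gn) : ℕ) : ℝ) / J) - ρ (((n₁ - (sgn + Gn) : ℕ) : ℝ) / J)) *
        Real.log 2 * J + R) :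
    nfl ρ P0 P1 * J ≤ (2 * G + 3 * (r * X) + 2 * e + 2 * hm') * J + (2 * c₀ + 4) + 2 * R := by
  have hJ0 : (0 : ℝ) < J := lt_of_lt_of_le one_pos hJ
  have hl2 : 1 / 2 < Real.log 2 := by
    have := Real.log_two_gt_d9
    linarith only [this]
  have hr0 : (0 : ℝ) ≤ r := Nat.cast_nonneg r
  have hrX : (r : ℝ) * Xn ≤ r * (X * J) := mul_le_mul_of_nonneg_left x1 hr0
  obtain ⟨a, ha⟩ : ∃ a : ℝ, a = ((n₁ - (sgn + Gn) : ℕ) : ℝ) / J := ⟨_, rfl⟩
  obtain ⟨b, hb⟩ : ∃ b : ℝ, b = ((n₂ - (sgn + Gn) : ℕ) : ℝ) / J := ⟨_, rfl⟩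
  rw [← ha, ← hb] at hR
  have ha' : a * J = n₁ - (sgn + Gn) := by
    rw [ha, div_mul_cancel₀ _ hJ0.ne', Nat.cast_sub (by omega)]
    push_cast
    ring
  have hb' : b * J = n₂ - (sgn + Gn) := by
    rw [hb, div_mul_cancel₀ _ hJ0.ne', Nat.cast_sub (by omega)]
    push_cast
    ring
  have a1' : (P0n : ℝ) + Gn ≤ n₁ := by exact_mod_cast a1
  have a2' : (n₁ : ℝ) ≤ P0n + Gn + (r * Xn + en) + hn + c₀ := by exact_mod_cast a2
  have a3' : (n₁ : ℝ) ≤ n₂ := by exact_mod_cast a3
  have a4' : (Pnn : ℝ) + Gn ≤ n₂ + (r * Xn + hn + c₀) := by exact_mod_cast a4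
  have a5' : (n₂ : ℝ) ≤ Pnn + Gn := by exact_mod_cast a5
  have i1 : P0 * J ≤ a * J := by
    rw [ha']
    linarith only [hG, s1, q1, a1']
  have i2 : b * J ≤ P1 * J := by
    rw [hb']
    linarith only [hG, s2, p1, a5']
  have i3 : a * J ≤ b * J := by
    rw [ha', hb']
    linarith only [a3']
  exact by
   have j1 := le_of_mul_le_mul_right i1 hJ0
   have j2 := le_of_mul_le_mul_right i2 hJ0
   have j3 := le_of_mul_le_mul_right i3 hJ0
   have k1 := mul_le_mul_of_nonneg_right (nfl_le hm j1) hJ0.le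
   have k2 := mul_le_mul_of_nonneg_right (nfl_le hm j2) hJ0.le
   have k3 := nfl_nonneg hl j3
   have k4 : nfl ρ P0 P1 = nfl ρ P0 a + nfl ρ a b + nfl ρ b P1 := by
     rw [nfl_add, nfl_add]
   have k5 : nfl ρ a b * J ≤ 2 * R := by
     have l1 : nfl ρ a b * J * Real.log 2 ≤ R := by
       have l2 : (b - a) * J = (n₂ : ℝ) - n₁ := by
         rw [sub_mul, ha', hb']
         ring
       unfold nfl
       have l3 : (b - a - (ρ b - ρ a)) * J * Real.log 2 =
           (b - a) * J * Real.log 2 - (ρ b - ρ a) * Real.log 2 * J := by ring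
       rw [l3, l2]
       linarith only [hR]
     have l4 : 0 ≤ nfl ρ a b * J := mul_nonneg k3 hJ0.le
     nlinarith only [l1, hl2, l4]
   rw [k4, add_mul, add_mul]
   have m1 : nfl ρ P0 a * J ≤ (G + r * X + e + hm') * J + (c₀ + 2) := by
     refine k1.trans ?_
     rw [sub_mul, ha']
     linarith only [s2, e1, q2, h1, hrX, a2']
   have m2 : nfl ρ b P1 * J ≤ (G + 2 * (r * X) + e + hm') * J + (c₀ + 2) := by
     refine k2.trans ?_
     rw [sub_mul, hb']
     linarith only [s1, p2, h1, hrX, a4', e1]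
   linarith only [e1, p2, q2, h1, hrX, ha', hb', a2', a4', k1, k2, k5]

/-- **The rows of one falling level**, two windows of a class. -/
theorem row_one (k r C : ℕ) (hC : 1 ≤ C) {ε : ℝ} (hε : 0 < ε) (hε1 : ε ≤ 1) : ∃ δ : ℝ, 0 < δ ∧
    ∀ {n : ℕ} {s : Fin n → ℝ} {d : ℕ → ℝ} {al : ℝ} {g₀ : ℝ → ℝ} {e : ℝ} {K₀ : ℕ} {N : ℚ → ℚ → ℝ}
      {S : PCl n}, FZX k → ClX s d al g₀ e K₀ N S → ∀ {w₀ w₁ : ℝ}, 0 ≤ w₀ → w₀ ≤ w₁ → w₁ ≤ 1 →
      ∀ {c : ℕ → Fin n}, (∀ j, j ≠ c k → ∃ i : Fin k, c i = j) → ∀ {β : ℕ → ℝ} {b : ℝ},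
      (∀ h : ℝ, 0 < h → ExvY S w₁ (fun J F ω (i : Fin k) => F.X J ω (c i)) (b - h)) →
      b ≤ ∑ i ∈ range k, (1 - β i) → ∀ {ρ : ℝ → ℝ}, RateOf S (c k) ρ → ∀ {P0 P11 : ℝ}, 0 ≤ P0 →
      P0 ≤ P11 → P11 ≤ 1 →
      (w₁ - w₀) + ((∑ i ∈ range k, (1 - β i)) - b) ≤ δ * (P11 - P0) →
      (∀ P1 cD : ℝ, P0 < P1 → P1 < P11 → 3 / 4 * (ε * (P11 - P0)) < P1 - P0 →
        cD = ε / 4 * (P11 - P0) → 0 < cD →
        cD ≤ 1 - P1 - (ρ 1 - ρ P1) →
        GeoS S k r C c β w₀ w₁ ((w₁ - w₀) + ((∑ i ∈ range k, (1 - β i)) - b)) P0 P1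
          (1 - cD / 2 - P1) (cD / 8)) →
      (1 - ε) * (P11 - P0) ≤ ρ P11 - ρ P0 := by
  classical
  obtain ⟨C1, hC1, hfam⟩ := fam k r
  have hC' : (1 : ℝ) ≤ C := by exact_mod_cast hC
  have hr0 : (0 : ℝ) ≤ r := Nat.cast_nonneg r
  have hk0 : (0 : ℝ) ≤ k := Nat.cast_nonneg k
  -- the mesh
  have hCC : 0 < C1 + r + (C : ℝ) := by linarith only [hC1, hr0, hC']
  obtain ⟨x, hx⟩ : ∃ x : ℝ, x = ε / (64 * (C1 + r + C)) := ⟨_, rfl⟩
  have hx0 : 0 < x := by
    rw [hx]
    exact div_pos hε (mul_pos (by norm_num) hCC)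
  have hx1 : 64 * (C1 + r + C) * x = ε := by
    rw [hx]
    have := hCC.ne'
    field_simp
  have hCx : C * x ≤ ε / 64 := by
    nlinarith only [hx1, mul_nonneg hr0 hx0.le, mul_nonneg hC1 hx0.le]
  have hxC : C1 * x ≤ ε / 64 := by
    nlinarith only [hx1, mul_nonneg hr0 hx0.le, mul_nonneg (zero_le_one.trans hC') hx0.le]
  have hxr : r * x ≤ ε / 64 := by
    nlinarith only [hx1, mul_nonneg hC1 hx0.le, mul_nonneg (zero_le_one.trans hC') hx0.le]
  have hxx : x ≤ ε / 64 := (le_mul_of_one_le_left hx0.le hC').trans hCx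
  obtain ⟨Mx, hMx⟩ : ∃ Mx : ℝ, Mx = 2 / x + 2 := ⟨_, rfl⟩
  have hMx0 : 0 < Mx := by rw [hMx]; positivity
  -- the smallness
  obtain ⟨δ, hδ⟩ : ∃ δ : ℝ, δ = min (x / (8 * C)) (min (ε / (256 * (C : ℝ) ^ 2))
    (ε / (128 * ((C1 + 1) * (Mx * (2 * k + 1)))))) := ⟨_, rfl⟩
  have hδ0 : 0 < δ := by rw [hδ]; positivity
  have hδ4 : C * δ ≤ x / 8 := by
    have h1 : δ ≤ x / (8 * C) := by rw [hδ]; exact min_le_left _ _
    rw [le_div_iff₀ (by positivity)] at h1
    linarith only [h1]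
  have hδ1 : δ ≤ x / 8 := (le_mul_of_one_le_left hδ0.le hC').trans hδ4
  have hδ2 : (C : ℝ) ^ 2 * δ ≤ ε / 256 := by
    have h1 : δ ≤ ε / (256 * (C : ℝ) ^ 2) := by
      rw [hδ]
      exact (min_le_right _ _).trans (min_le_left _ _)
    rw [le_div_iff₀ (by positivity)] at h1
    linarith only [h1]
  have hδ3 : C1 * (Mx * ((2 * k + 1) * δ)) ≤ ε / 128 := by
    have h1 : δ ≤ ε / (128 * ((C1 + 1) * (Mx * (2 * k + 1)))) := by
      rw [hδ]
      exact (min_le_right _ _).trans (min_le_right _ _)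
    rw [le_div_iff₀ (by positivity)] at h1
    have h2 : 0 ≤ Mx * ((2 * k + 1) * δ) := by positivity
    nlinarith only [h1, h2]
  exact by
   refine ⟨δ, hδ0, ?_⟩
   intro n s d al g₀ e K₀ N S hF hCl w₀ w₁ hw0 hw01 hw1 c hc β b hex hbβ ρ hρ P0 P11 hP0 hP01 hP11
     hy hgeo
   by_contra hcon
   push Not at hcon
   have hl := hρ.lip
   have hmo := hρ.mono
   obtain ⟨mm, hmm⟩ : ∃ mm : ℝ, mm = P11 - P0 := ⟨_, rfl⟩
   rw [← hmm] at hcon hy hgeo
   have hnf : ε * mm < nfl ρ P0 P11 := by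
     unfold nfl
     rw [hmm] at hcon ⊢
     linarith only [hcon]
   have hmm0 : 0 ≤ mm := by rw [hmm]; linarith only [hP01]
   have hmm1 : 0 < mm := by
     rcases hmm0.eq_or_lt with h | h
     · exfalso
       have h1 := nfl_le hmo hP01
       rw [← hmm, ← h] at h1
       rw [← h] at hnf
       linarith only [hnf, h1]
     · exact h
   have hmmle : mm ≤ 1 := by rw [hmm]; linarith only [hP0, hP11]
   obtain ⟨cD, hcD⟩ : ∃ cD : ℝ, cD = ε / 4 * mm := ⟨_, rfl⟩
   have hcD0 : 0 < cD := by rw [hcD]; positivity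
   have hεm : 0 < ε * mm := by positivity
   obtain ⟨P1, hP1, hP1', hnf1⟩ := nfl_row hl hP01 hcD0.le (t := cD) (by
     rw [hcD]
     linarith only [hnf, hcD, hcD0])
   have hnf0 : 3 / 4 * (ε * mm) < nfl ρ P0 P1 := by
     have h1 := nfl_add (ρ := ρ) P0 P1 P11
     rw [hnf1, hcD] at h1
     linarith only [hnf, h1]
   exact by
    have hP1lt : P0 < P1 := by
      rcases hP1.eq_or_lt with h | h
      · exfalso
        rw [← h] at hnf0
        unfold nfl at hnf0
        linarith only [hcD, hcD0, hnf0]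
      · exact h
    have hP1lt' : P1 < P11 := by
      rcases hP1'.eq_or_lt with h | h
      · exfalso
        rw [h] at hnf1
        unfold nfl at hnf1
        linarith only [hcD0, hnf1]
      · exact h
    have hcD1 : cD ≤ 1 - P1 - (ρ 1 - ρ P1) := by
      have h1 := nfl_nonneg hl hP11
      have h2 := nfl_add (ρ := ρ) P1 P11 1
      rw [hnf1] at h2
      unfold nfl at h1 h2
      linarith only [h1, h2]
    have hlen : 3 / 4 * (ε * mm) < P1 - P0 := hnf0.trans_le (nfl_le hmo hP1)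
    obtain ⟨y, hyy⟩ : ∃ y : ℝ, y = (w₁ - w₀) + ((∑ i ∈ range k, (1 - β i)) - b) := ⟨_, rfl⟩
    have hgeo' := hgeo P1 cD hP1lt hP1lt' hlen hcD hcD0 hcD1
    rw [← hyy] at hgeo' hy
    have hy0 : 0 ≤ y := by rw [hyy]; linarith only [hw01, hbβ]
    have hsb : (∑ i ∈ range k, (1 - β i)) - b ≤ y := by rw [hyy]; linarith only [hw01]
    -- the parameters
    obtain ⟨η, hη⟩ : ∃ η : ℝ, η = δ * mm := ⟨_, rfl⟩
    have hη0 : 0 < η := by rw [hη]; positivity
    have hyη : y + η ≤ 2 * η := by rw [hη]; linarith only [hy]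
    exact by
     obtain ⟨q, hq⟩ : ∃ q : ℝ, q = C * (y + η) := ⟨_, rfl⟩
     have hq0 : 0 < q := by rw [hq]; positivity
     have hCq : C * q ≤ ε * mm / 128 := by
       rw [hq]
       have h1 : (C : ℝ) * (C * (y + η)) ≤ C * (C * (2 * η)) :=
         mul_le_mul_of_nonneg_left (mul_le_mul_of_nonneg_left hyη (by positivity)) (by positivity)
       have h2 : (C : ℝ) * (C * (2 * η)) = 2 * ((C : ℝ) ^ 2 * δ) * mm := by rw [hη]; ring
       rw [h2] at h1
       have h3 := mul_le_mul_of_nonneg_right hδ2 hmm0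
       linarith only [h1, h3]
     have hCq0 : 0 < C * q := by positivity
     obtain ⟨X, hX⟩ : ∃ X : ℝ, X = x * mm := ⟨_, rfl⟩
     have hX0 : 0 < X := by rw [hX]; positivity
     have hXm : X ≤ ε * mm / 64 := by
       rw [hX]
       have := mul_le_mul_of_nonneg_right hxx hmm0
       linarith only [this]
     have hεmle : ε * mm ≤ 1 := by
       calc ε * mm ≤ 1 * 1 := mul_le_mul hε1 hmmle hmm0 zero_le_one
         _ = 1 := one_mul _
     have hX1 : X ≤ 1 := by linarith only [hε1, hxx, hδ0, hδ1, hP0, hP11, hP1lt', hlen, hXm]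
     have hqX : q ≤ X := by
       have h1 : (C : ℝ) * (y + η) ≤ C * (2 * η) := mul_le_mul_of_nonneg_left hyη (by positivity)
       have h2 : (C : ℝ) * (2 * η) = 2 * (C * δ) * mm := by rw [hη]; ring
       have h3 := mul_le_mul_of_nonneg_right hδ4 hmm0
       rw [hq, hX]
       linarith only [h1, h2, h3, mul_nonneg hx0.le hmm0]
     obtain ⟨K, n₀, κ, hκ, hG⟩ := hgeo' q X η hη0 hq.ge hqX (by
       have h1 := mul_le_mul_of_nonneg_right hCx hmm0
       rw [hcD, hX]
       linarith only [h1, hεm]) hX1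
     obtain ⟨c₀, C2, hC2, hfam⟩ := hfam K
     -- the mesh of the profile
     obtain ⟨hm, hhm⟩ : ∃ hm : ℝ, hm = min (X / 16) (ε * mm / (256 * ((C2 + 1) * Mx))) := ⟨_, rfl⟩
     have hhm0 : 0 < hm := by rw [hhm]; positivity
     have hhm1 : hm ≤ X / 16 := by rw [hhm]; exact min_le_left _ _
     have hhm2 : C2 * (Mx * hm) ≤ ε * mm / 256 := by
       have h1 : hm ≤ ε * mm / (256 * ((C2 + 1) * Mx)) := by rw [hhm]; exact min_le_right _ _
       rw [le_div_iff₀ (by positivity)] at h1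
       have h2 : 0 ≤ Mx * hm := by positivity
       nlinarith only [h1, h2]
     exact by
      obtain ⟨Sf, hSf⟩ : ∃ Sf : ℕ, Sf = ⌈2 / X⌉₊ := ⟨_, rfl⟩
      have hSf1 : 2 / X ≤ Sf := by rw [hSf]; exact Nat.le_ceil _
      have hSf2 : (Sf : ℝ) ≤ 2 / X + 1 := by
        rw [hSf]
        exact (Nat.ceil_lt_add_one (by positivity)).le
      obtain ⟨Pp, hPp⟩ := exists_nat_gt (2 * (3 * ((k : ℝ) * K) + 5) / hm)
      -- the slack of the entropies
      obtain ⟨ρ', hρ'⟩ : ∃ ρ' : ℝ, ρ' = ε * mm / (256 * ((C1 + 1) * (Mx + 1))) := ⟨_, rfl⟩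
      have hρ'0 : 0 < ρ' := by rw [hρ']; positivity
      have hρ'1 : ρ' + C1 * (Mx * (2 * ρ')) ≤ ε * mm / 128 := by
        have h1 : ρ' * (256 * ((C1 + 1) * (Mx + 1))) = ε * mm := by
          rw [hρ']
          field_simp
        have h2 : 0 ≤ C1 * ρ' := by positivity
        have h3 : 0 ≤ C1 * (Mx * ρ') := by positivity
        have h4 : 0 ≤ Mx * ρ' := by positivity
        nlinarith only [hρ'0, h1, h2, h4]
      obtain ⟨κ', hκ'⟩ : ∃ κ' : ℝ, κ' = 1 / 2 / ((Pp : ℝ) + 1) ^ (k * K + 1) := ⟨_, rfl⟩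
      have hκ'0 : 0 < κ' := by rw [hκ']; positivity
      have hPp1 : (1 : ℝ) ≤ ((Pp : ℝ) + 1) ^ (k * K + 1) := by
        refine one_le_pow₀ ?_
        have : (0 : ℝ) ≤ Pp := Nat.cast_nonneg _
        linarith only
      have hκ'1 : κ' ≤ 1 := by
        rw [hκ', div_le_one (by positivity)]
        linarith only [hXm, hεmle, hhm0, hhm1, hPp1]
      have hfull := full_clx hF hCl (w₀ := w₀) (w₁ := w₁) (hw01.trans hw1) (c := fun i : Fin k => c i)
        (b := b - ρ') (hex ρ' hρ'0) hρ hc (Φ := fun _ _ _ => True)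
        ⟨1, one_pos, 0, fun _ _ _ _ _ => trivial⟩ (δ := κ') hκ'0 hκ'1 hρ'0
      have hbig := bas_big hfull hκ
      -- large J
      exact by
       obtain ⟨Cc, hCc⟩ : ∃ Cc : ℝ, Cc = k * Real.log 5 + Real.log n₀ := ⟨_, rfl⟩
       have hCc0 : 0 ≤ Cc := by
         rw [hCc]
         have h1 : 0 ≤ Real.log 5 := Real.log_nonneg (by norm_num)
         have h2 : 0 ≤ Real.log (n₀ : ℝ) := Real.log_natCast_nonneg n₀
         positivity
       obtain ⟨J₁, hJ₁⟩ := exists_nat_ge ((2 * (c₀ + 3)) / hm + 2 / (X * X) + 1 / (C * q) + 1 +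
         (2 * c₀ + 4 + 2 * (C1 * (Mx * Cc)) + 2 * (C2 * Mx)) / (ε * mm / 128))
       refine Pool.TOP.bas_no hCl.ne ((hG.and (hbig.and (clx_pos hCl))).mono J₁ ?_)
       rintro J hJ F A ⟨⟨A', g, V₀, V₁, Pc, z₀, z₀', z₁, z₁', br, a, bb, E, g1, g2, g3, g4, H⟩, h5, hA⟩
       have hJ' : (J₁ : ℝ) ≤ J := by exact_mod_cast hJ
       have hJb := hJ₁.trans hJ'
       have t1 : 0 ≤ (2 * ((c₀ : ℝ) + 3)) / hm := by positivity
       have t2 : 0 ≤ 2 / (X * X) := by positivity
       have t3 : 0 ≤ 1 / (C * q) := by positivity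
       have t4 : 0 ≤ (2 * c₀ + 4 + 2 * (C1 * (Mx * Cc)) + 2 * (C2 * Mx)) / (ε * mm / 128) := by
         positivity
       have hJ1 : (1 : ℝ) ≤ J := by linarith only [hJ₁, hJ', t1, t2, t3, t4]
       have hJ0 : (0 : ℝ) < J := by linarith only [hXm, hεmle, hhm0, hhm1, hJ₁, hJ', t1, t2, t3, t4]
       have j1 : 2 * ((c₀ : ℝ) + 3) ≤ hm * J := by
         have h1 : (2 * ((c₀ : ℝ) + 3)) / hm ≤ J := by linarith only [hXm, hεmle, hhm0, hhm1, hJ₁, hJ', t2, t3, t4]
         rw [div_le_iff₀ hhm0] at h1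
         linarith only [h1]
       have j2 : 2 ≤ X * (X * J) := by
         have h1 : 2 / (X * X) ≤ J := by linarith only [hXm, hεmle, hhm0, hhm1, hJ₁, hJ', t1, t3, t4]
         rw [div_le_iff₀ (by positivity)] at h1
         linarith only [h1]
       have j3 : 1 ≤ C * q * J := by
         have h1 : 1 / (C * q) ≤ J := by linarith only [hXm, hεmle, hhm0, hhm1, hJ₁, hJ', t1, t2, t4]
         rwa [div_le_iff₀ hCq0, mul_comm] at h1
       exact by
        have j4 : 2 * c₀ + 4 + 2 * (C1 * (Mx * Cc)) + 2 * (C2 * Mx) ≤ ε * mm / 128 * J := by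
          have h1 : (2 * c₀ + 4 + 2 * (C1 * (Mx * Cc)) + 2 * (C2 * Mx)) / (ε * mm / 128) ≤ J := by
            linarith only [hXm, hεmle, hhm0, hhm1, hJ₁, hJ', t1, t2, t3]
          rw [div_le_iff₀ (by positivity)] at h1
          linarith only [h1]
        obtain ⟨sg, hsg⟩ : ∃ sg : ℝ, sg = 1 - cD / 2 - P1 := ⟨_, rfl⟩
        rw [← hsg] at H
        have hsg0 : 0 ≤ sg := by
          have h1 := hmo (show P1 ≤ 1 by linarith only [hP11, hP1lt'])
          rw [hsg]
          linarith only [hcD, hcD1, hXm, hhm0, hhm1, h1]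
        have hcq1 : P1 + sg = 1 - cD / 2 := by rw [hsg]; ring
        have hP1q : 0 ≤ P1 + sg - C * q := by
          rw [hcq1, hcD]
          nlinarith only [hCq, hXm, hεmle, hhm0, hhm1]
        have hP0q : 0 ≤ P0 + sg + C * q := by linarith only [hP0, hCq0, hsg0]
        obtain ⟨s1, s2⟩ := nat_fl hsg0 J
        obtain ⟨x1, x2⟩ := nat_fl hX0.le J
        obtain ⟨e1, e2⟩ := nat_fl hη0.le J
        obtain ⟨G1, G2⟩ := nat_fl hCq0.le J
        obtain ⟨p1, p2⟩ := nat_fl hP1q J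
        obtain ⟨m1, m2⟩ := nat_fl hhm0.le J
        have q1 := Nat.le_ceil ((P0 + sg + C * q) * (J : ℝ))
        have q2 := Nat.ceil_lt_add_one (show 0 ≤ (P0 + sg + C * q) * (J : ℝ) by positivity)
        obtain ⟨sgn, esgn⟩ : ∃ n, n = ⌊sg * (J : ℝ)⌋₊ := ⟨_, rfl⟩
        obtain ⟨Xn, eXn⟩ : ∃ n, n = ⌊X * (J : ℝ)⌋₊ := ⟨_, rfl⟩
        obtain ⟨en, een⟩ : ∃ n, n = ⌊η * (J : ℝ)⌋₊ := ⟨_, rfl⟩
        obtain ⟨Gn, eGn⟩ : ∃ n, n = ⌊C * q * (J : ℝ)⌋₊ := ⟨_, rfl⟩
        obtain ⟨Pnn, ePnn⟩ : ∃ n, n = ⌊(P1 + sg - C * q) * (J : ℝ)⌋₊ := ⟨_, rfl⟩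
        obtain ⟨P0n, eP0n⟩ : ∃ n, n = ⌈(P0 + sg + C * q) * (J : ℝ)⌉₊ := ⟨_, rfl⟩
        exact by
         obtain ⟨hn, ehn⟩ : ∃ n, n = ⌊hm * (J : ℝ)⌋₊ := ⟨_, rfl⟩
         rw [← esgn] at s1 s2 H
         rw [← eXn] at x1 x2 H
         rw [← een] at e1 e2 H
         rw [← eGn] at G1 G2 H
         rw [← ePnn] at p1 p2 H
         rw [← eP0n] at q1 q2 H
         rw [← ehn] at m1 m2
         have hrX : r * X ≤ ε * mm / 64 := by
           rw [hX, ← mul_assoc]
           have := mul_le_mul_of_nonneg_right hxr hmm0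
           linarith only [this]
         have hηX : η ≤ X / 8 := by
           rw [hη, hX]
           have := mul_le_mul_of_nonneg_right hδ1 hmm0
           linarith only [this]
         obtain ⟨Pm, ePm⟩ : ∃ n, n = Pnn - (r * Xn + en) := ⟨_, rfl⟩
         have p1' : (Pm : ℝ) ≤ (P1 + sg - C * q) * J := by
           refine le_trans ?_ p1
           exact_mod_cast (by omega : Pm ≤ Pnn)
         have p2' : (P1 + sg - C * q) * J < Pm + 1 + (r * Xn + en) := by
           refine p2.trans_le ?_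
           exact_mod_cast (by omega : Pnn + 1 ≤ Pm + 1 + (r * Xn + en))
         have hP0n : 0 < P0n := by
           have h1 : (0 : ℝ) < P0n := by
             refine lt_of_lt_of_le ?_ q1
             have h2 : 0 ≤ (P0 + sg) * (J : ℝ) := by positivity
             linarith only [h2, j3]
           exact_mod_cast h1
         obtain ⟨n1, n2, n3, n4, n5, n6, n7, n8, n9⟩ := num_in (J := J) (c₀ := c₀) (r := r) (k := k)
           (K := K) (Sf := Sf) (Pp := Pp) (Xn := Xn) (en := en) (Gn := Gn) (Pnn := Pm) (P0n := P0n)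
           (hn := hn) (sg := sg) (X := X) (e := η) (G := C * q) (P1 := P1) (P0 := P0) (hm := hm)
           hX0 hX1 hhm0 (by linarith only [hXm, hεmle, hhm0, hhm1]) hJ1 x1 x2 e1 G1 p1' p2' q2 m1 m2 j1
           (j1.trans (mul_le_mul_of_nonneg_right (by linarith only [hhm0, hhm1]) hJ0.le)) j2 hSf1 hSf2 hPp (by linarith only [hCq, hXm, hεmle, hhm0, hhm1])
           (by linarith only [hcD, hlen, hCq, hXm, hhm0, hhm1, hsg]) (by linarith only [hhm0, hhm1, hηX]) (by rw [hcq1, hcD]; linarith only [hXm, hhm0, hhm1]) (by linarith only [hlen, hCq, hXm, hhm0, hhm1, hrX, hηX])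
         have hA' : 0 < Pe F.p A' := lt_of_lt_of_le (by positivity) g2
         obtain ⟨hi, ehi⟩ : ∃ hi, hi = Pm + Gn - (r * Xn + hn + c₀) := ⟨_, rfl⟩
         have hwJ : ⌊w₁ * (J : ℝ)⌋₊ ≤ J := by
           refine Nat.floor_le_of_le ?_
           calc w₁ * (J : ℝ) ≤ 1 * J := mul_le_mul_of_nonneg_right hw1 hJ0.le
             _ = J := one_mul _
         obtain ⟨n₁, n₂, M, E', f1, f2, f3, f4, f5, f6, f7, f8, f9⟩ := hfam H hA'
           (Nat.floor_le_floor (mul_le_mul_of_nonneg_right hw01 hJ0.le)) hwJ g4 Sf hn Pp (P0n + Gn) hi n1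
           n2 n3 n4 n5 n6 (by omega) (by omega) (by omega) (by omega)
         exact by
          obtain ⟨-, hE⟩ := h5 A' g1 g2
          obtain ⟨B, Q, b1, b2, -, b4, b5, b6, b7, b8, b9⟩ := hE E' (by
            rw [hκ', div_le_iff₀ (by positivity), mul_comm]
            exact f2)
          -- the deficit
          obtain ⟨th, hth⟩ : ∃ th : ℝ, th = ((∑ i : Fin k, ((J : ℝ) - g i)) - (b - 2 * ρ') * J +
            k * (η * J)) * Real.log 2 + Cc := ⟨_, rfl⟩
          have hl2 : 0 < Real.log 2 := Real.log_pos one_lt_two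
          have hl21 : Real.log 2 ≤ 1 := by
            have := Real.log_le_sub_one_of_pos (show (0 : ℝ) < 2 by norm_num)
            linarith only [this]
          have hsumβ : ∑ i : Fin k, ((1 - β i) * (J : ℝ)) = (∑ i ∈ range k, (1 - β i)) * J := by
            rw [Finset.sum_mul, Finset.sum_range]
          have hS1 : (∑ i ∈ range k, (1 - β i)) * J ≤ (∑ i : Fin k, ((J : ℝ) - g i)) + k * (η * J) := by
            rw [← hsumβ]
            have h1 : ∑ i : Fin k, ((1 - β i) * (J : ℝ)) ≤ ∑ i : Fin k, (((J : ℝ) - g i) + η * J) := by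
              refine Finset.sum_le_sum fun i _ => ?_
              have := abs_le.1 (g3 i i.2)
              linarith only [this, this.1, this.2]
            rw [Finset.sum_add_distrib, Finset.sum_const, Finset.card_univ, Fintype.card_fin,
              nsmul_eq_mul] at h1
            exact h1
          have hS2 : (∑ i : Fin k, ((J : ℝ) - g i)) ≤ (∑ i ∈ range k, (1 - β i)) * J + k * (η * J) := by
            rw [← hsumβ]
            have h1 : ∑ i : Fin k, ((J : ℝ) - g i) ≤ ∑ i : Fin k, ((1 - β i) * (J : ℝ) + η * J) := by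
              refine Finset.sum_le_sum fun i _ => ?_
              have := abs_le.1 (g3 i i.2)
              linarith only [this, this.1, this.2]
            rw [Finset.sum_add_distrib, Finset.sum_const, Finset.card_univ, Fintype.card_fin,
              nsmul_eq_mul] at h1
            exact h1
          exact by
           have hth0 : 0 ≤ th := by
             have h1 : b * J ≤ (∑ i ∈ range k, (1 - β i)) * J := mul_le_mul_of_nonneg_right hbβ hJ0.le
             have h2 : 0 ≤ (∑ i : Fin k, ((J : ℝ) - g i)) - (b - 2 * ρ') * J + k * (η * J) := by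
               have h3 : 0 ≤ 2 * ρ' * (J : ℝ) := by positivity
               linarith only [hS1, h1, h3]
             rw [hth]
             have := mul_nonneg h2 hl2.le
             linarith only [hCc0, this]
           have hth1 : th ≤ (y + 2 * k * η + 2 * ρ') * J + Cc := by
             have h1 : (∑ i : Fin k, ((J : ℝ) - g i)) - (b - 2 * ρ') * J + k * (η * J) ≤
                 (y + 2 * k * η + 2 * ρ') * J := by
               have h2 := mul_le_mul_of_nonneg_right hsb hJ0.le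
               linarith only [hS2, h2]
             have h2 : 0 ≤ (y + 2 * k * η + 2 * ρ') * (J : ℝ) := by positivity
             rw [hth]
             have h3 : ((∑ i : Fin k, ((J : ℝ) - g i)) - (b - 2 * ρ') * J + k * (η * J)) * Real.log 2 ≤
                 (y + 2 * k * η + 2 * ρ') * J * Real.log 2 := mul_le_mul_of_nonneg_right h1 hl2.le
             have h4 : (y + 2 * k * η + 2 * ρ') * J * Real.log 2 ≤ (y + 2 * k * η + 2 * ρ') * J * 1 :=
               mul_le_mul_of_nonneg_left hl21 h2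
             linarith only [h3, h4]
           have hrow := f9 (Q := Q) (E₀ := (b - ρ' - ρ') * Real.log 2 * J) (th := th) b4
             (fun e he => ⟨(b6 e he).1, by
               by_contra hneg
               push Not at hneg
               have h1 := b7 e
               have h2 : 4 / κ' ^ 2 * P2 (Pool.Agent.H49.Ent.cond F.p A' True) (slam F ⌊w₀ * (J : ℝ)⌋₊) e
                   ≤ 0 := mul_nonpos_of_nonneg_of_nonpos (by positivity) hneg
               linarith only [he, h1, h2]⟩) hth0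
             (fun V z z' hz => b8 V z z' hz) (by
               rw [hth, hCc]
               have h1 : ∑ i : Fin k, ((J : ℝ) - g i - (⌊q * (J : ℝ)⌋₊ : ℕ)) =
                   (∑ i : Fin k, ((J : ℝ) - g i)) - k * (⌊q * (J : ℝ)⌋₊ : ℕ) := by
                 rw [Finset.sum_sub_distrib, Finset.sum_const, Finset.card_univ, Fintype.card_fin,
                   nsmul_eq_mul]
               rw [h1]
               have h2 : 0 ≤ k * (η * J) * Real.log 2 := by positivity
               linarith only [h2])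
           exact by
            have hM : ((M : ℝ) + 1) ≤ Mx := by
              have h1 : (M : ℝ) * Xn ≤ mm * J + Xn := by
                have h2 : M * Xn + P0n ≤ Pnn + Xn := by omega
                have h3 : (M : ℝ) * Xn + P0n ≤ Pnn + Xn := by exact_mod_cast h2
                have h4 : (P1 - P0) * (J : ℝ) ≤ mm * J := mul_le_mul_of_nonneg_right (by
                  rw [hmm]
                  linarith only [hP1lt']) hJ0.le
                have h5 : 0 ≤ C * q * (J : ℝ) := by positivity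
                linarith only [hXm, hεmle, hhm0, hhm1, j3, p1, q1, h3, h4]
              have hXJ : 2 ≤ X * J := by
                have h4 : X * (X * J) ≤ 1 * (X * J) := mul_le_mul_of_nonneg_right hX1 (by positivity)
                linarith only [j2, h4]
              have hXn : X * J / 2 ≤ Xn := by linarith only [x2, hXJ]
              have hXn0 : (0 : ℝ) < Xn := by linarith only [hXm, hεmle, hhm0, hhm1, x2, hXJ]
              have h6 : mm * J ≤ 2 / x * Xn := by
                calc mm * J = 2 / x * (X * J / 2) := by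
                      rw [hX]
                      field_simp
                  _ ≤ _ := mul_le_mul_of_nonneg_left hXn (by positivity)
              have h7 : (M : ℝ) * Xn ≤ (2 / x + 1) * Xn := by linarith only [h1, h6]
              have h8 := le_of_mul_le_mul_right h7 hXn0
              rw [hMx]
              linarith only [h8]
            have hM0 : (0 : ℝ) ≤ (M : ℝ) + 1 := by positivity
            have hnf2 := b9 _ (WW k F c Pc z₀ z₀' g ⌊q * (J : ℝ)⌋₊ ⌊w₀ * (J : ℝ)⌋₊ br)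
              (fun e e' _ _ h => (Prod.ext_iff.1 h).1) (sgn + Gn) n₁ n₂ (by
                have : sgn ≤ P0n := by
                  have h1 : (sgn : ℝ) ≤ P0n := by
                    have h2 : 0 ≤ (P0 + C * q) * (J : ℝ) := by positivity
                    linarith only [s1, q1, h2]
                  exact_mod_cast h1
                omega) f5 (by omega)
            exact by
             have hsP : sgn ≤ P0n := by
               have h1 : (sgn : ℝ) ≤ P0n := by
                 have h2 : 0 ≤ (P0 + C * q) * (J : ℝ) := by positivity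
                 linarith only [s1, q1, h2]
               exact_mod_cast h1
             have hout := num_out (ρ := ρ) hl hmo (J := J) (c₀ := c₀) (r := r) (sgn := sgn) (Xn := Xn)
               (en := en) (Gn := Gn) (Pnn := Pm) (P0n := P0n) (hn := hn) (n₁ := n₁) (n₂ := n₂) (sg := sg)
               (X := X) (e := η) (G := C * q) (P1 := P1) (P0 := P0) (hm' := hm)
               (R := ρ' * J + (C1 * (((M : ℝ) + 1) * th + Xn) + C2 * (((M : ℝ) + 1) * (1 + hn)))) hJ1 j3 s1 s2
               x1 e1 p1' p2' q1 q2 m1 f3 (f4.trans (max_le (by omega) (by omega))) f5 (by omega) (by omega)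
               hsP (by
                 have h1 := hrow
                 unfold Rows at h1
                 linarith only [hnf2, h1])
             -- the estimate
             have r1 : ((M : ℝ) + 1) * th ≤ Mx * ((y + 2 * k * η + 2 * ρ') * J + Cc) :=
               mul_le_mul hM hth1 hth0 hMx0.le
             have r2 : ((M : ℝ) + 1) * (1 + hn) ≤ Mx * (1 + hm * J) :=
               mul_le_mul hM (by linarith only [m1]) (by positivity) hMx0.le
             have r3 := mul_le_mul_of_nonneg_left r1 hC1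
             have r4 := mul_le_mul_of_nonneg_left r2 hC2
             have r5 := mul_le_mul_of_nonneg_left x1 hC1
             have r6 : C1 * (Mx * ((y + 2 * k * η) * J)) ≤ ε * mm / 128 * J := by
               have h1 : y + 2 * k * η ≤ (2 * k + 1) * δ * mm := by
                 rw [hη]
                 linarith only [hy]
               have h2 : C1 * (Mx * ((y + 2 * k * η) * J)) ≤ C1 * (Mx * (((2 * k + 1) * δ * mm) * J)) :=
                 mul_le_mul_of_nonneg_left (mul_le_mul_of_nonneg_left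
                   (mul_le_mul_of_nonneg_right h1 hJ0.le) hMx0.le) hC1
               refine h2.trans ?_
               have h3 : C1 * (Mx * (((2 * k + 1) * δ * mm) * J)) =
                   C1 * (Mx * ((2 * k + 1) * δ)) * (mm * J) := by ring
               rw [h3]
               have h4 := mul_le_mul_of_nonneg_right hδ3 (show 0 ≤ mm * (J : ℝ) by positivity)
               linarith only [h4]
             exact by
              have r7 : (ρ' + C1 * (Mx * (2 * ρ'))) * J ≤ ε * mm / 128 * J :=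
                mul_le_mul_of_nonneg_right hρ'1 hJ0.le
              have r8 : C2 * (Mx * hm) * J ≤ ε * mm / 256 * J := mul_le_mul_of_nonneg_right hhm2 hJ0.le
              have r9 : C1 * (X * J) ≤ ε * mm / 64 * J := by
                rw [hX]
                have h1 := mul_le_mul_of_nonneg_right hxC (show 0 ≤ mm * (J : ℝ) by positivity)
                linarith only [h1]
              have r10 := mul_lt_mul_of_pos_right hnf0 hJ0
              have r11 := mul_le_mul_of_nonneg_right hCq hJ0.le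
              have r12 := mul_le_mul_of_nonneg_right hrX hJ0.le
              have r13 := mul_le_mul_of_nonneg_right hηX hJ0.le
              have r14 := mul_le_mul_of_nonneg_right hhm1 hJ0.le
              have r15 := mul_le_mul_of_nonneg_right hXm hJ0.le
              have r16 : 0 < ε * mm * J := by positivity
              linarith only [hXm, hεmle, hhm0, hhm1, j3, j4, hout, r3, r4, r5, r6, r7, r8, r9, r10, r11, r12, r13, r14, r15]

end Pool.R1
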