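import Pool.Agent.H96.R1.Gw
import Pool.Agent.H96.R1.Top

/-!
# The labels of two windows

`TwoW`: the facts at two windows `w₀ < w₁` of a class, with a row `P1` between their thresholds, the
rows above `P1` having the defect `cD`. `two_ex`: these facts hold if the volume falls by little.
-/

set_option autoImplicit false

namespace Pool.R1

open Finset Real
open Pool.Agent.H49.Ent Pool.Agent.H32.Dense Pool.STK Pool.KA Pool.KSAT Pool.K2S Pool.PB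
open Pool.GEN Pool.S6C Pool.GRW Pool.PKG
open Pool.CHT (chsys bet tau Up1)
open Pool.JPN (Dn1)
open Pool.LBT (ThrOf)
open Pool.ONE (lst)
open Pool.ALL (RateOf)
open Pool.FRN (Wgd Gdy)
open Pool.TOP (T1c T2c TopS Ful RW)
open Pool.M3F (ExvY)

variable {n : ℕ}

theorem T1c.le {m : ℕ} {S : PCl m} {k : Fin m} {α α' σ : ℝ} (h : T1c S k α' σ) (hα : α ≤ α') :
    T1c S k α σ := by
  intro K ε hε
  refine (h K ε hε).mono 0 ?_
  intro J _ F A h1 l a P hl ha hP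
  exact h1 l a P hl (ha.trans (Nat.floor_le_floor (mul_le_mul_of_nonneg_right hα
    (Nat.cast_nonneg J)))) hP

theorem bse_ci (σ : Equiv.Perm (Fin (n - 1))) :
    Function.Injective (fun i => bse (n := n) (σ i)) := bse_inj.comp σ.injective

theorem img_bse (hn : 2 ≤ n) (σ : Equiv.Perm (Fin (n - 1))) :
    univ.image (fun i => bse (σ i)) = univ.erase (lst hn) := by
  ext x
  simp only [mem_image, mem_univ, true_and, mem_erase, and_true]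
  constructor
  · rintro ⟨i, rfl⟩
    exact bse_ne hn _
  · intro hx
    have h1 : (x : ℕ) < n - 1 := by
      have h2 := x.2
      have h3 : (x : ℕ) ≠ n - 1 := fun h => hx (Fin.ext h)
      omega
    refine ⟨σ.symm ⟨x, h1⟩, ?_⟩
    rw [Equiv.apply_symm_apply]
    exact Fin.ext rfl

variable {hn : 2 ≤ n} {S : PCl n} {P : ℝ → ℝ → ℝ} {r : ℝ → ℝ}
  {P' : ℕ → List (Fin n) × Fin n → ℝ → ℝ → ℝ} {Λ : Finset (Fin n) → Fin n → ℝ → ℝ → ℝ}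

/-- The largest number, if there are no good closed labels. -/
theorem top_t1c (H : Pk hn S P r P' Λ) {σ : Equiv.Perm (Fin (n - 1))} {w : ℝ}
    (hw : w ∈ Wv Λ (fun i => bse (σ i))) {α sg : ℝ} (hα : w ≤ α) (hT : T1c S (lst hn) α sg)
    (jl : Fin (n - 1)) : vs Λ (fun i => bse (σ i)) w (jl + 1) ≤ sg := by
  classical
  by_contra hcon
  push Not at hcon
  obtain ⟨x, hx⟩ : ∃ x, x = vs Λ (fun i => bse (σ i)) w (jl + 1) := ⟨_, rfl⟩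
  rw [← hx] at hcon
  obtain ⟨K, hK⟩ := vst_att H.lam hw.1 hw.2.1 hw.2.2.1 hw.2.2.2 (e := (x - sg) / 3) (by linarith)
  obtain ⟨J₁, hJ₁⟩ := exists_nat_ge (1 / ((x - sg) / 3))
  refine Pool.TOP.bas_no H.ne (((hK jl jl le_rfl).and (hT K ((x - sg) / 3) (by linarith))).mono
    (max 1 J₁) ?_)
  rintro J hJ F A ⟨h4, h5⟩
  have hJ0 : (0 : ℝ) < J := by exact_mod_cast (le_max_left _ _).trans hJ
  have e1 : (J₁ : ℝ) ≤ J := by exact_mod_cast (le_max_right _ _).trans hJ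
  have e2 := hJ₁.trans e1
  rw [div_le_iff₀ (by linarith)] at e2
  rw [← hx] at h4
  obtain ⟨V, z, z', G, hG⟩ := h4
  refine h5 (bse (σ jl)) ⌊w * J⌋₊ ⌊(x - (x - sg) / 3) * J⌋₊ (bse_ne hn _)
    (Nat.floor_le_floor (mul_le_mul_of_nonneg_right hα hJ0.le)) ?_ ⟨V, z, z', G,
      (Pool.GRD.LbP.of hG).mono (fun y hy => ?_) le_rfl le_rfl⟩
  · have e3 := Nat.sub_one_lt_floor ((x - (x - sg) / 3) * (J : ℝ))
    have e4 : (x - (x - sg) / 3) * (J : ℝ) = (sg + (x - sg) / 3) * J + (x - sg) / 3 * J := by ring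
    have e5 : J * ((x - sg) / 3) = (x - sg) / 3 * (J : ℝ) := mul_comm _ _
    linarith
  · obtain ⟨l, hl, rfl⟩ := mem_image.1 hy
    refine mem_erase.2 ⟨fun h7 => ?_, mem_erase.2 ⟨bse_ne hn _, mem_univ _⟩⟩
    have h8 : l = jl := σ.injective (bse_inj h7)
    exact (mem_Iio.1 hl).ne h8

/-- Fullness in the cells at a good window. -/
theorem ful_gw (H : Pk hn S P r P' Λ) (hF : FZX (n - 1)) {σ : Equiv.Perm (Fin (n - 1))}
    (hσ : σ ∈ Og n) {w : ℝ} (hw : w ∈ Wv Λ (fun i => bse (σ i))) {u : ℝ}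
    (hu : ∀ j : Fin (n - 1), vs Λ (fun i => bse (σ i)) w (j + 1) ≤ u) :
    Ful S (univ.erase (lst hn)) w u := by
  obtain ⟨al, g₀, s, d, e, K₀, N, hal, hg₀, hC⟩ := H.cl
  have hmono : Monotone (vs Λ (fun i => bse (n := n) (σ i)) w) := hw.2.2.1.mono H.lam hw.2.1.le
  have hwu : w ≤ u := (le_vs H.lam _ hw.2.1.le _).trans (hu ⟨0, by omega⟩)
  rw [← img_bse hn σ]
  refine Pool.EXW.full_cls (fun τ J F A _ hA => hC.pos τ J F A hA)
    (s := fun j : Fin (n - 1) => vs Λ (fun i => bse (σ i)) w (j + 1))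
    (r := fun j => vs Λ (fun i => bse (σ i)) w j) (hw.1.le.trans hwu) hu (fun j => ?_)
    (pk_exa H hF hσ hw) (fun e he => ?_)
  · exact (hmono (Nat.le_succ _)).trans (hu j)
  · obtain ⟨K, hK⟩ := vst_att H.lam hw.1 hw.2.1 hw.2.2.1 hw.2.2.2 he
    exact ⟨K, fun j => hK j j le_rfl⟩

/-- **The largest number at a good window**, where the rows are not full. -/
theorem top_gw (H : Pk hn S P r P' Λ) (hTop : TopS n) {w : ℝ} (hg : Gwd P P' Λ w) {Q c : ℝ}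
    (hQ : P w w < Q) (hc : 0 < c) (hc1 : c ≤ 1 - Q - (r 1 - r Q)) (j : Fin (n - 1)) :
    vs Λ (fun i => bse (ow Λ w i)) w (j + 1) ≤ 1 - c := by
  obtain ⟨al, g₀, s, d, e, K₀, N, hal, hg₀, hC⟩ := H.cl
  obtain ⟨α₀, a1, a2, a3⟩ : ∃ α₀ : ℝ, w < α₀ ∧ α₀ ≤ 1 ∧ P α₀ α₀ ≤ Q := by
    have h2 := hg.conP
    rw [Metric.continuousAt_iff] at h2
    obtain ⟨δ, hδ, h3⟩ := h2 (Q - P w w) (by linarith)
    obtain ⟨a, ha⟩ : ∃ a, a = min (w + δ / 2) 1 := ⟨_, rfl⟩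
    have e1 : w < a := by rw [ha]; exact lt_min (by linarith) hg.lt
    have e2 : a ≤ 1 := by rw [ha]; exact min_le_right _ _
    have e3 : a ≤ w + δ / 2 := by rw [ha]; exact min_le_left _ _
    have h4 := @h3 a (by rw [Real.dist_eq, abs_lt]; constructor <;> linarith)
    rw [Real.dist_eq, dgP_eq P (hg.pos.le.trans e1.le) e2, dgP_eq P hg.pos.le hg.lt.le] at h4
    exact ⟨a, e1, e2, by linarith [(abs_lt.1 h4).2]⟩
  obtain ⟨α₁, b1, b2⟩ := exists_between a1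
  obtain ⟨hT0, -⟩ := hTop hn al g₀ s d hal hg₀ e K₀ N S hC P r H.tgs H.rate α₁ α₀ Q c
    (hg.pos.trans b1).le b2 a2 a3 hc hc1
  exact top_t1c H hg.ow.2 b1.le hT0 j

/-- The largest number at a good window. -/
theorem top_gw' (H : Pk hn S P r P' Λ) (hTop : TopS n) {w : ℝ} (hg : Gwd P P' Λ w)
    (j : Fin (n - 1)) : vs Λ (fun i => bse (ow Λ w i)) w (j + 1) ≤
      1 - (1 - P w w - (r 1 - r (P w w))) := by
  have hF1 : vs Λ (fun i => bse (ow Λ w i)) w (j + 1) ≤ 1 := vs_le1 H.lam _ hg.lt.le _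
  rcases le_or_gt (1 - P w w - (r 1 - r (P w w))) 0 with h0 | h0
  · linarith
  refine le_of_forall_pos_le_add fun ε hε => ?_
  obtain ⟨q, hq⟩ : ∃ q : ℝ, q = min ε (1 - P w w - (r 1 - r (P w w))) / 2 := ⟨_, rfl⟩
  have q1 : 0 < q := by rw [hq]; exact half_pos (lt_min hε h0)
  have q2 : 2 * q ≤ ε := by
    have := min_le_left ε (1 - P w w - (r 1 - r (P w w)))
    rw [hq]
    linarith
  have q3 : 2 * q ≤ 1 - P w w - (r 1 - r (P w w)) := by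
    have := min_le_right ε (1 - P w w - (r 1 - r (P w w)))
    rw [hq]
    linarith
  have hmono := H.rate.mono (show P w w ≤ P w w + q by linarith)
  have h1 := top_gw H hTop hg (Q := P w w + q) (c := 1 - P w w - (r 1 - r (P w w)) - q)
    (by linarith) (by linarith) (by linarith) j
  linarith

/-- **The labels at the second window**, from the largest number at a good window between. -/
theorem two_t12M (H : Pk hn S P r P' Λ) (hZ : ∀ k, 1 ≤ k → k < n → FZX k)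
    (hW : 3 ≤ n → RW (n - 1)) {w₀ w' w₁ : ℝ} (h0 : Gwd P P' Λ w₀) (h' : Gwd P P' Λ w')
    (h1 : w₁ ∈ Wr P P' Λ) (h0' : w₀ ≤ w') (h'1 : w' ≤ w₁) {P1 cD : ℝ} (hwP : w₁ < P1)
    (hcD : 0 < cD) (hcD1 : cD ≤ 1 - P1 - (r 1 - r P1))
    (ht' : ∀ j : Fin (n - 1), vs Λ (fun i => bse (ow Λ w' i)) w' (j + 1) ≤ 1 - cD)
    (hy : vx P P' Λ w₁ - vx P P' Λ w' ≤ cD / 8) :
    (∀ j : Fin (n - 1), vs Λ (fun i => bse (ow Λ w₀ i)) w₀ (j + 1) ≤ 1 - 3 / 4 * cD) ∧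
    (∀ j : Fin (n - 1), vs Λ (fun i => bse (ow Λ w₁ i)) w₁ (j + 1) ≤ 1 - 3 / 4 * cD) ∧
    ∃ α : ℝ, w₁ < α ∧ α < 1 ∧ α ≤ P1 ∧ T1c S (lst hn) α (1 - 3 / 4 * cD) ∧
      T2c S (lst hn) α P1 (1 - 3 / 4 * cD) := by
  obtain ⟨al, g₀, s, d, e, K₀, N, hal, hg₀, hC⟩ := H.cl
  have hF : FZX (n - 1) := hZ _ (by omega) (by omega)
  have hP1 : P1 ≤ 1 - cD := Pool.TOP.q_le H.rate hcD hcD1
  have hg1 := h1.1
  have hjl : (n - 2 : ℕ) < n - 1 := by omega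
  obtain ⟨jl, hjle⟩ : ∃ jl : Fin (n - 1), jl = ⟨n - 2, hjl⟩ := ⟨_, rfl⟩
  have hjt : ∀ j : Fin (n - 1), j ≤ jl := fun j => by
    rw [hjle, Fin.le_def]
    show (j : ℕ) ≤ n - 2
    have := j.2
    omega
  -- the numbers at the windows after the middle one
  have hnum : ∀ w : ℝ, w' ≤ w → Gwd P P' Λ w → vx P P' Λ w - vx P P' Λ w' ≤ cD / 4 →
      ∀ j : Fin (n - 1), vs Λ (fun i => bse (ow Λ w i)) w (j + 1) ≤ 1 - 3 / 4 * cD := by
    intro w hw hgw hv j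
    have h2 := top_le H.ne (fun τ J F A _ hA => hC.pos τ J F A hA) H.lam
      (bse_ci (ow Λ w')) (bse_cov (ow Λ w') (ow Λ w)) (bse_cov (ow Λ w) (ow Λ w'))
      hw h'.ow.2 hgw.ow.2 (pk_exa H hF h'.ow.1 h'.ow.2) (pk_exa H hF hgw.ow.1 hgw.ow.2) hjt
    have h3 : vx P P' Λ w - vx P P' Λ w' = vol Λ w - vol Λ w' := by
      rw [vx_eq H hF hgw, vx_eq H hF h']
    have h4 := ht' jl
    have h5 : vs Λ (fun i => bse (ow Λ w i)) w (j + 1) ≤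
        vs Λ (fun i => bse (ow Λ w i)) w (jl + 1) := by
      refine hgw.ow.2.2.2.1.mono H.lam hgw.lt.le ?_
      have : (j : ℕ) ≤ jl := hjt j
      omega
    unfold vol at h3
    linarith
  -- a good window after the second one
  obtain ⟨w'', c1, c2, c3, c4⟩ : ∃ w'' : ℝ, w₁ < w'' ∧ w'' < min P1 1 ∧ w'' ∈ Wr P P' Λ ∧
      vx P P' Λ w'' ≤ vx P P' Λ w₁ + cD / 8 := by
    have h2 := h1.2
    rw [Metric.continuousAt_iff] at h2
    obtain ⟨δ, hδ, h3⟩ := h2 (cD / 8) (by linarith)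
    obtain ⟨a, ha⟩ : ∃ a, a = min (w₁ + δ) (min P1 1) := ⟨_, rfl⟩
    have e1 : w₁ < a := by rw [ha]; exact lt_min (by linarith) (lt_min hwP hg1.lt)
    have e2 : a ≤ min P1 1 := by rw [ha]; exact min_le_right _ _
    have e3 : a ≤ w₁ + δ := by rw [ha]; exact min_le_left _ _
    obtain ⟨w'', d1, d2, d3⟩ := ex_gw H hg1.pos.le e1 (e2.trans (min_le_right _ _))
    refine ⟨w'', d1, d2.trans_le e2, d3, ?_⟩
    have h4 := @h3 w'' (by rw [Real.dist_eq, abs_lt]; constructor <;> linarith)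
    rw [Real.dist_eq] at h4
    linarith [(abs_lt.1 h4).2]
  have hw''P : w'' < P1 := c2.trans_le (min_le_left _ _)
  have hw''1 : w'' < 1 := c2.trans_le (min_le_right _ _)
  have hn'' := hnum w'' (h'1.trans c1.le) c3.1 (by linarith)
  obtain ⟨α, d1, d2⟩ := exists_between c1
  obtain ⟨α', d3, d4⟩ := exists_between d2
  have hT1 : T1c S (lst hn) α' (1 - 3 / 4 * cD) := by
    refine Pool.TOP.t1c_of_ful (C₀ := 6) (by norm_num) H.tmc (by linarith) fun u hu =>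
      ⟨w'', c3.1.pos.le, d4, ?_, ?_⟩
    · exact ((le_vs H.lam _ c3.1.lt.le _).trans (hn'' jl)).trans hu.le
    · exact ful_gw H hF c3.1.ow.1 c3.1.ow.2 fun j => (hn'' j).trans hu.le
  refine ⟨fun j => top_t1c H h0.ow.2 (by linarith) hT1 j, hnum w₁ h'1 hg1 (by linarith), α, d1,
    by linarith, by linarith, T1c.le hT1 d3.le, ?_⟩
  exact Pool.TOP.t2_of_t1 hn hZ hW hal hg₀ hC H.rate (hg1.pos.trans d1).le d3 (by linarith)
    (by linarith) (by linarith) (by linarith) hT1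

/-- **The labels at the second window.** -/
theorem two_t12 (H : Pk hn S P r P' Λ) (hZ : ∀ k, 1 ≤ k → k < n → FZX k) (hTop : TopS n)
    (hW : 3 ≤ n → RW (n - 1)) {w₀ w₁ : ℝ} (h0 : w₀ ∈ Wr P P' Λ) (h1 : w₁ ∈ Wr P P' Λ)
    (h01 : w₀ < w₁) {P1 cD : ℝ} (hP : P w₀ w₀ < P1) (hwP : w₁ < P1) (hcD : 0 < cD)
    (hcD1 : cD ≤ 1 - P1 - (r 1 - r P1)) (hy : vx P P' Λ w₁ - vx P P' Λ w₀ ≤ cD / 8) :
    (∀ j : Fin (n - 1), vs Λ (fun i => bse (ow Λ w₀ i)) w₀ (j + 1) ≤ 1 - 3 / 4 * cD) ∧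
    (∀ j : Fin (n - 1), vs Λ (fun i => bse (ow Λ w₁ i)) w₁ (j + 1) ≤ 1 - 3 / 4 * cD) ∧
    ∃ α : ℝ, w₁ < α ∧ α < 1 ∧ α ≤ P1 ∧ T1c S (lst hn) α (1 - 3 / 4 * cD) ∧
      T2c S (lst hn) α P1 (1 - 3 / 4 * cD) :=
  two_t12M H hZ hW h0.1 h0.1 h1 le_rfl h01.le hwP hcD hcD1 (top_gw H hTop h0.1 hP hcD hcD1) hy

/-! ### The facts at two windows -/

/-- **The facts at two windows** `w₀ < w₁`: `P` and `ρ` are the threshold and the rate of the last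
coordinate, `PP` the thresholds of the chains with gradients at most `2 ^ (θ w J)`; `c₀` and `c₁`
are greedy orders at the windows. The row `P1` is between the thresholds at `w₀` and at `w₁`, and
the rows above it have the defect `cD`; below the window `α > w₁` there are no good closed labels
of the coordinates before the last one, and no steep closed labels of the last one. -/
structure TwoW (hn : 2 ≤ n) (S : PCl n) (P : ℝ → ℝ → ℝ) (ρ : ℝ → ℝ) (θ : ℝ)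
    (PP : List (Fin n) × Fin n → ℝ → ℝ → ℝ) (w₀ w₁ α : ℝ) (c₀ c₁ : ℕ → Fin n) (P1 cD : ℝ) :
    Prop where
  cl : ∃ (al : ℝ) (g₀ : ℝ → ℝ) (s : Fin n → ℝ) (d : ℕ → ℝ) (e : ℝ) (K₀ : ℕ) (N : ℚ → ℚ → ℝ),
    0 < al ∧ (∀ ε : ℝ, 0 < ε → 0 < g₀ ε) ∧ NumX s d ∧ 0 < e ∧ ClX s d al g₀ e K₀ N S
  tgs : ThrOf (Pool.ONE.tgs (lst hn)) S (fun _ => P)
  rate : RateOf S (lst hn) ρ
  cht : ThrOf (chsys n θ) S PP
  θ0 : 0 < θ
  θ1 : θ < cD / 2
  w0 : 0 < w₀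
  w01 : w₀ < w₁
  w1α : w₁ < α
  α1 : α < 1
  αP : α ≤ P1
  P01 : P w₀ w₀ < P1
  P11 : P1 < P w₁ w₁
  PcD : P w₀ w₀ + cD ≤ P1
  cD0 : 0 < cD
  cD1 : cD ≤ 1 - P1 - (ρ 1 - ρ P1)
  t1 : T1c S (lst hn) α (1 - 3 / 4 * cD)
  t2 : T2c S (lst hn) α P1 (1 - 3 / 4 * cD)
  wgd0 : w₀ ∈ Wgd PP
  wgd1 : w₁ ∈ Wgd PP
  gdy0 : Gdy PP (lst hn) w₀ w₀ c₀
  gdy1 : Gdy PP (lst hn) w₁ w₁ c₁
  act0 : (c₀ 0 : ℕ) = 0
  act1 : (c₁ 0 : ℕ) = 0
  dn0 : (∀ l, Dn1 (PP l) w₀) ∧ Dn1 P w₀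
  dn1 : (∀ l, Dn1 (PP l) w₁) ∧ Dn1 P w₁
  up0 : Up1 P w₀ w₀
  up1 : Up1 P w₁ w₁
  con0 : (∀ l, ContinuousAt (dg PP l) w₀) ∧ ContinuousAt (dgP P) w₀
  con1 : (∀ l, ContinuousAt (dg PP l) w₁) ∧ ContinuousAt (dgP P) w₁
  ex0 : ∀ h : ℝ, 0 < h → ExvY S w₀ (fun J F ω (i : Fin (n - 1)) => F.X J ω (c₀ i))
    ((∑ i ∈ range (n - 1), (1 - bet PP c₀ i w₀ w₀)) - h)
  ex1 : ∀ h : ℝ, 0 < h → ExvY S w₁ (fun J F ω (i : Fin (n - 1)) => F.X J ω (c₁ i))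
    ((∑ i ∈ range (n - 1), (1 - bet PP c₁ i w₁ w₁)) - h)

/-- The numbers of the chains at a good window. -/
theorem bet_gw (H : Pk hn S P r P' Λ) (hF : FZX (n - 1)) {w : ℝ} (hw : Gwd P P' Λ w) {cD : ℝ}
    (hcD : 0 < cD)
    (ht : ∀ i : Fin (n - 1), vs Λ (fun i => bse (ow Λ w i)) w (i + 1) ≤ 1 - 3 / 4 * cD) {j : ℕ}
    (hj : tht j < cD / 2) (l : Fin (n - 1)) :
    bet (P' j) (cc hn (ow Λ w)) l w w = vs Λ (fun i => bse (ow Λ w i)) w (l + 1) := by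
  refine bet_eq_vst (tht_pos j) H.ne (C₀ := 6) (by norm_num) H.tmc H.lam (H.cht j) (bse_ci _)
    (fun i => cc_lt hn _ i.2) ⟨hw.ow.2, hw.con j⟩ (pk_exa H hF hw.ow.1 hw.ow.2) l.2 ?_
  have h1 := ht l
  have h2 : tht j * w ≤ tht j := mul_le_of_le_one_right (tht_pos j).le hw.lt.le
  linarith

/-- The order of a good window is greedy. -/
theorem gdy_gw (H : Pk hn S P r P' Λ) (hF : FZX (n - 1)) {w : ℝ} (hw : Gwd P P' Λ w) {cD : ℝ}
    (hcD : 0 < cD)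
    (ht : ∀ i : Fin (n - 1), vs Λ (fun i => bse (ow Λ w i)) w (i + 1) ≤ 1 - 3 / 4 * cD) {j : ℕ}
    (hj : tht j < cD / 2) : Gdy (P' j) (lst hn) w w (cc hn (ow Λ w)) where
  inj := cc_inj1 hn _
  ne l hl := cc_ne hn _ hl
  top := cc_top hn _
  gre l hl x hx hxl := by
    obtain ⟨i, hi, rfl⟩ := cc_all hn (ow Λ w) hx
    have hli : l ≤ i := by
      by_contra hcon
      exact hxl i (by omega) rfl
    have h1 := pgr (tht_pos j) H.ne (C₀ := 6) (by norm_num) H.tmc H.lam (H.cht j) (bse_ci _)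
      (fun i => cc_lt hn _ i.2) ⟨hw.ow.2, hw.con j⟩ (pk_exa H hF hw.ow.1 hw.ow.2) hli hi
    have h2 := bet_gw H hF hw hcD ht hj ⟨l, hl⟩
    have h3 := ht ⟨l, hl⟩
    have h4 : tht j * w ≤ tht j := mul_le_of_le_one_right (tht_pos j).le hw.lt.le
    rw [min_eq_left (by
      show bet (P' j) (cc hn (ow Λ w)) l w w ≤ _
      simp only at h2 h3
      rw [h2]
      linarith)] at h1
    exact h1

theorem sum_bet (H : Pk hn S P r P' Λ) (hF : FZX (n - 1)) {w : ℝ} (hw : Gwd P P' Λ w) {cD : ℝ}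
    (hcD : 0 < cD)
    (ht : ∀ i : Fin (n - 1), vs Λ (fun i => bse (ow Λ w i)) w (i + 1) ≤ 1 - 3 / 4 * cD) {j : ℕ}
    (hj : tht j < cD / 2) :
    ∑ i ∈ range (n - 1), bet (P' j) (cc hn (ow Λ w)) i w w = vol Λ w := by
  rw [Finset.sum_range]
  exact Finset.sum_congr rfl fun i _ => bet_gw H hF hw hcD ht hj i

/-- Exactness at a good window, in the order of the window. -/
theorem exv_gw (H : Pk hn S P r P' Λ) (hF : FZX (n - 1)) {w : ℝ} (hw : Gwd P P' Λ w) {h : ℝ}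
    (hh : 0 < h) : ExvY S w (fun J F ω (i : Fin (n - 1)) => F.X J ω (cc hn (ow Λ w) i))
      (((n - 1 : ℕ) - vol Λ w) - h) := by
  have h1 := pk_exa H hF hw.ow.1 hw.ow.2 h hh
  refine h1.mono 0 ?_
  intro J _ F A h2 V z z' hz
  have h3 := h2 V z z' hz
  have h4 : ∑ j : Fin (n - 1), (1 - vs Λ (fun i => bse (ow Λ w i)) w (j + 1)) =
      (n - 1 : ℕ) - vol Λ w := by
    rw [Finset.sum_sub_distrib, Finset.sum_const, Finset.card_univ, Fintype.card_fin,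
      nsmul_eq_mul, mul_one]
    rfl
  rw [h4] at h3
  have h5 : (fun (ω : F.Ω) (i : Fin (n - 1)) => F.X J ω (cc hn (ow Λ w) i)) =
      fun ω j => F.X J ω (bse (ow Λ w j)) := by
    funext ω i
    rw [cc_lt hn _ i.2]
  show _ ≤ CH (Pool.Agent.H49.Ent.cond F.p A True)
    (fun (ω : F.Ω) (i : Fin (n - 1)) => F.X J ω (cc hn (ow Λ w) i))
    (fun ω => (z' (slam F ⌊w * J⌋₊ ω), F.W ω))
  rw [h5]
  exact h3

/-- Exactness for the same coordinates in another order. -/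
theorem exv_perm {m k : ℕ} {S : PCl m} {w : ℝ} {c c' : Fin k → Fin m}
    (hc : ∀ i, ∃ j, c' j = c i) {b : ℝ} (h : ExvY S w (fun J F ω i => F.X J ω (c i)) b) :
    ExvY S w (fun J F ω i => F.X J ω (c' i)) b := by
  refine (h.and (⟨1, one_pos, 0, fun _ _ _ _ _ => trivial⟩ : Bas S (fun _ _ _ => True))).mono 0 ?_
  rintro J - F A ⟨h1, -⟩ V z z' hz
  refine (h1 V z z' hz).trans (CH_mono_left (fun ω => cond_nonneg F.isLaw.nonneg A True ω)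
    fun ω ω' _ _ hh => funext fun i => ?_)
  obtain ⟨j, hj⟩ := hc i
  have h2 := congrFun (Prod.ext_iff.mp hh).1 j
  simp only [hj] at h2
  exact h2

/-- The sum of the falls of the numbers. -/
theorem sum_one_sub {k : ℕ} (f : ℕ → ℝ) :
    ∑ i ∈ range k, (1 - f i) = k - ∑ i ∈ range k, f i := by
  rw [Finset.sum_sub_distrib, Finset.sum_const, Finset.card_range, nsmul_eq_mul, mul_one]

/-- **The facts hold** at two windows, from the largest number at a good window between. -/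
theorem two_exM (H : Pk hn S P r P' Λ) (hcl : ∃ (al : ℝ) (g₀ : ℝ → ℝ) (s : Fin n → ℝ) (d : ℕ → ℝ)
      (e : ℝ) (K₀ : ℕ) (N : ℚ → ℚ → ℝ), 0 < al ∧ (∀ ε : ℝ, 0 < ε → 0 < g₀ ε) ∧ NumX s d ∧ 0 < e ∧
        ClX s d al g₀ e K₀ N S)
    (hZ : ∀ k, 1 ≤ k → k < n → FZX k) (hW : 3 ≤ n → RW (n - 1)) {w₀ w' w₁ : ℝ}
    (hg0 : Gwd P P' Λ w₀) (h' : Gwd P P' Λ w') (h1 : w₁ ∈ Wr P P' Λ) (h0' : w₀ ≤ w')
    (h'1 : w' ≤ w₁) (h01 : w₀ < w₁) {P1 cD : ℝ} (hP : P w₀ w₀ < P1) (hP' : P1 < P w₁ w₁)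
    (hwP : w₁ < P1) (hcD : 0 < cD) (hcD1 : cD ≤ 1 - P1 - (r 1 - r P1)) (hPc : P w₀ w₀ + cD ≤ P1)
    (ht' : ∀ j : Fin (n - 1), vs Λ (fun i => bse (ow Λ w' i)) w' (j + 1) ≤ 1 - cD)
    (hy : vx P P' Λ w₁ - vx P P' Λ w' ≤ cD / 8) {j : ℕ} (hj : tht j < cD / 2) :
    ∃ α : ℝ, TwoW hn S P r (tht j) (P' j) w₀ w₁ α (cc hn (ow Λ w₀)) (cc hn (ow Λ w₁)) P1 cD := by
  have hF : FZX (n - 1) := hZ _ (by omega) (by omega)
  obtain ⟨t0, t1, α, a1, a2, a3, a4, a5⟩ := two_t12M H hZ hW hg0 h' h1 h0' h'1 hwP hcD hcD1 ht' hy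
  have hg1 := h1.1
  have hact : ∀ {w : ℝ}, Gwd P P' Λ w → (cc hn (ow Λ w) 0 : ℕ) = 0 := by
    intro w hw
    rw [cc_lt hn _ (show 0 < n - 1 by omega)]
    exact hw.ow.1 _ rfl
  exact ⟨α, hcl, H.tgs, H.rate, H.cht j, tht_pos j, hj, hg0.pos, h01, a1, a2, a3, hP, hP', hPc,
    hcD, hcD1, a4, a5, hg0.wgd j, hg1.wgd j, gdy_gw H hF hg0 hcD t0 hj, gdy_gw H hF hg1 hcD t1 hj,
    hact hg0, hact hg1, ⟨hg0.dn j, hg0.dnP⟩, ⟨hg1.dn j, hg1.dnP⟩, hg0.upP, hg1.upP,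
    ⟨hg0.con j, hg0.conP⟩, ⟨hg1.con j, hg1.conP⟩, fun h hh => by
      rw [sum_one_sub, sum_bet H hF hg0 hcD t0 hj]
      exact exv_gw H hF hg0 hh, fun h hh => by
      rw [sum_one_sub, sum_bet H hF hg1 hcD t1 hj]
      exact exv_gw H hF hg1 hh⟩

/-- **The facts hold** at two windows at which the volume is almost the same. -/
theorem two_ex (H : Pk hn S P r P' Λ) (hcl : ∃ (al : ℝ) (g₀ : ℝ → ℝ) (s : Fin n → ℝ) (d : ℕ → ℝ)
      (e : ℝ) (K₀ : ℕ) (N : ℚ → ℚ → ℝ), 0 < al ∧ (∀ ε : ℝ, 0 < ε → 0 < g₀ ε) ∧ NumX s d ∧ 0 < e ∧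
        ClX s d al g₀ e K₀ N S)
    (hZ : ∀ k, 1 ≤ k → k < n → FZX k) (hTop : TopS n)
    (hW : 3 ≤ n → RW (n - 1)) {w₀ w₁ : ℝ} (h0 : w₀ ∈ Wr P P' Λ) (h1 : w₁ ∈ Wr P P' Λ)
    (h01 : w₀ < w₁) {P1 cD : ℝ} (hP : P w₀ w₀ < P1) (hP' : P1 < P w₁ w₁) (hwP : w₁ < P1)
    (hcD : 0 < cD) (hcD1 : cD ≤ 1 - P1 - (r 1 - r P1)) (hPc : P w₀ w₀ + cD ≤ P1)
    (hy : vx P P' Λ w₁ - vx P P' Λ w₀ ≤ cD / 8) {j : ℕ} (hj : tht j < cD / 2) :
    ∃ α : ℝ, TwoW hn S P r (tht j) (P' j) w₀ w₁ α (cc hn (ow Λ w₀)) (cc hn (ow Λ w₁)) P1 cD :=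
  two_exM H hcl hZ hW h0.1 h0.1 h1 le_rfl h01.le h01 hP hP' hwP hcD hcD1 hPc
    (top_gw H hTop h0.1 hP hcD hcD1) hy hj

end Pool.R1
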