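import Pool.Agent.H96.R1.Stm

/-!
# Row R1: restriction of a polynomial to the first coordinates of a small box; cells
-/

set_option autoImplicit false

namespace Pool.R1

open Finset Real
open Pool.Agent.H49.Ent Pool.Agent.H32.Dense Pool.STK
open Pool.JMN (ev shf tdg)

variable {k k' K : ℕ}

/-- Zero in the last coordinates. -/
def ext (k : ℕ) {k' K : ℕ} (a : Fin k' → Fin (K + 1)) (i : Fin k) : Fin (K + 1) :=
  if h : (i : ℕ) < k' then a ⟨i, h⟩ else 0

/-- The point with the first coordinates `c + ρ x` and the other coordinates `c`. -/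
noncomputable def pnt (k : ℕ) {k' : ℕ} (c : Fin k → ℝ) (ρ : ℝ) (x : Fin k' → ℝ) (i : Fin k) : ℝ :=
  c i + if h : (i : ℕ) < k' then ρ * x ⟨i, h⟩ else 0

/-- **Restriction** to the first coordinates of a box with the corner `c` and the side `ρ`. -/
noncomputable def rst (k' : ℕ) (c : Fin k → ℝ) (ρ : ℝ) (q : (Fin k → Fin (K + 1)) → ℝ)
    (a : Fin k' → Fin (K + 1)) : ℝ := ρ ^ tdg a * shf c q (ext k a)

theorem ext_inj (hk : k' ≤ k) :
    Function.Injective (ext k : (Fin k' → Fin (K + 1)) → Fin k → Fin (K + 1)) := by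
  intro a b h
  funext i
  have h1 := congrFun h (Fin.castLE hk i)
  unfold ext at h1
  have h2 : ((Fin.castLE hk i : Fin k) : ℕ) < k' := i.isLt
  rw [dif_pos h2, dif_pos h2] at h1
  exact h1

theorem prod_live (hk : k' ≤ k) (f : Fin k → ℝ) (hf : ∀ i : Fin k, k' ≤ (i : ℕ) → f i = 1) :
    ∏ i, f i = ∏ i : Fin k', f (Fin.castLE hk i) := by
  obtain ⟨e, rfl⟩ := Nat.exists_eq_add_of_le hk
  rw [Fin.prod_univ_add]
  have h1 : ∏ i : Fin e, f (Fin.natAdd k' i) = 1 :=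
    Finset.prod_eq_one fun i _ => hf _ (by simp)
  rw [h1, mul_one]
  rfl

theorem ev_rst (hk : k' ≤ k) (c : Fin k → ℝ) (ρ : ℝ) (q : (Fin k → Fin (K + 1)) → ℝ)
    (x : Fin k' → ℝ) : ev (rst k' c ρ q) x = ev q (pnt k c ρ x) := by
  classical
  obtain ⟨h, hh⟩ : ∃ h : Fin k → ℝ, h = fun i : Fin k =>
    if h : (i : ℕ) < k' then ρ * x ⟨i, h⟩ else 0 := ⟨_, rfl⟩
  have e1 : ev q (pnt k c ρ x) = ev (shf c q) h := by
    rw [Pool.JMN.ev_shf]
    refine congrArg _ (funext fun i => ?_)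
    rw [hh]
    rfl
  rw [e1]
  unfold Pool.JMN.ev
  have h1 : ∑ b : Fin k → Fin (K + 1), shf c q b * ∏ i, h i ^ (b i : ℕ) =
      ∑ b ∈ (Finset.univ : Finset (Fin k' → Fin (K + 1))).image (ext k),
        shf c q b * ∏ i, h i ^ (b i : ℕ) := by
    refine (Finset.sum_subset (Finset.subset_univ _) fun b _ hb => ?_).symm
    have h2 : ∃ i : Fin k, k' ≤ (i : ℕ) ∧ (b i : ℕ) ≠ 0 := by
      by_contra hcon
      push Not at hcon
      refine hb (Finset.mem_image.2 ⟨fun i => b (Fin.castLE hk i), Finset.mem_univ _, ?_⟩)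
      funext i
      unfold ext
      split_ifs with h3
      · rfl
      · exact (Fin.ext (by simpa using hcon i (not_lt.1 h3))).symm
    obtain ⟨i, hi, hbi⟩ := h2
    rw [Finset.prod_eq_zero (Finset.mem_univ i), mul_zero]
    rw [hh]
    show (if h : (i : ℕ) < k' then ρ * x ⟨i, h⟩ else 0) ^ (b i : ℕ) = 0
    rw [dif_neg (not_lt.2 hi), zero_pow hbi]
  rw [h1, Finset.sum_image fun a _ b _ h => ext_inj hk h]
  refine Finset.sum_congr rfl fun a _ => ?_
  have h2 : ∏ i, h i ^ ((ext k a i : Fin (K + 1)) : ℕ) = ρ ^ tdg a * ∏ i, x i ^ (a i : ℕ) := by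
    rw [prod_live hk]
    · have h3 : ∀ i : Fin k', h (Fin.castLE hk i) ^ ((ext k a (Fin.castLE hk i) : Fin (K + 1)) : ℕ) =
          ρ ^ (a i : ℕ) * x i ^ (a i : ℕ) := by
        intro i
        have h4 : ((Fin.castLE hk i : Fin k) : ℕ) < k' := i.isLt
        have h5 : h (Fin.castLE hk i) = ρ * x i := by
          rw [hh]
          show (if h : ((Fin.castLE hk i : Fin k) : ℕ) < k' then ρ * x ⟨_, h⟩ else 0) = ρ * x i
          rw [dif_pos h4]
          rfl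
        have h6 : ext k a (Fin.castLE hk i) = a i := by
          unfold ext
          rw [dif_pos h4]
          rfl
        rw [h5, h6, mul_pow]
      rw [Finset.prod_congr rfl fun i _ => h3 i, Finset.prod_mul_distrib,
        Finset.prod_pow_eq_pow_sum]
      rfl
    · intro i hi
      have h6 : ext k a i = 0 := by
        unfold ext
        rw [dif_neg (not_lt.2 hi)]
      rw [h6]
      simp
  rw [h2]
  unfold rst
  ring

/-! ### Cells -/

variable {Ω : Type}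

/-- The cell with the depths `d`. -/
noncomputable def cv (X : ℕ) (y : Ω → Fin k → ℝ) (d : Fin k → ℕ) (ω : Ω) (i : Fin k) : ℤ :=
  ⌊(2 : ℝ) ^ (d i * X) * y ω i⌋

/-- Digits of a real number are nested. -/
theorem fl_nest {m n : ℕ} (h : m ≤ n) {x x' : ℝ}
    (hx : ⌊(2 : ℝ) ^ n * x⌋ = ⌊(2 : ℝ) ^ n * x'⌋) : ⌊(2 : ℝ) ^ m * x⌋ = ⌊(2 : ℝ) ^ m * x'⌋ := by
  obtain ⟨e, rfl⟩ := Nat.exists_eq_add_of_le h
  have h1 : ∀ z : ℝ, ⌊(2 : ℝ) ^ m * z⌋ = ⌊(2 : ℝ) ^ (m + e) * z⌋ / 2 ^ e := by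
    intro z
    have h2 : (2 : ℝ) ^ m * z = (2 : ℝ) ^ (m + e) * z / ((2 ^ e : ℕ) : ℝ) := by
      rw [pow_add]
      push_cast
      have : (2 : ℝ) ^ e ≠ 0 := by positivity
      field_simp
    rw [h2, Int.floor_div_natCast]
    push_cast
    rfl
  rw [h1 x, h1 x', hx]

theorem cv_nest {X : ℕ} {y : Ω → Fin k → ℝ} {d d' : Fin k → ℕ} (h : ∀ i, d i ≤ d' i) {ω ω' : Ω}
    (hx : cv X y d' ω = cv X y d' ω') : cv X y d ω = cv X y d ω' := by
  funext i
  exact fl_nest (Nat.mul_le_mul_right X (h i)) (congrFun hx i)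

/-- **The number of the cells.** -/
theorem ch_cv {T : Type} [Fintype Ω] {p : Ω → ℝ} (hp : IsLaw p) (X : ℕ) (y : Ω → Fin k → ℝ)
    (y0 : ∀ ω i, 0 ≤ y ω i) (y1 : ∀ ω i, y ω i < 1) (d : Fin k → ℕ) (W : Ω → T) :
    CH p (cv X y d) W ≤ (∑ i, (d i : ℝ)) * (X * Real.log 2) := by
  classical
  have h := CH_le_card hp.nonneg hp.sum_one (cv X y d) W
    (fun _ => Fintype.piFinset fun i => Finset.Ico (0 : ℤ) (2 ^ (d i * X))) (by
      intro ω _
      rw [Fintype.mem_piFinset]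
      intro i
      rw [Finset.mem_Ico]
      have h2 : (0 : ℝ) < 2 ^ (d i * X) := by positivity
      constructor
      · exact Int.floor_nonneg.2 (mul_nonneg h2.le (y0 ω i))
      · refine Int.floor_lt.2 ?_
        push_cast
        have := mul_lt_mul_of_pos_left (y1 ω i) h2
        linarith)
  refine h.trans (le_of_eq ?_)
  rw [Fintype.card_piFinset]
  have h2 : ∀ i, (Finset.Ico (0 : ℤ) (2 ^ (d i * X))).card = 2 ^ (d i * X) := by
    intro i
    rw [Int.card_Ico, sub_zero]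
    have : ((2 : ℤ) ^ (d i * X)) = ((2 ^ (d i * X) : ℕ) : ℤ) := by push_cast; rfl
    rw [this, Int.toNat_natCast]
  simp only [h2]
  rw [Finset.prod_pow_eq_pow_sum]
  unfold Ex
  rw [← Finset.sum_mul, hp.sum_one, one_mul]
  push_cast
  rw [Real.log_pow, Nat.cast_sum, Finset.sum_mul, Finset.sum_mul]
  refine Finset.sum_congr rfl fun i _ => ?_
  push_cast
  ring

/-- **Refinement** of the digits of a number. -/
theorem ch_ref {T : Type} [Fintype Ω] {p : Ω → ℝ} (hp : IsLaw p) (N : Ω → ℝ) (V : Ω → T)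
    (m e : ℕ) : CH p (fun ω => ⌊(2 : ℝ) ^ (m + e) * N ω⌋) V ≤
      CH p (fun ω => ⌊(2 : ℝ) ^ m * N ω⌋) V + e * Real.log 2 := by
  classical
  have h1 := CH_le_add hp.nonneg (fun ω => ⌊(2 : ℝ) ^ (m + e) * N ω⌋)
    (fun ω => ⌊(2 : ℝ) ^ m * N ω⌋) V
  have h2 := CH_le_card hp.nonneg hp.sum_one (fun ω => ⌊(2 : ℝ) ^ (m + e) * N ω⌋)
    (fun ω => (⌊(2 : ℝ) ^ m * N ω⌋, V ω))
    (fun w => Finset.Ico (2 ^ e * w.1) (2 ^ e * w.1 + 2 ^ e)) (by
      intro ω _
      rw [Finset.mem_Ico]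
      have e1 : (2 : ℝ) ^ (m + e) * N ω = 2 ^ e * (2 ^ m * N ω) := by rw [pow_add]; ring
      have h3 := Int.floor_le ((2 : ℝ) ^ m * N ω)
      have h4 := Int.lt_floor_add_one ((2 : ℝ) ^ m * N ω)
      have h5 : (0 : ℝ) < 2 ^ e := by positivity
      constructor
      · refine Int.le_floor.2 ?_
        push_cast
        rw [e1]
        exact mul_le_mul_of_nonneg_left h3 h5.le
      · refine Int.floor_lt.2 ?_
        push_cast
        rw [e1]
        have := mul_lt_mul_of_pos_left h4 h5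
        linarith)
  have h3 : Ex p (fun ω => Real.log ((Finset.Ico (2 ^ e * ⌊(2 : ℝ) ^ m * N ω⌋)
      (2 ^ e * ⌊(2 : ℝ) ^ m * N ω⌋ + 2 ^ e)).card : ℝ)) = e * Real.log 2 := by
    unfold Ex
    have h4 : ∀ ω, ((Finset.Ico (2 ^ e * ⌊(2 : ℝ) ^ m * N ω⌋)
      (2 ^ e * ⌊(2 : ℝ) ^ m * N ω⌋ + 2 ^ e)).card : ℝ) = 2 ^ e := by
      intro ω
      rw [Int.card_Ico]
      have h5 : 2 ^ e * ⌊(2 : ℝ) ^ m * N ω⌋ + 2 ^ e - 2 ^ e * ⌊(2 : ℝ) ^ m * N ω⌋ =
          ((2 ^ e : ℕ) : ℤ) := by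
        push_cast
        ring
      rw [h5, Int.toNat_natCast]
      push_cast
      rfl
    simp only [h4]
    rw [← Finset.sum_mul, hp.sum_one, one_mul, Real.log_pow]
  linarith

end Pool.R1
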