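import Pool.Agent.H27.TOP.All
import Pool.Agent.H93.GEN.RowG
import Pool.Agent.H96.R1.Twc

/-!
# Row R1: the end

`GeoN n`: the geometry of the pairs at two windows (`TwoW`), in dimension `n`. `r1d_pk`: `GeoN n`
gives the statement `R1D` for one falling level, for a package, with the volume `vx` and the windows
`Wd`. `loc_r1`: the same for the class of every local statement.
-/

set_option autoImplicit false

namespace Pool.R1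

open Finset Real
open Pool.Agent.H49.Ent Pool.Agent.H32.Dense Pool.STK Pool.KA Pool.KSAT Pool.K2S Pool.PB
open Pool.GEN Pool.S6C Pool.GRW Pool.PKG
open Pool.CHT (bet)
open Pool.ONE (lst LocN Mic Sta Jmp)
open Pool.TOP (TopS RW)
open Pool.STR (R1D)

variable {m n : ℕ}

theorem GeoS.congr {S : PCl m} {k r C : ℕ} {c : ℕ → Fin m} {β β' : ℕ → ℝ}
    {w₀ w₁ y P0 P1 sg cc : ℝ} (h : GeoS S k r C c β w₀ w₁ y P0 P1 sg cc)
    (hβ : ∀ i < k, β i = β' i) : GeoS S k r C c β' w₀ w₁ y P0 P1 sg cc := by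
  intro q X η h1 h2 h3 h4 h5
  obtain ⟨K, n₀, κ, h6, h7⟩ := h q X η h1 h2 h3 h4 h5
  refine ⟨K, n₀, κ, h6, h7.mono 0 ?_⟩
  rintro J - F A ⟨A', g, V₀, V₁, P, z₀, z₀', z₁, z₁', br, a, b, E, g1, g2, g3, g4⟩
  exact ⟨A', g, V₀, V₁, P, z₀, z₀', z₁, z₁', br, a, b, E, g1, g2, fun i hi => by
    rw [← hβ i hi]
    exact g3 i hi, g4⟩

/-- **The geometry of the pairs** in dimension `n`. -/
def GeoN (n : ℕ) : Prop :=
  ∀ hn : 2 ≤ n, (∀ k, 1 ≤ k → k < n → FZX k) →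
    (∀ k, 2 ≤ k → k < n → Mic k ∧ Sta k ∧ Jmp k) → ∃ r C : ℕ, 1 ≤ C ∧
    ∀ ε : ℝ, 0 < ε → ∃ δ : ℝ, 0 < δ ∧ ∀ {S : PCl n} {P : ℝ → ℝ → ℝ} {ρ : ℝ → ℝ} {θ : ℝ}
      {PP : List (Fin n) × Fin n → ℝ → ℝ → ℝ} {w₀ w₁ α : ℝ} {c₀ c₁ : ℕ → Fin n} {P1 cD : ℝ},
      TwoW hn S P ρ θ PP w₀ w₁ α c₀ c₁ P1 cD → cD = ε / 4 * (P w₁ w₁ - P w₀ w₀) →
      ∀ y : ℝ, y = (w₁ - w₀) + (∑ i ∈ range (n - 1), bet PP c₁ i w₁ w₁ -
        ∑ i ∈ range (n - 1), bet PP c₀ i w₀ w₀) → w₁ - w₀ ≤ y → y ≤ δ * (P w₁ w₁ - P w₀ w₀) →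
      GeoS S (n - 1) r C c₀ (fun i => bet PP c₀ i w₀ w₀) w₀ w₁ y (P w₀ w₀) P1
        (1 - cD / 2 - P1) (cD / 8)

/-- The windows of the row, with the outside of the interval. -/
def Wd (P : ℝ → ℝ → ℝ) (P' : ℕ → List (Fin n) × Fin n → ℝ → ℝ → ℝ)
    (Λ : Finset (Fin n) → Fin n → ℝ → ℝ → ℝ) : Set ℝ := Wr P P' Λ ∪ (Set.Iio 0 ∪ Set.Ioi 1)

variable {hn : 2 ≤ n} {S : PCl n} {P : ℝ → ℝ → ℝ} {r : ℝ → ℝ}
  {P' : ℕ → List (Fin n) × Fin n → ℝ → ℝ → ℝ} {Λ : Finset (Fin n) → Fin n → ℝ → ℝ → ℝ}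

theorem wd_dense (H : Pk hn S P r P' Λ) : Dense (Wd P P' Λ) := by
  intro x
  rw [mem_closure_iff_nhds]
  intro U hU
  rw [Metric.mem_nhds_iff] at hU
  obtain ⟨δ, hδ, hU⟩ := hU
  rcases le_or_gt x 0 with h0 | h0
  · exact ⟨x - δ / 2, hU (by
      rw [Metric.mem_ball, Real.dist_eq, abs_lt]
      constructor <;> linarith), Or.inr (Or.inl (by
        rw [Set.mem_Iio]
        linarith))⟩
  rcases le_or_gt 1 x with h1 | h1
  · exact ⟨x + δ / 2, hU (by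
      rw [Metric.mem_ball, Real.dist_eq, abs_lt]
      constructor <;> linarith), Or.inr (Or.inr (by
        rw [Set.mem_Ioi]
        linarith))⟩
  · obtain ⟨w, h2, h3, h4⟩ := ex_gw H h0.le (show x < min (x + δ) 1 from
      lt_min (by linarith) h1) (min_le_right _ _)
    have h5 := min_le_left (x + δ) 1
    exact ⟨w, hU (by
      rw [Metric.mem_ball, Real.dist_eq, abs_lt]
      constructor <;> linarith), Or.inl h4⟩

theorem wd_in {w : ℝ} (h : w ∈ Wd P P' Λ) (h0 : 0 < w) (h1 : w ≤ 1) : w ∈ Wr P P' Λ := by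
  rcases h with h | h | h
  · exact h
  · rw [Set.mem_Iio] at h
    linarith
  · rw [Set.mem_Ioi] at h
    linarith

/-- **One falling level**, for a package: the volume is `vx P P' Λ`. -/
theorem r1d_pk (hG : GeoN n) (hM : ∀ k, 2 ≤ k → k < n → Mic k ∧ Sta k ∧ Jmp k)
    (hZ : ∀ k, 1 ≤ k → k < n → FZX k) (H : Pk hn S P r P' Λ)
    (hcl : ∃ (al : ℝ) (g₀ : ℝ → ℝ) (s : Fin n → ℝ) (d : ℕ → ℝ) (e : ℝ) (K₀ : ℕ)
      (N : ℚ → ℚ → ℝ), 0 < al ∧ (∀ ε : ℝ, 0 < ε → 0 < g₀ ε) ∧ NumX s d ∧ 0 < e ∧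
        ClX s d al g₀ e K₀ N S) : R1D P r (vx P P' Λ) (Wd P P' Λ) := by
  classical
  have hTop : TopS n := Pool.TOP.tops_ind hZ hM
  have hW : 3 ≤ n → RW (n - 1) := fun h3 => Pool.TOP.rw_all hZ
    (fun k h1 h2 => Pool.TOP.rowN_of (hM k h1 h2).1 (hM k h1 h2).2.1 (hM k h1 h2).2.2) (n - 1)
    (by omega) (by omega)
  have hF : FZX (n - 1) := hZ _ (by omega) (by omega)
  obtain ⟨rr, C, hC1, hgeo⟩ := hG hn hZ hM
  intro ε hε
  obtain ⟨ε', hε'⟩ : ∃ ε' : ℝ, ε' = min ε 1 := ⟨_, rfl⟩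
  have e0 : 0 < ε' := by rw [hε']; exact lt_min hε one_pos
  have e1 : ε' ≤ 1 := by rw [hε']; exact min_le_right _ _
  have e2 : ε' ≤ ε := by rw [hε']; exact min_le_left _ _
  obtain ⟨δ₁, d1, hrow⟩ := row_one (n - 1) rr C hC1 e0 e1
  obtain ⟨δ₂, d2, hgeo⟩ := hgeo ε' e0
  obtain ⟨δ, hδ⟩ : ∃ δ : ℝ, δ = min δ₁ (min δ₂ (ε' / 32)) := ⟨_, rfl⟩
  have d3 : 0 < δ := by rw [hδ]; exact lt_min d1 (lt_min d2 (by positivity))
  have d4 : δ ≤ δ₁ := by rw [hδ]; exact min_le_left _ _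
  have d5 : δ ≤ δ₂ := by rw [hδ]; exact (min_le_right _ _).trans (min_le_left _ _)
  have d6 : δ ≤ ε' / 32 := by rw [hδ]; exact (min_le_right _ _).trans (min_le_right _ _)
  refine ⟨δ, d3, ?_⟩
  intro w₀ hw₀ w₁ hw₁ a0 a1 a2 hy
  have h0 : w₀ ∈ Wr P P' Λ := wd_in hw₀ a0 (by linarith)
  have h1 : w₁ ∈ Wr P P' Λ := wd_in hw₁ (by linarith) a2
  have hlaw := H.tgs.law ()
  obtain ⟨mm, hmm⟩ : ∃ mm, mm = P w₁ w₁ - P w₀ w₀ := ⟨_, rfl⟩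
  have hmm0 : 0 ≤ mm := by
    have := hlaw.mono a0.le le_rfl a1.le a1.le le_rfl a2
    rw [hmm]
    linarith
  rw [← hmm] at hy
  have hv0 := vx_eq H hF h0.1
  have hv1 := vx_eq H hF h1.1
  have hP0 : w₀ ≤ P w₀ w₀ := H.tgs.low () w₀ w₀ a0.le le_rfl (a1.le.trans a2)
  have hP11 : P w₁ w₁ ≤ 1 := H.tgs.up () w₁ w₁ (a0.le.trans a1.le) le_rfl a2
  obtain ⟨β, hβ⟩ : ∃ β : ℕ → ℝ, β = fun i => vs Λ (fun i => bse (ow Λ w₀ i)) w₀ (i + 1) :=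
    ⟨_, rfl⟩
  have hβs : ∑ i ∈ range (n - 1), (1 - β i) = (n - 1 : ℕ) - vol Λ w₀ := by
    rw [sum_one_sub, hβ, Finset.sum_range]
    rfl
  obtain ⟨b, hb⟩ : ∃ b : ℝ, b = (n - 1 : ℕ) - vol Λ w₁ := ⟨_, rfl⟩
  have hyy : (w₁ - w₀) + ((∑ i ∈ range (n - 1), (1 - β i)) - b) =
      (w₁ - w₀) + (vx P P' Λ w₁ - vx P P' Λ w₀) := by
    rw [hβs, hb, hv0, hv1]
    ring
  have hvle := vol_le H hF h0.1 h1.1 a1.le
  have hcl' := hcl
  obtain ⟨al, g₀, s, d, e, K₀, N, hal, hg₀, hnum, he, hC'⟩ := hcl'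
  have hmain := hrow (S := S) hF hC' a0.le a1.le a2 (c := cc hn (ow Λ w₀)) (fun j hj => by
      rw [cc_top] at hj
      obtain ⟨i, hi, h2⟩ := cc_all hn (ow Λ w₀) hj
      exact ⟨⟨i, hi⟩, h2⟩) (β := β) (b := b) (fun h hh => by
      rw [hb]
      exact exv_perm (fun i => by
        obtain ⟨j, hj, h2⟩ := cc_all hn (ow Λ w₀) (cc_ne hn (ow Λ w₁) i.2)
        exact ⟨⟨j, hj⟩, h2⟩) (exv_gw H hF h1.1 hh))
    (by
      rw [hβs, hb]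
      linarith) (ρ := r) (by
      rw [cc_top]
      exact H.rate) (P0 := P w₀ w₀) (P11 := P w₁ w₁) (a0.le.trans hP0) (by
      rw [hmm] at hmm0
      linarith) hP11 (by
      rw [hyy, ← hmm]
      exact hy.trans (mul_le_mul_of_nonneg_right d4 hmm0)) ?_
  · rw [← hmm] at hmain ⊢
    have h2 : (1 - ε) * mm ≤ (1 - ε') * mm :=
      mul_le_mul_of_nonneg_right (by linarith) hmm0
    linarith
  · intro P1 cD b1 b2 b3 b4 b5 b6
    rw [← hmm] at b3 b4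
    have hyc : (w₁ - w₀) + (vx P P' Λ w₁ - vx P P' Λ w₀) ≤ cD / 8 := by
      have h2 := mul_le_mul_of_nonneg_right d6 hmm0
      rw [b4]
      linarith
    have hvv : vx P P' Λ w₀ ≤ vx P P' Λ w₁ := vx_mono H a1.le
    obtain ⟨j, hj⟩ := tht_ex (c := cD / 2) (by linarith)
    have hwP : w₁ < P1 := by
      have h2 : 0 < ε' * mm := by
        rw [b4] at b5
        linarith
      rw [b4] at hyc
      linarith
    obtain ⟨t0, t1, -⟩ := two_t12 H hZ hTop hW h0 h1 a1 b1 hwP b5 b6 (by linarith)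
    obtain ⟨α, hT2⟩ := two_ex H hcl hZ hTop hW h0 h1
      a1 b1 b2 hwP b5 b6 (by linarith) (by linarith) hj
    have h2 := sum_bet H hF h0.1 b5 t0 hj
    have h3 := sum_bet H hF h1.1 b5 t1 hj
    have h4 := hgeo hT2 (by rw [← hmm]; exact b4)
      ((w₁ - w₀) + ((∑ i ∈ range (n - 1), (1 - β i)) - b)) (by
        rw [hyy, h2, h3, hv0, hv1]) (by
        rw [hyy]
        linarith) (by
        rw [hyy, ← hmm]
        exact hy.trans (mul_le_mul_of_nonneg_right d5 hmm0))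
    exact h4.congr fun i hi => by
      rw [hβ]
      exact bet_gw H hF h0.1 b5 t0 hj ⟨i, hi⟩

/-- **One falling level**, for the classes of the local statements. -/
theorem loc_r1 (hG : GeoN n) (hM : ∀ k, 2 ≤ k → k < n → Mic k ∧ Sta k ∧ Jmp k) :
    LocN n (fun P r => ∃ (v : ℝ → ℝ) (W : Set ℝ), Dense W ∧ Monotone v ∧ R1D P r v W) := by
  intro hn hZ al g₀ s d hal hg₀ hnum e K₀ N S₀ he hC P r hT hr
  obtain ⟨S, P', Λ, hs, hC', H⟩ := pk_ex hn hal hg₀ hC hT hr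
  exact ⟨vx P P' Λ, Wd P P' Λ, wd_dense H, vx_mono H, r1d_pk hG hM hZ H
    ⟨al, g₀, s, d, e, K₀, N, hal, hg₀, hnum, he, hC'⟩⟩

end Pool.R1
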