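import Pool.Agent.H53.JM.Fug
import Pool.Agent.H86.EXT.Brg
import Pool.Agent.H86.GEO.Gdt
import Pool.Agent.H1.GEN.Clx

/-!
# The branches over the natural cells, for the pairs of a class

`brg_m`: `Pool.EXS.brg_ev` for the pairs of a family. `brg_c`: the same in a class: outside a small
mass of pairs the last coordinate of the first sample is on one of the branches of the equation of
the second sample, over its cell of depth `q`.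
-/

set_option autoImplicit false

namespace Pool.R1

open Finset Real
open Pool.Agent.H49.Ent Pool.Agent.H32.Dense Pool.STK Pool.KAF Pool.KAL Pool.KS3 Pool.M3F
open Pool.KJA Pool.KA Pool.K2S Pool.KSAT Pool.PB Pool.STAT Pool.GEN Pool.CLO37 Pool.IEN Pool.EXS
open Pool.JPN Pool.GEO Pool.KM7 Pool.S6C
open Pool.GRW (TmWn)

/-- The branches over the natural cells, for the pairs of a family. -/
theorem brg_m (k D K₀ K₂ : ℕ) : ∃ (n₀ : ℕ) (C : ℝ), 1 ≤ C ∧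
    ∀ {m J : ℕ} {F : Fam m J} {A : F.Ω → Prop} {c : ℕ → Fin m} {W₀ W₁ Pr sg q a a₁ a₂ : ℕ}
      {g : ℕ → ℕ} {V₀ V₁ : Type} {z₀ : PtT F → V₀} {z₀' : LnT F → V₀} {P : V₀ → ℕ → PN}
      {z₁ : PtT F → V₁} {z₁' : LnT F → V₁}
      (Qh : V₁ → MvPolynomial (Option (Fin (k + 1))) ℝ) (η : F.Ω × F.Ω → Fin D → ℝ) {h μ : ℝ},
      0 < Pe F.p A → (∀ v, TriN (P v)) → (∀ v i, (P v i).totalDegree ≤ K₀) →
      (∀ ω, A ω → z₀ (ptr F J ω) = z₀' (slam F W₀ ω)) →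
      (∀ ω, A ω → z₁ (ptr F J ω) = z₁' (slam F W₁ ω)) →
      (∀ ω, A ω → (Qh (z₁ (ptr F J ω))).totalDegree ≤ D) →
      a₁ + a₂ = q → (∀ i < k + 1, wid W₀ g i + q ≤ Pr) → 0 < h → 1 ≤ a →
      C * 2 ^ a * Real.exp h ≤ 2 ^ a₁ → C * Real.exp h ≤ 2 ^ a₂ →
      (∀ ω, |xte c k W₁ Pr sg F ω none| ≤ 2 ^ (W₁ + 3)) →
      (∀ e, A e.2 → ∀ kk, 0 < η e kk ∧ C * η e kk ≤ 2 ^ (W₁ + 3)) →
      C * 2 ^ (W₁ + 3) / (2 ^ a) ^ (K₂ + 1) ≤ 1 / 2 ^ J →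
      ∑ i : Fin (k + 1), Real.log ((2 ^ (Pr - wid W₀ g i) : ℕ) : ℝ) -
        CH (P2 (Pool.Agent.H49.Ent.cond F.p A True) (slam F W₀))
          (fun e => nrem (fun i : Fin (k + 1) => 2 ^ (Pr - wid W₀ g i))
            (ndg (2 ^ (Pr - W₁)) (gsy k W₁ (P (z₀' (slam F W₀ e.1))))
              (bse (xte c k W₁ Pr sg F e.1))))
          (fun e => ((z₁' (slam F W₁ e.2), F.W e.2), (z₀' (slam F W₀ e.1),
            (F.T1 W₀ e.1, nidx (fun i : Fin (k + 1) => 2 ^ (Pr - wid W₀ g i))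
              (ndg (2 ^ (Pr - W₁)) (gsy k W₁ (P (z₀' (slam F W₀ e.1))))
                (bse (xte c k W₁ Pr sg F e.1))))))) ≤ μ →
      ∃ aF : (Fin (k + 1) → MvPolynomial (Fin (k + 1)) ℝ) →
        MvPolynomial (Option (Fin (k + 1))) ℝ → (Fin (k + 1) → ℤ) → Fin D → Fin n₀ →
          MvPolynomial (Fin (k + 1)) ℝ,
        (∀ G Q b kk i, (aF G Q b kk i).totalDegree ≤ K₂) ∧
        ms (P2 (Pool.Agent.H49.Ent.cond F.p A True) (slam F W₀)) (fun e => ¬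
          BrE k D n₀ C (1 / 2 ^ J) (2 ^ (Pr - W₁)) (nw W₀ Pr g k q)
            (gsy k W₁ (P (z₀ (ptr F J e.1)))) aF (Qh (z₁ (ptr F J e.2))) (η e)
            (xte c k W₁ Pr sg F e.1)) ≤ 2 * (μ + Real.log 2) / h := by
  classical
  obtain ⟨n₀, C, hC, hbr⟩ := brg_ev (k + 1) D K₀ K₂ (mfm k D)
  refine ⟨n₀, C, hC, ?_⟩
  intro m J F A c W₀ W₁ Pr sg q a a₁ a₂ g V₀ V₁ z₀ z₀' P z₁ z₁' Qh η h μ hA htri hdeg hc₀ hc₁ hQ
    haa hw hh ha h1 h2 hxS hη hKS hful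
  have hl := isLaw_cond F.isLaw hA
  have hP2 := P2_isLaw hl (slam F W₀)
  have hsupp : ∀ e, 0 < P2 (Pool.Agent.H49.Ent.cond F.p A True) (slam F W₀) e →
      A e.1 ∧ A e.2 := by
    intro e he
    obtain ⟨c1, c2, c3⟩ := (P2_pos hl e).1 he
    exact ⟨cond_supp c1, cond_supp c2⟩
  obtain ⟨L₁, hL₁⟩ : ∃ L₁ : ℕ, L₁ = 2 ^ a₁ := ⟨_, rfl⟩
  obtain ⟨L₂, hL₂⟩ : ∃ L₂ : ℕ, L₂ = 2 ^ a₂ := ⟨_, rfl⟩
  have hL₁r : (L₁ : ℝ) = 2 ^ a₁ := by rw [hL₁]; push_cast; rfl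
  have hL₂r : (L₂ : ℝ) = 2 ^ a₂ := by rw [hL₂]; push_cast; rfl
  have hN0 : (fun i : Fin (k + 1) => L₁ * (L₂ * nw W₀ Pr g k q i)) =
      fun i : Fin (k + 1) => 2 ^ (Pr - wid W₀ g i) := by
    funext i
    rw [hL₁, hL₂]
    unfold nw
    rw [← pow_add, ← pow_add]
    congr 1
    have := hw i i.2
    omega
  have hN0i : ∀ i : Fin (k + 1), L₁ * (L₂ * nw W₀ Pr g k q i) = 2 ^ (Pr - wid W₀ g i) :=
    fun i => congrFun hN0 i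
  obtain ⟨aF, haF, hev⟩ := hbr (2 ^ (Pr - W₁)) L₁ L₂ (nw W₀ Pr g k q) (2 ^ a) (2 ^ (W₁ + 3))
    Nat.one_le_two_pow (by rw [hL₁]; exact Nat.one_le_two_pow)
    (by rw [hL₂]; exact Nat.one_le_two_pow) (nw_pos W₀ Pr g k q) (by
      calc (2 : ℝ) = 2 ^ 1 := (pow_one _).symm
        _ ≤ 2 ^ a := pow_le_pow_right₀ one_le_two ha) (by positivity)
  refine ⟨aF, haF, ?_⟩
  have key := hev (F.Ω × F.Ω) ((V₁ × (ℕ × F.ζ)) × (V₀ × (ℕ × (Fin (k + 1) → ℤ))))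
    (P2 (Pool.Agent.H49.Ent.cond F.p A True) (slam F W₀))
    (fun e => ((z₁' (slam F W₁ e.2), F.W e.2), (z₀' (slam F W₀ e.1),
            (F.T1 W₀ e.1, nidx (fun i : Fin (k + 1) => 2 ^ (Pr - wid W₀ g i))
              (ndg (2 ^ (Pr - W₁)) (gsy k W₁ (P (z₀' (slam F W₀ e.1))))
                (bse (xte c k W₁ Pr sg F e.1)))))))
    (fun v => gsy k W₁ (P v.2.1)) (fun v => v.2.2.2) (fun v => Qh v.1.1)
    (fun v => rfm k D (Qh v.1.1)) (fun e => xte c k W₁ Pr sg F e.1) η h μ hP2 hh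
    (by rw [hL₁r]; exact h1) (by rw [hL₂r]; exact h2) (fun e he => by
      obtain ⟨hA1, hA2⟩ := hsupp e he
      have hQ' := hQ _ hA2
      rw [hc₁ _ hA2] at hQ'
      exact ⟨gsy_tri (htri _), fun i => gsy_deg (hdeg _) i, fun j => rfm_deg hQ' _, hQ'⟩)
    (fun e _ => by rw [hN0]) (by
      rw [hN0]
      simp only [hN0i]
      exact hful) (fun e _ => hxS e.1) (fun e he kk => hη e (hsupp e he).2 kk)
  refine le_trans (ms_le hP2.nonneg ?_) key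
  intro e he hne
  obtain ⟨hA1, hA2⟩ := hsupp e he
  intro hcon
  refine hne ?_
  have hz0 := hc₀ _ hA1
  have hz1 := hc₁ _ hA2
  intro kk hpos hlow
  have h3 := hcon kk
  simp only [← hz0, ← hz1] at h3
  obtain ⟨i, b', u', f1, f2, f3, f4⟩ := h3 hpos hlow
  exact ⟨i, b', u', f1, f2, f3.trans (by linarith), f4⟩

/-- The size of the last coordinate. -/
theorem xte_bd {m J : ℕ} {F : Fam m J} (hG : Pool.GEN.Gd F) (c : ℕ → Fin m) (k : ℕ) {W Pr : ℕ}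
    (sg : ℕ) (hW : W ≤ Pr) (hP : Pr ≤ J) (ω : F.Ω) :
    |xte c k W Pr sg F ω none| ≤ 2 ^ (W + 3) := by
  have h1 := xte_near (F := F) c k sg hW hP ω none
  have hM : (1 : ℝ) ≤ ((2 ^ (Pr - W) : ℕ) : ℝ) := by exact_mod_cast Nat.one_le_two_pow
  have h2 : (2 : ℝ) / ((2 ^ (Pr - W) : ℕ) : ℝ) ≤ 2 := div_le_self (by norm_num) hM
  obtain ⟨x0, x2⟩ := gd_x hG ω (c k)
  have pJ : (0 : ℝ) < 2 ^ J := by positivity
  have h3 : zsw c k W sg (ptr F J ω) none =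
      2 ^ W * (((⌊(2 : ℝ) ^ J * F.x ω (c k)⌋ : ℤ) : ℝ) / 2 ^ J / 2 ^ sg) := by
    show 2 ^ W * (px c (ptr F J ω) (k + 1) / 2 ^ sg) = _
    rw [px_succ]
    rfl
  have f1 := Int.floor_le ((2 : ℝ) ^ J * F.x ω (c k))
  have f2 : (0 : ℝ) ≤ ((⌊(2 : ℝ) ^ J * F.x ω (c k)⌋ : ℤ) : ℝ) := by
    exact_mod_cast Int.floor_nonneg.2 (mul_nonneg pJ.le x0)
  have h4 : 0 ≤ (((⌊(2 : ℝ) ^ J * F.x ω (c k)⌋ : ℤ) : ℝ) / 2 ^ J / 2 ^ sg) := by positivity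
  have h5 : (((⌊(2 : ℝ) ^ J * F.x ω (c k)⌋ : ℤ) : ℝ) / 2 ^ J / 2 ^ sg) ≤ 2 := by
    have e1 : (((⌊(2 : ℝ) ^ J * F.x ω (c k)⌋ : ℤ) : ℝ) / 2 ^ J) ≤ 2 := by
      rw [div_le_iff₀ pJ]
      nlinarith
    exact (div_le_self (by positivity) (one_le_pow₀ one_le_two)).trans e1
  have hW1 : (1 : ℝ) ≤ 2 ^ W := one_le_pow₀ one_le_two
  have h6 : |zsw c k W sg (ptr F J ω) none| ≤ 2 ^ W * 2 := by
    rw [h3, abs_of_nonneg (by positivity)]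
    exact mul_le_mul_of_nonneg_left h5 (by positivity)
  have h7 : (2 : ℝ) ^ (W + 3) = 2 ^ W * 8 := by
    rw [pow_add]
    norm_num
  rw [h7]
  have h8 := abs_sub_abs_le_abs_sub (xte c k W Pr sg F ω none) (zsw c k W sg (ptr F J ω) none)
  rw [abs_sub_comm] at h8
  linarith

/-- The digits. -/
theorem brg_num {J W₁ K₂ cc q' : ℕ} {q C : ℝ} (hq : 0 < q) (hC : C ≤ 2 ^ cc) (hC1 : 1 ≤ C)
    (hq2 : q * J < q' + 1) (hW : W₁ ≤ J) (hK : 64 / q ≤ K₂ + 1)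
    (hJ : 4 * ((cc : ℝ) + 5) + 16 ≤ q * J) (hJ2 : (cc : ℝ) + 3 ≤ 2 * J) :
    1 ≤ q' / 8 ∧ C * 2 ^ (q' / 8) * Real.exp (q * J / 16) ≤ 2 ^ (q' - q' / 2) ∧
      C * Real.exp (q * J / 16) ≤ 2 ^ (q' / 2) ∧
      C * 2 ^ (W₁ + 3) / (2 ^ (q' / 8)) ^ (K₂ + 1) ≤ 1 / 2 ^ J := by
  have hJ0 : (0 : ℝ) ≤ J := Nat.cast_nonneg J
  have hq'1 : 4 * (cc + 5) + 15 < q' + 1 := by
    have : (4 * ((cc : ℝ) + 5) + 15) < q' + 1 := by linarith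
    exact_mod_cast this
  have hl2 : 1 / 2 < Real.log 2 := by
    have := Real.log_two_gt_d9
    linarith
  have hexp : Real.exp (q * J / 16) ≤ 2 ^ (q' / 8 + 2) := by
    rw [← Real.exp_log (show (0 : ℝ) < 2 ^ (q' / 8 + 2) by positivity), Real.log_pow]
    refine Real.exp_le_exp.2 ?_
    have h1 : (q' : ℝ) + 1 ≤ 8 * ((q' / 8 + 2 : ℕ) : ℝ) := by
      exact_mod_cast (by omega : q' + 1 ≤ 8 * (q' / 8 + 2))
    have h2 : (0 : ℝ) ≤ ((q' / 8 + 2 : ℕ) : ℝ) := Nat.cast_nonneg _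
    nlinarith
  have hexp0 := Real.exp_pos (q * J / 16)
  have hC0 : 0 < C := by linarith
  refine ⟨by omega, ?_, ?_, ?_⟩
  · calc C * 2 ^ (q' / 8) * Real.exp (q * J / 16) ≤
          2 ^ cc * 2 ^ (q' / 8) * 2 ^ (q' / 8 + 2) :=
          mul_le_mul (mul_le_mul_of_nonneg_right hC (by positivity)) hexp hexp0.le (by positivity)
      _ = 2 ^ (cc + q' / 8 + (q' / 8 + 2)) := by ring
      _ ≤ _ := pow_le_pow_right₀ one_le_two (by omega)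
  · calc C * Real.exp (q * J / 16) ≤ 2 ^ cc * 2 ^ (q' / 8 + 2) :=
          mul_le_mul hC hexp hexp0.le (by positivity)
      _ = 2 ^ (cc + (q' / 8 + 2)) := by ring
      _ ≤ _ := pow_le_pow_right₀ one_le_two (by omega)
  · rw [← pow_mul, div_le_div_iff₀ (by positivity) (by positivity), one_mul]
    have h1 : cc + (W₁ + 3) + J ≤ q' / 8 * (K₂ + 1) := by
      have h2 : (cc : ℝ) + (J + 3) + J ≤ ((q' / 8 : ℕ) : ℝ) * (K₂ + 1) := by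
        have h3 : q * J ≤ 16 * ((q' / 8 : ℕ) : ℝ) := by
          have h4 : (q' : ℝ) + 1 ≤ 8 * ((q' / 8 : ℕ) : ℝ) + 8 := by
            exact_mod_cast (by omega : q' + 1 ≤ 8 * (q' / 8) + 8)
          linarith
        rw [div_le_iff₀ hq] at hK
        have h5 : (0 : ℝ) ≤ (K₂ : ℝ) + 1 := by positivity
        have h6 : q * J * ((K₂ : ℝ) + 1) ≤ 16 * ((q' / 8 : ℕ) : ℝ) * (K₂ + 1) :=
          mul_le_mul_of_nonneg_right h3 h5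
        have h7 : 64 * (J : ℝ) ≤ q * J * ((K₂ : ℝ) + 1) := by
          have := mul_le_mul_of_nonneg_right hK hJ0
          linarith
        linarith
      have h3 : ((cc + (W₁ + 3) + J : ℕ) : ℝ) ≤ ((q' / 8 * (K₂ + 1) : ℕ) : ℝ) := by
        push_cast
        have h4 : (W₁ : ℝ) ≤ J := by exact_mod_cast hW
        linarith
      exact_mod_cast h3
    calc C * 2 ^ (W₁ + 3) * 2 ^ J ≤ 2 ^ cc * 2 ^ (W₁ + 3) * 2 ^ J :=
          mul_le_mul_of_nonneg_right (mul_le_mul_of_nonneg_right hC (by positivity)) (by positivity)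
      _ = 2 ^ (cc + (W₁ + 3) + J) := by ring
      _ ≤ _ := pow_le_pow_right₀ one_le_two h1

/-- The deficit of the natural digits. -/
theorem brg_def {k J : ℕ} {g : ℕ → ℕ} {β : ℕ → ℝ} {b y φ ρ L : ℝ} (hy : 0 ≤ y)
    (hb : (∑ i ∈ range k, (1 - β i)) - b ≤ y) (hφ : 0 ≤ φ) (hL : 0 ≤ L)
    (hlog : Real.log (1 + L) ≤ φ * J) (hg : ∀ l < k, |(g l : ℝ) - β l * J| ≤ φ * J) :
    (∑ i ∈ range k, ((J : ℝ) - g i)) * Real.log 2 - b * Real.log 2 * J + ρ * J +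
      k * Real.log (11 + 8 * ((k + 1 : ℕ) : ℝ) * L) ≤
      (y + 2 * k * φ + ρ) * J + k * Real.log (11 + 8 * ((k + 1 : ℕ) : ℝ)) := by
  have hJ0 : (0 : ℝ) ≤ J := Nat.cast_nonneg J
  have hk0 : (0 : ℝ) ≤ k := Nat.cast_nonneg k
  have hl2 : 0 < Real.log 2 := Real.log_pos one_lt_two
  have hl1 : Real.log 2 ≤ 1 := by
    have := Real.log_two_lt_d9
    linarith
  have h1 : ∑ i ∈ range k, ((J : ℝ) - g i) ≤ (∑ i ∈ range k, (1 - β i)) * J + k * (φ * J) := by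
    have h2 : ∑ i ∈ range k, ((J : ℝ) - g i) ≤ ∑ i ∈ range k, ((1 - β i) * J + φ * J) := by
      refine Finset.sum_le_sum fun i hi => ?_
      have := abs_le.1 (hg i (mem_range.1 hi))
      linarith [this.1]
    rw [Finset.sum_add_distrib, Finset.sum_const, Finset.card_range, nsmul_eq_mul,
      ← Finset.sum_mul] at h2
    exact h2
  have h2 : (∑ i ∈ range k, ((J : ℝ) - g i)) - b * J ≤ (y + k * φ) * J := by
    have := mul_le_mul_of_nonneg_right hb hJ0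
    linarith
  have h3 : ((∑ i ∈ range k, ((J : ℝ) - g i)) - b * J) * Real.log 2 ≤ (y + k * φ) * J := by
    have h4 : ((∑ i ∈ range k, ((J : ℝ) - g i)) - b * J) * Real.log 2 ≤
        (y + k * φ) * J * Real.log 2 := mul_le_mul_of_nonneg_right h2 hl2.le
    have h5 : (y + k * φ) * J * Real.log 2 ≤ (y + k * φ) * J * 1 :=
      mul_le_mul_of_nonneg_left hl1 (by positivity)
    linarith
  have h4 : Real.log (11 + 8 * ((k + 1 : ℕ) : ℝ) * L) ≤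
      Real.log (11 + 8 * ((k + 1 : ℕ) : ℝ)) + φ * J := by
    have h5 : 11 + 8 * ((k + 1 : ℕ) : ℝ) * L ≤ (11 + 8 * ((k + 1 : ℕ) : ℝ)) * (1 + L) := by
      have : (0 : ℝ) ≤ 8 * ((k + 1 : ℕ) : ℝ) := by positivity
      nlinarith
    have h6 : 0 < 11 + 8 * ((k + 1 : ℕ) : ℝ) * L := by positivity
    have h7 := Real.log_le_log h6 h5
    rw [Real.log_mul (by positivity) (by positivity)] at h7
    linarith
  have h5 := mul_le_mul_of_nonneg_left h4 hk0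
  linarith

/-- **(E2) The branches over the natural cells, in a class.** -/
theorem ev_br (k K Dq : ℕ) {q : ℝ} (hq : 0 < q) : ∃ (n₀ K₂ : ℕ) (C : ℝ), 1 ≤ C ∧
    ∀ {m : ℕ} {S : PCl m}, KP k → (∀ (τ : ℝ) (J : ℕ) (F : Fam m J) (A : F.Ω → Prop),
      S.St τ J F A → Pool.GEN.Gd F) →
    ∀ {c₀ c₁ : ℕ → Fin m} {w₀ w₁ pr X b y cm : ℝ} {β₀ β₁ : ℕ → ℝ}, 0 ≤ w₀ → w₀ ≤ w₁ → w₁ ≤ 1 →
    TmWn S w₀ →
    (∀ ρ : ℝ, 0 < ρ → ExvY S w₁ (fun J F ω (i : Fin k) => F.X J ω (c₀ i)) (b - ρ)) →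
    0 ≤ y → (∑ i ∈ range k, (1 - β₀ i)) - b ≤ y → 0 < cm → 64 * y ≤ cm * q →
    ∃ φ : ℝ, 0 < φ ∧ Bas S (fun J F A => ∀ (ρ : Equiv.Perm (Fin (k + 1))) (Pr sg₀ sg kap : ℕ)
      (g₀ g₁ : ℕ → ℕ) (L : ℝ) (V₀ V₁ : Type) (z₀ : PtT F → V₀) (z₀' : LnT F → V₀)
      (P₀ : V₀ → ℕ → PN) (z₁ : PtT F → V₁) (z₁' : LnT F → V₁) (P₁ : V₁ → ℕ → PN)
      (Qh : V₁ → MvPolynomial (Option (Fin (k + 1))) ℝ) (ρz : V₁ → ℝ) (KK H L' Λ : ℝ),
      GD F A c₀ c₁ k K Dq w₀ w₁ pr q X φ β₀ β₁ ρ Pr sg₀ sg kap g₀ g₁ L z₀ z₀' P₀ z₁ z₁' P₁ Qh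
        ρz → 1 ≤ KK → 1 ≤ H → 1 ≤ L' → 1 ≤ Λ →
      (∀ ω, A ω → ∀ j ≤ Dq, C * (H * bth Dq KK H L' Λ (ρz (z₁ (ptr F J ω))) j) ≤
        2 ^ (⌊w₁ * J⌋₊ + 3)) →
      ∃ aF : (Fin (k + 1) → MvPolynomial (Fin (k + 1)) ℝ) →
        MvPolynomial (Option (Fin (k + 1))) ℝ → (Fin (k + 1) → ℤ) → Fin Dq → Fin n₀ →
          MvPolynomial (Fin (k + 1)) ℝ,
        (∀ G Q b kk i, (aF G Q b kk i).totalDegree ≤ K₂) ∧
        ms (P2 (Pool.Agent.H49.Ent.cond F.p A True) (slam F ⌊w₀ * J⌋₊)) (fun e => ¬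
          EvBr F c₀ k ⌊w₀ * J⌋₊ ⌊w₁ * J⌋₊ Pr sg ⌊q * J⌋₊ g₀ ρ z₀ P₀ z₁ Qh ρz Dq n₀ C
            (1 / 2 ^ J) KK H L' Λ aF e) ≤ cm) := by
  classical
  obtain ⟨K₂, hK₂⟩ := exists_nat_ge (64 / q)
  obtain ⟨n₀, C, hC, hm⟩ := brg_m k Dq K K₂
  refine ⟨n₀, K₂, C, hC, ?_⟩
  intro m S hKP hgd c₀ c₁ w₀ w₁ pr X b y cm β₀ β₁ hw0 hw01 hw1 htm hex hy hby hcm hyq
  obtain ⟨cc, hcc⟩ : ∃ n : ℕ, C ≤ 2 ^ n := by
    obtain ⟨n, hn⟩ := pow_unbounded_of_one_lt C (by norm_num : (1 : ℝ) < 2)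
    exact ⟨n, hn.le⟩
  have hk0 : (0 : ℝ) ≤ k := Nat.cast_nonneg k
  -- the losses
  obtain ⟨φ, hφ⟩ : ∃ φ : ℝ, φ = min (cm * q / (512 * (k + 1))) (q / 8) := ⟨_, rfl⟩
  have hφ0 : 0 < φ := by rw [hφ]; exact lt_min (by positivity) (by positivity)
  have hφ1 : 512 * (k + 1) * φ ≤ cm * q := by
    have h1 : φ ≤ cm * q / (512 * (k + 1)) := by rw [hφ]; exact min_le_left _ _
    rw [le_div_iff₀ (by positivity)] at h1
    linarith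
  have hφ2 : φ ≤ q / 8 := by rw [hφ]; exact min_le_right _ _
  have hcq : 0 < cm * q := by positivity
  have hful := ful_gc hKP hw01 (hw01.trans hw1) htm (c := c₀) (b := b) hex
    (ρ := cm * q / 512) (by positivity)
  obtain ⟨Cl, hCl⟩ : ∃ Cl : ℝ, Cl = k * Real.log (11 + 8 * ((k + 1 : ℕ) : ℝ)) + Real.log 2 :=
    ⟨_, rfl⟩
  have hCl0 : 0 ≤ Cl := by
    have h1 : 0 ≤ Real.log (11 + 8 * ((k + 1 : ℕ) : ℝ)) := Real.log_nonneg (by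
      have : (0 : ℝ) ≤ 8 * ((k + 1 : ℕ) : ℝ) := by positivity
      linarith)
    have h2 : 0 ≤ Real.log 2 := Real.log_nonneg one_le_two
    rw [hCl]
    positivity
  obtain ⟨J₁, hJ₁⟩ := exists_nat_ge ((4 * ((cc : ℝ) + 5) + 16) / q + (cc + 3) +
    128 * Cl / (cm * q) + (8 + 8 * ((k : ℝ) + 1)) / q)
  refine ⟨φ, hφ0, (hful.and (⟨1, one_pos, 0, fun J _ F A h => hgd _ J F A h⟩ :
    Bas S (fun J F A => Pool.GEN.Gd F))).mono J₁ ?_⟩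
  rintro J hJ F A ⟨⟨hA, hf⟩, hG⟩
  intro ρ Pr sg₀ sg kap g₀ g₁ L V₀ V₁ z₀ z₀' P₀ z₁ z₁' P₁ Qh ρz KK H L' Λ D hKK hH hL' hΛ hθ
  have hJ' : (J₁ : ℝ) ≤ J := by exact_mod_cast hJ
  have e0 := hJ₁.trans hJ'
  have t1 : 0 ≤ (4 * ((cc : ℝ) + 5) + 16) / q := by positivity
  have t2 : (0 : ℝ) ≤ cc + 3 := by positivity
  have t3 : 0 ≤ 128 * Cl / (cm * q) := by positivity
  have t4 : 0 ≤ (8 + 8 * ((k : ℝ) + 1)) / q := by positivity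
  have hJ0 : (0 : ℝ) < J := by
    have : (0 : ℝ) < cc + 3 := by positivity
    linarith
  have j1 : 4 * ((cc : ℝ) + 5) + 16 ≤ q * J := by
    have h1 : (4 * ((cc : ℝ) + 5) + 16) / q ≤ J := by linarith
    rw [div_le_iff₀ hq] at h1
    linarith
  have j2 : (cc : ℝ) + 3 ≤ 2 * J := by linarith
  have j3 : 128 * Cl ≤ cm * q * J := by
    have h1 : 128 * Cl / (cm * q) ≤ J := by linarith
    rw [div_le_iff₀ hcq] at h1
    linarith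
  have j4 : 8 + 8 * ((k : ℝ) + 1) ≤ q * J := by
    have h1 : (8 + 8 * ((k : ℝ) + 1)) / q ≤ J := by linarith
    rw [div_le_iff₀ hq] at h1
    linarith
  have hq2 : q * J < (⌊q * (J : ℝ)⌋₊ : ℝ) + 1 := Nat.lt_floor_add_one _
  have hW1 : ⌊w₁ * (J : ℝ)⌋₊ ≤ J := by
    refine Nat.floor_le_of_le ?_
    calc w₁ * (J : ℝ) ≤ 1 * J := mul_le_mul_of_nonneg_right hw1 hJ0.le
      _ = J := one_mul _
  obtain ⟨n1, n2, n3, n4⟩ := brg_num (J := J) (W₁ := ⌊w₁ * (J : ℝ)⌋₊) (K₂ := K₂) (cc := cc)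
    hq hcc hC hq2 hW1 (by linarith) j1 j2
  have hlog := D.logL
  have hl2 : 1 / 2 < Real.log 2 := by
    have := Real.log_two_gt_d9
    linarith
  -- the gradients are small against the depth
  have hs : 2 * (1 + ((k + 1 : ℕ) : ℝ) * L) ≤ 2 * 2 ^ ⌊q * (J : ℝ)⌋₊ := by
    have h1 : 1 + ((k + 1 : ℕ) : ℝ) * L ≤ ((k + 1 : ℕ) : ℝ) * (1 + L) := by
      push_cast
      nlinarith [D.L0]
    have h2 : ((k + 1 : ℕ) : ℝ) * (1 + L) ≤ 2 ^ ⌊q * (J : ℝ)⌋₊ := by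
      have hL1 : 0 < 1 + L := by linarith [D.L0]
      have hk1 : (0 : ℝ) < ((k + 1 : ℕ) : ℝ) := by positivity
      rw [← Real.log_le_log_iff (by positivity) (by positivity), Real.log_mul hk1.ne' hL1.ne',
        Real.log_pow]
      have h3 : Real.log ((k + 1 : ℕ) : ℝ) ≤ k + 1 := by
        have := Real.log_le_sub_one_of_pos hk1
        push_cast at this ⊢
        linarith
      have h4 : φ * J ≤ q / 8 * J := mul_le_mul_of_nonneg_right hφ2 hJ0.le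
      have h5 : (q * J - 1) * (1 / 2) ≤ (⌊q * (J : ℝ)⌋₊ : ℝ) * Real.log 2 :=
        mul_le_mul (by linarith) hl2.le (by norm_num) (Nat.cast_nonneg _)
      linarith
    linarith
  have hwd : ∀ i < k + 1, wid ⌊w₀ * (J : ℝ)⌋₊ g₀ i + ⌊q * (J : ℝ)⌋₊ ≤ Pr := fun i hi => by
    have := D.wd0 i hi
    omega
  have hfull := hf sg₀ sg K ⌊q * (J : ℝ)⌋₊ Pr L g₀ V₀ V₁ z₀ z₀' P₀ z₁ z₁' D.n0 D.L0 D.WP D.PJ hs
    hwd D.n1.cls
  have hdef := hfull.trans (brg_def hy hby hφ0.le D.L0 hlog D.be0)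
  obtain ⟨aF, haF, hev⟩ := hm (fun v => ren ρ (Qh v))
    (fun e kk => H * bth Dq KK H L' Λ (ρz (z₁ (ptr F J e.2))) kk) (c := c₀) (W₀ := ⌊w₀ * (J : ℝ)⌋₊)
    (W₁ := ⌊w₁ * (J : ℝ)⌋₊) (Pr := Pr) (sg := sg) (q := ⌊q * (J : ℝ)⌋₊)
    (a := ⌊q * (J : ℝ)⌋₊ / 8) (a₁ := ⌊q * (J : ℝ)⌋₊ - ⌊q * (J : ℝ)⌋₊ / 2)
    (a₂ := ⌊q * (J : ℝ)⌋₊ / 2) (h := q * J / 16) hA D.n0.tri D.n0.deg D.n0.cls D.n1.cls
    (fun ω hω => (ren_deg ρ _).trans (D.qd ω hω)) (by omega) hwd (by positivity) n1 n2 n3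
    (fun ω => xte_bd hG c₀ k sg D.WP D.PJ ω) (fun e he kk => by
      refine ⟨?_, hθ e.2 he kk (by have := kk.2; omega)⟩
      have h1 := D.rz0 e.2 he
      have h2 := bE₀_ge Dq hKK hH hL'
      unfold bth
      have h3 : (0 : ℝ) < Λ ^ (kk : ℕ) := by positivity
      have h4 : 0 < bE₀ Dq KK H L' := by linarith
      positivity) n4 hdef
  refine ⟨aF, haF, hev.trans ?_⟩
  rw [div_le_iff₀ (by positivity)]
  have h1 : (2 * (k : ℝ) * φ) * J ≤ cm * q / 256 * J := by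
    refine mul_le_mul_of_nonneg_right ?_ hJ0.le
    nlinarith
  have h2 : y * J ≤ cm * q / 64 * J := mul_le_mul_of_nonneg_right (by linarith) hJ0.le
  have h3 : (y + 2 * k * φ + cm * q / 512) * J + k * Real.log (11 + 8 * ((k + 1 : ℕ) : ℝ)) +
      Real.log 2 ≤ cm * q / 32 * J := by
    rw [hCl] at j3
    linarith
  linarith

end Pool.R1
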