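import Pool.Agent.H96.R1.Noc

/-!
# The geometry of the pairs

`geo_n`: `GeoN n` for all `n`.
-/

set_option autoImplicit false

namespace Pool.R1

/-- **The geometry of the pairs.** -/
theorem geo_n (n : ℕ) : GeoN n :=
  geo_of n fun hn hZ _ Dq _ => noC n Dq (by norm_num) (by norm_num) (hZ (n - 1) (by omega)
    (by omega))

end Pool.R1
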