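import Pool.Agent.H53.JM.Lab2
import Pool.Agent.H96.R1.Twc

/-!
# The labels at two windows, from `TwoW`

`lab2_two`: `Pool.JPN.lab2` in the letters of `TwoW`.
-/

set_option autoImplicit false

namespace Pool.R1

open Finset Real
open Pool.Agent.H49.Ent Pool.Agent.H32.Dense Pool.STK Pool.KA Pool.KSAT Pool.K2S Pool.PB
open Pool.GEN Pool.S6C Pool.GRW Pool.PKG
open Pool.CHT (bet)
open Pool.ONE (lst)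
open Pool.JPN (LbX lab2 m3s)

variable {n : ℕ} {hn : 2 ≤ n} {S : PCl n} {P : ℝ → ℝ → ℝ} {ρ : ℝ → ℝ} {θ : ℝ}
  {PP : List (Fin n) × Fin n → ℝ → ℝ → ℝ} {w₀ w₁ α : ℝ} {c₀ c₁ : ℕ → Fin n} {P1 cD : ℝ}

theorem T2c_mono {m : ℕ} {S : PCl m} {k : Fin m} {α Q σ σ' : ℝ} (h : Pool.TOP.T2c S k α Q σ)
    (hσ : σ ≤ σ') : Pool.TOP.T2c S k α Q σ' := by
  intro K ε hε
  refine (h K ε hε).mono 0 ?_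
  rintro J - F A h1 a q s ha hq hs
  refine h1 a q s ha hq (le_trans ?_ hs)
  exact mul_le_mul_of_nonneg_right (by linarith) (Nat.cast_nonneg J)

/-- **The labels at two windows of a class.** -/
theorem lab2_two (H : TwoW hn S P ρ θ PP w₀ w₁ α c₀ c₁ P1 cD) :
    ∃ (D D' sh sh₂ K' Dq sh' sh₂' K'' Dq' : ℕ) (S₀ E₀ S₀' E₀' : ℝ), sh ≤ sh₂ ∧ 1 ≤ K' ∧
    1 ≤ S₀ ∧ 1 ≤ E₀ ∧ sh' ≤ sh₂' ∧ 1 ≤ K'' ∧ 1 ≤ S₀' ∧ 1 ≤ E₀' ∧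
    ∀ δ δ' : ℝ, 0 < δ → 0 < δ' → ∃ K₁ : ℝ, 0 < K₁ ∧ Bas S (fun J F A => ∃ B : F.Ω → Prop,
      Sub B A ∧ Pe F.p A ≤ K₁ * Pe F.p B ∧
      LbX F c₀ (n - 1) ⌊w₀ * J⌋₊ ⌊(1 - cD / 2 - P w₀ w₀) * J⌋₊ D sh sh₂ K' Dq S₀ E₀
        (fun l => bet PP c₀ l w₀ w₀) (P w₀ w₀) (1 - cD / 2)
        (1 - cD / 2 - max (P w₀ w₀) (bet PP c₀ (n - 2) w₀ w₀)) δ B ∧
      LbX F c₁ (n - 1) ⌊w₁ * J⌋₊ ⌊(1 - cD / 2 - P1) * J⌋₊ D' sh' sh₂' K'' Dq' S₀' E₀'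
        (fun l => bet PP c₁ l w₁ w₁) P1 (1 - cD / 2)
        (1 - cD / 2 - max P1 (bet PP c₁ (n - 2) w₁ w₁)) δ' B) := by
  obtain ⟨al, g₀, s, d, e, K₀, N, hal, hg₀, hnum, he, hC⟩ := H.cl
  exact lab2 (m3s _) hn H.gdy0 H.gdy1 hC.ne (fun τ J F A h =>
    let q := hC.mem τ J F A h
    ⟨q.1, q.2.1, q.2.2.1, q.2.2.2.1⟩) H.cht H.θ0
    H.tgs H.cD0 H.θ1 H.t1 (T2c_mono H.t2 (by linarith [H.cD0])) H.αP (Pool.TOP.q_le H.rate H.cD0 H.cD1) H.w0 H.w01 H.w1α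
    H.P01.le H.P11.le H.wgd0 H.wgd1 H.dn0.1 H.dn1.1 H.dn0.2 H.dn1.2 H.ex0 H.ex1

end Pool.R1
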