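import Pool.Agent.H96.R1.Gdp
import Pool.Agent.H71.GEN.Kpf

/-!
# The facts of the class at two windows

`two_facts`: the hypotheses of the events of the pairs, from `TwoW`.
-/

set_option autoImplicit false

namespace Pool.R1

open Finset Real
open Pool.Agent.H49.Ent Pool.Agent.H32.Dense Pool.STK Pool.KA Pool.KSAT Pool.K2S Pool.PB
  Pool.STAT Pool.STAT.CLO Pool.GEN Pool.S6C Pool.M3F Pool.JPN Pool.GEO Pool.GRW Pool.PKG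
open Pool.LBT (ThrOf)
open Pool.CHT (bet)
open Pool.ONE (lst)
open Pool.FRN (Gdy Wgd)

variable {n : ℕ} {hn : 2 ≤ n} {S : PCl n} {P : ℝ → ℝ → ℝ} {ρ : ℝ → ℝ} {θ : ℝ}
  {PP : List (Fin n) × Fin n → ℝ → ℝ → ℝ} {w₀ w₁ α : ℝ} {c₀ c₁ : ℕ → Fin n} {P1 cD : ℝ}

/-- **The facts of the class at two windows.** -/
structure TwF (S : PCl n) (w₁ : ℝ) (c₀ c₁ : ℕ → Fin n) (β₁ : ℕ → ℝ) : Prop where
  kp : KP (n - 1)
  tm : ∀ w : ℝ, TmWn S w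
  gd : ∀ (τ : ℝ) (J : ℕ) (F : Fam n J) (A : F.Ω → Prop), S.St τ J F A → Pool.GEN.Gd F
  mem : ∀ (τ : ℝ) (J : ℕ) (F : Fam n J) (A : F.Ω → Prop), S.St τ J F A →
    F.Tr ∧ F.Tm (τ * J) ∧ F.Rb (τ * J) ∧ Real.exp (-(τ * J)) ≤ Pe F.p A
  ne : S.Ne
  pos : Bas S (fun _ F A => 0 < Pe F.p A)
  ex0 : ∀ h : ℝ, 0 < h → ExvY S w₁ (fun J F ω (i : Fin (n - 1)) => F.X J ω (c₀ i))
    ((∑ i ∈ range (n - 1), (1 - β₁ i)) - h)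
  ex1 : ∀ h : ℝ, 0 < h → ExvY S w₁ (fun J F ω (i : Fin (n - 1)) => F.X J ω (c₁ i))
    ((∑ i ∈ range (n - 1), (1 - β₁ i)) - h)

theorem two_facts (hF : FZX (n - 1)) (H : TwoW hn S P ρ θ PP w₀ w₁ α c₀ c₁ P1 cD) :
    TwF S w₁ c₀ c₁ (fun l => bet PP c₁ l w₁ w₁) := by
  obtain ⟨al, g₀, s, d, e, K₀, N, hal, hg₀, hnum, he, hC⟩ := H.cl
  exact ⟨kp_fzx hF, fun w => Pool.GRW.TmC.wn (Pool.GEN.N83.clx_tmc hC) w,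
    fun τ J F A h => (hC.mem τ J F A h).2.2.2.2.1, fun τ J F A h =>
    let q := hC.mem τ J F A h
    ⟨q.1, q.2.1, q.2.2.1, q.2.2.2.1⟩, hC.ne, Pool.JPN.clx_pos hC,
    fun h hh => exv_perm (fun i => by
      obtain ⟨j, hj, h2⟩ := gdy_all H.gdy0 (H.gdy1.ne i i.2)
      exact ⟨⟨j, hj⟩, h2⟩) (H.ex1 h hh), H.ex1⟩

end Pool.R1
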