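import Pool.Agent.H53.JM.LabT
import Pool.Agent.H86.GEO.Gdt

/-!
# The data of the pairs, from the labels of two windows

`gd_mem`: the data `GD` of one member, from the labels `LbW` at two windows. `gd_two`: the data of
the pairs of a class, from `TwoW`.
-/

set_option autoImplicit false

namespace Pool.R1

open Finset Real
open Pool.Agent.H49.Ent Pool.Agent.H32.Dense Pool.STK Pool.KA Pool.KSAT Pool.K2S Pool.PB
  Pool.STAT Pool.STAT.CLO Pool.GEN Pool.S6C Pool.M3F Pool.JPN Pool.GEO Pool.GRW Pool.PKG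
open Pool.LBT (ThrOf)
open Pool.CHT (TmH chsys bet tmH_of_reg)
open Pool.ONE (lst)
open Pool.FRN (Gdy Wgd)

variable {m J : ℕ}

/-- The permutation between two orders of the same coordinates; `0` is the time. -/
theorem perm_ex {r : ℕ} {c₀ c₁ : ℕ → Fin m} (h1 : Set.InjOn c₁ (Set.Iio r))
    (hc : ∀ i < r, ∃ j < r, c₀ j = c₁ i) : ∃ σ : Equiv.Perm (Fin (r + 1)), σ 0 = 0 ∧
      ∀ i : Fin (r + 1), i ≠ 0 → c₁ (i.val - 1) = c₀ ((σ i).val - 1) := by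
  classical
  have h2 : ∀ i : Fin r, ∃ j : Fin r, c₀ j = c₁ i := fun i => by
    obtain ⟨j, hj, h⟩ := hc i i.2
    exact ⟨⟨j, hj⟩, h⟩
  choose f hf using h2
  have hinj : Function.Injective f := fun i j hij => by
    have h3 : c₁ i = c₁ j := by rw [← hf i, ← hf j, hij]
    exact Fin.ext (h1 i.2 j.2 h3)
  obtain ⟨s, hs⟩ : ∃ s : Equiv.Perm (Fin r), ∀ i, s i = f i :=
    ⟨Equiv.ofBijective f (Finite.injective_iff_bijective.1 hinj), fun i => rfl⟩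
  refine ⟨Equiv.Perm.decomposeFin.symm (0, s), ?_, fun i hi => ?_⟩
  · exact Equiv.Perm.decomposeFin_symm_apply_zero 0 s
  · obtain ⟨j, rfl⟩ := Fin.exists_succ_eq.2 hi
    rw [Equiv.Perm.decomposeFin_symm_apply_succ, Equiv.swap_self, Equiv.refl_apply, hs]
    simp only [Fin.val_succ, Nat.add_sub_cancel]
    exact (hf j).symm

/-- A greedy order runs through all coordinates but the last one. -/
theorem gdy_all {P : List (Fin m) × Fin m → ℝ → ℝ → ℝ} {k : Fin m} {a w : ℝ} {c : ℕ → Fin m}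
    (h : Gdy P k a w c) {x : Fin m} (hx : x ≠ k) : ∃ j < m - 1, c j = x := by
  classical
  have h1 : (range (m - 1)).image c = univ.erase k := by
    refine Finset.eq_of_subset_of_card_le (fun y hy => ?_) ?_
    · obtain ⟨j, hj, rfl⟩ := mem_image.1 hy
      exact mem_erase.2 ⟨h.ne j (mem_range.1 hj), mem_univ _⟩
    · rw [card_erase_of_mem (mem_univ k), card_univ, Fintype.card_fin,
        Finset.card_image_of_injOn (fun x hx y hy hxy => h.inj (mem_range.1 hx)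
          (mem_range.1 hy) hxy), card_range]
  have h2 : x ∈ (range (m - 1)).image c := by
    rw [h1]
    exact mem_erase.2 ⟨hx, mem_univ _⟩
  obtain ⟨j, hj, h3⟩ := mem_image.1 h2
  exact ⟨j, mem_range.1 hj, h3⟩

/-- The permutation between two greedy orders. -/
theorem perm_gdy {P : List (Fin m) × Fin m → ℝ → ℝ → ℝ} {k : Fin m} {a w a' w' : ℝ}
    {c₀ c₁ : ℕ → Fin m} (h0 : Gdy P k a w c₀) (h1 : Gdy P k a' w' c₁) :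
    ∃ σ : Equiv.Perm (Fin (m - 1 + 1)), σ 0 = 0 ∧
      ∀ i : Fin (m - 1 + 1), i ≠ 0 → c₁ (i.val - 1) = c₀ ((σ i).val - 1) :=
  perm_ex h1.inj fun i hi => gdy_all h0 (h1.ne i hi)

theorem nlab_mono {F : Fam m J} {c : ℕ → Fin m} {r W sg : ℕ} {g : ℕ → ℕ} {K K' : ℕ} {L L' : ℝ}
    {B : F.Ω → Prop} {V : Type} {z : PtT F → V} {z' : LnT F → V} {P : V → ℕ → PN}
    (h : NLabW F c r W sg g K L B z z' P) (hK : K ≤ K') (hL : L ≤ L') :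
    NLabW F c r W sg g K' L' B z z' P :=
  ⟨fun v i => (h.deg v i).trans hK, h.tri, h.cls, h.zero, h.pos, h.posN,
    fun ω hω b hb i hi l hl => (h.grad ω hω b hb i hi l hl).trans hL⟩

/-- The data with larger losses. -/
theorem gd_mono {F : Fam m J} {A : F.Ω → Prop} {c₀ c₁ : ℕ → Fin m} {k K Dq : ℕ}
    {w₀ w₁ pr q X φ φ' : ℝ} {β₀ β₁ : ℕ → ℝ} {ρ : Equiv.Perm (Fin (k + 1))} {Pr sg₀ sg kap : ℕ}
    {g₀ g₁ : ℕ → ℕ} {L : ℝ} {V₀ V₁ : Type} {z₀ : PtT F → V₀} {z₀' : LnT F → V₀}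
    {P₀ : V₀ → ℕ → PN} {z₁ : PtT F → V₁} {z₁' : LnT F → V₁} {P₁ : V₁ → ℕ → PN}
    {Qh : V₁ → MvPolynomial (Option (Fin (k + 1))) ℝ} {ρz : V₁ → ℝ}
    (h : GD F A c₀ c₁ k K Dq w₀ w₁ pr q X φ β₀ β₁ ρ Pr sg₀ sg kap g₀ g₁ L z₀ z₀' P₀ z₁ z₁' P₁ Qh
      ρz) (hφ : φ ≤ φ') :
    GD F A c₀ c₁ k K Dq w₀ w₁ pr q X φ' β₀ β₁ ρ Pr sg₀ sg kap g₀ g₁ L z₀ z₀' P₀ z₁ z₁' P₁ Qh
      ρz := by
  have hJ := mul_le_mul_of_nonneg_right hφ (Nat.cast_nonneg J : (0 : ℝ) ≤ J)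
  exact ⟨h.n0, h.n1, h.L0, h.logL.trans hJ, h.W01, h.WP, h.PJ, h.Pg, h.Pr0.trans hJ,
    fun l hl => (h.be0 l hl).trans hJ, fun l hl => (h.be1 l hl).trans hJ, h.wd0, h.wd1, h.dp0,
    h.kp0, h.kp1, h.kapJ.trans hJ, h.qd, h.csq, h.rz0, h.rz1,
    fun ω hω => (h.rz2 ω hω).trans (Real.exp_le_exp.2 hJ), h.r0, h.rk, h.rc⟩

/-- **The data of the pairs of a member**, from the labels at two windows. -/
theorem gd_mem (r Dq K' K'' sh sh₂ sh' sh₂' : ℕ) {c₀ c₁ : ℕ → Fin m} {w₀ w₁ pN₀ pN₁ sr EE₀ EE₁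
      q X γ : ℝ} {β₀ β₁ : ℕ → ℝ} {σ : Equiv.Perm (Fin (r + 1))} (hw0 : 0 ≤ w₀) (hw01 : w₀ ≤ w₁)
    (hq : 0 ≤ q) (hX : 0 ≤ X) (hγ : 0 < γ) (h0l : ∀ l < r, w₀ ≤ β₀ l) (h1l : ∀ l < r, w₁ ≤ β₁ l)
    (h0u : ∀ l < r, β₀ l + q + X + 4 * γ ≤ sr) (h1u : ∀ l < r, β₁ l + 4 * γ ≤ sr)
    (hwq : w₀ + q + X + 4 * γ ≤ sr) (hw1 : w₁ + 4 * γ ≤ sr) (hwd : w₁ + 4 * γ ≤ w₀ + q)
    (hpN : pN₁ ≤ sr) (hσ0 : σ 0 = 0) (hσ : c₁ r = c₀ r)
    (hσc : ∀ i : Fin (r + 1), i ≠ 0 → c₁ (i.val - 1) = c₀ ((σ i).val - 1)) {φ : ℝ} (hφ : 0 < φ) :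
    ∃ δ : ℝ, 0 < δ ∧ ∃ J₁ : ℕ, ∀ J : ℕ, J₁ ≤ J → ∀ {F : Fam m J} {B : F.Ω → Prop}
      {D D' sg₀ : ℕ} {S₀ E₀ S₀' E₀' : ℝ}
      {e EN kk e' EN' kk' : ℕ} {g g₁ g₂ g' g₁' g₂' : ℕ → ℕ} {L L' : ℝ}
      {G G' : PtT F → ℕ → MvPolynomial (Option (Fin m)) ℝ}
      {H H' : LnT F → ℕ → MvPolynomial (Option (Fin m)) ℝ} {V V' : Type} {z : PtT F → V}
      {zl : LnT F → V} {Pv : V → ℕ → PN} {Qv : V → PN} {T : V → ℝ} {kf : V → ℕ}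
      {z' : PtT F → V'} {zl' : LnT F → V'} {Pv' : V' → ℕ → PN} {Qv' : V' → PN} {T' : V' → ℝ}
      {kf' : V' → ℕ},
      NuW J r sg₀ sh sh₂ β₀ pN₀ sr EE₀ δ e EN kk g g₁ g₂ L →
      LbW F c₀ r ⌊w₀ * J⌋₊ sg₀ D K' Dq S₀ E₀ e EN kk g g₁ g₂ L B G H z zl Pv Qv T kf →
      NuW J r ⌊(sr - pN₁) * J⌋₊ sh' sh₂' β₁ pN₁ sr EE₁ δ e' EN' kk' g' g₁' g₂' L' →
      LbW F c₁ r ⌊w₁ * J⌋₊ ⌊(sr - pN₁) * J⌋₊ D' K'' Dq S₀' E₀' e' EN' kk' g' g₁' g₂' L' B G' H'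
        z' zl' Pv' Qv' T' kf' →
      ∃ (Qh : V' → MvPolynomial (Option (Fin (r + 1))) ℝ) (ρz : V' → ℝ),
        GD F B c₀ c₁ r (max K' K'') Dq w₀ w₁ sr q X φ β₀ β₁ σ (g₂' r) sg₀ ⌊(sr - pN₁) * J⌋₊
          (⌈δ * J⌉₊ + (sh + sh')) g₂ g₂' (max L L') z zl Pv z' zl' Pv' Qh ρz := by
  obtain ⟨C, hC, hjet⟩ := jetQ r Dq K''
  obtain ⟨δ, hδ⟩ : ∃ δ : ℝ, δ = min (φ / 4) γ := ⟨_, rfl⟩
  have hδ0 : 0 < δ := by
    rw [hδ]
    exact lt_min (by positivity) hγ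
  have hδφ : δ ≤ φ / 4 := by
    rw [hδ]
    exact min_le_left _ _
  have hδγ : δ ≤ γ := by
    rw [hδ]
    exact min_le_right _ _
  refine ⟨δ, hδ0, ?_⟩
  obtain ⟨J₁, hJ₁⟩ := exists_nat_ge (((sh : ℝ) + sh' + 3) / (φ / 4) +
    ((sh : ℝ) + sh' + 3) / γ + |Real.log C| / (φ / 4))
  refine ⟨J₁, ?_⟩
  intro J hJ F B D D' sg₀ S₀ E₀ S₀' E₀' e EN kk e' EN' kk' g g₁ g₂ g' g₁' g₂' L L' G G' H H' V V'
    z zl Pv Qv T kf z' zl' Pv' Qv' T' kf' hN0 hL0 hN1 hL1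
  have hJ' : (J₁ : ℝ) ≤ J := by exact_mod_cast hJ
  have e0 := hJ₁.trans hJ'
  have hsh : (0 : ℝ) ≤ sh := Nat.cast_nonneg sh
  have hsh' : (0 : ℝ) ≤ sh' := Nat.cast_nonneg sh'
  have hJ0 : (0 : ℝ) ≤ J := Nat.cast_nonneg J
  have t1 : 0 ≤ ((sh : ℝ) + sh' + 3) / (φ / 4) := by positivity
  have t2 : 0 ≤ ((sh : ℝ) + sh' + 3) / γ := by positivity
  have t3 : 0 ≤ |Real.log C| / (φ / 4) := by positivity
  have j1 : (sh : ℝ) + sh' + 3 ≤ φ / 4 * J := by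
    have h1 : ((sh : ℝ) + sh' + 3) / (φ / 4) ≤ J := by linarith
    rw [div_le_iff₀ (by positivity)] at h1
    linarith
  have j2 : (sh : ℝ) + sh' + 3 ≤ γ * J := by
    have h1 : ((sh : ℝ) + sh' + 3) / γ ≤ J := by linarith
    rw [div_le_iff₀ hγ] at h1
    linarith
  have j3 : Real.log C ≤ φ / 4 * J := by
    have h1 : |Real.log C| / (φ / 4) ≤ J := by linarith
    rw [div_le_iff₀ (by positivity)] at h1
    linarith [le_abs_self (Real.log C)]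
  have hδφJ : δ * J ≤ φ / 4 * J := mul_le_mul_of_nonneg_right hδφ hJ0
  have hδγJ : δ * J ≤ γ * J := mul_le_mul_of_nonneg_right hδγ hJ0
  have hδJ0 : 0 ≤ δ * J := by positivity
  obtain ⟨W₀, hW₀⟩ : ∃ W, W = ⌊w₀ * J⌋₊ := ⟨_, rfl⟩
  obtain ⟨W₁, hW₁⟩ : ∃ W, W = ⌊w₁ * J⌋₊ := ⟨_, rfl⟩
  obtain ⟨sg, hsg⟩ : ∃ s, s = ⌊(sr - pN₁) * J⌋₊ := ⟨_, rfl⟩
  obtain ⟨q', hq'⟩ : ∃ s, s = ⌊q * J⌋₊ := ⟨_, rfl⟩
  obtain ⟨X', hX'⟩ : ∃ s, s = ⌊X * J⌋₊ := ⟨_, rfl⟩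
  have W0l : (W₀ : ℝ) ≤ w₀ * J := by
    rw [hW₀]
    exact Nat.floor_le (by positivity)
  have W0u : w₀ * J < W₀ + 1 := by
    rw [hW₀]
    exact Nat.lt_floor_add_one _
  have W1l : (W₁ : ℝ) ≤ w₁ * J := by
    rw [hW₁]
    exact Nat.floor_le (mul_nonneg (hw0.trans hw01) hJ0)
  have sgl : (sg : ℝ) ≤ (sr - pN₁) * J := by
    rw [hsg]
    exact Nat.floor_le (mul_nonneg (by linarith) hJ0)
  have ql : (q' : ℝ) ≤ q * J := by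
    rw [hq']
    exact Nat.floor_le (by positivity)
  have qu : q * J < q' + 1 := by
    rw [hq']
    exact Nat.lt_floor_add_one _
  have Xl : (X' : ℝ) ≤ X * J := by
    rw [hX']
    exact Nat.floor_le (by positivity)
  have hW01 : W₀ ≤ W₁ := by
    rw [hW₀, hW₁]
    exact Nat.floor_le_floor (mul_le_mul_of_nonneg_right hw01 hJ0)
  rw [← hW₀] at hL0
  rw [← hW₁, ← hsg] at hL1
  rw [← hsg] at hN1
  have k1 := mul_le_mul_of_nonneg_right hwq hJ0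
  have k2 := mul_le_mul_of_nonneg_right hw1 hJ0
  have k3 := mul_le_mul_of_nonneg_right hwd hJ0
  have hPl := hN1.g2l
  have hWP : W₁ ≤ g₂' r := by
    have h2 : (W₁ : ℝ) ≤ g₂' r := by linarith
    exact_mod_cast h2
  have hPJ : g₂' r ≤ J := by
    have h1 := hN1.g2N
    have h2 := hN1.g1J
    omega
  have hPu : (g₂' r : ℝ) ≤ (sr + δ) * J := by
    have h1 : g₂' r ≤ g' r + sg := by
      have h1 := hN1.g2N
      have h2 := hN1.g1N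
      omega
    have h2 : (g₂' r : ℝ) ≤ g' r + sg := by exact_mod_cast h1
    have h3 := (abs_le.1 hN1.gN).2
    linarith
  have hg0 : ∀ l < r, (g₂ l : ℝ) ≤ (β₀ l + δ) * J ∧ (β₀ l - δ) * J - sh ≤ g₂ l := by
    intro l hl
    have h1 : (g₂ l : ℝ) + sh = g l := by exact_mod_cast hN0.g2 l hl
    have h2 := abs_le.1 (hN0.gV l hl)
    constructor
    · linarith [h2.2]
    · linarith [h2.1]
  have hg1 : ∀ l < r, (g₂' l : ℝ) ≤ (β₁ l + δ) * J ∧ (β₁ l - δ) * J - sh' ≤ g₂' l := by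
    intro l hl
    have h1 : (g₂' l : ℝ) + sh' = g' l := by exact_mod_cast hN1.g2 l hl
    have h2 := abs_le.1 (hN1.gV l hl)
    constructor
    · linarith [h2.2]
    · linarith [h2.1]
  have hwd1 : ∀ i < r + 1, wid W₁ g₂' i ≤ g₂' r := by
    intro i hi
    unfold wid
    by_cases h0 : i = 0
    · rw [if_pos h0]
      exact hWP
    · rw [if_neg h0]
      have h1 := (hg1 (i - 1) (by omega)).1
      have h2 := mul_le_mul_of_nonneg_right (h1u (i - 1) (by omega)) hJ0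
      have h3 : (g₂' (i - 1) : ℝ) ≤ g₂' r := by linarith
      exact_mod_cast h3
  obtain ⟨kap, hkap⟩ : ∃ kap, kap = ⌈δ * J⌉₊ + (sh + sh') := ⟨_, rfl⟩
  have kapl : δ * J + sh + sh' ≤ kap := by
    rw [hkap]
    push_cast
    linarith [Nat.le_ceil (δ * (J : ℝ))]
  have kapu : (kap : ℝ) ≤ δ * J + 1 + sh + sh' := by
    rw [hkap]
    push_cast
    linarith [Nat.ceil_lt_add_one hδJ0]
  obtain ⟨Qh, ρz, hρ, hQ, hρ1⟩ := hjet (P₀ := g₂' r) Qv' T' kf' hL1.nlab hWP le_rfl hwd1 hL1.jet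
  refine ⟨Qh, ρz, ?_⟩
  rw [← hkap, ← hsg]
  have hM0 : (0 : ℝ) < ((2 ^ (g₂' r - W₁) : ℕ) : ℝ) := by positivity
  refine ⟨by
      rw [← hW₀]
      exact nlab_mono hL0.nlab (le_max_left _ _) (le_max_left _ _), by
      rw [← hW₁]
      exact nlab_mono hL1.nlab (le_max_right _ _) (le_max_right _ _),
    hN0.L0.trans (le_max_left _ _), ?_, by
      rw [← hW₀, ← hW₁]
      exact hW01, by
      rw [← hW₁]
      exact hWP, hPJ, le_rfl, ?_, ?_, ?_, ?_, by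
      rw [← hW₁]
      exact hwd1, ?_, ?_, ?_, ?_, ?_, by
      rw [← hW₁]
      exact hQ, ?_, by
      rw [← hW₁]
      exact hρ1, ?_, hσ0, hσ, hσc⟩
  · rcases le_total L L' with h | h
    · rw [max_eq_right h]
      linarith [hN1.logL]
    · rw [max_eq_left h]
      linarith [hN0.logL]
  · rw [abs_le]
    constructor <;> linarith
  · intro l hl
    obtain ⟨h1, h2⟩ := hg0 l hl
    rw [abs_le]
    constructor <;> linarith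
  · intro l hl
    obtain ⟨h1, h2⟩ := hg1 l hl
    rw [abs_le]
    constructor <;> linarith
  · intro i hi
    rw [← hW₀, ← hq', ← hX']
    unfold wid
    by_cases h0 : i = 0
    · rw [if_pos h0]
      have h3 : (W₀ : ℝ) + q' + X' ≤ g₂' r := by linarith
      exact_mod_cast h3
    · rw [if_neg h0]
      have h1 := (hg0 (i - 1) (by omega)).1
      have h2 := mul_le_mul_of_nonneg_right (h0u (i - 1) (by omega)) hJ0
      have h3 : (g₂ (i - 1) : ℝ) + q' + X' ≤ g₂' r := by linarith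
      exact_mod_cast h3
  · intro i hi
    rw [← hW₀, ← hW₁, ← hq']
    unfold wid
    by_cases h0 : i = 0
    · rw [if_pos h0]
      have h3 : (W₁ : ℝ) ≤ W₀ + q' := by linarith
      exact_mod_cast h3
    · rw [if_neg h0]
      have h1 := (hg0 (i - 1) (by omega)).2
      have h2 := mul_le_mul_of_nonneg_right (h0l (i - 1) (by omega)) hJ0
      have h3 : (W₁ : ℝ) ≤ g₂ (i - 1) + q' := by linarith
      exact_mod_cast h3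
  · intro i hi
    rw [← hW₀]
    unfold wid
    by_cases h0 : i = 0
    · rw [if_pos h0]
      exact Nat.le_add_right _ _
    · rw [if_neg h0]
      have h1 := (hg0 (i - 1) (by omega)).2
      have h2 := mul_le_mul_of_nonneg_right (h0l (i - 1) (by omega)) hJ0
      have h3 : (W₀ : ℝ) ≤ g₂ (i - 1) + kap := by linarith
      exact_mod_cast h3
  · intro i hi
    rw [← hW₁]
    unfold wid
    by_cases h0 : i = 0
    · rw [if_pos h0]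
      exact Nat.le_add_right _ _
    · rw [if_neg h0]
      have h1 := (hg1 (i - 1) (by omega)).2
      have h2 := mul_le_mul_of_nonneg_right (h1l (i - 1) (by omega)) hJ0
      have h3 : (W₁ : ℝ) ≤ g₂' (i - 1) + kap := by linarith
      exact_mod_cast h3
  · linarith
  · intro ω hω
    exact (hQ ω hω).deg
  · intro ω hω
    rw [hρ]
    positivity
  · intro ω hω
    rw [← hW₁, hρ]
    have e1 : ((2 ^ (g₂' r - W₁) : ℕ) : ℝ) * (C * 2 ^ kf' (z' (ptr F J ω)) /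
        ((2 ^ (g₂' r - W₁) : ℕ) : ℝ)) = C * 2 ^ kf' (z' (ptr F J ω)) := by
      field_simp
    rw [e1]
    have h1 : (2 : ℝ) ≤ Real.exp 1 := by
      have := Real.add_one_le_exp (1 : ℝ)
      linarith
    have h2 : (2 : ℝ) ^ kf' (z' (ptr F J ω)) ≤ Real.exp (δ * J) := by
      calc (2 : ℝ) ^ kf' (z' (ptr F J ω)) ≤ 2 ^ kk' :=
            pow_le_pow_right₀ one_le_two (hL1.kle ω hω)
        _ ≤ Real.exp 1 ^ kk' := pow_le_pow_left₀ (by norm_num) h1 _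
        _ = Real.exp (kk' : ℝ) := by rw [← Real.exp_nat_mul, mul_one]
        _ ≤ _ := Real.exp_le_exp.2 hN1.kk_le
    have h3 : C ≤ Real.exp (φ / 4 * J) := by
      rw [← Real.log_le_iff_le_exp (by linarith)]
      exact j3
    calc C * 2 ^ kf' (z' (ptr F J ω)) ≤ Real.exp (φ / 4 * J) * Real.exp (δ * J) :=
          mul_le_mul h3 h2 (by positivity) (Real.exp_pos _).le
      _ = Real.exp (φ / 4 * J + δ * J) := by rw [← Real.exp_add]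
      _ ≤ _ := Real.exp_le_exp.2 (by
          have : 0 ≤ φ * J := by positivity
          linarith)

theorem nuw_mono {J r sg sh sh₂ : ℕ} {β : ℕ → ℝ} {PN sr EE δ δ' : ℝ} {e EN kk : ℕ}
    {g g₁ g₂ : ℕ → ℕ} {L : ℝ} (h : NuW J r sg sh sh₂ β PN sr EE δ e EN kk g g₁ g₂ L)
    (hδ : δ ≤ δ') : NuW J r sg sh sh₂ β PN sr EE δ' e EN kk g g₁ g₂ L := by
  have hJ := mul_le_mul_of_nonneg_right hδ (Nat.cast_nonneg J : (0 : ℝ) ≤ J)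
  exact ⟨h.e_le.trans hJ, by linarith [h.EN_le], h.kk_le.trans hJ,
    fun l hl => (h.gV l hl).trans hJ, h.gN.trans hJ, h.g1, h.g1N, h.g2, h.g2N,
    by linarith [h.g2l], h.g1J, h.L0, h.logL.trans hJ, h.lip⟩

/-- **The labels of two windows with the data of the pairs**, on the event `B`. -/
def GdX (F : Fam m J) (c₀ c₁ : ℕ → Fin m) (r Dq D D' sh sh₂ K' sh' sh₂' K'' : ℕ)
    (S₀ E₀ S₀' E₀' w₀ w₁ pN₀ pN₁ sr EE₀ EE₁ q X φ : ℝ) (β₀ β₁ : ℕ → ℝ)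
    (σ : Equiv.Perm (Fin (r + 1))) (B : F.Ω → Prop) : Prop :=
  ∃ (e EN kk e' EN' kk' : ℕ) (g g₁ g₂ g' g₁' g₂' : ℕ → ℕ) (L L' : ℝ)
    (G G' : PtT F → ℕ → MvPolynomial (Option (Fin m)) ℝ)
    (H H' : LnT F → ℕ → MvPolynomial (Option (Fin m)) ℝ) (V V' : Type) (z : PtT F → V)
    (zl : LnT F → V) (Pv : V → ℕ → PN) (Qv : V → PN) (T : V → ℝ) (kf : V → ℕ)
    (z' : PtT F → V') (zl' : LnT F → V') (Pv' : V' → ℕ → PN) (Qv' : V' → PN) (T' : V' → ℝ)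
    (kf' : V' → ℕ) (kap : ℕ) (Qh : V' → MvPolynomial (Option (Fin (r + 1))) ℝ) (ρz : V' → ℝ),
    NuW J r ⌊(sr - pN₀) * J⌋₊ sh sh₂ β₀ pN₀ sr EE₀ φ e EN kk g g₁ g₂ L ∧
    LbW F c₀ r ⌊w₀ * J⌋₊ ⌊(sr - pN₀) * J⌋₊ D K' Dq S₀ E₀ e EN kk g g₁ g₂ L B G H z zl Pv Qv T
      kf ∧
    NuW J r ⌊(sr - pN₁) * J⌋₊ sh' sh₂' β₁ pN₁ sr EE₁ φ e' EN' kk' g' g₁' g₂' L' ∧
    LbW F c₁ r ⌊w₁ * J⌋₊ ⌊(sr - pN₁) * J⌋₊ D' K'' Dq S₀' E₀' e' EN' kk' g' g₁' g₂' L' B G' H'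
      z' zl' Pv' Qv' T' kf' ∧
    GD F B c₀ c₁ r (max K' K'') Dq w₀ w₁ sr q X φ β₀ β₁ σ (g₂' r) ⌊(sr - pN₀) * J⌋₊
      ⌊(sr - pN₁) * J⌋₊ kap g₂ g₂' (max L L') z zl Pv z' zl' Pv' Qh ρz

variable {n : ℕ} {hn : 2 ≤ n} {S : PCl n} {P : ℝ → ℝ → ℝ} {ρ : ℝ → ℝ} {θ : ℝ}
  {PP : List (Fin n) × Fin n → ℝ → ℝ → ℝ} {w₀ w₁ α : ℝ} {c₀ c₁ : ℕ → Fin n} {P1 cD : ℝ}

/-- The numbers of the labels at two windows. -/
theorem two_num (H : TwoW hn S P ρ θ PP w₀ w₁ α c₀ c₁ P1 cD) :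
    (∀ l, w₀ ≤ bet PP c₀ l w₀ w₀) ∧ (∀ l, w₁ ≤ bet PP c₁ l w₁ w₁) ∧
    (∀ l < n - 1, bet PP c₀ l w₀ w₀ ≤ 1 - 3 / 4 * cD) ∧
    (∀ l < n - 1, bet PP c₁ l w₁ w₁ ≤ 1 - 3 / 4 * cD) ∧ P1 ≤ 1 - cD := by
  obtain ⟨al, g₀, s, d, e, K₀, N, hal, hg₀, hnum, he, hC⟩ := H.cl
  have hS : TmH S := tmH_of_reg (fun τ J F A h =>
    let q := hC.mem τ J F A h
    ⟨q.1, q.2.1, q.2.2.1, q.2.2.2.1⟩)
  have hq := Pool.TOP.q_le H.rate H.cD0 H.cD1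
  have h0 := H.w0
  have h01 := H.w01
  have h1α := H.w1α
  have hα1 := H.α1
  have hP0 := H.αP
  have hc0 := H.cD0
  have hθ1 := H.θ1
  have hθ0 := H.θ0
  exact ⟨fun l => H.cht.low _ w₀ w₀ h0.le le_rfl (by linarith), fun l =>
    H.cht.low _ w₁ w₁ (by linarith) le_rfl (by linarith),
    H.gdy0.bd hC.ne H.cht H.θ0 hS H.t1 hα1.le (by linarith) (by linarith) h0 le_rfl
      (by linarith),
    H.gdy1.bd hC.ne H.cht H.θ0 hS H.t1 hα1.le (by linarith) (by linarith) (by linarith) le_rfl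
      h1α, hq⟩

/-- **The data of the pairs of a class.** -/
theorem gd_two {Dq : ℕ} (hM : M3D (n - 1) Dq) (H : TwoW hn S P ρ θ PP w₀ w₁ α c₀ c₁ P1 cD)
    {q X : ℝ} (hX : 0 ≤ X) (hq : w₁ - w₀ < q) (hqX : q + X < cD / 4) :
    ∃ (D D' sh sh₂ K' sh' sh₂' K'' : ℕ) (S₀ E₀ S₀' E₀' : ℝ) (σ : Equiv.Perm (Fin (n - 1 + 1))),
    sh ≤ sh₂ ∧ 1 ≤ K' ∧ 1 ≤ S₀ ∧ 1 ≤ E₀ ∧ sh' ≤ sh₂' ∧ 1 ≤ K'' ∧ 1 ≤ S₀' ∧ 1 ≤ E₀' ∧
    ∀ φ : ℝ, 0 < φ → ∃ K₁ : ℝ, 0 < K₁ ∧ Bas S (fun J F A => ∃ B : F.Ω → Prop,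
      Sub B A ∧ Pe F.p A ≤ K₁ * Pe F.p B ∧
      GdX F c₀ c₁ (n - 1) Dq D D' sh sh₂ K' sh' sh₂' K'' S₀ E₀ S₀' E₀' w₀ w₁ (P w₀ w₀) P1
        (1 - cD / 2) (1 - cD / 2 - max (P w₀ w₀) (bet PP c₀ (n - 2) w₀ w₀))
        (1 - cD / 2 - max P1 (bet PP c₁ (n - 2) w₁ w₁)) q X φ (fun l => bet PP c₀ l w₀ w₀)
        (fun l => bet PP c₁ l w₁ w₁) σ B) := by
  obtain ⟨D, D', sh, sh₂, K', sh', sh₂', K'', S₀, E₀, S₀', E₀', a1, a2, a3, a4, a5, a6, a7, a8,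
    hlab⟩ := lab2_twoD hM H
  obtain ⟨b1, b2, b3, b4, b5⟩ := two_num H
  obtain ⟨σ, s0, s1⟩ := perm_gdy H.gdy0 H.gdy1
  refine ⟨D, D', sh, sh₂, K', sh', sh₂', K'', S₀, E₀, S₀', E₀', σ, a1, a2, a3, a4, a5, a6, a7,
    a8, ?_⟩
  intro φ hφ
  obtain ⟨γ, hγ⟩ : ∃ γ : ℝ, γ = min ((cD / 4 - (q + X)) / 4) ((w₀ + q - w₁) / 4) := ⟨_, rfl⟩
  have γ0 : 0 < γ := by
    rw [hγ]
    exact lt_min (by linarith) (by linarith)
  have γ1 : 4 * γ ≤ cD / 4 - (q + X) := by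
    have := min_le_left ((cD / 4 - (q + X)) / 4) ((w₀ + q - w₁) / 4)
    rw [← hγ] at this
    linarith
  have γ2 : 4 * γ ≤ w₀ + q - w₁ := by
    have := min_le_right ((cD / 4 - (q + X)) / 4) ((w₀ + q - w₁) / 4)
    rw [← hγ] at this
    linarith
  have h0 := H.w0
  have h01 := H.w01
  have h1α := H.w1α
  have hαP := H.αP
  have hc0 := H.cD0
  obtain ⟨δ, hδ, J₁, hmem⟩ := gd_mem (n - 1) Dq K' K'' sh sh₂ sh' sh₂' (c₀ := c₀) (c₁ := c₁)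
    (w₀ := w₀) (w₁ := w₁) (pN₀ := P w₀ w₀) (pN₁ := P1) (sr := 1 - cD / 2)
    (EE₀ := 1 - cD / 2 - max (P w₀ w₀) (bet PP c₀ (n - 2) w₀ w₀))
    (EE₁ := 1 - cD / 2 - max P1 (bet PP c₁ (n - 2) w₁ w₁)) (q := q) (X := X) (γ := γ)
    (β₀ := fun l => bet PP c₀ l w₀ w₀) (β₁ := fun l => bet PP c₁ l w₁ w₁) (σ := σ) h0.le h01.le
    (by linarith) hX γ0 (fun l _ => b1 l) (fun l _ => b2 l)
    (fun l hl => by linarith [b3 l hl]) (fun l hl => by linarith [b4 l hl]) (by linarith)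
    (by linarith) (by linarith) (by linarith) s0 (by rw [H.gdy1.top, H.gdy0.top]) s1 hφ
  obtain ⟨δ', hδ'⟩ : ∃ δ' : ℝ, δ' = min δ φ := ⟨_, rfl⟩
  have δ0 : 0 < δ' := by
    rw [hδ']
    exact lt_min hδ hφ
  have δ1 : δ' ≤ δ := by
    rw [hδ']
    exact min_le_left _ _
  have δ2 : δ' ≤ φ := by
    rw [hδ']
    exact min_le_right _ _
  obtain ⟨K₁, hK₁, hb⟩ := hlab δ' δ' δ0 δ0
  refine ⟨K₁, hK₁, hb.mono J₁ ?_⟩
  rintro J hJ F A ⟨B, hB, hPe, ⟨e, EN, kk, g, g₁, g₂, L, G, Hh, V, z, z', Pv, Qv, T, kf, h1, h2⟩,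
    ⟨e', EN', kk', g', g₁', g₂', L', G', Hh', V', zz, zz', Pv', Qv', T', kf', h3, h4⟩⟩
  obtain ⟨Qh, ρz, h5⟩ := hmem J hJ (nuw_mono h1 δ1) h2 (nuw_mono h3 δ1) h4
  exact ⟨B, hB, hPe, e, EN, kk, e', EN', kk', g, g₁, g₂, g', g₁', g₂', L, L', G, G', Hh, Hh', V,
    V', z, z', Pv, Qv, T, kf, zz, zz', Pv', Qv', T', kf', _, Qh, ρz, nuw_mono h1 δ2, h2,
    nuw_mono h3 δ2, h4, h5⟩

end Pool.R1
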