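import Pool.Agent.H37.CLO.Fr2
import Pool.Agent.H96.R1.Gdp

/-!
# The shift of the weight of the last coordinate

`nlab_shift`: closed labels with the last coordinate divided by a further power of two.
`jet_shift`: the same for the jets of the equation. `cs_shift`: the equation of the shifted labels.
-/

set_option autoImplicit false

namespace Pool.R1

open Finset Real MvPolynomial
open Pool.Agent.H49.Ent Pool.Agent.H32.Dense Pool.STK Pool.KA Pool.KSAT Pool.K2S Pool.PB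
  Pool.STAT Pool.STAT.CLO Pool.GEN Pool.S6C Pool.M3F Pool.JPN Pool.GEO Pool.GRW Pool.PKG

variable {m J : ℕ}

/-- The label polynomials with the last one divided by `2 ^ s`. -/
noncomputable def shP (r s : ℕ) (P : ℕ → PN) (i : ℕ) : PN :=
  if i = r + 1 then C (1 / 2 ^ s : ℝ) * P i else P i

/-- The digits of the shifted labels. -/
def shG (r s : ℕ) (g : ℕ → ℕ) (i : ℕ) : ℕ := if i = r then g r + s else g i

theorem shG_lt {r s : ℕ} {g : ℕ → ℕ} {i : ℕ} (h : i < r) : shG r s g i = g i := by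
  unfold shG
  rw [if_neg h.ne]

theorem shG_r (r s : ℕ) (g : ℕ → ℕ) : shG r s g r = g r + s := by
  unfold shG
  rw [if_pos rfl]

theorem wid_shG {W r s : ℕ} {g : ℕ → ℕ} {i : ℕ} (h : i < r + 1) :
    wid W (shG r s g) i = wid W g i := by
  unfold wid
  by_cases h0 : i = 0
  · rw [if_pos h0, if_pos h0]
  · rw [if_neg h0, if_neg h0, shG_lt (by omega)]

theorem shP_lt {r s : ℕ} {P : ℕ → PN} {i : ℕ} (h : i < r + 1) : shP r s P i = P i := by
  unfold shP
  rw [if_neg h.ne]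

theorem shP_r (r s : ℕ) (P : ℕ → PN) : shP r s P (r + 1) = C (1 / 2 ^ s : ℝ) * P (r + 1) := by
  unfold shP
  rw [if_pos rfl]

theorem bxr_shP {ρ : ℝ} {W r s : ℕ} {g : ℕ → ℕ} {P : ℕ → PN} {b : ℕ → ℝ} :
    Bxr ρ (wid W (shG r s g)) (shP r s P) (r + 1) b ↔ Bxr ρ (wid W g) P (r + 1) b := by
  unfold Bxr
  constructor
  · intro h i hi
    have := h i hi
    rwa [shP_lt hi, wid_shG hi] at this
  · intro h i hi
    rw [shP_lt hi, wid_shG hi]
    exact h i hi

/-- **The labels with the last coordinate divided by a further power of two.** -/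
theorem nlab_shift {F : Fam m J} {c : ℕ → Fin m} {r W sg : ℕ} {g : ℕ → ℕ} {K : ℕ} {L : ℝ}
    {B : F.Ω → Prop} {V : Type} {z : PtT F → V} {z' : LnT F → V} {P : V → ℕ → PN}
    (h : NLabW F c r W sg g K L B z z' P) (s : ℕ) :
    NLabW F c r W (sg + s) (shG r s g) K L B z z' (fun v => shP r s (P v)) := by
  have h2s : (0 : ℝ) < 2 ^ s := by positivity
  have h2s1 : (1 : ℝ) ≤ 2 ^ s := one_le_pow₀ one_le_two
  refine ⟨fun v i => ?_, fun v i => ?_, h.cls, fun ω hω => ?_, fun ω hω i hi => ?_,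
    fun ω hω => ?_, fun ω hω b hb i hi l hl => ?_⟩
  · unfold shP
    split_ifs
    · refine (totalDegree_mul _ _).trans ?_
      rw [totalDegree_C, zero_add]
      exact h.deg v i
    · exact h.deg v i
  · show (shP r s (P v) i).vars ⊆ _
    unfold shP
    split_ifs
    · refine (vars_mul _ _).trans ?_
      rw [vars_C, empty_union]
      exact h.tri v i
    · exact h.tri v i
  · show shP r s (P (z (ptr F J ω))) 0 = _
    rw [shP_lt (by omega)]
    exact h.zero ω hω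
  · rw [shP_lt (by omega), shG_lt hi]
    exact h.pos ω hω i hi
  · rw [shP_r, shG_r, map_mul, eval_C]
    have h1 := h.posN ω hω
    have e1 : px c (ptr F J ω) (r + 1) / 2 ^ (sg + s) -
        1 / 2 ^ s * eval (px c (ptr F J ω)) (P (z (ptr F J ω)) (r + 1)) =
        1 / 2 ^ s * (px c (ptr F J ω) (r + 1) / 2 ^ sg -
          eval (px c (ptr F J ω)) (P (z (ptr F J ω)) (r + 1))) := by
      rw [pow_add]
      field_simp
    rw [e1, abs_mul, abs_of_pos (by positivity : (0 : ℝ) < 1 / 2 ^ s)]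
    have h3 : 1 / 2 ^ s * (1 / 2 ^ g r + 1 / (2 : ℝ) ^ J) ≤ 1 / 2 ^ (g r + s) + 1 / 2 ^ J := by
      rw [mul_add, pow_add]
      have e2 : 1 / 2 ^ s * (1 / (2 : ℝ) ^ g r) = 1 / (2 ^ g r * 2 ^ s) := by
        field_simp
      rw [e2]
      have h4 : 1 / 2 ^ s * (1 / (2 : ℝ) ^ J) ≤ 1 * (1 / 2 ^ J) :=
        mul_le_mul_of_nonneg_right (by
          rw [div_le_one h2s]
          exact h2s1) (by positivity)
      linarith
    exact (mul_le_mul_of_nonneg_left h1 (by positivity)).trans h3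
  · have h1 := h.grad ω hω b (bxr_shP.1 hb) i hi l hl
    show |eval b (pderiv l (shP r s (P (z (ptr F J ω))) i))| ≤ L
    unfold shP
    split_ifs
    · rw [pderiv_C_mul, map_mul, eval_C, abs_mul, abs_of_pos (by positivity : (0 : ℝ) < 1 / 2 ^ s)]
      have h4 : 1 / 2 ^ s * |eval b (pderiv l (P (z (ptr F J ω)) i))| ≤
          1 * |eval b (pderiv l (P (z (ptr F J ω)) i))| :=
        mul_le_mul_of_nonneg_right (by
          rw [div_le_one h2s]
          exact h2s1) (abs_nonneg _)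
      linarith
    · exact h1

section eqn

variable {r s : ℕ}

/-- The last variable multiplied by `2 ^ s`. -/
noncomputable def scQ (r s : ℕ) (Q : PN) : PN :=
  bind₁ (fun i : ℕ => if i = r + 1 then C (2 ^ s : ℝ) * X i else X i) Q

theorem eval_scQ (b : ℕ → ℝ) (Q : PN) :
    eval b (scQ r s Q) = eval (fun i => if i = r + 1 then 2 ^ s * b i else b i) Q := by
  unfold scQ
  unfold MvPolynomial.eval
  rw [MvPolynomial.eval₂Hom_bind₁]
  congr 1
  congr 1
  ext i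
  split_ifs
  · rw [map_mul, eval₂Hom_C, eval₂Hom_X']
    rfl
  · rw [eval₂Hom_X']

theorem eval_scQ_lf (P : ℕ → PN) (b : ℕ → ℝ) (Q : PN) :
    eval (lfpt r (shP r s P) b) (scQ r s Q) = eval (lfpt r P b) Q := by
  rw [eval_scQ]
  congr 1
  congr 1
  ext i
  unfold lfpt
  by_cases h : i = r + 1
  · subst h
    rw [if_pos rfl, Function.update_self, Function.update_self, shP_r, map_mul, eval_C,
      ← mul_assoc, mul_one_div_cancel (by positivity), one_mul]
  · rw [if_neg h, Function.update_of_ne h, Function.update_of_ne h]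

theorem pd_scQ (Q : PN) : pderiv (r + 1) (scQ r s Q) = C (2 ^ s : ℝ) * scQ r s (pderiv (r + 1) Q) := by
  induction Q using MvPolynomial.induction_on with
  | C a =>
    unfold scQ
    simp
  | add p q hp hq =>
    have e1 : scQ r s (p + q) = scQ r s p + scQ r s q := by
      unfold scQ
      rw [map_add]
    have e2 : scQ r s (pderiv (r + 1) p + pderiv (r + 1) q) =
        scQ r s (pderiv (r + 1) p) + scQ r s (pderiv (r + 1) q) := by
      unfold scQ
      rw [map_add]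
    rw [e1, map_add, hp, hq, map_add, e2, mul_add]
  | mul_X p j hp =>
    have e1 : ∀ a b : PN, scQ r s (a * b) = scQ r s a * scQ r s b := fun a b => by
      unfold scQ
      rw [map_mul]
    have e2 : ∀ a b : PN, scQ r s (a + b) = scQ r s a + scQ r s b := fun a b => by
      unfold scQ
      rw [map_add]
    have e3 : pderiv (r + 1) (scQ r s (X j)) = C (2 ^ s : ℝ) * scQ r s (pderiv (r + 1) (X j)) := by
      unfold scQ
      rw [bind₁_X_right]
      by_cases h : j = r + 1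
      · subst h
        rw [if_pos rfl, pderiv_C_mul, pderiv_X_self, map_one]
      · rw [if_neg h, pderiv_X_of_ne (Ne.symm (Ne.symm h)), map_zero, mul_zero]
    rw [e1, Derivation.leibniz, Derivation.leibniz, e2, hp, e3]
    simp only [smul_eq_mul, e1]
    ring

theorem it_scQ (Q : PN) : ∀ k : ℕ, (fun R : PN => pderiv (r + 1) R)^[k] (scQ r s Q) =
    C ((2 ^ s : ℝ) ^ k) * scQ r s ((fun R : PN => pderiv (r + 1) R)^[k] Q)
  | 0 => by simp
  | k + 1 => by
    rw [Function.iterate_succ_apply', Function.iterate_succ_apply', it_scQ Q k, pderiv_C_mul,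
      pd_scQ, ← mul_assoc, ← C_mul, ← pow_succ]

theorem scQ_deg (Q : PN) : (scQ r s Q).totalDegree ≤ Q.totalDegree := by
  have h1 := Pool.KS3.SML.totalDegree_bind_le (fun i : ℕ => if i = r + 1 then C (2 ^ s : ℝ) * X i else
    (X i : PN)) 1 (fun i => by
      split_ifs
      · refine (totalDegree_mul _ _).trans ?_
        rw [totalDegree_C, zero_add]
        exact (totalDegree_X i).le
      · exact (totalDegree_X i).le) Q
  rw [one_mul] at h1
  exact h1

theorem scQ_vars {Q : PN} (h : Q.vars ⊆ range (r + 2)) : (scQ r s Q).vars ⊆ range (r + 2) := by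
  intro j hj
  unfold scQ at hj
  obtain ⟨i, hi, hji⟩ := mem_vars_bind₁ _ _ hj
  have h1 : j = i := by
    split_ifs at hji
    · have h2 := vars_mul _ _ hji
      rw [vars_C, empty_union, vars_X, mem_singleton] at h2
      exact h2
    · rw [vars_X, mem_singleton] at hji
      exact hji
  rw [h1]
  exact h hi

/-- **The jets of the shifted equation.** -/
theorem jet_shift {D W : ℕ} {g : ℕ → ℕ} {P : ℕ → PN} {Q : PN} {ρ S : ℝ}
    (h : Jet r D (wid W g) P Q ρ S) (s : ℕ) :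
    Jet r D (wid W (shG r s g)) (shP r s P) (scQ r s Q) (ρ / 2 ^ s) (2 ^ s * S) := by
  have h2s : (0 : ℝ) < 2 ^ s := by positivity
  obtain ⟨b, hb, hbS⟩ := h.att
  refine ⟨(scQ_deg Q).trans h.deg, scQ_vars h.vars, mul_pos h2s h.pos, ⟨b, bxr_shP.2 hb, ?_⟩,
    fun b hb k => ?_⟩
  · rw [pd_scQ, map_mul, eval_C, eval_scQ_lf, abs_mul, abs_of_pos h2s, hbS]
  · have h1 := h.jet b (bxr_shP.1 hb) k
    rw [it_scQ, map_mul, eval_C, eval_scQ_lf, abs_mul, abs_of_pos (pow_pos h2s k), div_pow]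
    have e1 : ρ ^ k / (2 ^ s) ^ k * ((2 ^ s) ^ k * |eval (lfpt r P b)
        ((fun R : PN => pderiv (r + 1) R)^[k] Q)|) =
        ρ ^ k * |eval (lfpt r P b) ((fun R : PN => pderiv (r + 1) R)^[k] Q)| := by
      field_simp
    have e2 : ρ / 2 ^ s * (2 ^ s * S) = ρ * S := by
      field_simp
    rw [e1, e2]
    exact h1

end eqn

/-- **The equations of the shifted labels**, with the digits `Pp`. -/
theorem cs_shift (r D K : ℕ) : ∃ C : ℝ, 1 ≤ C ∧ ∀ {m J : ℕ} {F : Fam m J} {c : ℕ → Fin m}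
    {W sg : ℕ} {g : ℕ → ℕ} {L : ℝ} {B : F.Ω → Prop} {V : Type} {z : PtT F → V}
    {z' : LnT F → V} {P : V → ℕ → PN} {Pp s : ℕ} (Q : V → PN) (T : V → ℝ) (k : V → ℕ),
    NLabW F c r W sg g K L B z z' P → W ≤ Pp → Pp ≤ g r + s →
    (∀ i < r + 1, wid W g i ≤ Pp) →
    (∀ ω, B ω → Jet r D (wid W g) (P (z (ptr F J ω))) (Q (z (ptr F J ω)))
      (2 ^ k (z (ptr F J ω)) / 2 ^ g r) (T (z (ptr F J ω)))) →
    NLabW F c r W (sg + s) (shG r s g) K L B z z' (fun v => shP r s (P v)) ∧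
    ∃ (Qh : V → MvPolynomial (Option (Fin (r + 1))) ℝ) (ρ : V → ℝ),
      (∀ v, ρ v = C * 2 ^ k v / ((2 ^ (Pp - W) : ℕ) : ℝ)) ∧
      (∀ ω, B ω → CsQ r D W Pp (shG r s g) (shP r s (P (z (ptr F J ω)))) (Qh (z (ptr F J ω)))
        (ρ (z (ptr F J ω)))) ∧
      ∀ ω, B ω → 1 ≤ ((2 ^ (Pp - W) : ℕ) : ℝ) * ρ (z (ptr F J ω)) := by
  obtain ⟨C, hC, hj⟩ := jetQ r D K
  refine ⟨C, hC, ?_⟩
  intro m J F c W sg g L B V z z' P Pp s Q T k hN hWP hPg hw hJ
  have hN' := nlab_shift hN s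
  refine ⟨hN', ?_⟩
  exact hj (P := fun v => shP r s (P v)) (fun v => scQ r s (Q v)) (fun v => 2 ^ s * T v) k hN'
    hWP (by
      rw [shG_r]
      exact hPg) (fun i hi => by
      rw [wid_shG hi]
      exact hw i hi) (fun ω hω => by
      have h1 := jet_shift (hJ ω hω) s
      rw [shG_r, pow_add]
      rw [div_div] at h1
      exact h1)

/-- **The equations of the shifted labels**, with the digits `Pp` and one number `rq`. -/
theorem cs_unif (r D K : ℕ) : ∃ C : ℝ, 1 ≤ C ∧ ∀ {m J : ℕ} {F : Fam m J} {c : ℕ → Fin m}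
    {W sg : ℕ} {g : ℕ → ℕ} {L : ℝ} {B : F.Ω → Prop} {V : Type} {z : PtT F → V}
    {z' : LnT F → V} {P : V → ℕ → PN} {Pp s kk : ℕ} (Q : V → PN) (T : V → ℝ) (k : V → ℕ) (rq : ℝ),
    NLabW F c r W sg g K L B z z' P → W ≤ Pp → Pp ≤ g r + s →
    (∀ i < r + 1, wid W g i ≤ Pp) →
    (∀ ω, B ω → Jet r D (wid W g) (P (z (ptr F J ω))) (Q (z (ptr F J ω)))
      (2 ^ k (z (ptr F J ω)) / 2 ^ g r) (T (z (ptr F J ω)))) →
    (∀ ω, B ω → k (z (ptr F J ω)) ≤ kk) → C * 2 ^ kk / ((2 ^ (Pp - W) : ℕ) : ℝ) ≤ rq →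
    ∃ (Qh : V → MvPolynomial (Option (Fin (r + 1))) ℝ), (∀ v, (Qh v).totalDegree ≤ D) ∧
      ∀ ω, B ω → CsQ r D W Pp (shG r s g) (shP r s (P (z (ptr F J ω)))) (Qh (z (ptr F J ω)))
        rq := by
  classical
  obtain ⟨C, hC, hj⟩ := jet_csC r D K
  refine ⟨C, hC, ?_⟩
  intro m J F c W sg g L B V z z' P Pp s kk Q T k rq hN hWP hPg hw hJ hkk hrq
  have hM0 : (0 : ℝ) < ((2 ^ (Pp - W) : ℕ) : ℝ) := by positivity
  have h1 : ∀ v, ∃ R : MvPolynomial (Option (Fin (r + 1))) ℝ, R.totalDegree ≤ D ∧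
      ((∃ ω, B ω ∧ z (ptr F J ω) = v) → CsQ r D W Pp (shG r s g) (shP r s (P v)) R rq) := by
    intro v
    by_cases hv : ∃ ω, B ω ∧ z (ptr F J ω) = v
    · obtain ⟨ω, hω, rfl⟩ := hv
      have h2 := jet_shift (hJ ω hω) s
      obtain ⟨j, h3⟩ := hj W Pp (shG r s g) (shP r s (P (z (ptr F J ω))))
        (scQ r s (Q (z (ptr F J ω)))) _ _ rq ((nlab_shift hN s).tri _)
        (fun i _ => (nlab_shift hN s).deg _ i) hWP (fun i hi => by
          rw [wid_shG hi]
          exact hw i hi) (by positivity) h2 (by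
          refine le_trans ?_ hrq
          have e1 : ((2 ^ (Pp - W) : ℕ) : ℝ) = 2 ^ Pp / 2 ^ W := by
            push_cast
            exact Pool.CLO37.two_pow_sub hWP
          rw [e1, mul_div_assoc]
          refine mul_le_mul_of_nonneg_left ?_ (by linarith)
          have e2 : (2 : ℝ) ^ kk / (2 ^ Pp / 2 ^ W) = 2 ^ W * (2 ^ kk / 2 ^ Pp) := by
            field_simp
          rw [e2]
          refine mul_le_mul_of_nonneg_left ?_ (by positivity)
          rw [div_div, ← pow_add]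
          refine div_le_div₀ (by positivity) (pow_le_pow_right₀ one_le_two (hkk ω hω))
            (by positivity) (pow_le_pow_right₀ one_le_two hPg))
      exact ⟨_, h3.deg, fun _ => h3⟩
    · exact ⟨0, by simp, fun h => absurd h hv⟩
  choose Qh hQd hQh using h1
  exact ⟨Qh, hQd, fun ω hω => hQh _ ⟨ω, hω, rfl⟩⟩

/-- **The records of the two windows with one weight.** -/
theorem rec_shift {F : Fam m J} {A : F.Ω → Prop} {c₀ c₁ : ℕ → Fin m} {k K Dq : ℕ}
    {w₀ w₁ pr q X φ : ℝ} {β₀ β₁ : ℕ → ℝ} {ρ : Equiv.Perm (Fin (k + 1))} {Pr sg₀ sg kap : ℕ}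
    {g₀ g₁ : ℕ → ℕ} {L : ℝ} {V₀ V₁ : Type} {z₀ : PtT F → V₀} {z₀' : LnT F → V₀}
    {P₀ : V₀ → ℕ → PN} {z₁ : PtT F → V₁} {z₁' : LnT F → V₁} {P₁ : V₁ → ℕ → PN}
    {Qh : V₁ → MvPolynomial (Option (Fin (k + 1))) ℝ} {ρz : V₁ → ℝ}
    (h : GD F A c₀ c₁ k K Dq w₀ w₁ pr q X φ β₀ β₁ ρ Pr sg₀ sg kap g₀ g₁ L z₀ z₀' P₀ z₁ z₁' P₁ Qh
      ρz) {s Pp : ℕ} (hs : sg₀ = sg + s) (hPP : Pr ≤ Pp) (hPJ : Pp ≤ J) (hPg : Pp ≤ g₁ k + s)
    (hg₀ : g₀ k ≤ Pp) :
    Pool.CLO37.RecW F A k K kap ⌊w₀ * J⌋₊ ⌊w₁ * J⌋₊ Pp sg₀ ⌊q * J⌋₊ c₀ c₁ ρ g₀ (shG k s g₁) L z₀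
      z₀' P₀ z₁ z₁' (fun v => shP k s (P₁ v)) := by
  have hn1 := nlab_shift h.n1 s
  rw [← hs] at hn1
  refine ⟨h.n0, hn1, fun ξ i => ?_, h.rk, h.L0, h.W01, h.WP.trans hPP, hPJ, by
    rw [shG_r]
    exact hPg, hg₀, fun i hi => ?_, fun i hi => ?_⟩
  · by_cases h0 : i = 0
    · rw [h0, h.r0]
      rfl
    · have h1 : ρ i ≠ 0 := fun h2 => h0 (ρ.injective (h2.trans h.r0.symm))
      have h3 : ((i : ℕ)) ≠ 0 := fun h4 => h0 (Fin.ext h4)
      have h4 : ((ρ i : ℕ)) ≠ 0 := fun h5 => h1 (Fin.ext h5)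
      unfold px
      rw [if_neg h3, if_neg h4, h.rc i h0]
  · rw [wid_shG hi]
    exact ⟨h.kp1 i hi, (h.wd1 i hi).trans hPP⟩
  · have := h.wd0 i hi
    omega

end Pool.R1
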