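import Pool.Agent.H96.R1.Gw

/-!
# Continuity of the volume

`cont_vx`: the volume is continuous at a window, if its increment is small between windows on both
sides. `jump_vx`: the size of a jump.
-/

set_option autoImplicit false

namespace Pool.R1

open Finset Real
open Pool.Agent.H49.Ent Pool.Agent.H32.Dense Pool.STK Pool.KA Pool.KSAT Pool.K2S Pool.PB
open Pool.GEN Pool.S6C Pool.GRW Pool.PKG

variable {n : ℕ} {hn : 2 ≤ n} {S : PCl n} {P : ℝ → ℝ → ℝ} {r : ℝ → ℝ}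
  {P' : ℕ → List (Fin n) × Fin n → ℝ → ℝ → ℝ} {Λ : Finset (Fin n) → Fin n → ℝ → ℝ → ℝ}

/-- A monotone function with small increments around a point. -/
theorem cont_of_inc {f : ℝ → ℝ} (hf : Monotone f) {w : ℝ}
    (h : ∀ ε : ℝ, 0 < ε → ∃ a b, a < w ∧ w < b ∧ f b - f a < ε) : ContinuousAt f w := by
  rw [Metric.continuousAt_iff]
  intro ε hε
  obtain ⟨a, b, ha, hb, hab⟩ := h ε hε
  refine ⟨min (w - a) (b - w), lt_min (by linarith) (by linarith), fun {x} hx => ?_⟩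
  rw [Real.dist_eq] at hx ⊢
  have h1 := abs_lt.1 (hx.trans_le (min_le_left _ _))
  have h2 := abs_lt.1 (hx.trans_le (min_le_right _ _))
  have h3 := hf (show a ≤ x by linarith [h1.1])
  have h4 := hf (show x ≤ b by linarith [h2.2])
  have h5 := hf ha.le
  have h6 := hf hb.le
  rw [abs_lt]
  constructor <;> linarith

/-- **Continuity of the volume**, from the increments. -/
theorem cont_vx (H : Pk hn S P r P' Λ) {w : ℝ}
    (h : ∀ ε : ℝ, 0 < ε → ∃ a b, a < w ∧ w < b ∧ vx P P' Λ b - vx P P' Λ a < ε) :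
    ContinuousAt (vx P P' Λ) w := cont_of_inc (vx_mono H) h

/-- **Continuity of the volume**, from the increments between good windows. -/
theorem cont_vx_gw (H : Pk hn S P r P' Λ) {w : ℝ} (h0 : 0 < w) (h1 : w < 1)
    (h : ∀ ε : ℝ, 0 < ε → ∃ d : ℝ, 0 < d ∧ ∀ a ∈ Wr P P' Λ, ∀ b ∈ Wr P P' Λ, w - d < a → a < w →
      w < b → b < w + d → vx P P' Λ b - vx P P' Λ a < ε) : ContinuousAt (vx P P' Λ) w := by
  refine cont_vx H fun ε hε => ?_
  obtain ⟨d, hd, h2⟩ := h ε hε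
  obtain ⟨a, a1, a2, a3⟩ := ex_gw H (x := max (w - d) 0) (y := w) (le_max_right _ _)
    (max_lt (by linarith) h0) h1.le
  obtain ⟨b, b1, b2, b3⟩ := ex_gw H (x := w) (y := min (w + d) 1) h0.le
    (lt_min (by linarith) h1) (min_le_right _ _)
  exact ⟨a, b, a2, b1, h2 a a3 b b3 ((le_max_left _ _).trans_lt a1) a2 b1
    (b2.trans_le (min_le_left _ _))⟩

/-- **Continuity of the volume**, from the increments between the windows of a dense set. -/
theorem cont_vx_ds (H : Pk hn S P r P' Λ) {W : Set ℝ}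
    (hW : ∀ x y : ℝ, 0 ≤ x → x < y → y ≤ 1 → ∃ v ∈ W, x < v ∧ v < y) {w : ℝ} (h0 : 0 < w)
    (h1 : w < 1)
    (h : ∀ ε : ℝ, 0 < ε → ∃ d : ℝ, 0 < d ∧ ∀ a ∈ W, ∀ b ∈ W, w - d < a → a < w →
      w < b → b < w + d → vx P P' Λ b - vx P P' Λ a < ε) : ContinuousAt (vx P P' Λ) w := by
  refine cont_vx H fun ε hε => ?_
  obtain ⟨d, hd, h2⟩ := h ε hε
  obtain ⟨a, a3, a1, a2⟩ := hW (max (w - d) 0) w (le_max_right _ _)
    (max_lt (by linarith) h0) h1.le
  obtain ⟨b, b3, b1, b2⟩ := hW w (min (w + d) 1) h0.le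
    (lt_min (by linarith) h1) (min_le_right _ _)
  exact ⟨a, b, a2, b1, h2 a a3 b b3 ((le_max_left _ _).trans_lt a1) a2 b1
    (b2.trans_le (min_le_left _ _))⟩

/-- **The size of a jump of the volume.** -/
theorem jump_vx (H : Pk hn S P r P' Λ) {w : ℝ} (h : ¬ ContinuousAt (vx P P' Λ) w) :
    ∃ g : ℝ, 0 < g ∧ ∀ a b : ℝ, a < w → w < b → g ≤ vx P P' Λ b - vx P P' Λ a := by
  by_contra hcon
  push Not at hcon
  exact h (cont_vx H fun ε hε => by
    obtain ⟨a, b, h1, h2, h3⟩ := hcon ε hε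
    exact ⟨a, b, h1, h2, h3⟩)

end Pool.R1
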