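import Pool.Agent.H37.CLO.Fc1
import Pool.Agent.H96.R1.Sfw

/-!
# The data of a member for the family form

`famw_mem`: `FamW` from the labels of the first window and the data of the pairs.
-/

set_option autoImplicit false

namespace Pool.R1

open Finset Real
open Pool.Agent.H49.Ent Pool.Agent.H32.Dense Pool.STK Pool.KAF Pool.KAL Pool.KS3 Pool.M3F
open Pool.KJA Pool.KA Pool.K2S Pool.KSAT Pool.PB Pool.STAT Pool.GEN Pool.CLO37 Pool.IEN Pool.EXS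
open Pool.JPN Pool.GEO Pool.KM7 Pool.S6C
open Pool.STAT.CLO

variable {m J : ℕ}

/-- **The data of a member** for the family form. -/
theorem famw_mem {F : Fam m J} {A : F.Ω → Prop} {c₀ c₁ : ℕ → Fin m}
    {r Dq D K K' sh sh₂ n₂ N N' s kap Pr sg₀ sg Γ e EN kk : ℕ}
    {S₀ E₀ w₀ w₁ sr pr pN₀ EE₀ q X φ Xr ρq μ e₁ e₀ μ' e₁' L LL : ℝ} {β₀ β₀' β₁ : ℕ → ℝ}
    {σ : Equiv.Perm (Fin (r + 1))} {g g₁ g₂ g₂' : ℕ → ℕ}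
    {G : PtT F → ℕ → MvPolynomial (Option (Fin m)) ℝ}
    {H : LnT F → ℕ → MvPolynomial (Option (Fin m)) ℝ} {V V' : Type} {z : PtT F → V}
    {zl : LnT F → V} {Pv : V → ℕ → PN} {Qv : V → PN} {T : V → ℝ} {kf : V → ℕ}
    {z' : PtT F → V'} {zl' : LnT F → V'} {Pv' : V' → ℕ → PN}
    {Qh Qh' : V' → MvPolynomial (Option (Fin (r + 1))) ℝ} {ρz : V' → ℝ}
    (hN : NuW J r sg₀ sh sh₂ β₀ pN₀ sr EE₀ φ e EN kk g g₁ g₂ L)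
    (hL : LbW F c₀ r ⌊w₀ * J⌋₊ sg₀ D K' Dq S₀ E₀ e EN kk g g₁ g₂ L A G H z zl Pv Qv T kf)
    (hG : GD F A c₀ c₁ r K Dq w₀ w₁ pr q X φ β₀' β₁ σ Pr sg₀ sg kap g₂ g₂' LL z zl Pv z' zl' Pv'
      Qh ρz)
    (hA : 0 < Pe F.p A) (hc : Set.InjOn c₀ (Set.Iio (r + 1))) (hs : sg₀ = sg + s)
    (hPg : J ≤ g₂' r + s) (hw : ∀ i < r + 1, wid ⌊w₀ * J⌋₊ g₂ i ≤ g₂ r) (hΓ0 : g₂ r + Γ ≤ J)
    (hΓ1 : ∀ i < r + 1, wid ⌊w₁ * J⌋₊ g₂' i + Γ ≤ J) (hgas : g r + sg₀ ≤ g₁ r + n₂)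
    (hQd : ∀ v, (Qh' v).totalDegree ≤ Dq)
    (hcs : ∀ ω, A ω → CsQ r Dq ⌊w₁ * J⌋₊ J (shG r s g₂') (shP r s (Pv' (z' (ptr F J ω))))
      (Qh' (z' (ptr F J ω))) ρq) (hρ0 : 0 ≤ ρq)
    (hρ : ρq ≤ Real.exp Xr / ((2 ^ (J - ⌊w₁ * J⌋₊) : ℕ) : ℝ))
    (mx1 : MxC N μ (Pool.Agent.H49.Ent.cond F.p A True) (slam F ⌊w₁ * J⌋₊) (K2S.Fam.pt F)
      (fun _ => ∑ i, Real.log (ngw ⌊w₁ * J⌋₊ J (shG r s g₂') (r + 1) i))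
      (fun ξ => ybw c₁ r ⌊w₁ * J⌋₊ J (shG r s g₂') (shP r s (Pv' (z' ξ))) ξ)) (hμ : 0 ≤ μ)
    (tm1 : Real.log ((2 ^ (J - ⌊w₁ * J⌋₊) : ℕ) : ℝ) - CH (Pool.Agent.H49.Ent.cond F.p A True)
      (fun ω => tdg ⌊w₁ * J⌋₊ J (K2S.Fam.pt F ω)) (slam F ⌊w₁ * J⌋₊) ≤ e₁) (he₁ : 0 ≤ e₁)
    (tm0 : Real.log ((2 ^ (J - ⌊w₀ * J⌋₊) : ℕ) : ℝ) - CH (Pool.Agent.H49.Ent.cond F.p A True)
      (fun ω => tdg ⌊w₀ * J⌋₊ J (K2S.Fam.pt F ω)) (slam F ⌊w₀ * J⌋₊) ≤ e₀) (he₀ : 0 ≤ e₀)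
    (mx0 : MxC N' μ' (Pool.Agent.H49.Ent.cond F.p A True) (slam F ⌊w₀ * J⌋₊) (K2S.Fam.pt F)
      (fun _ => ∑ i, Real.log (ngw ⌊w₀ * J⌋₊ (g₂ r) g₂ (r + 1) i))
      (fun ξ => ybw c₀ r ⌊w₀ * J⌋₊ (g₂ r) g₂ (Pv (z ξ)) ξ)) (hμ' : 0 ≤ μ')
    (tm' : Real.log ((2 ^ (g₂ r - ⌊w₀ * J⌋₊) : ℕ) : ℝ) -
      CH (Pool.Agent.H49.Ent.cond F.p A True)
      (fun ω => tdg ⌊w₀ * J⌋₊ (g₂ r) (K2S.Fam.pt F ω)) (slam F ⌊w₀ * J⌋₊) ≤ e₁') (he₁' : 0 ≤ e₁')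
    (hS1 : 1 ≤ S₀) (X1 : 1 ≤ Xr) (kX : (kap : ℝ) ≤ Xr) (LX : Real.log (1 + LL) ≤ Xr)
    (SX : Real.log S₀ ≤ Xr) (shX : ((max sh sh₂ : ℕ) : ℝ) ≤ Xr) (nX : (n₂ : ℝ) ≤ Xr)
    (e0X : e₀ ≤ Xr) (muX : (N + 1) * (e₁ + 1) + μ ≤ Xr) (mu'X : (N' + 1) * (e₁' + 1) + μ' ≤ Xr) :
    FamW F A r Dq K D K' kap ⌊w₀ * J⌋₊ ⌊w₁ * J⌋₊ J sg₀ ⌊q * J⌋₊ c₀ c₁ σ g₂ (shG r s g₂') g g₁ LL
      S₀ ρq Xr (max sh sh₂) n₂ Γ N N' μ e₁ e₀ μ' e₁' z zl Pv z' zl' (fun v => shP r s (Pv' v)) Qh'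
      G where
  rw0 := rec_shift hG hs hG.PJ le_rfl hPg (by omega)
  pos := hA
  Qd := hQd
  csq := hcs
  rq0 := hρ0
  rq := hρ
  wd i hi := ⟨hG.kp0 i hi, hw i hi⟩
  gap0 := hΓ0
  gap1 i hi := by
    rw [wid_shG hi]
    exact hΓ1 i hi
  mx1 := mx1
  mu0 := hμ
  tm1 := tm1
  e10 := he₁
  tm0 := tm0
  e00 := he₀
  mx0 := mx0
  mu'0 := hμ'
  tm' := tm'
  e'0 := he₁'
  inj l hl l' hl' h := hc hl hl' h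
  dep := hL.chN.depG
  dgG := hL.chN.degG
  nr := hL.nr
  ga0 l hl := hN.g1 l hl
  gar := hN.g1N
  gas := hgas
  g0a l hl := by
    rcases Nat.lt_or_ge l r with h | h
    · have h1 := hN.g1 l h
      have h2 := hN.g2 l h
      omega
    · have h1 : l = r := by omega
      have h2 := hN.g2N
      rw [h1]
      omega
  gah l hl := by
    rcases Nat.lt_or_ge l r with h | h
    · have h1 := hN.g1 l h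
      have h2 := hN.g2 l h
      have h3 := le_max_left sh sh₂
      omega
    · have h1 : l = r := by omega
      have h2 := hN.g2N
      have h3 := le_max_right sh sh₂
      rw [h1]
      omega
  S1 := hS1
  X1 := X1
  kX := kX
  LX := LX
  SX := SX
  shX := shX
  sh2X := nX
  e0X := e0X
  muX := muX
  mu'X := mu'X

end Pool.R1
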