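import Pool.Agent.H5.GEO.Evd
import Pool.Agent.H53.GEO.Slc
import Pool.Agent.H86.GEO.Evs
import Pool.Agent.H86.GEO.Num
import Pool.Agent.H96.R1.Brc
import Pool.Agent.H96.R1.Fct

/-!
# The events of the pairs, together

`ev_all`: the masses of all events of the pairs of a class but the last one.
-/

set_option autoImplicit false

namespace Pool.R1

open Finset Real
open Pool.Agent.H49.Ent Pool.Agent.H32.Dense Pool.STK Pool.KAF Pool.KAL Pool.KS3 Pool.M3F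
open Pool.KJA Pool.KA Pool.K2S Pool.KSAT Pool.PB Pool.STAT Pool.GEN Pool.CLO37 Pool.IEN Pool.EXS
open Pool.JPN Pool.GEO Pool.KM7 Pool.S6C
open Pool.GRW (TmWn)

/-- The size of the thresholds. -/
theorem thr_size {J Pr W₁ : ℕ} {Cb H θm b a w₁ pr φ s : ℝ} (hWP : W₁ ≤ Pr)
    (hW : (W₁ : ℝ) ≤ w₁ * J) (hPr : (pr - φ) * J ≤ Pr) (hCb : 1 ≤ Cb) (hCs : Cb ≤ RR J s)
    (hH0 : 1 ≤ H) (hH : H ≤ RR J a) (hb : b ≤ θm)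
    (hθ : ((2 ^ (Pr - W₁) : ℕ) : ℝ) * θm ≤ RR J a) (h : w₁ + 2 * a + s + φ ≤ pr) :
    Cb * (H * b) ≤ 2 ^ (W₁ + 3) := by
  have hM0 : (0 : ℝ) < ((2 ^ (Pr - W₁) : ℕ) : ℝ) := by positivity
  have hM : RR J (pr - φ - w₁) ≤ ((2 ^ (Pr - W₁) : ℕ) : ℝ) := by
    push_cast
    refine RR_le ?_
    rw [Nat.cast_sub hWP]
    linarith
  have hp := RR_pos J a
  have hs := RR_pos J s
  have h1 : Cb * (H * b) ≤ Cb * (H * θm) := by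
    refine mul_le_mul_of_nonneg_left (mul_le_mul_of_nonneg_left hb (by linarith)) (by linarith)
  refine h1.trans ?_
  have h2 : ((2 ^ (Pr - W₁) : ℕ) : ℝ) * (Cb * (H * θm)) ≤ ((2 ^ (Pr - W₁) : ℕ) : ℝ) * 1 := by
    calc ((2 ^ (Pr - W₁) : ℕ) : ℝ) * (Cb * (H * θm)) =
        Cb * (H * (((2 ^ (Pr - W₁) : ℕ) : ℝ) * θm)) := by ring
      _ ≤ Cb * (H * RR J a) := by
        refine mul_le_mul_of_nonneg_left (mul_le_mul_of_nonneg_left hθ (by linarith))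
          (by linarith)
      _ ≤ RR J s * (RR J a * RR J a) := by
        refine mul_le_mul hCs (mul_le_mul_of_nonneg_right hH hp.le) (by positivity) hs.le
      _ = RR J (s + (a + a)) := by rw [RR_add, RR_add]
      _ ≤ RR J (pr - φ - w₁) := RR_mono J (by linarith)
      _ ≤ _ := by
        rw [mul_one]
        exact hM
  refine (le_of_mul_le_mul_left h2 hM0).trans ?_
  exact one_le_pow₀ one_le_two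

/-- **The events of the pairs of a class**, together. -/
theorem ev_all (k Dq : ℕ) : ∃ Cl Cz : ℝ, 1 ≤ Cl ∧ 1 ≤ Cz ∧ ∀ (K : ℕ) {q : ℝ}, 0 < q →
    ∃ (n₀ K₂ : ℕ) (Cb : ℝ), 1 ≤ Cb ∧ ∀ {m : ℕ} {S : PCl m}, KP k →
    (∀ (τ : ℝ) (J : ℕ) (F : Fam m J) (A : F.Ω → Prop), S.St τ J F A → Pool.GEN.Gd F) →
    (∀ (τ : ℝ) (J : ℕ) (F : Fam m J) (A : F.Ω → Prop), S.St τ J F A →
      F.Tr ∧ F.Tm (τ * J) ∧ F.Rb (τ * J) ∧ Real.exp (-(τ * J)) ≤ Pe F.p A) →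
    ∀ {c₀ c₁ : ℕ → Fin m} {w₀ w₁ pr X y η a r₀ : ℝ} {β₀ β₁ : ℕ → ℝ}, 0 ≤ w₀ → w₀ < w₁ →
    w₁ ≤ 1 → TmWn S w₀ →
    (∀ h : ℝ, 0 < h → ExvY S w₁ (fun J F ω (i : Fin k) => F.X J ω (c₀ i))
      ((∑ i ∈ range k, (1 - β₁ i)) - h)) →
    (∀ h : ℝ, 0 < h → ExvY S w₁ (fun J F ω (i : Fin k) => F.X J ω (c₁ i))
      ((∑ i ∈ range k, (1 - β₁ i)) - h)) →
    0 < η → 0 < X → 0 < r₀ → w₁ - w₀ ≤ y → ∑ i ∈ range k, β₁ i - ∑ i ∈ range k, β₀ i ≤ y →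
    (w₁ - w₀) + (∑ i ∈ range k, β₁ i - ∑ i ∈ range k, β₀ i) + η ≤ q →
    a = 14 * (Cl * (w₁ - w₀) + η) → 896 * y ≤ q → 224 * y ≤ r₀ →
    w₀ + q + X + r₀ ≤ pr → (∀ i < k, β₀ i + q + X + r₀ ≤ pr) →
    w₁ + 2 * a + 2 * η ≤ pr → (∀ i < k, β₁ i + a + η ≤ pr) →
    ∃ φ : ℝ, 0 < φ ∧ Bas S (fun J F A => 0 < Pe F.p A ∧ ∀ (ρ : Equiv.Perm (Fin (k + 1)))
      (Pr sg₀ sg kap : ℕ) (g₀ g₁ : ℕ → ℕ) (L : ℝ) (V₀ V₁ : Type) (z₀ : PtT F → V₀)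
      (z₀' : LnT F → V₀) (P₀ : V₀ → ℕ → PN) (z₁ : PtT F → V₁) (z₁' : LnT F → V₁)
      (P₁ : V₁ → ℕ → PN) (Qh : V₁ → MvPolynomial (Option (Fin (k + 1))) ℝ) (ρz : V₁ → ℝ) (φ' : ℝ),
      φ' ≤ φ → GD F A c₀ c₁ k K Dq w₀ w₁ pr q X φ' β₀ β₁ ρ Pr sg₀ sg kap g₀ g₁ L z₀ z₀' P₀ z₁ z₁'
        P₁ Qh ρz →
      ∃ (KK H L' Λ Gb E θm Z Θ : ℝ) (aF : (Fin (k + 1) → MvPolynomial (Fin (k + 1)) ℝ) →
        MvPolynomial (Option (Fin (k + 1))) ℝ → (Fin (k + 1) → ℤ) → Fin Dq → Fin n₀ →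
          MvPolynomial (Fin (k + 1)) ℝ),
        (∀ G Q b kk i, (aF G Q b kk i).totalDegree ≤ K₂) ∧
        1 ≤ KK ∧ 1 ≤ H ∧ 1 ≤ L' ∧ 0 ≤ Gb ∧ 0 < E ∧ 360 * (Cb * H ^ 3) ≤ Λ ∧ 1 ≤ Z ∧ 1 ≤ Θ ∧
        (∀ ω, A ω → ∀ j ≤ Dq, bth Dq KK H L' Λ (ρz (z₁ (ptr F J ω))) j ≤ θm) ∧
        2 * θm * ((2 ^ (Pr - ⌊w₁ * J⌋₊) : ℕ) : ℝ) ≤ E ∧
        H ≤ 2 ^ (a * (J : ℝ)) ∧ Gb ≤ 2 ^ (a * (J : ℝ)) ∧
        ((2 ^ (Pr - ⌊w₁ * J⌋₊) : ℕ) : ℝ) * θm ≤ 2 ^ (a * (J : ℝ)) ∧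
        Z ≤ 2 ^ (14 * (Cz * (q + X) + η) * (J : ℝ)) ∧ Θ ≤ 2 ^ (η / 16 * (J : ℝ)) ∧
        ms (P2 (Pool.Agent.H49.Ent.cond F.p A True) (slam F ⌊w₀ * J⌋₊)) (fun e =>
          ¬ EvLn F c₁ k ⌊w₁ * J⌋₊ Pr sg z₁ Qh ρz Dq KK H L' Λ Gb E e) ≤ 1 / 14 ∧
        ms (P2 (Pool.Agent.H49.Ent.cond F.p A True) (slam F ⌊w₀ * J⌋₊)) (fun e =>
          ¬ EvBr F c₀ k ⌊w₀ * J⌋₊ ⌊w₁ * J⌋₊ Pr sg ⌊q * J⌋₊ g₀ ρ z₀ P₀ z₁ Qh ρz Dq n₀ Cb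
            (1 / 2 ^ J) KK H L' Λ aF e) ≤ 1 / 14 ∧
        ms (P2 (Pool.Agent.H49.Ent.cond F.p A True) (slam F ⌊w₀ * J⌋₊)) (fun e =>
          ¬ EvNs F c₀ k ⌊w₀ * J⌋₊ ⌊w₁ * J⌋₊ Pr sg ⌊q * J⌋₊ ⌊X * J⌋₊ g₀ z₀ P₀ e.1) ≤ 1 / 14 ∧
        ms (P2 (Pool.Agent.H49.Ent.cond F.p A True) (slam F ⌊w₀ * J⌋₊)) (fun e =>
          ¬ EvLo F c₁ k ⌊w₀ * J⌋₊ ⌊w₁ * J⌋₊ Pr sg ⌊q * J⌋₊ ⌊X * J⌋₊ g₀ g₁ ρ z₀ P₀ z₁ P₁ Dq kap L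
            Z e.1) ≤ 1 / 14 ∧
        ms (P2 (Pool.Agent.H49.Ent.cond F.p A True) (slam F ⌊w₀ * J⌋₊)) (fun e =>
          ¬ EvIn F c₀ k ⌊w₀ * J⌋₊ ⌊w₁ * J⌋₊ Pr sg ⌊q * J⌋₊ g₀ g₁ ρ z₀ P₀ z₁ P₁ e.1) ≤ 1 / 14 ∧
        ms (P2 (Pool.Agent.H49.Ent.cond F.p A True) (slam F ⌊w₀ * J⌋₊)) (fun e =>
          ¬ (EvSf F c₀ k ⌊w₀ * J⌋₊ ⌊w₁ * J⌋₊ Pr sg ⌊q * J⌋₊ ⌊X * J⌋₊ g₀ ρ z₀ P₀ z₁ P₁ Qh aF Θ e ∧
            EvS1 F c₀ k ⌊w₀ * J⌋₊ ⌊w₁ * J⌋₊ Pr sg ⌊q * J⌋₊ g₀ ρ z₀ P₀ z₁ P₁ Qh aF Θ e)) ≤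
            1 / 14) := by
  classical
  obtain ⟨Cl, hCl, hE1⟩ := evln_w k Dq
  obtain ⟨Cz, hCz, hE3⟩ := evlo_w k Dq
  refine ⟨Cl, Cz, hCl, hCz, ?_⟩
  intro K q hq
  obtain ⟨n₀, K₂, Cb, hCb, hE2⟩ := ev_br k K Dq hq
  refine ⟨n₀, K₂, Cb, hCb, ?_⟩
  intro m S hKP hgd hmem c₀ c₁ w₀ w₁ pr X y η a r₀ β₀ β₁ hw0 hw01 hw1 htm hex0 hex1 hη hX hr₀
    hy1 hy2 hvol ha h896 h224 hr0 hr1 hp0 hp1
  have hs1 : ∑ i ∈ range k, (1 - β₀ i) = k - ∑ i ∈ range k, β₀ i := sum_one_sub β₀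
  have hs2 : ∑ i ∈ range k, (1 - β₁ i) = k - ∑ i ∈ range k, β₁ i := sum_one_sub β₁
  have hdw : 0 < w₁ - w₀ := by linarith
  have hClw : 0 ≤ Cl * (w₁ - w₀) := by positivity
  have ha0 : 0 ≤ a := by rw [ha]; positivity
  have e14 : ∀ x : ℝ, x / (1 / 14) = 14 * x := fun x => by ring
  obtain ⟨φ₁, f1, B1⟩ := hE1 K hmem hw0 hw01.le hw1 hex1 (η := η) (c := 1 / 14) (pr := pr) hη
    (by norm_num) (by norm_num) (by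
      rw [e14, ← ha]
      linarith) (fun l hl => by
      rw [e14, ← ha]
      exact hp1 l hl)
  obtain ⟨φ₂, f2, B2⟩ := hE2 (S := S) hKP hgd (c₀ := c₀) (c₁ := c₁) (pr := pr) (X := X) (y := y)
    (cm := 1 / 14) (β₀ := β₀) (β₁ := β₁) hw0 hw01.le hw1 htm hex0 (by linarith) (by
      rw [hs1, hs2]
      linarith) (by norm_num) (by linarith)
  obtain ⟨φ₃, f3, B3⟩ := hE3 K hmem (c₀ := c₀) hw0 hw01.le hw1 hex1 (q := q) (X := X) (η := η)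
    (c := 1 / 14) hq.le hX.le hη (by norm_num)
  obtain ⟨φ₄, f4, B4⟩ := evin_w k K hmem (c₀ := c₀) (pr := pr) (q := q) (β₀ := β₀) hw0 hw01.le
    hw1 hex1 (η := η) (c := 1 / 14) hη (by norm_num) (by linarith) (fun l hl => by
      have := hp1 l hl
      linarith) (by
      rw [Finset.sum_sub_distrib]
      exact hvol)
  obtain ⟨φ₅, f5, B5⟩ := ev_ns K Dq hKP (c₁ := c₁) (pr := pr) (q := q) (X := X) (y := y)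
    (cm := 1 / 14) (r₀ := r₀) (β₀ := β₀) (β₁ := β₁) hw0 hw01.le hw1 htm hex0 (by linarith) (by
      rw [hs1, hs2]
      linarith) (by norm_num) hq hX.le hr₀ (by linarith) hr0 hr1
  obtain ⟨φ₆, f6, B6⟩ := ev_sf k hw0 hw01 hw1 htm K K₂ n₀ Dq Dq (q := q) (X := X)
    (η := η / 16 * Real.log 2) (c := 1 / 14) hX (by
      have := Real.log_pos one_lt_two
      positivity) (by norm_num)
  obtain ⟨φ, hφ⟩ : ∃ φ : ℝ, φ = min (min φ₁ φ₂) (min (min φ₃ φ₄) (min (min φ₅ φ₆) (η / 2))) :=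
    ⟨_, rfl⟩
  have hφ0 : 0 < φ := by
    rw [hφ]
    exact lt_min (lt_min f1 f2) (lt_min (lt_min f3 f4) (lt_min (lt_min f5 f6) (by positivity)))
  have g1 : φ ≤ φ₁ := by rw [hφ]; exact (min_le_left _ _).trans (min_le_left _ _)
  have g2 : φ ≤ φ₂ := by rw [hφ]; exact (min_le_left _ _).trans (min_le_right _ _)
  have g3 : φ ≤ φ₃ := by
    rw [hφ]
    exact (min_le_right _ _).trans ((min_le_left _ _).trans (min_le_left _ _))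
  have g4 : φ ≤ φ₄ := by
    rw [hφ]
    exact (min_le_right _ _).trans ((min_le_left _ _).trans (min_le_right _ _))
  have g5 : φ ≤ φ₅ := by
    rw [hφ]
    exact (min_le_right _ _).trans ((min_le_right _ _).trans
      ((min_le_left _ _).trans (min_le_left _ _)))
  have g6 : φ ≤ φ₆ := by
    rw [hφ]
    exact (min_le_right _ _).trans ((min_le_right _ _).trans
      ((min_le_left _ _).trans (min_le_right _ _)))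
  have g7 : φ ≤ η / 2 := by
    rw [hφ]
    exact (min_le_right _ _).trans ((min_le_right _ _).trans (min_le_right _ _))
  obtain ⟨φ₇, f7, J₇, H₇⟩ := fin_bd Cb 0 (s := η / 2) (by positivity)
  obtain ⟨J₈, hJ₈⟩ := exists_nat_ge (Real.log Cb / φ₁)
  refine ⟨φ, hφ0, (B1.and (B2.and (B3.and (B4.and ((B5 φ₅ le_rfl).and B6))))).mono (max J₇ J₈) ?_⟩
  rintro J hJ F A ⟨⟨hA, b1⟩, b2, ⟨-, b3⟩, ⟨-, b4⟩, b5, ⟨-, b6⟩⟩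
  refine ⟨hA, ?_⟩
  intro ρ Pr sg₀ sg kap g₀ g₁ L V₀ V₁ z₀ z₀' P₀ z₁ z₁' P₁ Qh ρz φ' hφ' D
  have hJ0 : (0 : ℝ) ≤ J := Nat.cast_nonneg J
  have hCbJ : Cb ≤ RR J (η / 2) := by
    have h1 := H₇ φ₇ le_rfl J ((le_max_left _ _).trans hJ)
    rw [pow_zero, mul_one] at h1
    exact h1
  have hlogCb : Real.log Cb ≤ φ₁ * J := by
    have h1 : (J₈ : ℝ) ≤ J := by exact_mod_cast (le_max_right _ _).trans hJ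
    have h2 := hJ₈.trans h1
    rw [div_le_iff₀ f1] at h2
    linarith
  obtain ⟨KK, H, L', Λ, Gb, E, θm, c1, c2, c3, c4, c5, c6, c7, c8, c9, c10, c11, c12, c13⟩ :=
    b1 c₀ q X φ' β₀ ρ Pr sg₀ sg kap g₀ g₁ L V₀ V₁ z₀ z₀' P₀ z₁ z₁' P₁ Qh ρz (hφ'.trans g1) D Cb
      hCb hlogCb
  rw [e14, ← ha] at c10 c11 c12
  have hPr : (pr - φ') * J ≤ Pr := by
    have := (abs_le.1 D.Pr0).1
    linarith
  have hW1 : (⌊w₁ * (J : ℝ)⌋₊ : ℝ) ≤ w₁ * J := Nat.floor_le (by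
    have : 0 ≤ w₁ := by linarith
    positivity)
  obtain ⟨aF, haF, d1⟩ := b2 ρ Pr sg₀ sg kap g₀ g₁ L V₀ V₁ z₀ z₀' P₀ z₁ z₁' P₁ Qh ρz KK H L' Λ
    (gd_mono D (hφ'.trans g2)) c1 c2 c3 c4 (fun ω hω j hj =>
      thr_size D.WP hW1 hPr hCb hCbJ c2 c10 (c8 ω hω j hj) c12 (by linarith))
  obtain ⟨Z, z1, z2, z3⟩ := b3 Dq pr φ' β₀ ρ Pr sg₀ sg kap g₀ g₁ L V₀ V₁ z₀ z₀' P₀ z₁ z₁' P₁ Qh
    ρz (hφ'.trans g3) D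
  rw [e14] at z2
  have d4 := b4 Dq X φ' ρ Pr sg₀ sg kap g₀ g₁ L V₀ V₁ z₀ z₀' P₀ z₁ z₁' P₁ Qh ρz (hφ'.trans g4) D
  have d5 := b5 ρ Pr sg₀ sg kap g₀ g₁ L V₀ V₁ z₀ z₀' P₀ z₁ z₁' P₁ Qh ρz (gd_mono D (hφ'.trans g5))
  have hΘe : Real.exp (η / 16 * Real.log 2 * J) = 2 ^ (η / 16 * (J : ℝ)) := by
    rw [Real.rpow_def_of_pos two_pos]
    congr 1
    ring
  have d6 := b6 c₀ c₁ pr φ' β₀ β₁ ρ Pr sg₀ sg kap g₀ g₁ L V₀ V₁ z₀ z₀' P₀ z₁ z₁' P₁ Qh ρz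
    (hφ'.trans g6) D aF haF _ le_rfl
  refine ⟨KK, H, L', Λ, Gb, E, θm, Z, Real.exp (η / 16 * Real.log 2 * J), aF, haF, c1, c2, c3, c5,
    c6, c7, z1, Real.one_le_exp (by
      have := Real.log_pos one_lt_two
      positivity), c8, c9, c10, c11, c12, z2, hΘe.le, c13, d1, d5, z3, d4, d6⟩

end Pool.R1
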