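import Pool.Agent.H96.R1.End
import Pool.Agent.H96.R1.Gfa

/-!
# The geometry of the pairs in a class

`NoC n Dq c C'`: the statement for the last event of the pairs (the leaves are different), in a class.
`geo_of`: `GeoN n` from `NoC`.
-/

set_option autoImplicit false

namespace Pool.R1

open Finset Real
open Pool.Agent.H49.Ent Pool.Agent.H32.Dense Pool.STK Pool.KAF Pool.KAL Pool.KS3 Pool.M3F
open Pool.KJA Pool.KA Pool.K2S Pool.KSAT Pool.PB Pool.STAT Pool.GEN Pool.CLO37 Pool.IEN Pool.EXS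
open Pool.JPN Pool.GEO Pool.KM7 Pool.S6C
open Pool.GRW (TmWn)
open Pool.CHT (bet bas_ev)
open Pool.ONE (lst Mic Sta Jmp)

/-- **(E6) The leaves are different**, in a class, outside the mass `c`: `C'` is universal, `q` is
the depth of the cells. -/
def NoC (n Dq : ℕ) (c C' : ℝ) : Prop :=
  ∀ {hn : 2 ≤ n} {S : PCl n} {P : ℝ → ℝ → ℝ} {ρ : ℝ → ℝ} {θ : ℝ}
    {PP : List (Fin n) × Fin n → ℝ → ℝ → ℝ} {w₀ w₁ α : ℝ} {c₀ c₁ : ℕ → Fin n} {P1 cD : ℝ},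
  TwoW hn S P ρ θ PP w₀ w₁ α c₀ c₁ P1 cD → ∀ {q X η y : ℝ}, 0 < η → w₁ - w₀ ≤ y →
  ∑ i ∈ range (n - 1), bet PP c₁ i w₁ w₁ - ∑ i ∈ range (n - 1), bet PP c₀ i w₀ w₀ ≤ y →
  C' * (y + η) ≤ q → q ≤ X → C' * X ≤ cD / 8 →
  ∀ (D D' sh sh₂ K' sh' sh₂' K'' : ℕ) (S₀ E₀ S₀' E₀' : ℝ) (σ : Equiv.Perm (Fin (n - 1 + 1)))
    (K₂ n₀ : ℕ), sh ≤ sh₂ → 1 ≤ K' → 1 ≤ S₀ → 1 ≤ E₀ → sh' ≤ sh₂' → 1 ≤ K'' → 1 ≤ S₀' →
    1 ≤ E₀' → ∃ φ₀ : ℝ, 0 < φ₀ ∧ Bas S (fun J F A => ∀ (φ : ℝ)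
      (e EN kk e' EN' kk' : ℕ) (g g₁ g₂ g' g₁' g₂' : ℕ → ℕ) (L L' : ℝ)
      (G G' : PtT F → ℕ → MvPolynomial (Option (Fin n)) ℝ)
      (H H' : LnT F → ℕ → MvPolynomial (Option (Fin n)) ℝ) (V V' : Type) (z : PtT F → V)
      (zl : LnT F → V) (Pv : V → ℕ → PN) (Qv : V → PN) (T : V → ℝ) (kf : V → ℕ)
      (z' : PtT F → V') (zl' : LnT F → V') (Pv' : V' → ℕ → PN) (Qv' : V' → PN) (T' : V' → ℝ)
      (kf' : V' → ℕ) (kap : ℕ) (Qh : V' → MvPolynomial (Option (Fin (n - 1 + 1))) ℝ)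
      (ρz : V' → ℝ), φ ≤ φ₀ →
      NuW J (n - 1) ⌊(1 - cD / 2 - P w₀ w₀) * J⌋₊ sh sh₂ (fun l => bet PP c₀ l w₀ w₀) (P w₀ w₀)
        (1 - cD / 2) (1 - cD / 2 - max (P w₀ w₀) (bet PP c₀ (n - 2) w₀ w₀)) φ e EN kk g g₁ g₂
        L →
      LbW F c₀ (n - 1) ⌊w₀ * J⌋₊ ⌊(1 - cD / 2 - P w₀ w₀) * J⌋₊ D K' Dq S₀ E₀ e EN kk g g₁ g₂ L A
        G H z zl Pv Qv T kf →
      NuW J (n - 1) ⌊(1 - cD / 2 - P1) * J⌋₊ sh' sh₂' (fun l => bet PP c₁ l w₁ w₁) P1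
        (1 - cD / 2) (1 - cD / 2 - max P1 (bet PP c₁ (n - 2) w₁ w₁)) φ e' EN' kk' g' g₁' g₂'
        L' →
      LbW F c₁ (n - 1) ⌊w₁ * J⌋₊ ⌊(1 - cD / 2 - P1) * J⌋₊ D' K'' Dq S₀' E₀' e' EN' kk' g' g₁' g₂'
        L' A G' H' z' zl' Pv' Qv' T' kf' →
      GD F A c₀ c₁ (n - 1) (max K' K'') Dq w₀ w₁ (1 - cD / 2) q X φ
        (fun l => bet PP c₀ l w₀ w₀) (fun l => bet PP c₁ l w₁ w₁) σ (g₂' (n - 1))
        ⌊(1 - cD / 2 - P w₀ w₀) * J⌋₊ ⌊(1 - cD / 2 - P1) * J⌋₊ kap g₂ g₂' (max L L') z zl Pv z'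
        zl' Pv' Qh ρz →
      ∀ (aF : (Fin (n - 1 + 1) → MvPolynomial (Fin (n - 1 + 1)) ℝ) →
        MvPolynomial (Option (Fin (n - 1 + 1))) ℝ → (Fin (n - 1 + 1) → ℤ) → Fin Dq → Fin n₀ →
          MvPolynomial (Fin (n - 1 + 1)) ℝ), (∀ G Q b kk i, (aF G Q b kk i).totalDegree ≤ K₂) →
      ∀ ν₀ : ℝ, ν₀ ≤ 2 ^ ⌊w₁ * J⌋₊ * 2 ^ (-((P w₀ w₀ + (1 - cD / 2 - P1) + C' * q) * (J : ℝ))) →
      ms (P2 (Pool.Agent.H49.Ent.cond F.p A True) (slam F ⌊w₀ * J⌋₊)) (fun e =>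
        EvNs F c₀ (n - 1) ⌊w₀ * J⌋₊ ⌊w₁ * J⌋₊ (g₂' (n - 1)) ⌊(1 - cD / 2 - P1) * J⌋₊ ⌊q * J⌋₊
          ⌊X * J⌋₊ g₂ z Pv e.1 ∧
        ¬ EvNo F c₀ (n - 1) ⌊w₀ * J⌋₊ ⌊w₁ * J⌋₊ (g₂' (n - 1)) ⌊(1 - cD / 2 - P1) * J⌋₊ ⌊q * J⌋₊ g₂
          σ z Pv z' Pv' Qh aF ν₀ e) ≤ c)

/-- **The geometry of the pairs**, from the last event. -/
theorem geo_of (n : ℕ) (hno : 2 ≤ n → (∀ k, 1 ≤ k → k < n → FZX k) →
    (∀ k, 2 ≤ k → k < n → Mic k ∧ Sta k ∧ Jmp k) → ∀ Dq : ℕ, M3D (n - 1) Dq →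
    ∃ C' : ℝ, 1 ≤ C' ∧ NoC n Dq (1 / 14) C') : GeoN n := by
  classical
  intro hn hZ hM
  obtain ⟨Dq, hMD⟩ := m3d_ex (n - 1)
  obtain ⟨Cl, Cz, hCl, hCz, hall⟩ := ev_all (n - 1) Dq
  obtain ⟨C', hC', hno⟩ := hno hn hZ hM Dq hMD
  obtain ⟨C, hC⟩ := exists_nat_ge (1000 * Cl + C' + 1000)
  obtain ⟨r, hr⟩ := exists_nat_ge (42 * Cl + ((Dq : ℝ) + 1) * (42 * Cz))
  have hC1 : (1000 : ℝ) ≤ C := by linarith
  refine ⟨r, C, by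
    have : (1 : ℝ) ≤ C := by linarith
    exact_mod_cast this, fun ε hε => ⟨1, one_pos, ?_⟩⟩
  intro S P ρ θ PP w₀ w₁ α c₀ c₁ P1 cD H hcD y hy hy0 hy1 q X η hη hq hqX hX hX1
  have hcD0 := H.cD0
  have w0 := H.w0
  have w01 := H.w01
  have w1α := H.w1α
  have α1 := H.α1
  have αP := H.αP
  have hPcD := H.PcD
  obtain ⟨n1, n2, n3, n4, n5⟩ := two_num H
  have hP0 : 0 ≤ P w₀ w₀ := le_trans w0.le (H.tgs.low () w₀ w₀ w0.le le_rfl (by linarith))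
  have T := two_facts (hZ (n - 1) (by omega) (by omega)) H
  obtain ⟨β₀, hβ₀⟩ : ∃ β : ℕ → ℝ, β = fun l => bet PP c₀ l w₀ w₀ := ⟨_, rfl⟩
  obtain ⟨β₁, hβ₁⟩ : ∃ β : ℕ → ℝ, β = fun l => bet PP c₁ l w₁ w₁ := ⟨_, rfl⟩
  have hb0 : ∀ l < n - 1, β₀ l ≤ 1 - 3 / 4 * cD := fun l hl => by
    rw [hβ₀]
    exact n3 l hl
  have hb1 : ∀ l < n - 1, β₁ l ≤ 1 - 3 / 4 * cD := fun l hl => by
    rw [hβ₁]
    exact n4 l hl
  have hy' : y = (w₁ - w₀) + (∑ i ∈ range (n - 1), β₁ i - ∑ i ∈ range (n - 1), β₀ i) := by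
    rw [hβ₀, hβ₁]
    exact hy
  have hyη : 0 < y + η := by linarith
  have hC0 : (0 : ℝ) < C := by linarith
  -- the numbers
  have q1 : 1000 * Cl * (y + η) ≤ q := by
    refine le_trans (mul_le_mul_of_nonneg_right ?_ hyη.le) hq
    linarith
  have q2 : 1000 * (y + η) ≤ q := by
    refine le_trans (mul_le_mul_of_nonneg_right ?_ hyη.le) hq
    linarith
  have q3 : C' * (y + η) ≤ q := by
    refine le_trans (mul_le_mul_of_nonneg_right ?_ hyη.le) hq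
    linarith
  have q0 : 0 < q := by linarith
  have X0 : 0 < X := by linarith
  have x1 : 1000 * Cl * X ≤ cD / 8 := by
    refine le_trans (mul_le_mul_of_nonneg_right ?_ X0.le) hX
    linarith
  have x2 : 1000 * X ≤ cD / 8 := by
    refine le_trans (mul_le_mul_of_nonneg_right ?_ X0.le) hX
    linarith
  have x3 : C' * X ≤ cD / 8 := by
    refine le_trans (mul_le_mul_of_nonneg_right ?_ X0.le) hX
    linarith
  obtain ⟨a, ha⟩ : ∃ a : ℝ, a = 14 * (Cl * (w₁ - w₀) + η) := ⟨_, rfl⟩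
  have a0 : 0 ≤ a := by
    rw [ha]
    have : 0 < w₁ - w₀ := by linarith
    positivity
  have a1 : a ≤ 14 * Cl * (y + η) := by
    have h1 : Cl * (w₁ - w₀) ≤ Cl * y := mul_le_mul_of_nonneg_left hy0 (by linarith)
    have h2 : η ≤ Cl * η := le_mul_of_one_le_left hη.le hCl
    rw [ha]
    linarith
  have a2 : 3 * a ≤ 42 * Cl * X := by
    have h1 : 1 * (Cl * X) ≤ 1000 * (Cl * X) :=
      mul_le_mul_of_nonneg_right (by norm_num) (by positivity)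
    have h2 : Cl * X * 1 ≤ Cl * X * 1000 :=
      mul_le_mul_of_nonneg_left (by norm_num) (by positivity)
    have h3 : (y + η) ≤ X := by linarith
    have h4 : Cl * (y + η) ≤ Cl * X := mul_le_mul_of_nonneg_left h3 (by linarith)
    linarith
  have a3 : 1000 * a ≤ 14 * q := by linarith
  have rX1 : 42 * Cl * X ≤ r * X := by
    refine mul_le_mul_of_nonneg_right ?_ X0.le
    have : 0 ≤ ((Dq : ℝ) + 1) * (42 * Cz) := by positivity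
    linarith
  have rX2 : ((Dq : ℝ) + 1) * (42 * Cz * X) ≤ r * X := by
    have h1 : ((Dq : ℝ) + 1) * (42 * Cz) ≤ r := by
      have : 0 ≤ 42 * Cl := by linarith
      linarith
    have h2 := mul_le_mul_of_nonneg_right h1 X0.le
    linarith
  have z1 : 14 * (Cz * (q + X) + η) ≤ 42 * Cz * X := by
    have h1 : Cz * (q + X) ≤ Cz * (X + X) := mul_le_mul_of_nonneg_left (by linarith) (by linarith)
    have h2 : η ≤ X := by linarith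
    have h3 : X ≤ Cz * X := le_mul_of_one_le_left X0.le hCz
    linarith
  obtain ⟨D, D', sh, sh₂, K', sh', sh₂', K'', S₀, E₀, S₀', E₀', σ, l1, l2, l3, l4, l5, l6, l7,
    l8, hgd⟩ := gd_two hMD H X0.le (q := q) (by linarith) (by linarith)
  obtain ⟨n₀, K₂, Cb, hCb, hall⟩ := hall (max K' K'') q0
  obtain ⟨φ₁, f1, B1⟩ := hall (S := S) T.kp T.gd T.mem (c₀ := c₀) (c₁ := c₁) (w₀ := w₀) (w₁ := w₁)
    (pr := 1 - cD / 2) (X := X) (y := y) (η := η) (a := a) (r₀ := cD / 8) (β₀ := β₀) (β₁ := β₁)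
    w0.le w01 (by linarith) (T.tm w₀) (by
      rw [hβ₁]
      exact T.ex0) (by
      rw [hβ₁]
      exact T.ex1) hη X0 (by linarith) hy0 (by linarith) (by linarith) ha (by linarith)
    (by linarith) (by linarith) (fun i hi => by linarith [hb0 i hi]) (by linarith)
    (fun i hi => by linarith [hb1 i hi])
  obtain ⟨φ₂, f2, B2⟩ := hno H hη hy0 (by
      rw [hβ₀, hβ₁] at hy'
      linarith) q3 hqX x3 D D' sh sh₂ K' sh' sh₂' K'' S₀ E₀ S₀' E₀' σ K₂ n₀ l1 l2 l3 l4 l5 l6 l7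
      l8
  obtain ⟨Kf, n₁, hnum⟩ := geoJ_num (n - 1) Dq (max K' K'') K₂ n₀ hCb
  obtain ⟨φ₃, f3, J₃, H₃⟩ := hnum (w₁ := w₁) (pr := 1 - cD / 2)
    (pq := P1 + (1 - cD / 2 - P1) - C * q) (X := X) (η := η) (a := a)
    (z := 14 * (Cz * (q + X) + η)) (cq := C * q) (r := r) (by linarith) a0 X0.le X0 hη
    (by
      have h1 : 1000 * q ≤ C * q := mul_le_mul_of_nonneg_right hC1 q0.le
      linarith) (by linarith) (a2.trans rX1) (by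
      refine le_trans (mul_le_mul_of_nonneg_left z1 (by positivity)) ?_
      push_cast
      exact rX2) (by
      have h1 : C * q ≤ C * X := mul_le_mul_of_nonneg_left hqX hC0.le
      linarith) (by linarith)
  obtain ⟨φ, hφ⟩ : ∃ φ : ℝ, φ = min (min φ₁ φ₂) (min φ₃ η) := ⟨_, rfl⟩
  have hφ0 : 0 < φ := by
    rw [hφ]
    exact lt_min (lt_min f1 f2) (lt_min f3 hη)
  have g1 : φ ≤ φ₁ := by rw [hφ]; exact (min_le_left _ _).trans (min_le_left _ _)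
  have g2 : φ ≤ φ₂ := by rw [hφ]; exact (min_le_left _ _).trans (min_le_right _ _)
  have g3 : φ ≤ φ₃ := by rw [hφ]; exact (min_le_right _ _).trans (min_le_left _ _)
  have g4 : φ ≤ η := by rw [hφ]; exact (min_le_right _ _).trans (min_le_right _ _)
  obtain ⟨K₁, hK₁, hB⟩ := hgd φ hφ0
  refine ⟨Kf, n₁, K₁⁻¹, inv_pos.2 hK₁, ?_⟩
  have hCC' : C' + 1 ≤ (C : ℝ) := by linarith
  obtain ⟨J₄, hJ₄⟩ := exists_nat_ge (4 / η)
  refine ((hB.and (bas_ev (B1.and B2) (inv_pos.2 hK₁))).mono (max J₃ J₄)) ?_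
  rintro J hJ F A ⟨⟨B, hBA, hPe, e, EN, kk, e', EN', kk', g, g₁, g₂, g', g₁', g₂', L, L', G, G', Hh,
    Hh', V, V', z, zl, Pv, Qv, Tv, kf, z', zl', Pv', Qv', T', kf', kap, Qh, ρz, h1, h2, h3, h4,
    h5⟩, hev⟩
  have hJ3 : J₃ ≤ J := (le_max_left _ _).trans hJ
  have hJ4 : (J₄ : ℝ) ≤ J := by exact_mod_cast (le_max_right _ _).trans hJ
  have hJ0 : (0 : ℝ) ≤ J := Nat.cast_nonneg J
  have j4 : 4 ≤ η * J := by
    have h6 := hJ₄.trans hJ4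
    rw [div_le_iff₀ hη] at h6
    linarith
  have hPe' : K₁⁻¹ * Pe F.p A ≤ Pe F.p B := by
    rw [inv_mul_le_iff₀ hK₁]
    exact hPe
  obtain ⟨⟨hBpos, hE⟩, hN⟩ := hev B hBA hPe'
  have h5' := h5
  rw [← hβ₀, ← hβ₁] at h5'
  obtain ⟨KK, Hc, Lc, Λ, Gb, E, θm, Z, Θ, aF, haF, c1, c2, c3, c5, c6, c7, z1', t1, c8, c9, c10,
    c11, c12, z2, t2, m1, m2, m3, m4, m5, m6⟩ := hE σ _ _ _ kap g₂ g₂' (max L L') V V' z zl Pv z'
      zl' Pv' Qh ρz φ g1 h5'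
  obtain ⟨ν₀, hν₀⟩ : ∃ ν₀ : ℝ, ν₀ = 2 ^ ⌊w₁ * (J : ℝ)⌋₊ *
    2 ^ (-((P w₀ w₀ + (1 - cD / 2 - P1) + C' * q) * (J : ℝ))) := ⟨_, rfl⟩
  have hν0 : 0 < ν₀ := by
    rw [hν₀]
    exact mul_pos (by positivity) (Real.rpow_pos_of_pos two_pos _)
  have m7 := hN φ e EN kk e' EN' kk' g g₁ g₂ g' g₁' g₂' L L' G G' Hh Hh' V V' z zl Pv Qv Tv kf z'
    zl' Pv' Qv' T' kf' kap Qh ρz g2 h1 h2 h3 h4 h5 aF haF ν₀ hν₀.le
  obtain ⟨br, aa, bb, Ev, hgeo⟩ := H₃ (P₀' := ⌈(P w₀ w₀ + (1 - cD / 2 - P1) + C * q) * J⌉₊)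
    (ν₀ := ν₀) hJ3 g3 hBpos h5' haF c1 c2 c3 c7 c5 c6 z1' t1 t1 c8 c9 c10 c11 c12 z2 t2 m1 m2
    m3 m4 m5 m6 m7 hν0 (by
      rw [hν₀]
      have hp := Nat.le_ceil ((P w₀ w₀ + (1 - cD / 2 - P1) + C * q) * (J : ℝ))
      obtain ⟨p, hpd⟩ : ∃ p : ℕ, p = ⌈(P w₀ w₀ + (1 - cD / 2 - P1) + C * q) * (J : ℝ)⌉₊ :=
        ⟨_, rfl⟩
      rw [← hpd] at hp ⊢
      have e1 : 2 * Θ * (2 ^ ⌊w₁ * (J : ℝ)⌋₊ / 2 ^ p) = 2 ^ ⌊w₁ * (J : ℝ)⌋₊ * (2 * Θ / 2 ^ p) := by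
        ring
      rw [e1]
      refine mul_le_mul_of_nonneg_left ?_ (by positivity)
      rw [div_le_iff₀ (by positivity), ← Real.rpow_natCast 2 p, ← Real.rpow_add two_pos]
      refine le_trans (mul_le_mul_of_nonneg_left t2 (by norm_num)) ?_
      have e2 : (2 : ℝ) * 2 ^ (η / 16 * (J : ℝ)) = 2 ^ (1 + η / 16 * (J : ℝ)) := by
        rw [Real.rpow_add two_pos, Real.rpow_one]
      rw [e2]
      refine Real.rpow_le_rpow_of_exponent_le one_le_two ?_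
      have h6 : (C' + 1) * q * J ≤ C * q * J :=
        mul_le_mul_of_nonneg_right (mul_le_mul_of_nonneg_right hCC' q0.le) hJ0
      have h7 : η * J ≤ q * J := mul_le_mul_of_nonneg_right (by linarith) hJ0
      linarith)
  refine ⟨B, g₂, V, V', Pv, z, zl, z', zl', br, aa, bb, Ev, hBA, hPe', fun i hi => ?_,
    fun i hi => ?_, hgeo⟩
  · exact (h5.be0 i hi).trans (mul_le_mul_of_nonneg_right g4 hJ0)
  · have h6 := h5.wd0 (i + 1) (by omega)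
    have h7 := h5.PJ
    unfold wid at h6
    rw [if_neg (by omega), Nat.add_sub_cancel] at h6
    omega

end Pool.R1
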