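import Pool.Agent.H96.R1.Stg

/-!
# Row R1: one stage, and the sum over the stages
-/

set_option autoImplicit false

namespace Pool.R1

open Finset Real
open Pool.Agent.H49.Ent Pool.Agent.H32.Dense Pool.STK
open Pool.JMN (shf tdg abn rp_mono rp_pos rp_nat)
open Pool.XBG (cel)
open Pool.R1P (gp gp_le gp_ex mi mi_le gp_mi)

/-- **One stage**: the first `k'` coordinates are alive. -/
theorem stage (k k' r : ℕ) (hk : k' ≤ k) (hR : R1nS k' r) :
    ∃ C1 : ℝ, 0 ≤ C1 ∧ ∀ K : ℕ, ∃ C2 : ℝ, 0 ≤ C2 ∧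
    ∀ {Ω α β τ δ : Type} [Fintype Ω] {p : Ω → ℝ} {X S h s₀ : ℕ} {g : ℕ → ℝ} {cap : Fin k → ℕ}
      {A : Ω → α} {B : Ω → β} {W : Ω → τ} {D : Ω → δ} {y : Ω → Fin k → ℝ} {N : Ω → ℝ}
      {a b : Ω → (Fin k → Fin (K + 1)) → ℝ} {th Lf : ℝ},
      Sup p k K r X S h s₀ g cap A B W D y N a b th Lf → ∀ s₁ s₂ : ℕ, s₀ ≤ s₁ → s₁ < s₂ → s₂ ≤ S →
      (∀ l : Fin k, k' ≤ (l : ℕ) → cap l ≤ s₁) → (∀ l : Fin k, (l : ℕ) < k' → s₂ ≤ cap l) →
      Rows p N D W ⌈g s₁⌉₊ ⌈g s₂⌉₊ (C1 * ((((S - s₀ : ℕ) : ℝ) + 1) * th + X) +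
        C2 * ((((S - s₀ : ℕ) : ℝ) + 1) * (1 + h))) := by
  obtain ⟨C1, hC1, hR⟩ := hR
  refine ⟨C1, hC1, fun K => ?_⟩
  obtain ⟨C2, hC2, hR⟩ := hR K
  obtain ⟨c, hc⟩ := Pool.JMN.prof_low k' K
  refine ⟨C1 + C2 * (3 + c) + 2 * (3 + c) + r * (6 + c) + 3, by positivity, ?_⟩
  intro Ω α β τ δ _ p X S h s₀ g cap A B W D y N a b th Lf H s₁ s₂ h01 h12 h2S hex hlive
  obtain ⟨M, hM⟩ : ∃ M, M = S - s₀ := ⟨_, rfl⟩
  rw [← hM]
  have hl2 : 0 < Real.log 2 := Real.log_pos (by norm_num)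
  have hl21 : Real.log 2 ≤ 1 := by
    have := Real.log_two_lt_d9
    linarith
  have hh : (0 : ℝ) ≤ h := Nat.cast_nonneg h
  have hc0 : (0 : ℝ) ≤ c := Nat.cast_nonneg c
  have hr0 : (0 : ℝ) ≤ r := Nat.cast_nonneg r
  have hS0 : (0 : ℝ) ≤ M := Nat.cast_nonneg M
  have hX0 : (0 : ℝ) ≤ X := Nat.cast_nonneg X
  have hth := H.th0
  have hSh : 0 ≤ ((M : ℝ) + 1) * (1 + h) := by positivity
  obtain ⟨T, hT⟩ : ∃ T, T = s₂ - s₁ := ⟨_, rfl⟩
  have hTS : s₁ + T = s₂ := by omega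
  have hT1 : 1 ≤ T := by omega
  have hTSr : (T : ℝ) ≤ M := by exact_mod_cast (by omega : T ≤ M)
  obtain ⟨H1, hH1⟩ : ∃ H1, H1 = 2 * (h + 1) + c := ⟨_, rfl⟩
  have hH1r : (H1 : ℝ) = 2 * (h + 1) + c := by rw [hH1]; push_cast; ring
  have hinc := H.incr h01 h12.le h2S
  have hTr : (T : ℝ) = (s₂ : ℝ) - s₁ := by rw [← hTS]; push_cast; ring
  rw [← hTr] at hinc
  by_cases hXH : 2 * h + H1 < X
  swap
  · -- short blocks
    refine Rows.zero H.law ?_
    have hX1 : (X : ℝ) ≤ 2 * h + H1 := by exact_mod_cast not_lt.1 hXH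
    have e1 := Nat.ceil_lt_add_one (H.g0 s₂)
    have e2 := Nat.le_ceil (g s₁)
    have e3 : (⌈g s₂⌉₊ : ℝ) - ⌈g s₁⌉₊ ≤ (T : ℝ) * (r * X + 2 * h) + 1 := by linarith
    have e4 : (X : ℝ) ≤ (6 + c) * (1 + h) := by
      rw [hH1r] at hX1
      nlinarith
    have e5 : (r : ℝ) * X ≤ r * ((6 + c) * (1 + h)) := mul_le_mul_of_nonneg_left e4 hr0
    have e6 : (T : ℝ) * (r * X + 2 * h) ≤ M * (r * ((6 + c) * (1 + h)) + 2 * h) :=
      mul_le_mul hTSr (by linarith) (by positivity) hS0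
    have e7 : (M : ℝ) * (r * ((6 + c) * (1 + h)) + 2 * h) + 1 ≤
        (r * (6 + c) + 3) * ((M + 1) * (1 + h)) := by
      have q1 : (M : ℝ) * (1 + h) ≤ (M + 1) * (1 + h) := by nlinarith
      have q2 : (r * (6 + c)) * ((M : ℝ) * (1 + h)) ≤ (r * (6 + c)) * ((M + 1) * (1 + h)) :=
        mul_le_mul_of_nonneg_left q1 (by positivity)
      nlinarith
    have e8 : ((⌈g s₂⌉₊ : ℝ) - ⌈g s₁⌉₊) * Real.log 2 ≤ (r * (6 + c) + 3) * ((M + 1) * (1 + h)) := by
      rcases le_or_gt ((⌈g s₂⌉₊ : ℝ) - ⌈g s₁⌉₊) 0 with q | q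
      · exact (mul_nonpos_of_nonpos_of_nonneg q hl2.le).trans (by positivity)
      · calc _ ≤ ((⌈g s₂⌉₊ : ℝ) - ⌈g s₁⌉₊) * 1 := mul_le_mul_of_nonneg_left hl21 q.le
          _ ≤ _ := by linarith
    have e9 : 0 ≤ C1 * ((M + 1) * th + X) := by positivity
    have e10 : 0 ≤ (C1 + C2 * (3 + c) + 2 * (3 + c)) * (((M : ℝ) + 1) * (1 + h)) := by positivity
    have e11 : (C1 + C2 * (3 + c) + 2 * (3 + c) + r * (6 + c) + 3) * (((M : ℝ) + 1) * (1 + h)) =
        (C1 + C2 * (3 + c) + 2 * (3 + c)) * (((M : ℝ) + 1) * (1 + h)) +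
          (r * (6 + c) + 3) * ((M + 1) * (1 + h)) := by ring
    linarith
  -- the profile in the stage
  obtain ⟨G, hG⟩ : ∃ G : ℕ → ℝ, G = fun i => g (s₁ + i) := ⟨_, rfl⟩
  obtain ⟨ab, hab⟩ : ∃ ab, ab = abn X T G := ⟨_, rfl⟩
  obtain ⟨y', hy'⟩ : ∃ y', y' = yy k' X s₁ hk y := ⟨_, rfl⟩
  obtain ⟨a', ha'⟩ : ∃ a', a' = ar k' X s₁ cap y a := ⟨_, rfl⟩
  obtain ⟨b', hb'⟩ : ∃ b', b' = ar k' X s₁ cap y b := ⟨_, rfl⟩
  have hG0 : 0 ≤ G 0 := by
    rw [hG]
    exact H.g0 _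
  have hprof : ∀ ω, 0 < p ω →
      (∀ al, |shf (y' ω) (fun α => a' ω α - b' ω α) al| ≤ 2 ^ H1 / 2 ^ ab (tdg al)) ∧
      (∀ i ≤ T, ∃ j ≤ k' * K, ((j * (i * X) + ab j : ℕ) : ℝ) ≤ G i + H1) ∧
      (∀ s, 1 ≤ s → s < T → ∀ rho,
        (∀ j ≤ k' * K, rho * ((s - 1) * X) + ab rho ≤ j * ((s - 1) * X) + ab j) →
        (∀ j ≤ k' * K, rho * ((s + 1) * X) + ab rho ≤ j * ((s + 1) * X) + ab j) →
        ∃ al, tdg al = rho ∧ 1 / (2 : ℝ) ^ (ab rho + H1) ≤
          |shf (y' ω) (fun α => a' ω α - b' ω α) al|) := by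
    intro ω hω
    obtain ⟨e1, e2, e3⟩ := hc X T (h + 1) G hG0 (fun α => a' ω α - b' ω α) (y' ω)
      (fun i hi z hz => by
        rw [Pool.JMN.ev_sub, ha', hb', hG]
        rw [hy'] at hz
        exact H.up' hk h01 hω (by omega) hz)
      (fun i hi => by
        obtain ⟨z, h1, h2⟩ := H.lo' hk h01 hex hω (show s₁ + i ≤ S by omega)
        refine ⟨z, fun l => ?_, ?_⟩
        · rw [hy']
          exact h1 l
        · rw [Pool.JMN.ev_sub, ha', hb', hG]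
          exact h2)
    rw [← hab, ← hH1] at e1 e3
    rw [← hab, ← hH1] at e2
    exact ⟨e1, e2, e3 (by omega)⟩
  -- a point of the support
  obtain ⟨ω₀, hω₀⟩ : ∃ ω, 0 < p ω := by
    by_contra hcon
    push Not at hcon
    have h1 : ∑ ω, p ω ≤ 0 := Finset.sum_nonpos fun ω _ => hcon ω
    rw [H.law.sum_one] at h1
    linarith
  obtain ⟨-, hex2, -⟩ := hprof ω₀ hω₀
  rw [hab] at hex2
  have hnear := fun {i : ℕ} (hi : i ≤ T) => gp_near (X := X) (S := T) (g := G) hex2 hi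
  obtain ⟨sl1, sl2⟩ := gp_slope (r := r) (h := h) hXH hex2 (fun i hi => by
    rw [hG]
    have := H.gs (s₁ + i) (by omega) (by omega)
    exact this)
  rw [← hab] at sl1 sl2
  rw [← hab] at hnear
  obtain ⟨d, hd⟩ : ∃ d, d = dth k' s₁ cap := ⟨_, rfl⟩
  obtain ⟨W', hW'⟩ : ∃ W' : Ω → τ × (Fin k → ℤ), W' = fun ω => (W ω, cv X y d ω) := ⟨_, rfl⟩
  have hdi : ∀ i, i ≤ T → ∀ l, dth k' (s₁ + i) cap l ≤ cap l := by
    intro i hi l
    unfold dth
    split_ifs with hl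
    · have := hlive l hl
      omega
    · exact le_rfl
  have hd0 : ∀ l, d l ≤ cap l := by
    rw [hd]
    exact hdi 0 (Nat.zero_le _)
  have h0 := H.law.nonneg
  -- the digits of the stage
  have hsum : ∀ i : ℕ, ∑ l, (dth k' (s₁ + i) cap l : ℝ) = ∑ l, (d l : ℝ) + k' * i := by
    intro i
    rw [hd]
    exact sum_dth k' hk s₁ i cap
  have hcvW : ∀ i : ℕ, Det p (fun ω => (W' ω, cel X y' i ω))
      (fun ω => (W ω, cv X y (dth k' (s₁ + i) cap) ω)) := by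
    intro i ω ω' _ _ hh
    simp only [hW', Prod.mk.injEq] at hh
    refine Prod.ext hh.1.1 ?_
    rw [hd] at hh
    rw [hy'] at hh
    exact cv_of_cel hk hh.1.2 hh.2
  have hGS : ∀ i ≤ T, G i ≤ g S := by
    intro i hi
    rw [hG]
    exact H.mono (by omega) (by omega) le_rfl
  have hNH : (2 : ℝ) ^ (-(g S)) ≤ 2 ^ H1 / 2 ^ gp X ab (k' * K) T := by
    rw [le_div_iff₀ (by positivity), ← rp_nat, ← rp_nat, ← Real.rpow_add (by norm_num)]
    refine rp_mono ?_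
    have e1 := (hnear (le_refl T)).2
    have e2 := hGS T le_rfl
    linarith
  have hcl : ∀ {ω ω' : Ω}, cv X y cap ω = cv X y cap ω' → ∀ l, |y ω l - y ω' l| ≤
      1 / 2 ^ (cap l * X) := by
    intro ω ω' hh l
    exact fl_close (congrFun hh l)
  have ky : ∀ ω l, |y ω l| ≤ 1 := fun ω l => by
    rw [abs_of_nonneg (H.y0 ω l)]
    exact (H.y1 ω l).le
  have hX1 : ∀ n : ℕ, (1 : ℝ) / 2 ^ n ≤ 1 := fun n => by
    rw [div_le_one (by positivity)]
    exact one_le_pow₀ (by norm_num)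
  -- the position of a sample in the cell of another sample
  have hpl : ∀ {ω ω'' : Ω}, cv X y d ω'' = cv X y d ω → ∀ l : Fin k, (l : ℕ) < k' →
      pnt k (cr X (dth k' s₁ cap) (cv X y (dth k' s₁ cap) ω'')) (1 / 2 ^ (s₁ * X)) (y' ω) l =
        y ω l := by
    intro ω ω'' hh l hl
    have e1 := pnt_live (X := X) (s := s₁) (cap := cap) hk ω hl
      (cv X y (dth k' s₁ cap) ω'') (by rw [← hd]; exact congrFun hh l) (y' ω)
    rw [hy', sub_self, mul_zero] at e1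
    rw [hy']
    linarith
  have hpe : ∀ {ω ω'' : Ω}, cv X y d ω'' = cv X y d ω → ∀ l : Fin k, k' ≤ (l : ℕ) →
      |pnt k (cr X (dth k' s₁ cap) (cv X y (dth k' s₁ cap) ω'')) (1 / 2 ^ (s₁ * X)) (y' ω) l -
        y ω l| ≤ 1 / 2 ^ (cap l * X) := by
    intro ω ω'' hh l hl
    rw [pnt_ex (X := X) (s := s₁) (cap := cap) hl]
    have e1 : cv X y (dth k' s₁ cap) ω'' l = ⌊(2 : ℝ) ^ (cap l * X) * y ω l⌋ := by
      rw [← hd, congrFun hh l, hd]
      unfold cv dth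
      rw [if_neg (not_lt.2 hl)]
    rw [e1]
    exact fl_near _ _
  have hpb : ∀ {ω ω'' : Ω}, cv X y d ω'' = cv X y d ω → ∀ l : Fin k,
      |pnt k (cr X (dth k' s₁ cap) (cv X y (dth k' s₁ cap) ω'')) (1 / 2 ^ (s₁ * X)) (y' ω) l| ≤
        2 := by
    intro ω ω'' hh l
    by_cases hl : (l : ℕ) < k'
    · rw [hpl hh l hl]
      linarith [ky ω l]
    · have e1 := hpe hh l (not_lt.1 hl)
      have e2 := abs_sub_abs_le_abs_sub (pnt k (cr X (dth k' s₁ cap)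
        (cv X y (dth k' s₁ cap) ω'')) (1 / 2 ^ (s₁ * X)) (y' ω) l) (y ω l)
      linarith [ky ω l, hX1 (cap l * X)]
  have hmain := hR H.law X T H1 ab A B W' D y' N a' b' (th + h)
    (Lf - (∑ l, (d l : ℝ)) * (X * Real.log 2)) H.hX (by linarith)
    (fun ω i => by rw [hy']; exact yy_nonneg hk ω i)
    (fun ω i => by rw [hy']; exact yy_lt hk ω i)
    (by
      intro ω ω' h1 h2 hh
      simp only [hW', Prod.mk.injEq] at hh
      have e1 := H.da ω ω' h1 h2 (Prod.ext hh.1 hh.2.1)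
      rw [ha']
      unfold ar
      rw [← hd, hh.2.2, e1])
    (by
      intro ω ω' h1 h2 hh
      simp only [hW', Prod.mk.injEq] at hh
      have e1 := H.db ω ω' h1 h2 (Prod.ext hh.1 hh.2.1)
      rw [hb']
      unfold ar
      rw [← hd, hh.2.2, e1])
    (fun ω hω al => (hprof ω hω).1 al) (sl1 hT1) sl2
    (by
      intro s ρ h1 h2 h3 h4 h5 h6 ω hω
      have q1 := gp_conv (X := X) (ab := ab) (D := k' * K) (i := s - r) (s := s - 1) (j := s + r)
        (by omega) (by omega) h5 h6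
      have q2 := gp_conv (X := X) (ab := ab) (D := k' * K) (i := s - r) (s := s + 1) (j := s + r)
        (by omega) (by omega) h5 h6
      exact (hprof ω hω).2.2 s (by omega) (by omega) ρ q1 q2)
    (by
      intro ω hω
      refine le_trans ?_ hNH
      rw [ha', ev_ar hk]
      have e1 := H.ga ω hω _ (y ω) (hpb (ω := ω) (ω'' := ω) rfl) (fun l => by linarith [ky ω l])
        (fun l => by
          by_cases hl : (l : ℕ) < k'
          · rw [hpl (ω := ω) (ω'' := ω) rfl l hl, sub_self, abs_zero]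
            positivity
          · refine (hpe (ω := ω) (ω'' := ω) rfl l (not_lt.1 hl)).trans ?_
            exact div_le_div_of_nonneg_right (by norm_num) (by positivity))
      have e2 := H.nn ω hω
      have e3 : N ω - Pool.JMN.ev (a ω) (pnt k (cr X (dth k' s₁ cap)
          (cv X y (dth k' s₁ cap) ω)) (1 / 2 ^ (s₁ * X)) (y' ω)) =
          (N ω - Pool.JMN.ev (a ω) (y ω)) - (Pool.JMN.ev (a ω) (pnt k (cr X (dth k' s₁ cap)
          (cv X y (dth k' s₁ cap) ω)) (1 / 2 ^ (s₁ * X)) (y' ω)) -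
            Pool.JMN.ev (a ω) (y ω)) := by ring
      rw [e3]
      refine (abs_sub _ _).trans ?_
      have e4 : (2 : ℝ) ^ (-(g S) - h - 3) ≤ (2 : ℝ) ^ (-(g S) - 1) := rp_mono (by linarith)
      have e5 : (2 : ℝ) ^ (-(g S)) = 2 * (2 : ℝ) ^ (-(g S) - 1) := by
        have e : (2 : ℝ) ^ (-(g S)) = (2 : ℝ) ^ (1 + (-(g S) - 1)) := by
          congr 1
          ring
        rw [e, Real.rpow_add (by norm_num), Real.rpow_one]
      rw [e5]
      linarith)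
    (by
      intro ω ω' ω'' h1 h2 h3 hD hW1 hW2
      simp only [hW', Prod.mk.injEq] at hW1 hW2
      refine le_trans ?_ hNH
      rw [ha', ev_ar hk, ev_ar hk]
      have hcap := H.dc ω ω' h1 h2 (Prod.ext hD hW1.1)
      have e1 := H.ga ω'' h3 _ _ (hpb (ω := ω) (ω'' := ω'') hW2.2)
        (hpb (ω := ω') (ω'' := ω'') (hW2.2.trans hW1.2)) (fun l => by
          by_cases hl : (l : ℕ) < k'
          · rw [hpl (ω := ω) (ω'' := ω'') hW2.2 l hl,
              hpl (ω := ω') (ω'' := ω'') (hW2.2.trans hW1.2) l hl]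
            refine (hcl hcap l).trans ?_
            exact div_le_div_of_nonneg_right (by norm_num) (by positivity)
          · rw [pnt_ex (X := X) (s := s₁) (cap := cap) (not_lt.1 hl),
              pnt_ex (X := X) (s := s₁) (cap := cap) (not_lt.1 hl), sub_self, abs_zero]
            positivity)
      exact e1.trans (rp_mono (by linarith)))
    (by
      intro ω ω' h1 h2 hh
      simp only [hW', Prod.mk.injEq] at hh
      have hcap := H.dc ω ω' h1 h2 (Prod.ext hh.1 hh.2.1)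
      rw [hy']
      exact cel_of_cv (cap := cap) hk (cv_nest (hdi T le_rfl) hcap))
    (by
      intro i hi
      refine (CH_mono_cond h0 (hcvW i)).trans ?_
      refine (H.cnt _ (hdi i hi.le)).trans ?_
      rw [hsum i]
      have e1 : (h : ℝ) ≤ H1 := by rw [hH1r]; linarith
      have e2 : (∑ l, (d l : ℝ) + k' * i) * (X * Real.log 2) = (∑ l, (d l : ℝ)) *
          (X * Real.log 2) + k' * (i * (X * Real.log 2)) := by ring
      rw [e2]
      linarith)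
    (by
      have e1 := CH_le_add h0 D (cv X y d) (fun ω => (B ω, W ω))
      have e2 := ch_cv H.law X y H.y0 H.y1 d (fun ω => (B ω, W ω))
      have e3 : CH p D (fun ω => (cv X y d ω, (B ω, W ω))) ≤ CH p D (fun ω => (B ω, W' ω)) := by
        refine CH_mono_cond h0 fun ω ω' _ _ hh => ?_
        simp only [hW', Prod.mk.injEq] at hh ⊢
        exact ⟨hh.2.1, hh.2.2, hh.1⟩
      have e4 := H.fb
      linarith)
    (by
      have e1 := CH_le_add h0 D (cv X y d) (fun ω => (A ω, W ω))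
      have e2 := ch_cv H.law X y H.y0 H.y1 d (fun ω => (A ω, W ω))
      have e3 : CH p D (fun ω => (cv X y d ω, (A ω, W ω))) ≤ CH p D (fun ω => (A ω, W' ω)) := by
        refine CH_mono_cond h0 fun ω ω' _ _ hh => ?_
        simp only [hW', Prod.mk.injEq] at hh ⊢
        exact ⟨hh.2.1, hh.2.2, hh.1⟩
      have e4 := H.fa
      have e5 := CH_le_add h0 D (cel X y' T) (fun ω => (A ω, W' ω))
      have e6 : CH p D (fun ω => (cel X y' T ω, (A ω, W' ω))) ≤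
          CH p D (fun ω => (W ω, cv X y (dth k' (s₁ + T) cap) ω)) := by
        refine CH_mono_cond h0 fun ω ω' q1 q2 hh => ?_
        simp only [Prod.mk.injEq] at hh
        exact hcvW T ω ω' q1 q2 (Prod.ext hh.2.2 hh.1)
      have e7 := H.cnt _ (hdi T le_rfl)
      rw [hsum T] at e7
      have e8 : (∑ l, (d l : ℝ) + k' * T) * (X * Real.log 2) = (∑ l, (d l : ℝ)) *
          (X * Real.log 2) + k' * (T * (X * Real.log 2)) := by ring
      rw [e8] at e7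
      linarith)
  -- the conclusion
  have hW : CH p (fun ω => ⌊(2 : ℝ) ^ gp X ab (k' * K) T * N ω⌋)
      (fun ω => (⌊(2 : ℝ) ^ gp X ab (k' * K) 0 * N ω⌋, (D ω, W' ω))) ≤
      CH p (fun ω => ⌊(2 : ℝ) ^ gp X ab (k' * K) T * N ω⌋)
      (fun ω => (⌊(2 : ℝ) ^ gp X ab (k' * K) 0 * N ω⌋, (D ω, W ω))) := by
    refine CH_mono_cond h0 fun ω ω' _ _ hh => ?_
    simp only [hW', Prod.mk.injEq] at hh ⊢
    exact ⟨hh.1, hh.2.1, hh.2.2.1⟩
  obtain ⟨E, hE⟩ : ∃ E : ℝ, E = C1 * (((T : ℝ) + 1) * (th + h) + X) +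
    C2 * (((T : ℝ) + 1) * (1 + H1)) := ⟨_, rfl⟩
  have hRow : Rows p N D W (gp X ab (k' * K) 0) (gp X ab (k' * K) T) E := by
    unfold Rows
    rw [hE]
    linarith
  have n0 := hnear (Nat.zero_le T)
  have nT := hnear (le_refl T)
  have g0' : G 0 = g s₁ := by rw [hG]; rfl
  have gT' : G T = g s₂ := by rw [hG]; show g (s₁ + T) = g s₂; rw [hTS]
  rw [g0'] at n0
  rw [gT'] at nT
  have hce : ∀ {x : ℝ} {n : ℕ}, (n : ℝ) ≤ x + H1 → n ≤ ⌈x⌉₊ + H1 := by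
    intro x n hn
    have e1 := Nat.le_ceil x
    have e2 : (n : ℝ) ≤ ((⌈x⌉₊ + H1 : ℕ) : ℝ) := by push_cast; linarith
    exact_mod_cast e2
  have hfin := hRow.of (n₁ := ⌈g s₁⌉₊) (n₂ := ⌈g s₂⌉₊) (H := H1) H.law (Nat.ceil_le.2 n0.1)
    (hce n0.2) (Nat.ceil_le.2 nT.1) (hce nT.2)
  refine hfin.mono ?_
  rw [hE, hH1r]
  have q1 : ((T : ℝ) + 1) * (th + h) ≤ (M + 1) * (th + h) :=
    mul_le_mul_of_nonneg_right (by linarith) (by linarith)
  have q2 : C1 * (((T : ℝ) + 1) * (th + h) + X) ≤ C1 * ((M + 1) * th + X) +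
      C1 * ((M + 1) * (1 + h)) := by
    have : C1 * (((T : ℝ) + 1) * (th + h) + X) ≤ C1 * ((M + 1) * (th + h) + X) :=
      mul_le_mul_of_nonneg_left (by linarith) hC1
    have e : C1 * (((M : ℝ) + 1) * (th + h) + X) = C1 * ((M + 1) * th + X) +
      C1 * ((M + 1) * h) := by ring
    have e2 : C1 * (((M : ℝ) + 1) * h) ≤ C1 * ((M + 1) * (1 + h)) :=
      mul_le_mul_of_nonneg_left (mul_le_mul_of_nonneg_left (by linarith) (by positivity)) hC1
    linarith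
  have q3 : ((T : ℝ) + 1) * (1 + (2 * (h + 1) + c)) ≤ (3 + c) * ((M + 1) * (1 + h)) := by
    have e1 : (1 + (2 * ((h : ℝ) + 1) + c)) ≤ (3 + c) * (1 + h) := by nlinarith
    calc ((T : ℝ) + 1) * (1 + (2 * (h + 1) + c)) ≤ (M + 1) * ((3 + c) * (1 + h)) :=
          mul_le_mul (by linarith) e1 (by positivity) (by positivity)
      _ = _ := by ring
  have q4 : C2 * (((T : ℝ) + 1) * (1 + (2 * (h + 1) + c))) ≤
      C2 * (3 + c) * ((M + 1) * (1 + h)) := by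
    rw [mul_assoc]
    exact mul_le_mul_of_nonneg_left q3 hC2
  have q5 : 2 * (2 * ((h : ℝ) + 1) + c) * Real.log 2 ≤ 2 * (3 + c) * ((M + 1) * (1 + h)) := by
    have e1 : 2 * ((h : ℝ) + 1) + c ≤ (3 + c) * (1 + h) := by nlinarith
    have e2 : (3 + c) * (1 + (h : ℝ)) ≤ (3 + c) * ((M + 1) * (1 + h)) := by
      refine mul_le_mul_of_nonneg_left ?_ (by positivity)
      nlinarith
    have e3 : 0 ≤ 2 * (2 * ((h : ℝ) + 1) + c) := by positivity
    calc 2 * (2 * ((h : ℝ) + 1) + c) * Real.log 2 ≤ 2 * (2 * ((h : ℝ) + 1) + c) * 1 :=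
          mul_le_mul_of_nonneg_left hl21 e3
      _ ≤ _ := by linarith
  have q6 : 0 ≤ (r * (6 + c) + 3) * (((M : ℝ) + 1) * (1 + h)) := by positivity
  have e11 : (C1 + C2 * (3 + c) + 2 * (3 + c) + r * (6 + c) + 3) * (((M : ℝ) + 1) * (1 + h)) =
      C1 * ((M + 1) * (1 + h)) + C2 * (3 + c) * ((M + 1) * (1 + h)) +
        2 * (3 + c) * ((M + 1) * (1 + h)) + (r * (6 + c) + 3) * ((M + 1) * (1 + h)) := by ring
  rw [e11]
  linarith

end Pool.R1
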