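import Pool.Agent.H99.CLO.RlN
import Pool.Agent.H96.R1.Fmw
import Pool.Agent.H96.R1.Fct

/-!
# The leaves are different: numbers and the relations of the first window

`ncn`: the numbers of the labels at two windows. `hrel_two`: no relation over the chain of the
first window.
-/

set_option autoImplicit false

namespace Pool.R1

open Finset Real
open Pool.Agent.H49.Ent Pool.Agent.H32.Dense Pool.STK Pool.KA Pool.KSAT Pool.K2S Pool.PB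
  Pool.STAT Pool.STAT.CLO Pool.GEN Pool.S6C Pool.M3F Pool.JPN Pool.GEO Pool.GRW Pool.PKG
open Pool.LBT (ThrOf)
open Pool.CHT (TmH chsys bet tmH_of_reg Up1)
open Pool.ONE (lst)
open Pool.FRN (Gdy Wgd)
open Pool.CLO37

variable {m J : ℕ}

/-- The numbers of the labels at two windows. -/
theorem ncn {r sg₀ sg₁ sh sh₂ sh' sh₂' e EN kk e' EN' kk' : ℕ} {β₀ β₁ : ℕ → ℝ}
    {P00 P1 cD EE₀ EE₁ φ w₀ w₁ L L' : ℝ} {g g₁ g₂ g' g₁' g₂' : ℕ → ℕ}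
    (hN : NuW J r sg₀ sh sh₂ β₀ P00 (1 - cD / 2) EE₀ φ e EN kk g g₁ g₂ L)
    (hN' : NuW J r sg₁ sh' sh₂' β₁ P1 (1 - cD / 2) EE₁ φ e' EN' kk' g' g₁' g₂' L')
    (hs0 : sg₀ = ⌊(1 - cD / 2 - P00) * J⌋₊) (hs1 : sg₁ = ⌊(1 - cD / 2 - P1) * J⌋₊)
    (hcD : 0 < cD) (hP00 : 0 ≤ P00) (hP : P00 + cD ≤ P1) (hP1 : P1 ≤ 1 - cD) (hw0 : 0 ≤ w₀)
    (hw01 : w₀ ≤ w₁) (hw1 : w₁ ≤ 1 - cD) (hβ0 : ∀ l < r, β₀ l ≤ 1 - 3 / 4 * cD)
    (hβ1 : ∀ l < r, β₁ l ≤ 1 - 3 / 4 * cD) (hφ0 : 0 ≤ φ) (hφ : φ ≤ cD / 8)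
    (hJ : 4 ≤ cD * J) :
    ∃ s : ℕ, sg₀ = sg₁ + s ∧ J ≤ g₂' r + s ∧ (∀ i < r + 1, wid ⌊w₀ * J⌋₊ g₂ i ≤ g₂ r) ∧
      g₂ r ≤ J ∧ (g₂ r : ℝ) ≤ (1 - cD / 2 + φ) * J ∧
      (∀ i < r + 1, (wid ⌊w₁ * J⌋₊ g₂' i : ℝ) ≤ (1 - cD / 2 + φ) * J) ∧
      g r + sg₀ ≤ g₁ r + ⌈2 * φ * J⌉₊ := by
  have hJ0 : (0 : ℝ) ≤ J := Nat.cast_nonneg J
  have hle : sg₁ ≤ sg₀ := by
    rw [hs0, hs1]
    exact Nat.floor_le_floor (mul_le_mul_of_nonneg_right (by linarith) hJ0)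
  obtain ⟨s, hs⟩ := Nat.exists_eq_add_of_le hle
  have hφJ : φ * J ≤ cD / 8 * J := mul_le_mul_of_nonneg_right hφ hJ0
  have hφJ0 : 0 ≤ φ * J := mul_nonneg hφ0 hJ0
  have hcJ0 : 0 ≤ cD * J := mul_nonneg hcD.le hJ0
  have a1 : (sg₀ : ℝ) ≤ (1 - cD / 2 - P00) * J := by
    rw [hs0]
    exact Nat.floor_le (mul_nonneg (by linarith) hJ0)
  have a2 : (1 - cD / 2 - P00) * J < (sg₀ : ℝ) + 1 := by
    rw [hs0]
    exact Nat.lt_floor_add_one _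
  have a3 : (sg₁ : ℝ) ≤ (1 - cD / 2 - P1) * J := by
    rw [hs1]
    exact Nat.floor_le (mul_nonneg (by linarith) hJ0)
  have a4 : (sg₀ : ℝ) = sg₁ + s := by exact_mod_cast hs
  have a5 : (P00 + cD) * J ≤ P1 * J := mul_le_mul_of_nonneg_right hP hJ0
  have g0r : (g₂ r : ℝ) ≤ (1 - cD / 2 + φ) * J := by
    have h1 : g₂ r ≤ g r + sg₀ := by
      have h1 := hN.g2N
      have h2 := hN.g1N
      omega
    have h2 : (g₂ r : ℝ) ≤ g r + sg₀ := by exact_mod_cast h1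
    have h3 := (abs_le.1 hN.gN).2
    linarith
  have g0l := hN.g2l
  have g1l := hN'.g2l
  have b0 : ∀ l < r, (g₂ l : ℝ) ≤ (1 - 3 / 4 * cD + φ) * J := fun l hl => by
    have h1 : (g₂ l : ℝ) + sh = g l := by exact_mod_cast hN.g2 l hl
    have h2 := (abs_le.1 (hN.gV l hl)).2
    have h3 := mul_le_mul_of_nonneg_right (hβ0 l hl) hJ0
    have h4 : (0 : ℝ) ≤ sh := Nat.cast_nonneg sh
    linarith
  have b1 : ∀ l < r, (g₂' l : ℝ) ≤ (1 - 3 / 4 * cD + φ) * J := fun l hl => by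
    have h1 : (g₂' l : ℝ) + sh' = g' l := by exact_mod_cast hN'.g2 l hl
    have h2 := (abs_le.1 (hN'.gV l hl)).2
    have h3 := mul_le_mul_of_nonneg_right (hβ1 l hl) hJ0
    have h4 : (0 : ℝ) ≤ sh' := Nat.cast_nonneg sh'
    linarith
  have w1l : (⌊w₁ * J⌋₊ : ℝ) ≤ (1 - cD) * J :=
    (Nat.floor_le (mul_nonneg (hw0.trans hw01) hJ0)).trans (mul_le_mul_of_nonneg_right hw1 hJ0)
  have w0l : (⌊w₀ * J⌋₊ : ℝ) ≤ (1 - cD) * J :=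
    (Nat.floor_le (mul_nonneg hw0 hJ0)).trans (mul_le_mul_of_nonneg_right (hw01.trans hw1) hJ0)
  refine ⟨s, hs, ?_, fun i hi => ?_, ?_, g0r, fun i hi => ?_, ?_⟩
  · have h1 : (J : ℝ) ≤ g₂' r + s := by linarith
    exact_mod_cast h1
  · unfold wid
    split_ifs with h0
    · have h1 : (⌊w₀ * J⌋₊ : ℝ) ≤ g₂ r := by linarith
      exact_mod_cast h1
    · have h2 := b0 (i - 1) (by omega)
      have h1 : (g₂ (i - 1) : ℝ) ≤ g₂ r := by linarith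
      exact_mod_cast h1
  · have h1 := hN.g2N
    have h2 := hN.g1J
    omega
  · unfold wid
    split_ifs with h0
    · linarith
    · have h2 := b1 (i - 1) (by omega)
      linarith
  · have h1 : (g₂ r : ℝ) ≤ g₁ r := by
      have h2 : g₂ r ≤ g₁ r := by
        have := hN.g2N
        omega
      exact_mod_cast h2
    have h3 := (abs_le.1 hN.gN).2
    have h4 := Nat.le_ceil (2 * φ * (J : ℝ))
    have h5 : (g r : ℝ) + sg₀ ≤ g₁ r + (⌈2 * φ * (J : ℝ)⌉₊ : ℝ) := by linarith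
    exact_mod_cast h5

variable {n : ℕ} {hn : 2 ≤ n} {S : PCl n} {P : ℝ → ℝ → ℝ} {ρ : ℝ → ℝ} {θ : ℝ}
  {PP : List (Fin n) × Fin n → ℝ → ℝ → ℝ} {w₀ w₁ α : ℝ} {c₀ c₁ : ℕ → Fin n} {P1 cD : ℝ}

/-- The order of the first window is injective. -/
theorem inj_two (H : TwoW hn S P ρ θ PP w₀ w₁ α c₀ c₁ P1 cD) :
    Set.InjOn c₀ (Set.Iio (n - 1 + 1)) := by
  intro x hx y hy hxy
  have hx' : x < n - 1 + 1 := hx
  have hy' : y < n - 1 + 1 := hy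
  rcases Nat.lt_or_ge x (n - 1) with h1 | h1
  · rcases Nat.lt_or_ge y (n - 1) with h2 | h2
    · exact H.gdy0.inj h1 h2 hxy
    · have h3 : y = n - 1 := by omega
      rw [h3, H.gdy0.top] at hxy
      exact absurd hxy (H.gdy0.ne x h1)
  · have h3 : x = n - 1 := by omega
    rcases Nat.lt_or_ge y (n - 1) with h2 | h2
    · rw [h3, H.gdy0.top] at hxy
      exact absurd hxy.symm (H.gdy0.ne y h2)
    · omega

/-- **No relation over the chain of the first window.** -/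
theorem hrel_two (H : TwoW hn S P ρ θ PP w₀ w₁ α c₀ c₁ P1 cD) (D K : ℕ) {η κ₁ : ℝ}
    (hη : 0 < η) (hκ₁ : 0 < κ₁) : ∃ φ : ℝ, 0 < φ ∧ Bas S (fun J F A => 0 < Pe F.p A →
      ∀ (e EN kk sh sh₂ : ℕ) (EE L : ℝ) (g g₁ g₂ : ℕ → ℕ)
        (G : PtT F → ℕ → MvPolynomial (Option (Fin n)) ℝ)
        (Hl : LnT F → ℕ → MvPolynomial (Option (Fin n)) ℝ),
      NuW J (n - 1) ⌊(1 - cD / 2 - P w₀ w₀) * J⌋₊ sh sh₂ (fun l => bet PP c₀ l w₀ w₀) (P w₀ w₀)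
        (1 - cD / 2) EE φ e EN kk g g₁ g₂ L →
      ChOK F c₀ (n - 1) (fun _ => K) ⌊w₀ * J⌋₊ ⌊w₀ * J⌋₊ e g A G Hl →
      ChOK F c₀ (n - 1 + 1) (fun _ => K) ⌊w₀ * J⌋₊ ⌊w₀ * J⌋₊ EN g A G Hl →
      ∀ B₀ : F.Ω → Prop, Sub B₀ A → κ₁ * Pe F.p A ≤ Pe F.p B₀ →
        ∀ (Dx : PtT F → MvPolynomial (Option (Fin n)) ℝ)
          (Dl : LnT F → MvPolynomial (Option (Fin n)) ℝ) (N₀ : ℕ),
        (∀ y, (Dx y).totalDegree ≤ D) → (∀ s, (Dl s).totalDegree ≤ D) →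
        (∀ y, DepC c₀ (n - 1 + 1) (Dx y)) → (∀ s, DepC c₀ (n - 1 + 1) (Dl s)) →
        (∀ ω, B₀ ω → |MvPolynomial.eval (bt F ω) (Dx (ptr F J ω))| ≤ 1 / 2 ^ N₀) →
        (∀ ω, B₀ ω → ∀ b, NBx c₀ (G (ptr F J ω)) g ⌊w₀ * J⌋₊ (F.t ω) (n - 1 + 1) b →
          |MvPolynomial.eval b (Dx (ptr F J ω)) -
            MvPolynomial.eval b (Dl (slam F ⌊w₀ * J⌋₊ ω))| ≤ 1 / 2 ^ N₀) →
        ∃ ω, B₀ ω ∧ ∀ b, NBx c₀ (G (ptr F J ω)) g ⌊w₀ * J⌋₊ (F.t ω) (n - 1 + 1) b →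
          |MvPolynomial.eval b (Dx (ptr F J ω))| ≤ 2 ^ ⌊η * J⌋₊ / 2 ^ N₀) := by
  classical
  obtain ⟨al, g₀, s, d, e, K₀, N, hal, hg₀, hnum, he, hC⟩ := H.cl
  have hS : TmH S := tmH_of_reg (fun τ J F A h =>
    let q := hC.mem τ J F A h
    ⟨q.1, q.2.1, q.2.2.1, q.2.2.2.1⟩)
  obtain ⟨n1, n2, n3, n4, n5⟩ := two_num H
  have h0 := H.w0
  have h01 := H.w01
  have h1α := H.w1α
  have hα1 := H.α1
  have hαP := H.αP
  have hPcD := H.PcD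
  have hc0 := H.cD0
  have hθ1 := H.θ1
  have hθ0 := H.θ0
  have hw0l : w₀ ≤ 1 - cD := by linarith
  have hP0 : 0 ≤ P w₀ w₀ := le_trans h0.le (H.tgs.low () w₀ w₀ h0.le le_rfl (by linarith))
  have hup := Pool.FRN.Wgd.self H.wgd0 (by linarith)
  have hgd := H.gdy0.gdP hC.ne H.cht H.θ0 hS H.t1 H.t2 hα1.le (by linarith) (by linarith) h0
    le_rfl (by linarith) hup
  have hθw : θ * w₀ ≤ θ * 1 := mul_le_mul_of_nonneg_left (by linarith) hθ0.le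
  obtain ⟨φ, hφ, hB⟩ := Pool.RLX.relvN H.cht H.θ0 hS (inj_two H) (by
      rw [H.gdy0.top]
      exact H.tgs) (w := w₀) (s := 1 - cD / 2 - P w₀ w₀) (vs := 0) h0 (by linarith) (by linarith)
    (fun l _ => hup.up c₀ l) H.up0 (fun l hl => by linarith [n3 l hl]) le_rfl
    (by rw [mul_zero]; positivity) (fun i hi l hl => by
      rw [add_zero]
      exact hgd.sort i hi l hl.le) (fun l hl => by linarith [n3 l hl]) (by linarith) D K hη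
    (by norm_num : (0 : ℝ) < 1 / 2) hκ₁
  refine ⟨φ / 2, by positivity, hB.mono (⌈2 / φ⌉₊) ?_⟩
  intro J hJ F A hA hpos e EN kk sh sh₂ EE L g g₁ g₂ G Hl hN hV hNc B₀ hB₀ hκ Dx Dl N₀ d1 d2 d3 d4
    d5 d6
  have hJ0 : (0 : ℝ) ≤ J := Nat.cast_nonneg J
  have hJ' : 2 / φ ≤ J := (Nat.le_ceil _).trans (by exact_mod_cast hJ)
  have hJφ : 2 ≤ φ * J := by
    rw [div_le_iff₀ hφ] at hJ'
    linarith
  have hφJ : φ / 2 * J ≤ φ * J := by linarith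
  obtain ⟨B, hBB, hm, hb⟩ := hA B₀ e EN _ g (fun _ => K) G Hl hB₀ hκ (hN.e_le.trans hφJ) (by
      have a1 : (⌊(1 - cD / 2 - P w₀ w₀) * J⌋₊ : ℝ) ≤ (1 - cD / 2 - P w₀ w₀) * J :=
        Nat.floor_le (mul_nonneg (by linarith) hJ0)
      have a2 := Nat.lt_floor_add_one ((1 - cD / 2 - P w₀ w₀) * (J : ℝ))
      rw [abs_le]
      constructor <;> linarith) (fun i _ => le_rfl)
    (fun l hl => (hN.gV l hl).trans hφJ) (hN.gN.trans hφJ) hN.lip (hV.sub hB₀) (hNc.sub hB₀) Dx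
    Dl N₀ d1 d2 d3 d4 d5 d6
  have hB0 : 0 < Pe F.p B := by
    have h2 : 0 < κ₁ * Pe F.p A := mul_pos hκ₁ hpos
    linarith
  obtain ⟨ω, hω⟩ : ∃ ω, B ω := by
    by_contra hcon
    push Not at hcon
    have h3 : Pe F.p B = 0 := by
      unfold Pe
      exact Finset.sum_eq_zero fun ω _ => if_neg fun h => hcon ω (of_eq_true h)
    linarith
  exact ⟨ω, hBB ω hω, hb ω hω⟩

end Pool.R1
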