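import Pool.Agent.H5.GEO.Win
import Pool.Agent.H5.GEO.Nob
import Pool.Agent.H37.CLO.Fd0
import Pool.Agent.H96.R1.Ncn
import Pool.Agent.H96.R1.Gfn

/-!
# The leaves are different, in a class

`noC`: the statement `NoC` for the last event of the pairs.
-/

set_option autoImplicit false

namespace Pool.R1

open Finset Real
open Pool.Agent.H49.Ent Pool.Agent.H32.Dense Pool.STK Pool.KAF Pool.KAL Pool.KS3 Pool.M3F
open Pool.KJA Pool.KA Pool.K2S Pool.KSAT Pool.PB Pool.STAT Pool.GEN Pool.CLO37 Pool.IEN Pool.EXS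
open Pool.JPN Pool.GEO Pool.KM7 Pool.S6C
open Pool.STAT.CLO
open Pool.GRW (TmWn)
open Pool.CHT (bet bas_ev)
open Pool.ONE (lst Mic Sta Jmp)

/-- Large indices. -/
theorem exJ (x : ℝ) {d : ℝ} (hd : 0 < d) : ∃ M : ℕ, ∀ J : ℕ, M ≤ J → x ≤ d * J := by
  refine ⟨⌈x / d⌉₊, fun J hJ => ?_⟩
  have h1 : x / d ≤ J := (Nat.le_ceil _).trans (by exact_mod_cast hJ)
  rw [div_le_iff₀ hd] at h1
  linarith

/-- **The leaves are different, in a class.** -/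
theorem noC (n Dq : ℕ) {c : ℝ} (hc : 0 < c) (hc1 : c ≤ 1) (hF : FZX (n - 1)) :
    ∃ C' : ℝ, 1 ≤ C' ∧ NoC n Dq c C' := by
  classical
  obtain ⟨a, ha, hno⟩ := no_fam (n - 1) Dq hc hc1
  obtain ⟨C', hC'⟩ : ∃ C' : ℝ, C' = 3 / 2 * a + 2 := ⟨_, rfl⟩
  refine ⟨C', by rw [hC']; linarith, ?_⟩
  intro hn S P ρ θ PP w₀ w₁ α c₀ c₁ P1 cD H q X η y hη hy hy1 hq hqX hX D D' sh sh₂ K' sh' sh₂' K''
    S₀ E₀ S₀' E₀' σ K₂ n₀ hsh hK' hS₀ hE₀ hsh' hK'' hS₀' hE₀'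
  obtain ⟨κ₁, b, hκ₁, hb, hmain⟩ := hno (max K' K'') D K' hK'
  obtain ⟨n1, n2, n3, n4, n5⟩ := two_num H
  have TF := two_facts hF H
  have h0 := H.w0
  have h01 := H.w01
  have h1α := H.w1α
  have hα1 := H.α1
  have hαP := H.αP
  have hPcD := H.PcD
  have hc0 := H.cD0
  have hP0 : 0 ≤ P w₀ w₀ := le_trans h0.le (H.tgs.low () w₀ w₀ h0.le le_rfl (by linarith))
  have hyη : 0 < y + η := by linarith
  have hw1l : w₁ ≤ 1 - cD := by linarith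
  -- the numbers
  have hC1 : 3 / 2 * a + 1 ≤ C' := by rw [hC']; linarith
  have hC2 : 2 * (y + η) ≤ q :=
    le_trans (mul_le_mul_of_nonneg_right (by rw [hC']; linarith) hyη.le) hq
  have hq0 : 0 < q := by linarith
  have hqc : C' * q ≤ cD / 8 :=
    le_trans (mul_le_mul_of_nonneg_left hqX (by rw [hC']; linarith)) hX
  obtain ⟨η', hη'⟩ : ∃ x : ℝ, x = min q cD / (24 * b) := ⟨_, rfl⟩
  have hb0 : 0 < b := by linarith
  have hm0 : 0 < min q cD := lt_min hq0 hc0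
  have hη'0 : 0 < η' := by
    rw [hη']
    positivity
  have hbη : b * η' = min q cD / 24 := by
    rw [hη']
    field_simp
  have hbη1 : b * η' ≤ q / 24 := by
    rw [hbη]
    linarith [min_le_left q cD]
  have hbη2 : b * η' ≤ cD / 24 := by
    rw [hbη]
    linarith [min_le_right q cD]
  obtain ⟨ηw, hηw⟩ : ∃ x : ℝ, x = min η (cD / 4) := ⟨_, rfl⟩
  have hηw0 : 0 < ηw := by
    rw [hηw]
    exact lt_min hη (by linarith)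
  have hηw1 : ηw ≤ η := by
    rw [hηw]
    exact min_le_left _ _
  have hηw2 : ηw ≤ cD / 4 := by
    rw [hηw]
    exact min_le_right _ _
  have hm0 : w₁ + ηw ≤ 1 - cD / 2 := by linarith
  have hm1 : ∀ l < n - 1, bet PP c₁ l w₁ w₁ + ηw ≤ 1 - cD / 2 := fun l hl => by
    have := n4 l hl
    linarith
  have hvol : (w₁ - w₀) + ∑ l ∈ range (n - 1), (bet PP c₁ l w₁ w₁ - bet PP c₀ l w₀ w₀) + ηw ≤
      q := by
    rw [Finset.sum_sub_distrib]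
    linarith
  obtain ⟨N₁, φa, hφa, hBa⟩ := w_in (n - 1) (max K' K'') TF.mem h0.le h01.le (by linarith) H.ex0
    H.ex1 hηw0 (by linarith : 0 < c / 8) (by linarith : 0 < η' / 4) hm0 hm1 hvol
  obtain ⟨N₂, φb, hφb, hBb⟩ := w_in (n - 1) (max K' K'') TF.mem h0.le h01.le (by linarith) H.ex0
    H.ex1 hηw0 (by linarith : 0 < c / 8) (by positivity : 0 < η' / (8 * ((N₁ : ℝ) + 1))) hm0 hm1
    hvol
  obtain ⟨φc, hφc, hBc⟩ := hrel_two H Dq D hη'0 hκ₁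
  obtain ⟨Cs, hCs, hcs⟩ := cs_unif (n - 1) Dq K''
  obtain ⟨φ₀, hφ₀⟩ : ∃ x : ℝ, x = min (min φa φb) (min φc (min (cD / 8) (min (q / 4) (η' / 8)))) :=
    ⟨_, rfl⟩
  have hφ₀0 : 0 < φ₀ := by
    rw [hφ₀]
    exact lt_min (lt_min hφa hφb) (lt_min hφc (lt_min (by linarith) (lt_min (by linarith)
      (by linarith))))
  have f1 : φ₀ ≤ φa := by
    rw [hφ₀]
    exact (min_le_left _ _).trans (min_le_left _ _)
  have f2 : φ₀ ≤ φb := by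
    rw [hφ₀]
    exact (min_le_left _ _).trans (min_le_right _ _)
  have f3 : φ₀ ≤ φc := by
    rw [hφ₀]
    exact (min_le_right _ _).trans (min_le_left _ _)
  have f4 : φ₀ ≤ cD / 8 := by
    rw [hφ₀]
    exact (min_le_right _ _).trans ((min_le_right _ _).trans (min_le_left _ _))
  have f5 : φ₀ ≤ q / 4 := by
    rw [hφ₀]
    exact (min_le_right _ _).trans ((min_le_right _ _).trans ((min_le_right _ _).trans
      (min_le_left _ _)))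
  have f6 : φ₀ ≤ η' / 8 := by
    rw [hφ₀]
    exact (min_le_right _ _).trans ((min_le_right _ _).trans ((min_le_right _ _).trans
      (min_le_right _ _)))
  obtain ⟨M1, hM1⟩ := exJ 4 hc0
  obtain ⟨M2, hM2⟩ := exJ 1 (by linarith : 0 < q / 4)
  obtain ⟨M3, hM3⟩ := exJ 1 (by linarith : 0 < cD / 24)
  obtain ⟨M4, hM4⟩ := exJ 1 (by linarith : 0 < η' / 4)
  obtain ⟨M5, hM5⟩ := exJ (Real.log S₀) hη'0
  obtain ⟨M6, hM6⟩ := exJ ((max sh sh₂ : ℕ) : ℝ) hη'0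
  obtain ⟨M7, hM7⟩ := exJ (Real.log Cs) (by linarith : 0 < η' / 4)
  obtain ⟨M8, hM8⟩ := exJ (Real.log (((Dq * n₀ : ℕ) : ℝ) + 1)) hη'0
  obtain ⟨M9, hM9⟩ := exJ ((N₁ : ℝ) + 1) (by linarith : 0 < η' / 4)
  refine ⟨φ₀, hφ₀0, ((hBa.and hBb).and hBc).mono
    (1 + M1 + M2 + M3 + M4 + M5 + M6 + M7 + M8 + M9) ?_⟩
  rintro J hJ F A ⟨⟨⟨hA, ha1⟩, -, hb1⟩, hc2⟩
  intro φ e EN kk e' EN' kk' g g₁ g₂ g' g₁' g₂' L L' G G' Hl Hl' V V' z zl Pv Qv T kf z' zl' Pv' Qv'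
    T' kf' kap Qh ρz hφ hN hL hN' hL' hG aF haF ν₀ hν₀
  have J1 : 4 ≤ cD * J := hM1 J (by omega)
  have J2 : 1 ≤ q / 4 * J := hM2 J (by omega)
  have J3 : 1 ≤ cD / 24 * J := hM3 J (by omega)
  have J4 : 1 ≤ η' / 4 * J := hM4 J (by omega)
  have J5 : Real.log S₀ ≤ η' * J := hM5 J (by omega)
  have J6 : ((max sh sh₂ : ℕ) : ℝ) ≤ η' * J := hM6 J (by omega)
  have J7 : Real.log Cs ≤ η' / 4 * J := hM7 J (by omega)
  have J8 : Real.log (((Dq * n₀ : ℕ) : ℝ) + 1) ≤ η' * J := hM8 J (by omega)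
  have J9 : (N₁ : ℝ) + 1 ≤ η' / 4 * J := hM9 J (by omega)
  have hJ0 : 0 < J := by omega
  have hJr : (0 : ℝ) < J := by exact_mod_cast hJ0
  have hN0 := nuw_mono hN hφ
  have hN0' := nuw_mono hN' hφ
  have hG0 := gd_mono hG hφ
  obtain ⟨s, hs, hPg, hw, hgJ, hgr, hgw, hgas⟩ := ncn hN0 hN0' rfl rfl hc0 hP0 hPcD n5 h0.le h01.le
    hw1l n3 n4 hφ₀0.le f4 J1
  have hφJ : φ₀ * J ≤ η' / 8 * J := mul_le_mul_of_nonneg_right f6 hJr.le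
  have hηJ : 0 ≤ η' * J := by positivity
  -- the equations
  obtain ⟨rq, hrq⟩ : ∃ x : ℝ, x = Cs * 2 ^ kk' / ((2 ^ (J - ⌊w₁ * J⌋₊) : ℕ) : ℝ) := ⟨_, rfl⟩
  obtain ⟨Qh', hQd, hcsq⟩ := hcs (Pp := J) (s := s) (kk := kk') Qv' T' kf' rq hL'.nlab
    (hG0.WP.trans hG0.PJ) hPg (fun i hi => (hG0.wd1 i hi).trans hG0.PJ) hL'.jet hL'.kle
    (by rw [hrq])
  have hM0 : (0 : ℝ) < ((2 ^ (J - ⌊w₁ * J⌋₊) : ℕ) : ℝ) := by positivity
  have hrq0 : 0 ≤ rq := by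
    rw [hrq]
    positivity
  have hrq1 : rq ≤ Real.exp (η' * J) / ((2 ^ (J - ⌊w₁ * J⌋₊) : ℕ) : ℝ) := by
    rw [hrq]
    refine div_le_div_of_nonneg_right ?_ hM0.le
    have h1 : (2 : ℝ) ^ kk' = Real.exp (kk' * Real.log 2) := by
      rw [← Real.rpow_natCast, Real.rpow_def_of_pos two_pos, mul_comm]
    have h2 : Cs = Real.exp (Real.log Cs) := (Real.exp_log (by linarith)).symm
    rw [h1, h2, ← Real.exp_add, Real.exp_le_exp]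
    have h3 := hN0'.kk_le
    have h4 := Real.log_two_lt_d9
    have h5 := Real.log_two_gt_d9
    have h6 : (kk' : ℝ) * Real.log 2 ≤ kk' * 1 :=
      mul_le_mul_of_nonneg_left (by linarith) (Nat.cast_nonneg _)
    linarith
  -- the inputs of the windows
  obtain ⟨⟨N, hNN, mx1⟩, ⟨N', hNN', mx0⟩, -, -, -, Sv, κv, hIn⟩ := ha1 Dq X φ₀ σ (g₂' (n - 1))
    ⌊(1 - cD / 2 - P w₀ w₀) * J⌋₊ ⌊(1 - cD / 2 - P1) * J⌋₊ kap g₂ g₂' (max L L') V V' z zl Pv z' zl'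
    Pv' Qh ρz f1 hG0 s J hG0.PJ le_rfl hgJ hw
  obtain ⟨-, -, tm1, tm0, tm', -⟩ := hb1 Dq X φ₀ σ (g₂' (n - 1))
    ⌊(1 - cD / 2 - P w₀ w₀) * J⌋₊ ⌊(1 - cD / 2 - P1) * J⌋₊ kap g₂ g₂' (max L L') V V' z zl Pv z' zl'
    Pv' Qh ρz f2 hG0 s J hG0.PJ le_rfl hgJ hw
  obtain ⟨e₂, he₂⟩ : ∃ x : ℝ, x = η' / (8 * ((N₁ : ℝ) + 1)) * J := ⟨_, rfl⟩
  rw [← he₂] at tm1 tm0 tm'
  have hN1 : (0 : ℝ) < (N₁ : ℝ) + 1 := by positivity
  have he₂0 : 0 ≤ e₂ := by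
    rw [he₂]
    positivity
  have he₂1 : ((N₁ : ℝ) + 1) * e₂ = η' / 8 * J := by
    rw [he₂]
    field_simp
  have hmu : ∀ N : ℕ, N ≤ N₁ → ((N : ℝ) + 1) * (e₂ + 1) + η' / 4 * J ≤ η' * J := by
    intro N hNN
    have h1 : (N : ℝ) ≤ N₁ := by exact_mod_cast hNN
    have h2 : ((N : ℝ) + 1) * (e₂ + 1) ≤ ((N₁ : ℝ) + 1) * (e₂ + 1) :=
      mul_le_mul_of_nonneg_right (by linarith) (by linarith)
    linarith
  have he₂X : e₂ ≤ η' * J := by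
    have h1 := hmu N₁ le_rfl
    have h2 : e₂ * 1 ≤ e₂ * ((N₁ : ℝ) + 1) :=
      mul_le_mul_of_nonneg_left (by linarith [(Nat.cast_nonneg N₁ : (0 : ℝ) ≤ N₁)]) he₂0
    linarith
  have hΓ0 : g₂ (n - 1) + ⌊cD / 4 * J⌋₊ ≤ J := gap_nat hc0.le hgr (by linarith)
  have hΓ1 : ∀ i < n - 1 + 1, wid ⌊w₁ * J⌋₊ g₂' i + ⌊cD / 4 * J⌋₊ ≤ J := fun i hi =>
    gap_nat hc0.le (hgw i hi) (by linarith)
  have hn2 : ((⌈2 * φ₀ * (J : ℝ)⌉₊ : ℕ) : ℝ) ≤ η' * J := by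
    have h1 := (Nat.ceil_lt_add_one (by positivity : 0 ≤ 2 * φ₀ * (J : ℝ))).le
    linarith
  have hFW := famw_mem (Γ := ⌊cD / 4 * J⌋₊) hN0 hL hG0 hA (inj_two H) hs hPg hw hΓ0 hΓ1 hgas hQd
    hcsq hrq0 hrq1 mx1 (by positivity) tm1 he₂0 tm0 he₂0 mx0 (by positivity) tm' he₂0 hS₀
    (by linarith) (by linarith [hG0.kapJ]) (by linarith [hG0.logL]) J5 J6 hn2 he₂X (hmu N hNN)
    (hmu N' hNN')
  have hgap : a * (⌊q * J⌋₊ : ℝ) + b * (η' * J) ≤ (⌊cD / 4 * J⌋₊ : ℝ) * Real.log 2 :=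
    gap_num ha hb0.le hC1 hq0.le hJ0 hqc le_rfl (by
      have h1 : 1 / (J : ℝ) ≤ cD / 24 := by
        rw [div_le_iff₀ hJr]
        exact J3
      linarith)
  have hnu := nu_num (C' := C') (w := w₁) ha hb0.le hC1 hq0.le hJ0 hs.symm (by linarith) hgr hηJ
    le_rfl (by
      have h1 : 1 / (J : ℝ) ≤ q / 4 := by
        rw [div_le_iff₀ hJr]
        exact J2
      linarith)
  have hνβ : ν₀ / 2 ^ s ≤ 2 ^ ⌊w₁ * J⌋₊ / 2 ^ g₂ (n - 1) *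
      Real.exp (-(a * (⌊q * J⌋₊ : ℝ) + b * (η' * J))) :=
    le_trans (div_le_div_of_nonneg_right hν₀ (by positivity)) hnu
  rw [← pe_ms]
  refine (hmain hFW hgap (Dq * n₀) ⌊η' * J⌋₊ _ Sv κv
    (faN (n - 1) ⌊w₁ * J⌋₊ s σ Pv Qh aF) _ J8 (Nat.floor_le hηJ) (by positivity) le_rfl
    (fun e he hE => ?_) hIn (fun B₀ hB₀ hκ Dx Dl N₀ d1 d2 d3 d4 d5 d6 => ?_)).le
  · obtain ⟨i, hi⟩ := no_fm hG0 hA hG0.PJ s aF ν₀ e he hE
    exact ⟨i, fun u hu => (hi u hu).trans hνβ⟩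
  · exact hc2 hA e EN kk sh sh₂ _ L g g₁ g₂ G Hl (nuw_mono hN (hφ.trans f3)) hL.chV hL.chN B₀ hB₀
      hκ Dx Dl N₀ d1 d2 d3 d4 d5 d6

end Pool.R1
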