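import Pool.Agent.H15.R2E.Prm
import Pool.Agent.H42.JM.Prof

/-!
# Row R1: the popular profile in the form of maxima, and the choice of the depths
-/

set_option autoImplicit false

namespace Pool.R1

open Finset Real
open Pool.Agent.H49.Ent Pool.Agent.H32.Dense Pool.STK Pool.BFL
open Pool.JMN (shf tdg rp_mono rp_pos rp_nat rp_le_iff rp_box coef_le)
open Pool.R1P (gp gp_le gp_ex mi mi_le gp_mi mi_anti)
open Pool.JMP (InC prof_ev gp_mono sup_le_gp)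

/-- The slope is at least one, as long as the profile grows. -/
theorem gp_inc {X : ℕ} {ab : ℕ → ℕ} {D t i j : ℕ} (hti : t ≤ i) (hij : i ≤ j)
    (h : gp X ab D i < gp X ab D j) : gp X ab D t + (i - t) * X ≤ gp X ab D i := by
  have h1 := gp_mi X ab D i
  have h2 := gp_le (X := X) (ab := ab) j (mi_le X ab D i)
  have h3 := gp_le (X := X) (ab := ab) t (mi_le X ab D i)
  obtain ⟨u, hu⟩ : ∃ u, u = mi X ab D i := ⟨_, rfl⟩
  rw [← hu] at h1 h2 h3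
  have hu1 : 1 ≤ u := by
    by_contra hc
    have : u = 0 := by omega
    rw [this, Nat.zero_mul, Nat.zero_add] at h1 h2
    omega
  obtain ⟨e, rfl⟩ := Nat.exists_eq_add_of_le hti
  have e1 : u * ((t + e) * X) = u * (t * X) + u * (e * X) := by ring
  have e2 : 1 * (e * X) ≤ u * (e * X) := Nat.mul_le_mul_right _ hu1
  have e3 : t + e - t = e := by omega
  rw [e3]
  omega

/-- **The popular profile in the form of maxima.** -/
theorem prof_sup (k K : ℕ) : ∃ c : ℕ, ∀ {Ω : Type} [Fintype Ω] (p : Ω → ℝ) (X S h P P₀ P₁ : ℕ)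
    (y : Ω → Fin k → ℝ) (f : Ω → (Fin k → Fin (K + 1)) → ℝ) (F : Ω → Prop), 1 ≤ h →
    k * K * (S * X) + P₀ + h + c < h * P →
    (∀ ω, F ω → 0 < p ω → ∀ al, |shf (y ω) (f ω) al| ≤ 2 ^ h) →
    (∀ ω, F ω → 0 < p ω → ∃ x : Fin k → ℝ, (∀ l, |x l - y ω l| ≤ 1) ∧
      1 / 2 ^ P₀ ≤ |Pool.JMN.ev (f ω) x|) →
    (∀ ω, F ω → 0 < p ω → ∀ x, InC X y S ω x → |Pool.JMN.ev (f ω) x| ≤ 1 / 2 ^ P₁) → 0 < Pb p F →
    ∃ (g : ℕ → ℕ) (E : Ω → Prop), (∀ ω, E ω → F ω) ∧ 0 < Pb p E ∧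
      Pb p F ≤ ((P : ℝ) + 1) ^ (k * K + 1) * Pb p E ∧
      (∀ ω, E ω → 0 < p ω → ∀ i ≤ S, ∀ z : Fin k → ℝ, (∀ l, |z l - y ω l| ≤ 1 / 2 ^ (i * X)) →
        |Pool.JMN.ev (f ω) z| ≤ (2 : ℝ) ^ (((h + c : ℕ) : ℝ) - g i)) ∧
      (∀ ω, E ω → 0 < p ω → ∀ i ≤ S, ∃ z : Fin k → ℝ, (∀ l, |z l - y ω l| ≤ 1 / 2 ^ (i * X)) ∧
        (2 : ℝ) ^ (-(g i : ℝ) - ((h + c : ℕ) : ℝ)) ≤ |Pool.JMN.ev (f ω) z|) ∧
      (∀ i, g i ≤ g (i + 1)) ∧
      (∀ t i j, t ≤ i → i ≤ j → g i < g j → g t + (i - t) * X ≤ g i) ∧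
      g 0 ≤ P₀ + h + c ∧ P₁ ≤ g S + h + c ∧
      ∀ s₁ u r, 1 ≤ X → s₁ ≤ S → u + 2 * h + 2 * c < (r + 1) * (s₁ * X) →
        (∀ ω, F ω → 0 < p ω → ∀ n : ℕ,
          (∀ x, InC X y s₁ ω x → |Pool.JMN.ev (f ω) x| ≤ 1 / 2 ^ (n + u)) →
          ∀ x : Fin k → ℝ, (∀ l, 0 ≤ x l ∧ x l ≤ 1) → |Pool.JMN.ev (f ω) x| ≤ 1 / 2 ^ n) →
        (∀ ω l, 0 ≤ y ω l ∧ y ω l ≤ 1) →
        g s₁ ≤ P₀ + u + h + c ∧ ∀ s, s₁ ≤ s → g (s + 1) ≤ g s + r * X := by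
  classical
  obtain ⟨c₁, hc₁⟩ := prof_ev k K
  obtain ⟨c₂, hc₂⟩ : ∃ n : ℕ, ((K : ℝ) + 1) ^ k ≤ 2 ^ n := by
    obtain ⟨n, hn⟩ := pow_unbounded_of_one_lt (((K : ℝ) + 1) ^ k) (by norm_num : (1 : ℝ) < 2)
    exact ⟨n, hn.le⟩
  obtain ⟨C, hC1, hC⟩ := coef_le k K
  obtain ⟨c₃, hc₃⟩ : ∃ n : ℕ, C < 2 ^ n := by
    obtain ⟨n, hn⟩ := pow_unbounded_of_one_lt C (by norm_num : (1 : ℝ) < 2)
    exact ⟨n, hn⟩
  refine ⟨c₁ + 2 * c₂ + c₃ + k * K, fun {Ω} _ p X S h P P₀ P₁ y f F hh hcap hbd hno hlab hF => ?_⟩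
  obtain ⟨ab, E, e1, e2, e3, e4, e5, e6, e7, e8⟩ := hc₁ p X S h P P₀ P₁ y f F hh (by omega)
    hbd hno hlab hF
  refine ⟨gp X ab (k * K), E, e1, e2, e3, ?_, ?_, fun i => gp_mono X ab _ i,
    fun t i j h1 h2 h3 => gp_inc h1 h2 h3, by omega, by omega, ?_⟩
  · intro ω hω hpω i hi z hz
    refine (sup_le_gp (e4 ω hω hpω) i hz).trans ?_
    refine (mul_le_mul_of_nonneg_right hc₂ (by positivity)).trans ?_
    rw [← mul_div_assoc, ← pow_add, ← rp_nat, ← rp_nat, ← Real.rpow_sub (by norm_num)]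
    refine rp_mono ?_
    push_cast
    have : (0 : ℝ) ≤ c₁ := Nat.cast_nonneg _
    have : (0 : ℝ) ≤ c₂ := Nat.cast_nonneg _
    have : (0 : ℝ) ≤ c₃ := Nat.cast_nonneg _
    have : (0 : ℝ) ≤ (k : ℝ) * K := by positivity
    linarith
  · intro ω hω hpω i hi
    obtain ⟨j, hj, hg⟩ := gp_ex X ab (k * K) i
    obtain ⟨al, hal, hlow⟩ := e5 ω hω hpω i hi j hj hg
    by_contra hcon
    push Not at hcon
    have h1 := hC (shf (y ω) (f ω)) (1 / 2 ^ (i * X))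
      ((2 : ℝ) ^ (-(gp X ab (k * K) i : ℝ) - ((h + (c₁ + 2 * c₂ + c₃ + k * K) : ℕ) : ℝ))) (by positivity)
      (fun x hx => by
        rw [Pool.JMN.ev_shf]
        refine (hcon _ fun l => ?_).le
        have e : y ω l + x l - y ω l = x l := by ring
        rw [e, abs_of_nonneg (hx l).1]
        exact (hx l).2) al
    rw [rp_box, hal] at h1
    have h2 : (2 : ℝ) ^ (-((ab j + h : ℕ) : ℝ)) * (2 : ℝ) ^ (-((j : ℝ) * (i * X))) ≤
        |shf (y ω) (f ω) al| * (2 : ℝ) ^ (-((j : ℝ) * (i * X))) := by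
      refine mul_le_mul_of_nonneg_right ?_ (rp_pos _).le
      rw [Real.rpow_neg (by norm_num), rp_nat, ← one_div]
      exact hlow
    rw [← Real.rpow_add (by norm_num)] at h2
    have h3 : C * (2 : ℝ) ^ (-(gp X ab (k * K) i : ℝ) - ((h + (c₁ + 2 * c₂ + c₃ + k * K) : ℕ) : ℝ)) <
        (2 : ℝ) ^ (c₃ : ℝ) *
          (2 : ℝ) ^ (-(gp X ab (k * K) i : ℝ) - ((h + (c₁ + 2 * c₂ + c₃ + k * K) : ℕ) : ℝ)) := by
      rw [rp_nat]
      exact mul_lt_mul_of_pos_right hc₃ (rp_pos _)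
    rw [← Real.rpow_add (by norm_num)] at h3
    have h4 := (h2.trans h1).trans_lt h3
    have h5 := (Real.rpow_lt_rpow_left_iff (by norm_num : (1 : ℝ) < 2)).1 h4
    rw [hg] at h5
    push_cast at h5
    have : (0 : ℝ) ≤ c₁ := Nat.cast_nonneg _
    have : (0 : ℝ) ≤ c₂ := Nat.cast_nonneg _
    have : (0 : ℝ) ≤ (k : ℝ) * K := by positivity
    linarith
  · intro s₁ u r hX hs₁ hu hdbl hy
    have h1 := e8 s₁ u r hX hs₁ (by omega) hdbl hy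
    refine ⟨?_, fun s hs => (h1 s hs).2⟩
    -- the first blocks
    obtain ⟨ω₀, hω₀, hpω₀⟩ : ∃ ω, E ω ∧ 0 < p ω := by
      by_contra hcon
      push Not at hcon
      have : Pb p E ≤ 0 := by
        unfold Pb
        refine Finset.sum_nonpos fun ω _ => ?_
        split_ifs with h
        · exact hcon ω h
        · exact le_rfl
      linarith
    by_contra hcon
    push Not at hcon
    obtain ⟨G, hG⟩ : ∃ G, G = gp X ab (k * K) s₁ := ⟨_, rfl⟩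
    rw [← hG] at hcon
    -- the function is small on the cell of depth `s₁`
    have h2 : ∀ x, InC X y s₁ ω₀ x → |Pool.JMN.ev (f ω₀) x| ≤ 1 / 2 ^ (G - h - c₂ - u + u) := by
      intro x hx
      refine (sup_le_gp (e4 ω₀ hω₀ hpω₀) s₁ fun l => hx.near l).trans ?_
      rw [← hG]
      have e : G = G - h - c₂ - u + u + (h + c₂) := by omega
      obtain ⟨n, hn⟩ : ∃ n, n = G - h - c₂ - u + u := ⟨_, rfl⟩
      rw [← hn] at e ⊢
      rw [e]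
      refine (mul_le_mul_of_nonneg_right hc₂ (by positivity)).trans (le_of_eq ?_)
      rw [pow_add, pow_add]
      field_simp
    obtain ⟨n, hn⟩ : ∃ n, n = G - h - c₂ - u := ⟨_, rfl⟩
    rw [← hn] at h2
    have h3 := hdbl ω₀ (e1 ω₀ hω₀) hpω₀ n h2
    have h4 := hC (f ω₀) 1 (1 / 2 ^ n) one_pos h3
    obtain ⟨x, hx, hx2⟩ := hno ω₀ (e1 ω₀ hω₀) hpω₀
    have h5 := Pool.JMN.ev_le (q := f ω₀) (ρ := 2) (m := C * (1 / 2 ^ n) * 2 ^ (k * K))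
      (fun a => by
        have e := h4 a
        rw [one_pow, mul_one] at e
        exact mul_le_mul e (pow_le_pow_right₀ (by norm_num) (Pool.JMN.tdg_le a)) (by positivity)
          (by positivity)) (x := x) (fun i => by
        have q1 := hx i
        have q2 := hy ω₀ i
        rw [abs_le] at q1 ⊢
        constructor <;> linarith [q1.1, q1.2, q2.1, q2.2])
    have h6 : (1 : ℝ) / 2 ^ P₀ ≤ 2 ^ (c₂ + c₃ + k * K) / 2 ^ n := by
      refine hx2.trans (h5.trans ?_)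
      have e9 : ((K : ℝ) + 1) ^ k * (C * (1 / 2 ^ n) * 2 ^ (k * K)) ≤
          2 ^ c₂ * (2 ^ c₃ * (1 / 2 ^ n) * 2 ^ (k * K)) := by
        refine mul_le_mul hc₂ ?_ (by positivity) (by positivity)
        exact mul_le_mul_of_nonneg_right (mul_le_mul_of_nonneg_right hc₃.le (by positivity))
          (by positivity)
      refine e9.trans (le_of_eq ?_)
      rw [pow_add, pow_add]
      ring
    rw [div_le_div_iff₀ (by positivity) (by positivity), one_mul, ← pow_add] at h6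
    have h7 := (pow_le_pow_iff_right₀ (by norm_num : (1 : ℝ) < 2)).1 h6
    omega

/-- **The choice of the depths.** -/
theorem depths {X Sf r lo hi : ℕ} {g : ℕ → ℕ} (hlh : lo ≤ hi) (h1 : 1 ≤ Sf)
    (hhi : hi ≤ g Sf) (hinc : ∀ t i j, t ≤ i → i ≤ j → g i < g j → g t + (i - t) * X ≤ g i)
    (hs : ∀ s, 1 ≤ s → g (s + 1) ≤ g s + r * X) :
    ∃ s₀ S : ℕ, 1 ≤ s₀ ∧ s₀ ≤ S ∧ S ≤ Sf ∧ lo ≤ g s₀ ∧ g s₀ ≤ max (g 1) (lo + r * X) ∧ hi ≤ g S ∧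
      g S ≤ max (max (g 1) (lo + r * X)) (hi + r * X) ∧ (S - s₀) * X ≤ hi - lo + X := by
  classical
  have ex0 : ∃ s, 1 ≤ s ∧ lo ≤ g s := ⟨Sf, h1, hlh.trans hhi⟩
  obtain ⟨s₀, hs₀⟩ : ∃ s₀, s₀ = Nat.find ex0 := ⟨_, rfl⟩
  have a1 := Nat.find_spec ex0
  rw [← hs₀] at a1
  have a2 : s₀ ≤ Sf := by rw [hs₀]; exact Nat.find_min' ex0 ⟨h1, hlh.trans hhi⟩
  have a3 : g s₀ ≤ max (g 1) (lo + r * X) := by
    rcases Nat.eq_or_lt_of_le a1.1 with h | h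
    · rw [← h]
      exact le_max_left _ _
    · have h2 : ¬ (1 ≤ s₀ - 1 ∧ lo ≤ g (s₀ - 1)) :=
        Nat.find_min ex0 (by rw [← hs₀]; omega)
      have h3 := hs (s₀ - 1) (by omega)
      rw [show s₀ - 1 + 1 = s₀ by omega] at h3
      have h4 : g (s₀ - 1) < lo := by
        by_contra hc
        exact h2 ⟨by omega, not_lt.1 hc⟩
      exact le_trans (by omega) (le_max_right _ _)
  have ex1 : ∃ s, s₀ ≤ s ∧ hi ≤ g s := ⟨Sf, a2, hhi⟩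
  obtain ⟨S, hS⟩ : ∃ S, S = Nat.find ex1 := ⟨_, rfl⟩
  have b1 := Nat.find_spec ex1
  rw [← hS] at b1
  have b2 : S ≤ Sf := by rw [hS]; exact Nat.find_min' ex1 ⟨a2, hhi⟩
  refine ⟨s₀, S, a1.1, b1.1, b2, a1.2, a3, b1.2, ?_, ?_⟩
  · rcases Nat.eq_or_lt_of_le b1.1 with h | h
    · rw [← h]
      exact a3.trans (le_max_left _ _)
    · have h2 : ¬ (s₀ ≤ S - 1 ∧ hi ≤ g (S - 1)) := Nat.find_min ex1 (by rw [← hS]; omega)
      have h3 := hs (S - 1) (by omega)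
      rw [show S - 1 + 1 = S by omega] at h3
      have h4 : g (S - 1) < hi := by
        by_contra hc
        exact h2 ⟨by omega, not_lt.1 hc⟩
      exact le_trans (by omega) (le_max_right _ _)
  · rcases Nat.eq_or_lt_of_le b1.1 with h | h
    · rw [← h, Nat.sub_self, Nat.zero_mul]
      exact Nat.zero_le _
    · have h2 : ¬ (s₀ ≤ S - 1 ∧ hi ≤ g (S - 1)) := Nat.find_min ex1 (by rw [← hS]; omega)
      have h4 : g (S - 1) < hi := by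
        by_contra hc
        exact h2 ⟨by omega, not_lt.1 hc⟩
      have h5 := hinc s₀ (S - 1) Sf (by omega) (by omega) (by omega)
      have e1 : (S - s₀) * X = (S - 1 - s₀) * X + X := by
        obtain ⟨e, he⟩ : ∃ e, S = s₀ + e + 1 := ⟨S - s₀ - 1, by omega⟩
        rw [he, show s₀ + e + 1 - s₀ = e + 1 by omega, show s₀ + e + 1 - 1 - s₀ = e by omega]
        ring
      omega

/-- **The core**: from an event of pairs to the rows, for all laws on a popular part of it. -/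
theorem core (k r : ℕ) : ∃ C1 : ℝ, 0 ≤ C1 ∧ ∀ K : ℕ, ∃ (c : ℕ) (C2 : ℝ), 0 ≤ C2 ∧
    ∀ {Ω : Type} [Fintype Ω] (p : Ω → ℝ) (X Sf h P P₀ P₁ u lo hi Pg Pn : ℕ) (cap : Fin k → ℕ)
    (y : Ω → Fin k → ℝ) (N : Ω → ℝ) (a b : Ω → (Fin k → Fin (K + 1)) → ℝ) (F : Ω → Prop),
    1 ≤ h → 1 ≤ X → 1 ≤ Sf → k * K * (Sf * X) + P₀ + h + c < h * P →
    u + 2 * h + 2 * c < (r + 1) * X → lo ≤ hi → hi + h + c ≤ P₁ → P₀ + u + h + c ≤ hi + r * X →
    hi + r * X + h + c + 3 ≤ Pg → hi + r * X + 1 ≤ Pn →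
    (∀ ω i, 0 ≤ y ω i) → (∀ ω i, y ω i < 1) →
    (∀ ω, F ω → 0 < p ω → ∀ al, |shf (y ω) (fun α => a ω α - b ω α) al| ≤ 2 ^ h) →
    (∀ ω, F ω → 0 < p ω → ∃ x : Fin k → ℝ, (∀ l, |x l - y ω l| ≤ 1) ∧
      1 / 2 ^ P₀ ≤ |Pool.JMN.ev (fun α => a ω α - b ω α) x|) →
    (∀ ω, F ω → 0 < p ω → ∀ x, InC X y Sf ω x →
      |Pool.JMN.ev (fun α => a ω α - b ω α) x| ≤ 1 / 2 ^ P₁) →
    (∀ ω, F ω → 0 < p ω → ∀ n : ℕ,
      (∀ x, InC X y 1 ω x → |Pool.JMN.ev (fun α => a ω α - b ω α) x| ≤ 1 / 2 ^ (n + u)) →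
      ∀ x : Fin k → ℝ, (∀ l, 0 ≤ x l ∧ x l ≤ 1) →
        |Pool.JMN.ev (fun α => a ω α - b ω α) x| ≤ 1 / 2 ^ n) →
    (∀ ω, F ω → 0 < p ω → ∀ z z' : Fin k → ℝ, (∀ l, |z l| ≤ 2) → (∀ l, |z' l| ≤ 2) →
      (∀ l, |z l - z' l| ≤ 2 / 2 ^ (cap l * X)) →
      |Pool.JMN.ev (a ω) z - Pool.JMN.ev (a ω) z'| ≤ 1 / 2 ^ Pg ∧
      |Pool.JMN.ev (b ω) z - Pool.JMN.ev (b ω) z'| ≤ 1 / 2 ^ Pg) →
    (∀ ω, F ω → 0 < p ω → |N ω - Pool.JMN.ev (a ω) (y ω)| ≤ 1 / 2 ^ Pn) → 0 < Pb p F →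
    ∃ (n₁ n₂ M : ℕ) (E : Ω → Prop), (∀ ω, E ω → F ω) ∧ 0 < Pb p E ∧
      Pb p F ≤ ((P : ℝ) + 1) ^ (k * K + 1) * Pb p E ∧ lo ≤ n₁ ∧
      n₁ ≤ max (P₀ + u + h + c) (lo + r * X) ∧ n₁ ≤ n₂ ∧ hi ≤ n₂ ∧ n₂ ≤ hi + r * X ∧
      M * X ≤ hi - lo + X ∧
      ∀ {α β τ δ : Type} {Q : Ω → ℝ} {A : Ω → α} {B : Ω → β} {W : Ω → τ} {D : Ω → δ}
        {th Lf : ℝ}, IsLaw Q → (∀ ω, 0 < Q ω → E ω ∧ 0 < p ω) → 0 ≤ th →
        Det Q (fun ω => (A ω, W ω)) a → Det Q (fun ω => (B ω, W ω)) b →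
        Det Q (fun ω => (D ω, W ω)) (cv X y cap) →
        (∀ d : Fin k → ℕ, (∀ l, d l ≤ cap l) →
          CH Q D (fun ω => (W ω, cv X y d ω)) ≤ Lf - (∑ l, (d l : ℝ)) * (X * Real.log 2) + h) →
        Lf - th ≤ CH Q D (fun ω => (B ω, W ω)) → Lf - th ≤ CH Q D (fun ω => (A ω, W ω)) →
        Rows Q N D W n₁ n₂ (C1 * (((M : ℝ) + 1) * th + X) + C2 * (((M : ℝ) + 1) * (1 + h))) := by
  classical
  obtain ⟨C1, hC1, hl⟩ := r1l_n k r
  refine ⟨C1, hC1, fun K => ?_⟩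
  obtain ⟨C2, hC2, hl⟩ := hl K
  obtain ⟨c, hc⟩ := prof_sup k K
  refine ⟨c, C2 * (1 + c), by positivity, ?_⟩
  intro Ω _ p X Sf h P P₀ P₁ u lo hi Pg Pn cap y N a b F hh hX hSf hcap hu hlh hP₁ hP₀ hPg hPn
    y0 y1 hbd hno hlab hdbl hgr hnn hF
  obtain ⟨g, E, e1, e2, e3, e4, e5, e6, e7, e8, e9, e10⟩ := hc p X Sf h P P₀ P₁ y
    (fun ω α => a ω α - b ω α) F hh hcap hbd hno hlab hF
  obtain ⟨f1, f2⟩ := e10 1 u r hX hSf (by rw [one_mul]; exact hu) hdbl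
    (fun ω l => ⟨y0 ω l, (y1 ω l).le⟩)
  obtain ⟨s₀, S, d1, d2, d3, d4, d5, d6, d7, d8⟩ := depths (X := X) (Sf := Sf) (r := r)
    (lo := lo) (hi := hi) (g := g) hlh hSf (by omega) e7 f2
  have hmono : ∀ {i j : ℕ}, i ≤ j → g i ≤ g j := by
    intro i j hij
    induction j, hij using Nat.le_induction with
    | base => exact le_rfl
    | succ j _ ih => exact ih.trans (e6 j)
  have hn₁ : g s₀ ≤ max (P₀ + u + h + c) (lo + r * X) := d5.trans (max_le_max_right _ f1)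
  have hn₂ : g S ≤ hi + r * X := by
    refine d7.trans (max_le (max_le ?_ ?_) le_rfl)
    · omega
    · exact Nat.add_le_add_right hlh _
  refine ⟨g s₀, g S, S - s₀, E, e1, e2, e3, d4, hn₁, hmono d2, d6, hn₂, d8, ?_⟩
  intro α β τ δ Q A B W D th Lf hQ hQE hth hda hdb hdc hcnt hfb hfa
  have hGg : (g S : ℝ) + (h + c) + 3 ≤ Pg := by
    have : g S + (h + c) + 3 ≤ Pg := by omega
    exact_mod_cast this
  have hGn : (g S : ℝ) + 1 ≤ Pn := by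
    have : g S + 1 ≤ Pn := by omega
    exact_mod_cast this
  have hP2 : ∀ n : ℕ, (1 : ℝ) / 2 ^ n = (2 : ℝ) ^ (-(n : ℝ)) := by
    intro n
    rw [Real.rpow_neg (by norm_num), rp_nat, one_div]
  have H : SupN Q k K r X S (h + c) s₀ (fun i => (g i : ℝ)) cap A B W D y N a b th Lf := by
    refine ⟨hQ, hX, hth, y0, y1, fun i => Nat.cast_nonneg _, fun i _ _ => ?_, fun i h1 _ => ?_,
      hda, hdb, ?_, ?_, ?_, ?_, ?_, hdc, ?_, hfb, hfa⟩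
    · show (g i : ℝ) ≤ g (i + 1)
      exact_mod_cast e6 i
    · show (g (i + 1) : ℝ) ≤ g i + r * X + 2 * ((h + c : ℕ) : ℝ)
      have q1 := f2 i (d1.trans h1)
      have q2 : (g (i + 1) : ℝ) ≤ g i + r * X := by exact_mod_cast q1
      have q3 : (0 : ℝ) ≤ ((h + c : ℕ) : ℝ) := Nat.cast_nonneg _
      linarith
    · intro ω hω i _ hi z hz
      obtain ⟨q1, q2⟩ := hQE ω hω
      have := e4 ω q1 q2 i (hi.trans d3) z hz
      rw [Pool.JMN.ev_sub] at this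
      exact this
    · intro ω hω i _ hi
      obtain ⟨q1, q2⟩ := hQE ω hω
      obtain ⟨z, hz, hz2⟩ := e5 ω q1 q2 i (hi.trans d3)
      rw [Pool.JMN.ev_sub] at hz2
      exact ⟨z, hz, hz2⟩
    · intro ω hω z z' h1 h2 h3
      obtain ⟨q1, q2⟩ := hQE ω hω
      refine (hgr ω (e1 ω q1) q2 z z' h1 h2 h3).1.trans ?_
      rw [hP2]
      refine rp_mono ?_
      push_cast
      linarith
    · intro ω hω z z' h1 h2 h3
      obtain ⟨q1, q2⟩ := hQE ω hω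
      refine (hgr ω (e1 ω q1) q2 z z' h1 h2 h3).2.trans ?_
      rw [hP2]
      refine rp_mono ?_
      push_cast
      linarith
    · intro ω hω
      obtain ⟨q1, q2⟩ := hQE ω hω
      refine (hnn ω (e1 ω q1) q2).trans ?_
      rw [hP2]
      exact rp_mono (by linarith)
    · intro d hd
      refine (hcnt d hd).trans ?_
      have : (0 : ℝ) ≤ c := Nat.cast_nonneg c
      push_cast
      linarith
  have hfin := hl H d2
  rw [Nat.ceil_natCast, Nat.ceil_natCast] at hfin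
  refine hfin.mono ?_
  have q1 : C2 * ((((S - s₀ : ℕ) : ℝ) + 1) * (1 + ((h + c : ℕ) : ℝ))) ≤
      C2 * (1 + c) * ((((S - s₀ : ℕ) : ℝ) + 1) * (1 + h)) := by
    have e : 1 + ((h + c : ℕ) : ℝ) ≤ (1 + c) * (1 + h) := by
      push_cast
      have : (0 : ℝ) ≤ c := Nat.cast_nonneg c
      have : (0 : ℝ) ≤ h := Nat.cast_nonneg h
      nlinarith
    have e' : (((S - s₀ : ℕ) : ℝ) + 1) * (1 + ((h + c : ℕ) : ℝ)) ≤
        (((S - s₀ : ℕ) : ℝ) + 1) * ((1 + c) * (1 + h)) := mul_le_mul_of_nonneg_left e (by positivity)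
    calc _ ≤ C2 * ((((S - s₀ : ℕ) : ℝ) + 1) * ((1 + c) * (1 + h))) :=
          mul_le_mul_of_nonneg_left e' hC2
      _ = _ := by ring
  linarith

end Pool.R1
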