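import Pool.Agent.H96.R1.Sum
import Pool.Agent.H3.JM.R1t

/-!
# Row R1: the local theorem

`r1l`: the digits of the height between the first and the last depth of the profile are full, with
exhausted coordinates.
-/

set_option autoImplicit false

namespace Pool.R1

open Finset Real
open Pool.Agent.H49.Ent Pool.Agent.H32.Dense Pool.STK

theorem r1nS (k r : ℕ) (hk : 1 ≤ k) : R1nS k r := by
  obtain ⟨C1, hC1, h1⟩ := Pool.R1P.r1n k r hk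
  refine ⟨C1, hC1, fun K => ?_⟩
  obtain ⟨C2, hC2, h2⟩ := h1 K
  refine ⟨C2, hC2, ?_⟩
  intro Ω α β τ δ _ p hp X S h ab A B W D y N a b th Lf _ hθ y0 y1 da db up sl0 sl low hN hD hDc
    hU hB hA
  exact h2 hp X S h ab A B W D y N a b th Lf hθ y0 y1 da db up sl sl0 low hN hD hDc hU hB hA

/-- **The local theorem.** -/
theorem r1l (k r : ℕ) :
    ∃ C1 : ℝ, 0 ≤ C1 ∧ ∀ K : ℕ, ∃ C2 : ℝ, 0 ≤ C2 ∧
    ∀ {Ω α β τ δ : Type} [Fintype Ω] {p : Ω → ℝ} {X S h s₀ : ℕ} {g : ℕ → ℝ} {cap : Fin k → ℕ}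
      {A : Ω → α} {B : Ω → β} {W : Ω → τ} {D : Ω → δ} {y : Ω → Fin k → ℝ} {N : Ω → ℝ}
      {a b : Ω → (Fin k → Fin (K + 1)) → ℝ} {th Lf : ℝ},
      Sup p k K r X S h s₀ g cap A B W D y N a b th Lf → s₀ ≤ S →
      Rows p N D W ⌈g s₀⌉₊ ⌈g S⌉₊ (C1 * ((((S - s₀ : ℕ) : ℝ) + 1) * th + X) +
        C2 * ((((S - s₀ : ℕ) : ℝ) + 1) * (1 + h))) :=
  stages k r fun k' h1 _ => r1nS k' r h1

end Pool.R1
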