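import Pool.Agent.H96.R1.Sub

/-!
# Row R1: one stage from the statement `R1nS`
-/

set_option autoImplicit false

namespace Pool.R1

open Finset Real
open Pool.Agent.H49.Ent Pool.Agent.H32.Dense Pool.STK
open Pool.JMN (shf tdg abn rp_mono rp_pos rp_nat)
open Pool.XBG (cel)
open Pool.R1P (gp gp_le gp_ex mi mi_le gp_mi)

/-- The profile of the intercepts of a function. -/
theorem gp_near {X S D : ℕ} {g : ℕ → ℝ} {H : ℕ}
    (h : ∀ i ≤ S, ∃ j ≤ D, ((j * (i * X) + abn X S g j : ℕ) : ℝ) ≤ g i + H) {i : ℕ} (hi : i ≤ S) :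
    g i ≤ gp X (abn X S g) D i ∧ (gp X (abn X S g) D i : ℝ) ≤ g i + H := by
  constructor
  · obtain ⟨j, hj, h1⟩ := gp_ex X (abn X S g) D i
    rw [h1]
    have := Pool.JMN.abn_ge X S g j hi
    push_cast
    exact this
  · obtain ⟨j, hj, h1⟩ := h i hi
    have h2 := gp_le (X := X) (ab := abn X S g) i hj
    have h3 : (gp X (abn X S g) D i : ℝ) ≤ ((j * (i * X) + abn X S g j : ℕ) : ℝ) := by
      exact_mod_cast h2
    exact h3.trans h1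

/-- The increments of the profile. -/
theorem gp_slope {X S D r H h : ℕ} {g : ℕ → ℝ} (hX : 2 * h + H < X)
    (h1 : ∀ i ≤ S, ∃ j ≤ D, ((j * (i * X) + abn X S g j : ℕ) : ℝ) ≤ g i + H)
    (h2 : ∀ i < S, g (i + 1) ≤ g i + r * X + 2 * h) :
    (1 ≤ S → gp X (abn X S g) D 1 ≤ gp X (abn X S g) D 0 + (r + 1) * X) ∧
    ∀ s, 1 ≤ s → s < S → gp X (abn X S g) D (s + 1) ≤ gp X (abn X S g) D s + r * X := by
  obtain ⟨ab, hab⟩ : ∃ ab, ab = abn X S g := ⟨_, rfl⟩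
  have hXr : (2 * h + H : ℝ) < X := by exact_mod_cast hX
  have key : ∀ i < S, (gp X ab D (i + 1) : ℝ) ≤ gp X ab D i + (r * X + (2 * h + H)) := by
    intro i hi
    rw [hab]
    have e1 := (gp_near h1 (show i + 1 ≤ S by omega)).2
    have e2 := (gp_near h1 (show i ≤ S by omega)).1
    have e3 := h2 i hi
    linarith
  rw [← hab]
  constructor
  · intro hS
    have e1 := key 0 (by omega)
    have e2 : (gp X ab D (0 + 1) : ℝ) ≤ ((gp X ab D 0 + (r + 1) * X : ℕ) : ℝ) := by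
      push_cast
      linarith
    rw [zero_add] at e2
    exact_mod_cast e2
  · intro s hs hsS
    obtain ⟨t, rfl⟩ : ∃ t, s = t + 1 := ⟨s - 1, by omega⟩
    have e1 := key t (by omega)
    have e2 := gp_mi X ab D (t + 1)
    have e3 := gp_le (X := X) (ab := ab) t (mi_le X ab D (t + 1))
    have e4 := gp_le (X := X) (ab := ab) (t + 1 + 1) (mi_le X ab D (t + 1))
    obtain ⟨u, hu⟩ : ∃ u, u = mi X ab D (t + 1) := ⟨_, rfl⟩
    rw [← hu] at e2 e3 e4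
    have e5 : u * ((t + 1) * X) = u * (t * X) + u * X := by ring
    have e6 : u * ((t + 1 + 1) * X) = u * ((t + 1) * X) + u * X := by ring
    have e7 : gp X ab D t + u * X ≤ gp X ab D (t + 1) := by omega
    have e8 : ((u * X : ℕ) : ℝ) ≤ r * X + (2 * h + H) := by
      have : ((gp X ab D t + u * X : ℕ) : ℝ) ≤ gp X ab D (t + 1) := by exact_mod_cast e7
      push_cast at this ⊢
      linarith
    have e9 : ((u * X : ℕ) : ℝ) < (((r + 1) * X : ℕ) : ℝ) := by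
      push_cast at e8 ⊢
      linarith
    have e10 : u * X < (r + 1) * X := by exact_mod_cast e9
    have e11 : u < r + 1 := Nat.lt_of_mul_lt_mul_right e10
    have e12 : u * X ≤ r * X := Nat.mul_le_mul_right X (by omega)
    omega

/-- A minimiser at two depths is a minimiser between them. -/
theorem gp_conv {X D ρ i j s : ℕ} {ab : ℕ → ℕ} (hij : i ≤ s) (hsj : s ≤ j)
    (h1 : gp X ab D i = ρ * (i * X) + ab ρ) (h2 : gp X ab D j = ρ * (j * X) + ab ρ) :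
    ∀ q ≤ D, ρ * (s * X) + ab ρ ≤ q * (s * X) + ab q := by
  intro q hq
  have e1 := gp_le (X := X) (ab := ab) i hq
  have e2 := gp_le (X := X) (ab := ab) j hq
  rw [h1] at e1
  rw [h2] at e2
  rcases le_or_gt ρ q with h | h
  · -- the line of `q` is steeper: use the left point
    obtain ⟨t, rfl⟩ := Nat.exists_eq_add_of_le h
    obtain ⟨u, rfl⟩ := Nat.exists_eq_add_of_le hij
    have e3 : (ρ + t) * ((i + u) * X) = (ρ + t) * (i * X) + (ρ * (u * X) + t * (u * X)) := by ring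
    have e4 : ρ * ((i + u) * X) = ρ * (i * X) + ρ * (u * X) := by ring
    omega
  · obtain ⟨t, rfl⟩ := Nat.exists_eq_add_of_le h.le
    obtain ⟨u, rfl⟩ := Nat.exists_eq_add_of_le hsj
    have e3 : (q + t) * ((s + u) * X) = (q + t) * (s * X) + (q * (u * X) + t * (u * X)) := by ring
    have e4 : q * ((s + u) * X) = q * (s * X) + q * (u * X) := by ring
    omega

variable {Ω α β τ δ : Type}

/-- **The digits of the height between two depths**, with an error. -/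
def Rows [Fintype Ω] (p : Ω → ℝ) (N : Ω → ℝ) (D : Ω → δ) (W : Ω → τ) (n₁ n₂ : ℕ) (E : ℝ) : Prop :=
  ((n₂ : ℝ) - n₁) * Real.log 2 ≤ CH p (fun ω => ⌊(2 : ℝ) ^ n₂ * N ω⌋)
    (fun ω => (⌊(2 : ℝ) ^ n₁ * N ω⌋, (D ω, W ω))) + E

theorem Rows.add [Fintype Ω] {p : Ω → ℝ} (hp : IsLaw p) {N : Ω → ℝ} {D : Ω → δ} {W : Ω → τ}
    {n₁ n₂ n₃ : ℕ} {E E' : ℝ} (h12 : n₁ ≤ n₂) (h23 : n₂ ≤ n₃) (h : Rows p N D W n₁ n₂ E)
    (h' : Rows p N D W n₂ n₃ E') : Rows p N D W n₁ n₃ (E + E') := by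
  unfold Rows at h h' ⊢
  have h0 := hp.nonneg
  obtain ⟨f, hf⟩ : ∃ f : ℕ → Ω → ℤ, f = fun n ω => ⌊(2 : ℝ) ^ n * N ω⌋ := ⟨_, rfl⟩
  have e1 : ∀ n, (fun ω => ⌊(2 : ℝ) ^ n * N ω⌋) = f n := fun n => by rw [hf]
  have e2 : ∀ n, (fun ω => (⌊(2 : ℝ) ^ n * N ω⌋, (D ω, W ω))) = fun ω => (f n ω, (D ω, W ω)) :=
    fun n => by rw [hf]
  have hn : ∀ {m n : ℕ}, m ≤ n → ∀ ω ω', f n ω = f n ω' → f m ω = f m ω' := by
    intro m n hmn ω ω' hh
    rw [hf] at hh ⊢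
    exact fl_nest hmn hh
  rw [e1, e2] at h h' ⊢
  have k1 := CH_chain h0 (f n₃) (f n₂) (fun ω => (f n₁ ω, (D ω, W ω)))
  have k2 : CH p (fun ω => (f n₃ ω, f n₂ ω)) (fun ω => (f n₁ ω, (D ω, W ω))) ≤
      CH p (f n₃) (fun ω => (f n₁ ω, (D ω, W ω))) := by
    refine CH_mono_left h0 fun ω ω' _ _ hh => ?_
    simp only [Prod.mk.injEq] at hh ⊢
    exact ⟨hh.1, hn h23 ω ω' hh.1⟩
  have k3 : CH p (f n₃) (fun ω => (f n₂ ω, (D ω, W ω))) ≤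
      CH p (f n₃) (fun ω => (f n₂ ω, (f n₁ ω, (D ω, W ω)))) := by
    refine CH_mono_cond h0 fun ω ω' _ _ hh => ?_
    simp only [Prod.mk.injEq] at hh ⊢
    exact ⟨hh.1, hn h12 ω ω' hh.1, hh.2⟩
  linarith

theorem Rows.mono [Fintype Ω] {p : Ω → ℝ} {N : Ω → ℝ} {D : Ω → δ} {W : Ω → τ}
    {n₁ n₂ : ℕ} {E E' : ℝ} (h : Rows p N D W n₁ n₂ E) (hE : E ≤ E') : Rows p N D W n₁ n₂ E' := by
  unfold Rows at h ⊢
  linarith

theorem Rows.zero [Fintype Ω] {p : Ω → ℝ} (hp : IsLaw p) {N : Ω → ℝ} {D : Ω → δ} {W : Ω → τ}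
    {n₁ n₂ : ℕ} {E : ℝ} (h : ((n₂ : ℝ) - n₁) * Real.log 2 ≤ E) : Rows p N D W n₁ n₂ E := by
  unfold Rows
  linarith [CH_nonneg hp.nonneg (fun ω => ⌊(2 : ℝ) ^ n₂ * N ω⌋)
    (fun ω => (⌊(2 : ℝ) ^ n₁ * N ω⌋, (D ω, W ω)))]

/-- Other depths. -/
theorem Rows.of [Fintype Ω] {p : Ω → ℝ} (hp : IsLaw p) {N : Ω → ℝ} {D : Ω → δ} {W : Ω → τ}
    {n₁ n₂ m₁ m₂ H : ℕ} {E : ℝ} (h : Rows p N D W m₁ m₂ E) (h1 : n₁ ≤ m₁) (h1' : m₁ ≤ n₁ + H)
    (h2 : n₂ ≤ m₂) (h2' : m₂ ≤ n₂ + H) :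
    Rows p N D W n₁ n₂ (E + 2 * H * Real.log 2) := by
  unfold Rows at h ⊢
  have h0 := hp.nonneg
  have hl : 0 < Real.log 2 := Real.log_pos (by norm_num)
  have k1 : CH p (fun ω => ⌊(2 : ℝ) ^ m₂ * N ω⌋) (fun ω => (⌊(2 : ℝ) ^ m₁ * N ω⌋, (D ω, W ω))) ≤
      CH p (fun ω => ⌊(2 : ℝ) ^ m₂ * N ω⌋) (fun ω => (⌊(2 : ℝ) ^ n₁ * N ω⌋, (D ω, W ω))) := by
    refine CH_mono_cond h0 fun ω ω' _ _ hh => ?_
    simp only [Prod.mk.injEq] at hh ⊢
    exact ⟨fl_nest h1 hh.1, hh.2⟩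
  obtain ⟨e, rfl⟩ := Nat.exists_eq_add_of_le h2
  have k2 := ch_ref hp N (fun ω => (⌊(2 : ℝ) ^ n₁ * N ω⌋, (D ω, W ω))) n₂ e
  have k3 : (e : ℝ) ≤ H := by exact_mod_cast (by omega : e ≤ H)
  have k4 : (m₁ : ℝ) ≤ n₁ + H := by exact_mod_cast h1'
  push_cast at h
  have k5 : (e : ℝ) * Real.log 2 ≤ H * Real.log 2 := mul_le_mul_of_nonneg_right k3 hl.le
  have k6 : ((n₂ : ℝ) - n₁) * Real.log 2 ≤ ((n₂ : ℝ) + e - m₁) * Real.log 2 + H * Real.log 2 := by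
    rw [← add_mul]
    refine mul_le_mul_of_nonneg_right ?_ hl.le
    have : (0 : ℝ) ≤ e := Nat.cast_nonneg e
    linarith
  linarith

end Pool.R1
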