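import Pool.Agent.H81.JM.Prf
import Pool.Agent.H81.XBG.Def
import Pool.Agent.H3.JM.Prf

/-!
# Row R1 (one equation): the local statement on one stage

`R1nS k r`: two polynomial leaves `a`, `b` of the position `y` in `k` coordinates; the digits of
the height `N` between the first and the last depth of the profile of `a - b` are full, given all
the digits `D` of the base. The constant in front of the defects `th` and of the block length `X`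
does not depend on the degree `K` of the leaves.
-/

set_option autoImplicit false

namespace Pool.R1

open Finset Real
open Pool.Agent.H49.Ent Pool.Agent.H32.Dense Pool.STK
open Pool.JMN (ev shf tdg)
open Pool.R1P (gp)
open Pool.XBG (cel)

/-- **One stage.** -/
def R1nS (k r : ℕ) : Prop :=
  ∃ C1 : ℝ, 0 ≤ C1 ∧ ∀ K : ℕ, ∃ C2 : ℝ, 0 ≤ C2 ∧
  ∀ {Ω α β τ δ : Type} [Fintype Ω] {p : Ω → ℝ}, IsLaw p → ∀ (X S h : ℕ) (ab : ℕ → ℕ)
    (A : Ω → α) (B : Ω → β) (W : Ω → τ) (D : Ω → δ) (y : Ω → Fin k → ℝ) (N : Ω → ℝ)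
    (a b : Ω → (Fin k → Fin (K + 1)) → ℝ) (th Lf : ℝ),
    1 ≤ X → 0 ≤ th → (∀ ω i, 0 ≤ y ω i) → (∀ ω i, y ω i < 1) →
    Det p (fun ω => (A ω, W ω)) a → Det p (fun ω => (B ω, W ω)) b →
    (∀ ω, 0 < p ω → ∀ al, |shf (y ω) (fun α => a ω α - b ω α) al| ≤ 2 ^ h / 2 ^ ab (tdg al)) →
    gp X ab (k * K) 1 ≤ gp X ab (k * K) 0 + (r + 1) * X →
    (∀ s, 1 ≤ s → s < S → gp X ab (k * K) (s + 1) ≤ gp X ab (k * K) s + r * X) →
    (∀ s ρ, 1 ≤ ρ → ρ ≤ r → r + 1 ≤ s → s + r ≤ S →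
      gp X ab (k * K) (s - r) = ρ * ((s - r) * X) + ab ρ →
      gp X ab (k * K) (s + r) = ρ * ((s + r) * X) + ab ρ →
      ∀ ω, 0 < p ω → ∃ al, tdg al = ρ ∧
        1 / 2 ^ (ab ρ + h) ≤ |shf (y ω) (fun α => a ω α - b ω α) al|) →
    (∀ ω, 0 < p ω → |N ω - ev (a ω) (y ω)| ≤ 2 ^ h / 2 ^ gp X ab (k * K) S) →
    (∀ ω ω' ω'', 0 < p ω → 0 < p ω' → 0 < p ω'' → D ω = D ω' → W ω = W ω' → W ω'' = W ω →
      |ev (a ω'') (y ω) - ev (a ω'') (y ω')| ≤ 2 ^ h / 2 ^ gp X ab (k * K) S) →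
    Det p (fun ω => (D ω, W ω)) (cel X y S) →
    (∀ i < S, CH p D (fun ω => (W ω, cel X y i ω)) ≤ Lf - k * (i * (X * Real.log 2)) + h) →
    Lf - th ≤ CH p D (fun ω => (B ω, W ω)) →
    k * (S * (X * Real.log 2)) - th ≤ CH p (cel X y S) (fun ω => (A ω, W ω)) →
    ((gp X ab (k * K) S : ℝ) - gp X ab (k * K) 0) * Real.log 2 ≤
      CH p (fun ω => ⌊(2 : ℝ) ^ gp X ab (k * K) S * N ω⌋)
        (fun ω => (⌊(2 : ℝ) ^ gp X ab (k * K) 0 * N ω⌋, (D ω, W ω))) +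
      C1 * ((S + 1) * th + X) + C2 * ((S + 1) * (1 + h))

end Pool.R1
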