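import Pool.Agent.H96.R1.Rst

/-!
# Row R1: the data in the form of maxima, and one stage

`Sup`: the data. A coordinate `l` is exhausted at the depth `cap l`: below this depth the leaves
do not depend on it, up to the last size of the profile. In a stage the first `k'` coordinates are
alive, the other ones are exhausted.
-/

set_option autoImplicit false

namespace Pool.R1

open Finset Real
open Pool.Agent.H49.Ent Pool.Agent.H32.Dense Pool.STK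
open Pool.JMN (shf tdg)
open Pool.XBG (cel)
open Pool.R1P (gp)

variable {Ω α β τ δ : Type}

/-- **The data**, in the form of maxima on boxes. -/
structure Sup [Fintype Ω] (p : Ω → ℝ) (k K r X S h s₀ : ℕ) (g : ℕ → ℝ) (cap : Fin k → ℕ) (A : Ω → α)
    (B : Ω → β) (W : Ω → τ) (D : Ω → δ) (y : Ω → Fin k → ℝ) (N : Ω → ℝ)
    (a b : Ω → (Fin k → Fin (K + 1)) → ℝ) (th Lf : ℝ) : Prop where
  law : IsLaw p
  hX : 1 ≤ X
  th0 : 0 ≤ th
  y0 : ∀ ω i, 0 ≤ y ω i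
  y1 : ∀ ω i, y ω i < 1
  g0 : ∀ i, 0 ≤ g i
  gm : ∀ i, s₀ ≤ i → i < S → g i ≤ g (i + 1)
  gs : ∀ i, s₀ ≤ i → i < S → g (i + 1) ≤ g i + r * X + 2 * h
  anti : ∀ i j : Fin k, i ≤ j → cap j ≤ cap i
  da : Det p (fun ω => (A ω, W ω)) a
  db : Det p (fun ω => (B ω, W ω)) b
  up : ∀ ω, 0 < p ω → ∀ i, s₀ ≤ i → i ≤ S → ∀ z : Fin k → ℝ,
    (∀ l, |z l - y ω l| ≤ 1 / 2 ^ (i * X)) →
    |Pool.JMN.ev (a ω) z - Pool.JMN.ev (b ω) z| ≤ (2 : ℝ) ^ ((h : ℝ) - g i)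
  lo : ∀ ω, 0 < p ω → ∀ i, s₀ ≤ i → i ≤ S → ∃ z : Fin k → ℝ,
    (∀ l, |z l - y ω l| ≤ 1 / 2 ^ (i * X)) ∧
    (2 : ℝ) ^ (-(g i) - h) ≤ |Pool.JMN.ev (a ω) z - Pool.JMN.ev (b ω) z|
  ga : ∀ ω, 0 < p ω → ∀ z z' : Fin k → ℝ, (∀ l, |z l| ≤ 2) → (∀ l, |z' l| ≤ 2) →
    (∀ l, |z l - z' l| ≤ 2 / 2 ^ (cap l * X)) →
    |Pool.JMN.ev (a ω) z - Pool.JMN.ev (a ω) z'| ≤ (2 : ℝ) ^ (-(g S) - h - 3)
  gb : ∀ ω, 0 < p ω → ∀ z z' : Fin k → ℝ, (∀ l, |z l| ≤ 2) → (∀ l, |z' l| ≤ 2) →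
    (∀ l, |z l - z' l| ≤ 2 / 2 ^ (cap l * X)) →
    |Pool.JMN.ev (b ω) z - Pool.JMN.ev (b ω) z'| ≤ (2 : ℝ) ^ (-(g S) - h - 3)
  nn : ∀ ω, 0 < p ω → |N ω - Pool.JMN.ev (a ω) (y ω)| ≤ (2 : ℝ) ^ (-(g S) - 1)
  dc : Det p (fun ω => (D ω, W ω)) (cv X y cap)
  cnt : ∀ d : Fin k → ℕ, (∀ l, d l ≤ cap l) →
    CH p D (fun ω => (W ω, cv X y d ω)) ≤ Lf - (∑ l, (d l : ℝ)) * (X * Real.log 2) + h
  fb : Lf - th ≤ CH p D (fun ω => (B ω, W ω))
  fa : Lf - th ≤ CH p D (fun ω => (A ω, W ω))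

/-- The depths of a stage. -/
def dth {k : ℕ} (k' s : ℕ) (cap : Fin k → ℕ) (l : Fin k) : ℕ := if (l : ℕ) < k' then s else cap l

theorem sum_dth {k : ℕ} (k' : ℕ) (hk : k' ≤ k) (s i : ℕ) (cap : Fin k → ℕ) :
    ∑ l, (dth k' (s + i) cap l : ℝ) = ∑ l, (dth k' s cap l : ℝ) + k' * i := by
  have h1 : ∀ l, (dth k' (s + i) cap l : ℝ) = dth k' s cap l +
      (if (l : ℕ) < k' then (i : ℝ) else 0) := by
    intro l
    unfold dth
    split_ifs <;> push_cast <;> ring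
  rw [Finset.sum_congr rfl fun l _ => h1 l, Finset.sum_add_distrib]
  congr 1
  obtain ⟨e, rfl⟩ := Nat.exists_eq_add_of_le hk
  rw [Fin.sum_univ_add]
  have h2 : ∀ l : Fin k', (if ((Fin.castAdd e l : Fin (k' + e)) : ℕ) < k' then (i : ℝ) else 0) = i :=
    fun l => if_pos l.isLt
  have h3 : ∀ l : Fin e, (if ((Fin.natAdd k' l : Fin (k' + e)) : ℕ) < k' then (i : ℝ) else 0) = 0 :=
    fun l => if_neg (by simp)
  rw [Finset.sum_congr rfl fun l _ => h2 l, Finset.sum_congr rfl fun l _ => h3 l]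
  simp

/-- The position in the cell of depth `s`. -/
noncomputable def yy (k' X s : ℕ) {k : ℕ} (hk : k' ≤ k) (y : Ω → Fin k → ℝ) (ω : Ω)
    (i : Fin k') : ℝ :=
  2 ^ (s * X) * y ω (Fin.castLE hk i) - ⌊(2 : ℝ) ^ (s * X) * y ω (Fin.castLE hk i)⌋

/-- The corner. -/
noncomputable def cr {k : ℕ} (X : ℕ) (d : Fin k → ℕ) (v : Fin k → ℤ) (l : Fin k) : ℝ :=
  v l / 2 ^ (d l * X)

section pos

variable {k k' X s : ℕ} (hk : k' ≤ k) {cap : Fin k → ℕ} {y : Ω → Fin k → ℝ}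

theorem yy_nonneg (ω : Ω) (i : Fin k') : 0 ≤ yy k' X s hk y ω i := by
  unfold yy
  linarith [Int.floor_le ((2 : ℝ) ^ (s * X) * y ω (Fin.castLE hk i))]

theorem yy_lt (ω : Ω) (i : Fin k') : yy k' X s hk y ω i < 1 := by
  unfold yy
  linarith [Int.lt_floor_add_one ((2 : ℝ) ^ (s * X) * y ω (Fin.castLE hk i))]

theorem pnt_live (ω : Ω) {l : Fin k} (hl : (l : ℕ) < k') (v : Fin k → ℤ)
    (hv : v l = cv X y (dth k' s cap) ω l) (x : Fin k' → ℝ) :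
    pnt k (cr X (dth k' s cap) v) (1 / 2 ^ (s * X)) x l - y ω l =
      1 / 2 ^ (s * X) * (x ⟨l, hl⟩ - yy k' X s hk y ω ⟨l, hl⟩) := by
  unfold pnt cr yy
  have e1 : dth k' s cap l = s := if_pos hl
  rw [dif_pos hl, hv]
  unfold cv
  rw [e1]
  have e2 : Fin.castLE hk ⟨(l : ℕ), hl⟩ = l := rfl
  rw [e2]
  have h : (2 : ℝ) ^ (s * X) ≠ 0 := by positivity
  field_simp
  ring

theorem pnt_ex {l : Fin k} (hl : k' ≤ (l : ℕ)) (v : Fin k → ℤ) (x : Fin k' → ℝ) :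
    pnt k (cr X (dth k' s cap) v) (1 / 2 ^ (s * X)) x l = v l / 2 ^ (cap l * X) := by
  unfold pnt cr
  have e1 : dth k' s cap l = cap l := if_neg (not_lt.2 hl)
  rw [dif_neg (not_lt.2 hl), e1, add_zero]

theorem fl_near (n : ℕ) (x : ℝ) : |(⌊(2 : ℝ) ^ n * x⌋ : ℝ) / 2 ^ n - x| ≤ 1 / 2 ^ n := by
  have h : (0 : ℝ) < 2 ^ n := by positivity
  have h1 := Int.floor_le ((2 : ℝ) ^ n * x)
  have h2 := Int.lt_floor_add_one ((2 : ℝ) ^ n * x)
  have e : (⌊(2 : ℝ) ^ n * x⌋ : ℝ) / 2 ^ n - x = (⌊(2 : ℝ) ^ n * x⌋ - 2 ^ n * x) / 2 ^ n := by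
    field_simp
  rw [e, abs_div, abs_of_pos h]
  refine div_le_div_of_nonneg_right ?_ h.le
  rw [abs_le]
  constructor <;> linarith

/-- Same digits. -/
theorem fl_close {n : ℕ} {x x' : ℝ} (h : ⌊(2 : ℝ) ^ n * x⌋ = ⌊(2 : ℝ) ^ n * x'⌋) :
    |x - x'| ≤ 1 / 2 ^ n := by
  have hn : (0 : ℝ) < 2 ^ n := by positivity
  have h1 := Int.floor_le ((2 : ℝ) ^ n * x)
  have h2 := Int.lt_floor_add_one ((2 : ℝ) ^ n * x)
  have h3 := Int.floor_le ((2 : ℝ) ^ n * x')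
  have h4 := Int.lt_floor_add_one ((2 : ℝ) ^ n * x')
  rw [h] at h1 h2
  have e : x - x' = (2 ^ n * x - 2 ^ n * x') / 2 ^ n := by
    field_simp
  rw [e, abs_div, abs_of_pos hn]
  refine div_le_div_of_nonneg_right ?_ hn.le
  rw [abs_le]
  constructor <;> linarith

theorem cel_yy (i : ℕ) (ω : Ω) (l : Fin k') :
    cel X (yy k' X s hk y) i ω l = ⌊(2 : ℝ) ^ ((s + i) * X) * y ω (Fin.castLE hk l)⌋ -
      2 ^ (i * X) * ⌊(2 : ℝ) ^ (s * X) * y ω (Fin.castLE hk l)⌋ := by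
  unfold cel yy
  have e1 : (2 : ℝ) ^ (i * X) * (2 ^ (s * X) * y ω (Fin.castLE hk l) -
      ⌊(2 : ℝ) ^ (s * X) * y ω (Fin.castLE hk l)⌋) = (2 : ℝ) ^ ((s + i) * X) *
      y ω (Fin.castLE hk l) - ((2 ^ (i * X) * ⌊(2 : ℝ) ^ (s * X) * y ω (Fin.castLE hk l)⌋ : ℤ) : ℝ) := by
    have e2 : (s + i) * X = i * X + s * X := by ring
    rw [e2, pow_add]
    push_cast
    ring
  rw [e1, Int.floor_sub_intCast]

/-- The cell of the stage determines the cell. -/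
theorem cv_of_cel {i : ℕ} {ω ω' : Ω} (h : cv X y (dth k' s cap) ω = cv X y (dth k' s cap) ω')
    (h' : cel X (yy k' X s hk y) i ω = cel X (yy k' X s hk y) i ω') :
    cv X y (dth k' (s + i) cap) ω = cv X y (dth k' (s + i) cap) ω' := by
  funext l
  have h1 := congrFun h l
  unfold cv dth at h1 ⊢
  by_cases hl : (l : ℕ) < k'
  · simp only [if_pos hl] at h1 ⊢
    have h2 := congrFun h' ⟨l, hl⟩
    rw [cel_yy, cel_yy] at h2
    have e2 : Fin.castLE hk ⟨(l : ℕ), hl⟩ = l := rfl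
    rw [e2, h1] at h2
    linarith
  · simp only [if_neg hl] at h1 ⊢
    exact h1

/-- The cell determines the cell of the stage. -/
theorem cel_of_cv {i : ℕ} {ω ω' : Ω}
    (h : cv X y (dth k' (s + i) cap) ω = cv X y (dth k' (s + i) cap) ω') :
    cel X (yy k' X s hk y) i ω = cel X (yy k' X s hk y) i ω' := by
  funext l
  have h1 := congrFun h (Fin.castLE hk l)
  unfold cv dth at h1
  have hl : ((Fin.castLE hk l : Fin k) : ℕ) < k' := l.isLt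
  simp only [if_pos hl] at h1
  have h2 : ⌊(2 : ℝ) ^ (s * X) * y ω (Fin.castLE hk l)⌋ =
      ⌊(2 : ℝ) ^ (s * X) * y ω' (Fin.castLE hk l)⌋ :=
    fl_nest (Nat.mul_le_mul_right X (Nat.le_add_right s i)) h1
  rw [cel_yy, cel_yy, h1, h2]

end pos

/-! ### The leaves in a stage -/

/-- The restricted leaf. -/
noncomputable def ar {k K : ℕ} (k' X s : ℕ) (cap : Fin k → ℕ) (y : Ω → Fin k → ℝ)
    (a : Ω → (Fin k → Fin (K + 1)) → ℝ) (ω : Ω) : (Fin k' → Fin (K + 1)) → ℝ :=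
  rst k' (cr X (dth k' s cap) (cv X y (dth k' s cap) ω)) (1 / 2 ^ (s * X)) (a ω)

theorem ev_ar {k K k' X s : ℕ} (hk : k' ≤ k) {cap : Fin k → ℕ} {y : Ω → Fin k → ℝ}
    {a : Ω → (Fin k → Fin (K + 1)) → ℝ} (ω : Ω) (x : Fin k' → ℝ) :
    Pool.JMN.ev (ar k' X s cap y a ω) x = Pool.JMN.ev (a ω)
      (pnt k (cr X (dth k' s cap) (cv X y (dth k' s cap) ω)) (1 / 2 ^ (s * X)) x) :=
  ev_rst hk _ _ _ _

section sup

variable [Fintype Ω] {p : Ω → ℝ} {k K r X S h s₀ : ℕ} {g : ℕ → ℝ} {cap : Fin k → ℕ} {A : Ω → α}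
  {B : Ω → β} {W : Ω → τ} {D : Ω → δ} {y : Ω → Fin k → ℝ} {N : Ω → ℝ}
  {a b : Ω → (Fin k → Fin (K + 1)) → ℝ} {th Lf : ℝ}

theorem Sup.mono (H : Sup p k K r X S h s₀ g cap A B W D y N a b th Lf) {i j : ℕ} (h0 : s₀ ≤ i)
    (hij : i ≤ j) (hj : j ≤ S) : g i ≤ g j := by
  induction j, hij using Nat.le_induction with
  | base => exact le_rfl
  | succ j hij ih => exact (ih (by omega)).trans (H.gm j (by omega) (by omega))

theorem Sup.incr (H : Sup p k K r X S h s₀ g cap A B W D y N a b th Lf) {i j : ℕ} (h0 : s₀ ≤ i)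
    (hij : i ≤ j) (hj : j ≤ S) : g j ≤ g i + ((j : ℝ) - i) * (r * X + 2 * h) := by
  induction j, hij using Nat.le_induction with
  | base => simp
  | succ j hij ih =>
    have h1 := ih (by omega)
    have h2 := H.gs j (by omega) (by omega)
    push_cast
    linarith

/-- The two-point estimate in a stage. -/
theorem Sup.near (H : Sup p k K r X S h s₀ g cap A B W D y N a b th Lf) {ω : Ω} (hω : 0 < p ω)
    {z z' : Fin k → ℝ} (h1 : ∀ l, |z l| ≤ 2) (h2 : ∀ l, |z' l| ≤ 2)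
    (h3 : ∀ l, |z l - z' l| ≤ 2 / 2 ^ (cap l * X)) :
    |(Pool.JMN.ev (a ω) z - Pool.JMN.ev (b ω) z) -
      (Pool.JMN.ev (a ω) z' - Pool.JMN.ev (b ω) z')| ≤ (2 : ℝ) ^ (-(g S) - h - 2) := by
  have e1 := H.ga ω hω z z' h1 h2 h3
  have e2 := H.gb ω hω z z' h1 h2 h3
  have e3 : (Pool.JMN.ev (a ω) z - Pool.JMN.ev (b ω) z) -
      (Pool.JMN.ev (a ω) z' - Pool.JMN.ev (b ω) z') =
      (Pool.JMN.ev (a ω) z - Pool.JMN.ev (a ω) z') -
        (Pool.JMN.ev (b ω) z - Pool.JMN.ev (b ω) z') := by ring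
  rw [e3]
  refine (abs_sub _ _).trans ?_
  have e4 : (2 : ℝ) ^ (-(g S) - h - 2) = 2 * (2 : ℝ) ^ (-(g S) - h - 3) := by
    have : -(g S) - h - 2 = 1 + (-(g S) - h - 3) := by ring
    rw [this, Real.rpow_add (by norm_num), Real.rpow_one]
  rw [e4]
  linarith

variable {k' s₁ s₂ : ℕ}

/-- The upper bound in a stage. -/
theorem Sup.up' (H : Sup p k K r X S h s₀ g cap A B W D y N a b th Lf) (hk : k' ≤ k)
    (h01 : s₀ ≤ s₁) {ω : Ω} (hω : 0 < p ω) {i : ℕ}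
    (hi : s₁ + i ≤ S) {z : Fin k' → ℝ} (hz : ∀ l, |z l - yy k' X s₁ hk y ω l| ≤ 1 / 2 ^ (i * X)) :
    |Pool.JMN.ev (ar k' X s₁ cap y a ω) z - Pool.JMN.ev (ar k' X s₁ cap y b ω) z| ≤
      (2 : ℝ) ^ (((h + 1 : ℕ) : ℝ) - g (s₁ + i)) := by
  rw [ev_ar hk, ev_ar hk]
  obtain ⟨v, hv⟩ : ∃ v, v = pnt k (cr X (dth k' s₁ cap) (cv X y (dth k' s₁ cap) ω))
    (1 / 2 ^ (s₁ * X)) z := ⟨_, rfl⟩
  rw [← hv]
  obtain ⟨u, hu⟩ : ∃ u : Fin k → ℝ, u = fun l : Fin k =>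
    if (l : ℕ) < k' then v l else y ω l := ⟨_, rfl⟩
  have hX1 : ∀ n : ℕ, (1 : ℝ) / 2 ^ n ≤ 1 := fun n => by
    rw [div_le_one (by positivity)]
    exact one_le_pow₀ (by norm_num)
  have k1 : ∀ l : Fin k, (l : ℕ) < k' → |v l - y ω l| ≤ 1 / 2 ^ ((s₁ + i) * X) := by
    intro l hl
    have e1 := pnt_live (X := X) (s := s₁) hk ω hl (cv X y (dth k' s₁ cap) ω) rfl z
    rw [← hv] at e1
    rw [e1, abs_mul, abs_of_nonneg (by positivity)]
    have e2 := mul_le_mul_of_nonneg_left (hz ⟨l, hl⟩)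
      (show (0 : ℝ) ≤ 1 / 2 ^ (s₁ * X) by positivity)
    refine e2.trans (le_of_eq ?_)
    rw [add_mul, pow_add]
    field_simp
  have k2 : ∀ l : Fin k, k' ≤ (l : ℕ) → |v l - y ω l| ≤ 1 / 2 ^ (cap l * X) := by
    intro l hl
    have e1 := pnt_ex (X := X) (s := s₁) (cap := cap) hl (cv X y (dth k' s₁ cap) ω) z
    rw [← hv] at e1
    have e2 : cv X y (dth k' s₁ cap) ω l = ⌊(2 : ℝ) ^ (cap l * X) * y ω l⌋ := by
      unfold cv dth
      rw [if_neg (not_lt.2 hl)]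
    rw [e1, e2]
    exact fl_near _ _
  have ky : ∀ l, |y ω l| ≤ 1 := fun l => by
    rw [abs_of_nonneg (H.y0 ω l)]
    exact (H.y1 ω l).le
  have kv : ∀ l, |v l| ≤ 2 := by
    intro l
    have e1 : v l = (v l - y ω l) + y ω l := by ring
    rw [e1]
    refine (abs_add_le _ _).trans ?_
    have e2 : |v l - y ω l| ≤ 1 := by
      by_cases hl : (l : ℕ) < k'
      · exact (k1 l hl).trans (hX1 _)
      · exact (k2 l (not_lt.1 hl)).trans (hX1 _)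
    linarith [ky l]
  have ku : ∀ l, |u l - y ω l| ≤ 1 / 2 ^ ((s₁ + i) * X) := by
    intro l
    rw [hu]
    show |(if (l : ℕ) < k' then v l else y ω l) - y ω l| ≤ _
    split_ifs with hl
    · exact k1 l hl
    · rw [sub_self, abs_zero]
      positivity
  have ku2 : ∀ l, |u l| ≤ 2 := by
    intro l
    have e1 : u l = (u l - y ω l) + y ω l := by ring
    rw [e1]
    refine (abs_add_le _ _).trans ?_
    linarith [ky l, (ku l).trans (hX1 _)]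
  have kvu : ∀ l, |v l - u l| ≤ 2 / 2 ^ (cap l * X) := by
    intro l
    rw [hu]
    show |v l - (if (l : ℕ) < k' then v l else y ω l)| ≤ _
    split_ifs with hl
    · rw [sub_self, abs_zero]
      positivity
    · refine (k2 l (not_lt.1 hl)).trans ?_
      exact div_le_div_of_nonneg_right (by norm_num) (by positivity)
  have m1 := H.near hω kv ku2 kvu
  have m2 := H.up ω hω (s₁ + i) (by omega) hi u ku
  have m3 := H.mono (i := s₁ + i) (j := S) (by omega) hi le_rfl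
  have m4 : (2 : ℝ) ^ (-(g S) - h - 2) ≤ (2 : ℝ) ^ ((h : ℝ) - g (s₁ + i)) := by
    refine Pool.JMN.rp_mono ?_
    have : (0 : ℝ) ≤ h := Nat.cast_nonneg h
    linarith
  have m5 : (2 : ℝ) ^ (((h + 1 : ℕ) : ℝ) - g (s₁ + i)) = 2 * (2 : ℝ) ^ ((h : ℝ) - g (s₁ + i)) := by
    have : ((h + 1 : ℕ) : ℝ) - g (s₁ + i) = 1 + ((h : ℝ) - g (s₁ + i)) := by push_cast; ring
    rw [this, Real.rpow_add (by norm_num), Real.rpow_one]
  rw [m5]
  have m6 := abs_sub_abs_le_abs_sub (Pool.JMN.ev (a ω) v - Pool.JMN.ev (b ω) v)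
    (Pool.JMN.ev (a ω) u - Pool.JMN.ev (b ω) u)
  linarith

/-- The lower bound in a stage. -/
theorem Sup.lo' (H : Sup p k K r X S h s₀ g cap A B W D y N a b th Lf) (hk : k' ≤ k)
    (h01 : s₀ ≤ s₁) (hex : ∀ l : Fin k, k' ≤ (l : ℕ) → cap l ≤ s₁) {ω : Ω} (hω : 0 < p ω) {i : ℕ}
    (hi : s₁ + i ≤ S) : ∃ z : Fin k' → ℝ, (∀ l, |z l - yy k' X s₁ hk y ω l| ≤ 1 / 2 ^ (i * X)) ∧
    (2 : ℝ) ^ (-(g (s₁ + i)) - ((h + 1 : ℕ) : ℝ)) ≤
      |Pool.JMN.ev (ar k' X s₁ cap y a ω) z - Pool.JMN.ev (ar k' X s₁ cap y b ω) z| := by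
  obtain ⟨u, hu, hlo⟩ := H.lo ω hω (s₁ + i) (by omega) hi
  obtain ⟨z, hz⟩ : ∃ z : Fin k' → ℝ, z = fun l =>
    2 ^ (s₁ * X) * (u (Fin.castLE hk l) - y ω (Fin.castLE hk l)) + yy k' X s₁ hk y ω l := ⟨_, rfl⟩
  have hX1 : ∀ n : ℕ, (1 : ℝ) / 2 ^ n ≤ 1 := fun n => by
    rw [div_le_one (by positivity)]
    exact one_le_pow₀ (by norm_num)
  have hp : (0 : ℝ) < 2 ^ (s₁ * X) := by positivity
  refine ⟨z, fun l => ?_, ?_⟩
  · rw [hz]
    show |2 ^ (s₁ * X) * (u (Fin.castLE hk l) - y ω (Fin.castLE hk l)) + yy k' X s₁ hk y ω l -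
      yy k' X s₁ hk y ω l| ≤ _
    rw [add_sub_cancel_right, abs_mul, abs_of_pos hp]
    refine (mul_le_mul_of_nonneg_left (hu (Fin.castLE hk l)) hp.le).trans (le_of_eq ?_)
    rw [add_mul, pow_add]
    field_simp
  rw [ev_ar hk, ev_ar hk]
  obtain ⟨v, hv⟩ : ∃ v, v = pnt k (cr X (dth k' s₁ cap) (cv X y (dth k' s₁ cap) ω))
    (1 / 2 ^ (s₁ * X)) z := ⟨_, rfl⟩
  rw [← hv]
  have k1 : ∀ l : Fin k, (l : ℕ) < k' → v l = u l := by
    intro l hl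
    have e1 := pnt_live (X := X) (s := s₁) hk ω hl (cv X y (dth k' s₁ cap) ω) rfl z
    rw [← hv, hz] at e1
    have e2 : Fin.castLE hk ⟨(l : ℕ), hl⟩ = l := rfl
    simp only [e2, add_sub_cancel_right] at e1
    have e3 : 1 / (2 : ℝ) ^ (s₁ * X) * (2 ^ (s₁ * X) * (u l - y ω l)) = u l - y ω l := by
      field_simp
    rw [e3] at e1
    linarith
  have k2 : ∀ l : Fin k, k' ≤ (l : ℕ) → |v l - y ω l| ≤ 1 / 2 ^ (cap l * X) := by
    intro l hl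
    have e1 := pnt_ex (X := X) (s := s₁) (cap := cap) hl (cv X y (dth k' s₁ cap) ω) z
    rw [← hv] at e1
    have e2 : cv X y (dth k' s₁ cap) ω l = ⌊(2 : ℝ) ^ (cap l * X) * y ω l⌋ := by
      unfold cv dth
      rw [if_neg (not_lt.2 hl)]
    rw [e1, e2]
    exact fl_near _ _
  have ky : ∀ l, |y ω l| ≤ 1 := fun l => by
    rw [abs_of_nonneg (H.y0 ω l)]
    exact (H.y1 ω l).le
  have ku : ∀ l, |u l| ≤ 2 := by
    intro l
    have e1 : u l = (u l - y ω l) + y ω l := by ring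
    rw [e1]
    refine (abs_add_le _ _).trans ?_
    linarith [ky l, (hu l).trans (hX1 _)]
  have kv : ∀ l, |v l| ≤ 2 := by
    intro l
    by_cases hl : (l : ℕ) < k'
    · rw [k1 l hl]
      exact ku l
    · have e1 : v l = (v l - y ω l) + y ω l := by ring
      rw [e1]
      refine (abs_add_le _ _).trans ?_
      linarith [ky l, (k2 l (not_lt.1 hl)).trans (hX1 _)]
  have kvu : ∀ l, |v l - u l| ≤ 2 / 2 ^ (cap l * X) := by
    intro l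
    by_cases hl : (l : ℕ) < k'
    · rw [k1 l hl, sub_self, abs_zero]
      positivity
    · have e1 : v l - u l = (v l - y ω l) - (u l - y ω l) := by ring
      rw [e1]
      refine (abs_sub _ _).trans ?_
      have e2 : (1 : ℝ) / 2 ^ ((s₁ + i) * X) ≤ 1 / 2 ^ (cap l * X) :=
        div_le_div_of_nonneg_left (by norm_num) (by positivity)
          (pow_le_pow_right₀ (by norm_num)
            (Nat.mul_le_mul_right X ((hex l (not_lt.1 hl)).trans (Nat.le_add_right _ _))))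
      have e3 : (2 : ℝ) / 2 ^ (cap l * X) = 1 / 2 ^ (cap l * X) + 1 / 2 ^ (cap l * X) := by ring
      rw [e3]
      exact add_le_add (k2 l (not_lt.1 hl)) ((hu l).trans e2)
  have m1 := H.near hω ku kv fun l => by rw [abs_sub_comm]; exact kvu l
  have m3 := H.mono (i := s₁ + i) (j := S) (by omega) hi le_rfl
  have m4 : (2 : ℝ) ^ (-(g S) - h - 2) ≤ (2 : ℝ) ^ (-(g (s₁ + i)) - h - 1) := by
    refine Pool.JMN.rp_mono ?_
    linarith
  have m5 : (2 : ℝ) ^ (-(g (s₁ + i)) - (h : ℝ)) = 2 * (2 : ℝ) ^ (-(g (s₁ + i)) - h - 1) := by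
    have e : (2 : ℝ) ^ (-(g (s₁ + i)) - (h : ℝ)) = (2 : ℝ) ^ (1 + (-(g (s₁ + i)) - h - 1)) := by
      congr 1
      ring
    rw [e, Real.rpow_add (by norm_num), Real.rpow_one]
  have m7 : (2 : ℝ) ^ (-(g (s₁ + i)) - ((h + 1 : ℕ) : ℝ)) = (2 : ℝ) ^ (-(g (s₁ + i)) - h - 1) := by
    congr 1
    push_cast
    ring
  rw [m5] at hlo
  rw [m7]
  have m6 := abs_sub_abs_le_abs_sub (Pool.JMN.ev (a ω) u - Pool.JMN.ev (b ω) u)
    (Pool.JMN.ev (a ω) v - Pool.JMN.ev (b ω) v)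
  linarith

end sup

end Pool.R1
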