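import Pool.Agent.H96.R1.Loc

/-!
# Row R1: the sum over the stages
-/

set_option autoImplicit false

namespace Pool.R1

open Finset Real
open Pool.Agent.H49.Ent Pool.Agent.H32.Dense Pool.STK
open Pool.JMN (shf tdg abn rp_mono rp_pos rp_nat rp_le_iff)

/-- The number of live coordinates is at most `k'`. -/
def Stgs (k r k' : ℕ) : Prop :=
  ∃ C1 : ℝ, 0 ≤ C1 ∧ ∀ K : ℕ, ∃ C2 : ℝ, 0 ≤ C2 ∧
    ∀ {Ω α β τ δ : Type} [Fintype Ω] {p : Ω → ℝ} {X S h s₀ : ℕ} {g : ℕ → ℝ} {cap : Fin k → ℕ}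
      {A : Ω → α} {B : Ω → β} {W : Ω → τ} {D : Ω → δ} {y : Ω → Fin k → ℝ} {N : Ω → ℝ}
      {a b : Ω → (Fin k → Fin (K + 1)) → ℝ} {th Lf : ℝ},
      Sup p k K r X S h s₀ g cap A B W D y N a b th Lf → ∀ s₁ : ℕ, s₀ ≤ s₁ → s₁ ≤ S →
      (∀ l : Fin k, k' ≤ (l : ℕ) → cap l ≤ s₁) →
      Rows p N D W ⌈g s₁⌉₊ ⌈g S⌉₊ (C1 * ((((S - s₀ : ℕ) : ℝ) + 1) * th + X) +
        C2 * ((((S - s₀ : ℕ) : ℝ) + 1) * (1 + h)))

/-- All coordinates are exhausted. -/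
theorem stgs_zero (k r : ℕ) : Stgs k r 0 := by
  refine ⟨0, le_rfl, fun K => ⟨2, by norm_num, ?_⟩⟩
  intro Ω α β τ δ _ p X S h s₀ g cap A B W D y N a b th Lf H s₁ h1 h2 hex
  refine Rows.zero H.law ?_
  have hh : (0 : ℝ) ≤ h := Nat.cast_nonneg h
  obtain ⟨M, hM⟩ : ∃ M, M = S - s₀ := ⟨_, rfl⟩
  rw [← hM]
  have hS : (0 : ℝ) ≤ M := Nat.cast_nonneg M
  have hl21 : Real.log 2 ≤ 1 := by
    have := Real.log_two_lt_d9
    linarith
  have hl2 : 0 < Real.log 2 := Real.log_pos (by norm_num)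
  obtain ⟨ω, hω⟩ : ∃ ω, 0 < p ω := by
    by_contra hcon
    push Not at hcon
    have h1 : ∑ ω, p ω ≤ 0 := Finset.sum_nonpos fun ω _ => hcon ω
    rw [H.law.sum_one] at h1
    linarith
  obtain ⟨z, hz, hlo⟩ := H.lo ω hω s₁ h1 h2
  have hup := H.up ω hω S (h1.trans h2) le_rfl (y ω) (fun l => by
    rw [sub_self, abs_zero]
    positivity)
  have hX1 : ∀ n : ℕ, (1 : ℝ) / 2 ^ n ≤ 1 := fun n => by
    rw [div_le_one (by positivity)]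
    exact one_le_pow₀ (by norm_num)
  have ky : ∀ l, |y ω l| ≤ 1 := fun l => by
    rw [abs_of_nonneg (H.y0 ω l)]
    exact (H.y1 ω l).le
  have m1 := H.near hω (z := z) (z' := y ω) (fun l => by
      have e1 : z l = (z l - y ω l) + y ω l := by ring
      rw [e1]
      refine (abs_add_le _ _).trans ?_
      linarith [ky l, (hz l).trans (hX1 _)]) (fun l => by linarith [ky l]) (fun l => by
      refine (hz l).trans ?_
      have e1 : (1 : ℝ) / 2 ^ (s₁ * X) ≤ 1 / 2 ^ (cap l * X) :=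
        div_le_div_of_nonneg_left (by norm_num) (by positivity)
          (pow_le_pow_right₀ (by norm_num) (Nat.mul_le_mul_right X (hex l (Nat.zero_le _))))
      exact e1.trans (div_le_div_of_nonneg_right (by norm_num) (by positivity)))
  have m2 := abs_sub_abs_le_abs_sub (Pool.JMN.ev (a ω) z - Pool.JMN.ev (b ω) z)
    (Pool.JMN.ev (a ω) (y ω) - Pool.JMN.ev (b ω) (y ω))
  have m3 : (2 : ℝ) ^ (-(g S) - h - 2) ≤ (2 : ℝ) ^ ((h : ℝ) - g S) := rp_mono (by linarith)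
  have m4 : (2 : ℝ) ^ (1 + ((h : ℝ) - g S)) = 2 * (2 : ℝ) ^ ((h : ℝ) - g S) := by
    rw [Real.rpow_add (by norm_num), Real.rpow_one]
  have m5 : (2 : ℝ) ^ (-(g s₁) - (h : ℝ)) ≤ (2 : ℝ) ^ (1 + ((h : ℝ) - g S)) := by
    rw [m4]
    linarith
  have m6 := rp_le_iff.1 m5
  have e1 := Nat.ceil_lt_add_one (H.g0 S)
  have e2 := Nat.le_ceil (g s₁)
  have e3 : (⌈g S⌉₊ : ℝ) - ⌈g s₁⌉₊ ≤ 2 * (1 + h) := by linarith
  rw [zero_mul, zero_add]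
  have e4 : 2 * (1 + (h : ℝ)) ≤ 2 * ((M + 1) * (1 + h)) := by nlinarith
  rcases le_or_gt ((⌈g S⌉₊ : ℝ) - ⌈g s₁⌉₊) 0 with q | q
  · exact (mul_nonpos_of_nonpos_of_nonneg q hl2.le).trans (by positivity)
  · calc _ ≤ ((⌈g S⌉₊ : ℝ) - ⌈g s₁⌉₊) * 1 := mul_le_mul_of_nonneg_left hl21 q.le
      _ ≤ _ := by linarith

/-- One more live coordinate. -/
theorem stgs_succ {k r k' : ℕ} (hk : k' + 1 ≤ k) (hR : R1nS (k' + 1) r) (ih : Stgs k r k') :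
    Stgs k r (k' + 1) := by
  obtain ⟨C1, hC1, hs⟩ := stage k (k' + 1) r hk hR
  obtain ⟨C1', hC1', ih⟩ := ih
  refine ⟨C1 + C1', by positivity, fun K => ?_⟩
  obtain ⟨C2, hC2, hs⟩ := hs K
  obtain ⟨C2', hC2', ih⟩ := ih K
  refine ⟨C2 + C2', by positivity, ?_⟩
  intro Ω α β τ δ _ p X S h s₀ g cap A B W D y N a b th Lf H s₁ h1 h2 hex
  have hth := H.th0
  obtain ⟨u, hu⟩ : ∃ u : ℝ, u = (((S - s₀ : ℕ) : ℝ) + 1) * th + X := ⟨_, rfl⟩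
  obtain ⟨v, hv⟩ : ∃ v : ℝ, v = (((S - s₀ : ℕ) : ℝ) + 1) * (1 + h) := ⟨_, rfl⟩
  have hu0 : 0 ≤ u := by rw [hu]; positivity
  have hv0 : 0 ≤ v := by rw [hv]; positivity
  rw [← hu, ← hv]
  have q1 : 0 ≤ C1 * u := by positivity
  have q2 : 0 ≤ C2 * v := by positivity
  have q3 : 0 ≤ C1' * u := by positivity
  have q4 : 0 ≤ C2' * v := by positivity
  have e0 : (C1 + C1') * u + (C2 + C2') * v = (C1 * u + C2 * v) + (C1' * u + C2' * v) := by ring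
  rw [e0]
  obtain ⟨l₀, hl₀⟩ : ∃ l₀ : Fin k, l₀ = ⟨k', hk⟩ := ⟨_, rfl⟩
  have hl₀v : (l₀ : ℕ) = k' := by rw [hl₀]
  by_cases hc : cap l₀ ≤ s₁
  · -- the coordinate is exhausted
    have h3 := ih H s₁ h1 h2 fun l hl => (H.anti l₀ l (by
      rw [Fin.le_def, hl₀v]
      exact hl)).trans hc
    rw [← hu, ← hv] at h3
    exact h3.mono (by linarith)
  push Not at hc
  rcases h2.eq_or_lt with h2 | h2
  · rw [h2]
    refine Rows.zero H.law ?_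
    rw [sub_self, zero_mul]
    linarith
  obtain ⟨s', hs'⟩ : ∃ s', s' = min S (cap l₀) := ⟨_, rfl⟩
  have h3 : s₁ < s' := by rw [hs']; exact lt_min h2 hc
  have h4 : s' ≤ S := by rw [hs']; exact min_le_left _ _
  have h5 : s' ≤ cap l₀ := by rw [hs']; exact min_le_right _ _
  have h6 := hs H s₁ s' h1 h3 h4 hex fun l hl => h5.trans (H.anti l l₀ (by
    rw [Fin.le_def, hl₀v]
    omega))
  rw [← hu, ← hv] at h6
  rcases h4.eq_or_lt with h7 | h7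
  · rw [h7] at h6
    exact h6.mono (by linarith)
  have h8 : s' = cap l₀ := by
    rw [hs'] at h7 ⊢
    omega
  have h9 := ih H s' (h1.trans h3.le) h4 fun l hl => (H.anti l₀ l (by
      rw [Fin.le_def, hl₀v]
      exact hl)).trans h8.ge
  rw [← hu, ← hv] at h9
  exact h6.add H.law (Nat.ceil_le_ceil (H.mono h1 h3.le h4))
    (Nat.ceil_le_ceil (H.mono (h1.trans h3.le) h4 le_rfl)) h9

/-- **The sum over the stages.** -/
theorem stages (k r : ℕ) (hR : ∀ k', 1 ≤ k' → k' ≤ k → R1nS k' r) :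
    ∃ C1 : ℝ, 0 ≤ C1 ∧ ∀ K : ℕ, ∃ C2 : ℝ, 0 ≤ C2 ∧
    ∀ {Ω α β τ δ : Type} [Fintype Ω] {p : Ω → ℝ} {X S h s₀ : ℕ} {g : ℕ → ℝ} {cap : Fin k → ℕ}
      {A : Ω → α} {B : Ω → β} {W : Ω → τ} {D : Ω → δ} {y : Ω → Fin k → ℝ} {N : Ω → ℝ}
      {a b : Ω → (Fin k → Fin (K + 1)) → ℝ} {th Lf : ℝ},
      Sup p k K r X S h s₀ g cap A B W D y N a b th Lf → s₀ ≤ S →
      Rows p N D W ⌈g s₀⌉₊ ⌈g S⌉₊ (C1 * ((((S - s₀ : ℕ) : ℝ) + 1) * th + X) +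
        C2 * ((((S - s₀ : ℕ) : ℝ) + 1) * (1 + h))) := by
  have h : ∀ k', k' ≤ k → Stgs k r k' := by
    intro k'
    induction k' with
    | zero => exact fun _ => stgs_zero k r
    | succ k' ih => exact fun hk => stgs_succ hk (hR _ (by omega) hk) (ih (by omega))
  obtain ⟨C1, hC1, h⟩ := h k le_rfl
  refine ⟨C1, hC1, fun K => ?_⟩
  obtain ⟨C2, hC2, h⟩ := h K
  exact ⟨C2, hC2, fun H h1 => h H _ le_rfl h1 fun l hl => absurd l.isLt (not_lt.2 hl)⟩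

end Pool.R1
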