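import Pool.Agent.H87.GEN.Pkg
import Pool.Agent.H27.TOP.T2w

/-!
# The numbers at two windows

`chart_le`: the labels of a chart bound the entropy of its coordinates. `vol_fam`, `top_fam`: for
one member, the volume and the largest number at a window `w'`, from the chart at a window
`w ≤ w'`. `vol_mono`: the sum of the numbers is a monotone function of the window; `top_le`: the
largest number grows at most by the growth of the sum.
-/

set_option autoImplicit false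

namespace Pool.R1

open Finset Real
open MvPolynomial (eval)
open Pool.Agent.H49.Ent Pool.Agent.H32.Dense Pool.STK Pool.KA Pool.KSAT Pool.K2S Pool.PB Pool.S6C
open Pool.GEN Pool.GRW
open Pool.UNJ (ceI)

variable {m n J : ℕ}

/-- **The chart bounds the entropy.** -/
theorem chart_le {F : Fam m J} {A : F.Ω → Prop} {q : F.Ω → ℝ} (hq : IsLaw q)
    (hqA : ∀ ω, 0 < q ω → A ω) {ε : Fin n → Fin m} {K e w : ℕ} {ρ P : Fin n → ℕ}
    {V₁ : Fin n → Type} {y : ∀ j, PtT F → V₁ j} {y' : ∀ j, LnT F → V₁ j}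
    {G : ∀ j, V₁ j → MvPolynomial (Option (Fin m)) ℝ}
    (hG : ∀ j, LbOK F ((Iio j).image ε) (ε j) K e J w (ρ j) (P j) A (y j) (y' j) (G j))
    (hρ : ∀ j, ρ j ≤ J) (hP : ∀ j, P j ≤ J) {T : Type*} (Z : F.Ω → T)
    (hZ : ∀ ω ω', 0 < q ω → 0 < q ω' → Z ω = Z ω' →
      (∀ j, y' j (slam F w ω) = y' j (slam F w ω')) ∧ F.T ω = F.T ω') :
    CH q (fun ω j => F.X J ω (ε j)) Z ≤
      ∑ j, (((J : ℝ) - P j + e) * Real.log 2 + Real.log (2 * m + 9)) := by
  classical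
  refine Pool.EXW.chain_le hq (fun (j : Fin n) ω => F.X J ω (ε j)) Z _ (fun j => ?_)
  refine Pool.EXW.one_cell (hG j) (hρ j) (hP j) hq hqA fun ω ω' h1 h1' hc => ?_
  have h2 := Prod.ext_iff.mp hc
  have h3 := hZ ω ω' h1 h1' h2.2
  refine ⟨fun k hk => ?_, h3.1 j, h3.2⟩
  obtain ⟨l, hl, rfl⟩ := mem_image.1 hk
  have h6 := congrFun h2.1 l
  simp only [if_pos (mem_Iio.1 hl)] at h6
  exact h6

/-- **The volume**, for one member. -/
theorem vol_fam {F : Fam m J} {A : F.Ω → Prop} (hA : 0 < Pe F.p A) {ε ε' : Fin n → Fin m}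
    (hεε : ∀ j, ∃ i, ε i = ε' j) {K e w w' : ℕ} (hw : w ≤ w') (hw' : w' ≤ J) {ρ P : Fin n → ℕ}
    (hlb : ∀ j, Lb F ((Iio j).image ε) (ε j) K e J w (ρ j) (P j) A)
    (hρ : ∀ j, ρ j ≤ J) (hP : ∀ j, P j ≤ J) {E : ℝ}
    (hex : ∀ (V : Type) (z : PtT F → V) (z' : LnT F → V),
      (∀ ω, A ω → z (ptr F J ω) = z' (slam F w' ω)) →
      E ≤ CH (Pool.Agent.H49.Ent.cond F.p A True) (fun ω j => F.X J ω (ε' j))
        (fun ω => (z' (slam F w' ω), F.W ω))) :
    E ≤ ∑ j : Fin n, (((J : ℝ) - P j + e) * Real.log 2 + Real.log (2 * m + 9)) := by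
  classical
  have hq := isLaw_cond F.isLaw hA
  have h0 := hq.nonneg
  have hqA : ∀ ω, 0 < Pool.Agent.H49.Ent.cond F.p A True ω → A ω := fun ω hω =>
    of_eq_true ((cond_pos_iff F.isLaw.nonneg A True ω).1 hω).2
  choose V₁ y y' G hG using hlb
  have h1 := hex (∀ j, V₁ j) (fun p j => y j p)
    (fun s j => y' j (s.1, s.2.1, s.2.2 / 2 ^ (w' - w))) (fun ω hω => funext fun j => by
      rw [← slam_coarse F hw hw' ω]
      exact (hG j).cls ω hω)
  refine h1.trans ((CH_mono_left h0 (X' := fun ω j => F.X J ω (ε j))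
    fun ω ω' _ _ hh => funext fun j => ?_).trans
    (chart_le hq hqA hG hρ hP _ fun ω ω' _ _ hc => ?_))
  · obtain ⟨i, hi⟩ := hεε j
    rw [← hi]
    exact congrFun (Prod.ext_iff.mp hh).1 i
  · have h2 := Prod.ext_iff.mp hc
    refine ⟨fun j => ?_, congrArg Prod.fst h2.2⟩
    have h3 := congrFun h2.1 j
    rw [← slam_coarse F hw hw' ω, ← slam_coarse F hw hw' ω'] at h3
    exact h3

/-- **The largest number**, for one member: `E₂` bounds the entropy of the last coordinate of the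
order `ε'`, given the other ones and a function which is closed at the window `w`. -/
theorem top_fam {F : Fam m J} {A : F.Ω → Prop} (hA : 0 < Pe F.p A) {ε ε' : Fin n → Fin m}
    (hεε : ∀ j, ∃ i, ε i = ε' j) {K e w w' : ℕ} (hw : w ≤ w') (hw' : w' ≤ J) {ρ P : Fin n → ℕ}
    (hlb : ∀ j, Lb F ((Iio j).image ε) (ε j) K e J w (ρ j) (P j) A)
    (hρ : ∀ j, ρ j ≤ J) (hP : ∀ j, P j ≤ J) {jl : Fin n} {K' e' ρ' P' : ℕ} (hlb' : Lb F ((Iio jl).image ε') (ε' jl) K' e' J w' ρ' P' A)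
    (hρ' : ρ' ≤ J) (hP' : P' ≤ J) {E E₂ : ℝ}
    (hex : ∀ (V : Type) (z : PtT F → V) (z' : LnT F → V),
      (∀ ω, A ω → z (ptr F J ω) = z' (slam F w' ω)) →
      E ≤ CH (Pool.Agent.H49.Ent.cond F.p A True) (fun ω j => F.X J ω (ε' j))
        (fun ω => (z' (slam F w' ω), F.W ω)))
    (hfu : ∀ (V : Type) (z : PtT F → V) (z' : LnT F → V),
      (∀ ω, A ω → z (ptr F J ω) = z' (slam F w ω)) →
      E₂ ≤ CH (Pool.Agent.H49.Ent.cond F.p A True) (fun ω => F.X J ω (ε' jl))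
        (fun ω => ((fun l => if l = jl then 0 else F.X J ω (ε' l)), z' (slam F w ω), F.W ω))) :
    E + E₂ ≤ (((J : ℝ) - P' + e') * Real.log 2 + Real.log (2 * m + 9)) +
      ∑ j : Fin n, (((J : ℝ) - P j + e) * Real.log 2 + Real.log (2 * m + 9)) := by
  classical
  have hq := isLaw_cond F.isLaw hA
  have h0 := hq.nonneg
  have hqA : ∀ ω, 0 < Pool.Agent.H49.Ent.cond F.p A True ω → A ω := fun ω hω =>
    of_eq_true ((cond_pos_iff F.isLaw.nonneg A True ω).1 hω).2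
  obtain ⟨q, hqe⟩ : ∃ q, q = Pool.Agent.H49.Ent.cond F.p A True := ⟨_, rfl⟩
  rw [← hqe] at hq h0 hqA hex hfu
  choose V₁ y y' G hG using hlb
  obtain ⟨V₂, x, x', G₂, hG₂⟩ := hlb'
  obtain ⟨XS, hXS⟩ : ∃ XS : F.Ω → Fin n → ℤ,
      XS = fun ω l => if l = jl then 0 else F.X J ω (ε' l) := ⟨_, rfl⟩
  obtain ⟨Z₀, hZ₀⟩ : ∃ Z₀ : F.Ω → (∀ j, V₁ j) × (ℕ × F.ζ),
      Z₀ = fun ω => ((fun j => y' j (slam F w ω)), F.W ω) := ⟨_, rfl⟩
  obtain ⟨Z, hZ⟩ : ∃ Z : F.Ω → ((∀ j, V₁ j) × V₂) × (ℕ × F.ζ),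
      Z = fun ω => (((fun j => y' j (slam F w ω)), x' (slam F w' ω)), F.W ω) := ⟨_, rfl⟩
  have h1 : E ≤ CH q (fun ω j => F.X J ω (ε' j)) Z := by
    have h2 := hex ((∀ j, V₁ j) × V₂) (fun p => ((fun j => y j p), x p))
      (fun s => ((fun j => y' j (s.1, s.2.1, s.2.2 / 2 ^ (w' - w))), x' s)) (fun ω hω => by
        refine Prod.ext (funext fun j => ?_) (hG₂.cls ω hω)
        show y j (ptr F J ω) = _
        rw [(hG j).cls ω hω, slam_coarse F hw hw' ω])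
    refine h2.trans (le_of_eq ?_)
    rw [hZ]
    congr 1
    funext ω
    simp only [slam_coarse F hw hw' ω]
  have h2 := hfu (∀ j, V₁ j) (fun p j => y j p) (fun s j => y' j s)
    (fun ω hω => funext fun j => (hG j).cls ω hω)
  -- the decompositions
  have h3 := CH_le_add h0 (fun ω j => F.X J ω (ε' j)) XS Z
  have h4 : CH q (fun ω j => F.X J ω (ε' j)) (fun ω => (XS ω, Z ω)) ≤
      ((J : ℝ) - P' + e') * Real.log 2 + Real.log (2 * m + 9) := by
    refine (CH_mono_left h0 (X' := fun ω => F.X J ω (ε' jl))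
      fun ω ω' _ _ hh => funext fun j => ?_).trans
      (Pool.EXW.one_cell hG₂ hρ' hP' hq hqA fun ω ω' _ _ hc => ?_)
    · have h5 := Prod.ext_iff.mp hh
      by_cases hj : j = jl
      · rw [hj]
        exact h5.1
      · have h6 := congrFun (Prod.ext_iff.mp h5.2).1 j
        rw [hXS] at h6
        simp only [if_neg hj] at h6
        exact h6
    · have h5 := Prod.ext_iff.mp hc
      have h7 : Z ω = Z ω' := h5.2
      rw [hZ] at h7
      have h8 := Prod.ext_iff.mp h7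
      refine ⟨fun k hk => ?_, (Prod.ext_iff.mp h8.1).2, congrArg Prod.fst h8.2⟩
      obtain ⟨l, hl, rfl⟩ := mem_image.1 hk
      have h9 := congrFun h5.1 l
      rw [hXS] at h9
      simp only [if_neg (mem_Iio.1 hl).ne] at h9
      exact h9
  have h5 : CH q XS Z ≤ CH q XS Z₀ := CH_mono_cond h0 fun ω ω' _ _ hh => by
    rw [hZ] at hh
    rw [hZ₀]
    have h6 := Prod.ext_iff.mp hh
    exact Prod.ext (Prod.ext_iff.mp h6.1).1 h6.2
  have h6 := CH_chain h0 (fun ω => F.X J ω (ε' jl)) XS Z₀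
  have h7 : CH q (fun ω => (F.X J ω (ε' jl), XS ω)) Z₀ ≤
      ∑ j : Fin n, (((J : ℝ) - P j + e) * Real.log 2 + Real.log (2 * m + 9)) := by
    refine (CH_mono_left h0 (X' := fun ω j => F.X J ω (ε j))
      fun ω ω' _ _ hh => ?_).trans (chart_le hq hqA hG hρ hP _ fun ω ω' _ _ hc => ?_)
    · have h8 : ∀ j, F.X J ω (ε' j) = F.X J ω' (ε' j) := fun j => by
        obtain ⟨i, hi⟩ := hεε j
        rw [← hi]
        exact congrFun (Prod.ext_iff.mp hh).1 i
      rw [hXS]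
      refine Prod.ext (h8 jl) (funext fun l => ?_)
      simp only [h8 l]
    · rw [hZ₀] at hc
      have h8 := Prod.ext_iff.mp hc
      exact ⟨fun j => congrFun h8.1 j, congrArg Prod.fst h8.2⟩
  have h8 : E₂ ≤ CH q (fun ω => F.X J ω (ε' jl)) (fun ω => (XS ω, Z₀ ω)) := by
    refine h2.trans (le_of_eq ?_)
    rw [hXS, hZ₀]
  linarith

/-- The digits below the precision `U`. -/
theorem dig_le {Ω : Type} [Fintype Ω] {q : Ω → ℝ} (hq : IsLaw q) {U J : ℕ} (hU : U ≤ J)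
    (x : Ω → ℝ) {T : Type*} (c : Ω → T) (hc : ∀ ω ω', 0 < q ω → 0 < q ω' → c ω = c ω' →
      ⌊(2 : ℝ) ^ U * x ω⌋ = ⌊(2 : ℝ) ^ U * x ω'⌋) :
    CH q (fun ω => ⌊(2 : ℝ) ^ J * x ω⌋) c ≤ ((J : ℝ) - U) * Real.log 2 + 2 := by
  have hM : ∀ ω ω', 0 < q ω → 0 < q ω' → c ω = c ω' →
      |((⌊(2 : ℝ) ^ J * x ω⌋ - ⌊(2 : ℝ) ^ J * x ω'⌋ : ℤ) : ℝ)| ≤ 2 ^ (J - U) + 1 := by
    intro ω ω' h1 h2 h3
    have h4 := hc ω ω' h1 h2 h3
    have h5 := Int.abs_sub_lt_one_of_floor_eq_floor h4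
    refine (Pool.EXW.abs_floor_sub _ _).trans (add_le_add_left ?_ 1)
    have e1 : (2 : ℝ) ^ J = 2 ^ (J - U) * 2 ^ U := by
      rw [← pow_add]
      congr 1
      omega
    have e2 : (2 : ℝ) ^ J * x ω - 2 ^ J * x ω' = 2 ^ (J - U) * (2 ^ U * x ω - 2 ^ U * x ω') := by
      rw [e1]
      ring
    rw [e2, abs_mul, abs_of_pos (by positivity)]
    exact mul_le_of_le_one_right (by positivity) h5.le
  have h1 := CH_le_int hq.nonneg hq.sum_one (fun ω => ⌊(2 : ℝ) ^ J * x ω⌋) c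
    (fun _ => 2 ^ (J - U) + 1) hM
  rw [Ex_const hq.sum_one] at h1
  refine h1.trans ?_
  have h2 : 2 * ((2 : ℝ) ^ (J - U) + 1) + 1 ≤ 2 ^ (J - U) * 5 := by
    have : (1 : ℝ) ≤ 2 ^ (J - U) := one_le_pow₀ (by norm_num)
    linarith
  refine (Real.log_le_log (by positivity) h2).trans ?_
  rw [Real.log_mul (by positivity) (by norm_num), Real.log_pow]
  have h3 : Real.log 5 ≤ 2 := by
    have h4 : (5 : ℝ) ≤ Real.exp 2 := by
      have h5 := Real.exp_one_gt_d9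
      have h6 : Real.exp 2 = Real.exp 1 * Real.exp 1 := by
        rw [← Real.exp_add]
        norm_num
      rw [h6]
      nlinarith
    calc Real.log 5 ≤ Real.log (Real.exp 2) := Real.log_le_log (by norm_num) h4
      _ = 2 := Real.log_exp 2
  have e1 : ((J - U : ℕ) : ℝ) = (J : ℝ) - U := by
    push_cast [Nat.cast_sub hU]
    ring
  rw [e1]
  linarith

/-- **Fullness of one coordinate**, from the fullness in the cells of the precision `U`. -/
theorem one_full {F : Fam m J} {q : F.Ω → ℝ} (hq : IsLaw q) {ε ε' : Fin n → Fin m}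
    (hεε : ∀ j, ∃ i, ε' i = ε j) (hεε' : ∀ j, ∃ i, ε i = ε' j) {U : ℕ} (hU : U ≤ J) (jl : Fin n)
    {T : Type*} (Z : F.Ω → T)
    {E : ℝ} (h : E ≤ CH q (fun ω => ceI (univ.image ε) (fun _ => J) (F.x ω))
      (fun ω => (ceI (univ.image ε) (fun _ => U) (F.x ω), Z ω))) :
    E - n * (((J : ℝ) - U) * Real.log 2 + 2) + (((J : ℝ) - U) * Real.log 2) ≤
      CH q (fun ω => F.X J ω (ε' jl))
        (fun ω => ((fun l => if l = jl then 0 else F.X J ω (ε' l)), Z ω)) := by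
  classical
  have h0 := hq.nonneg
  have hl2 : 0 < Real.log 2 := Real.log_pos one_lt_two
  have hJU : (0 : ℝ) ≤ (J : ℝ) - U := by
    have : (U : ℝ) ≤ J := by exact_mod_cast hU
    linarith
  obtain ⟨XS, hXS⟩ : ∃ XS : F.Ω → Fin n → ℤ,
      XS = fun ω l => if l = jl then 0 else F.X J ω (ε' l) := ⟨_, rfl⟩
  obtain ⟨C, hC⟩ : ∃ C : F.Ω → Fin m → ℤ, C = fun ω => ceI (univ.image ε) (fun _ => U) (F.x ω) :=
    ⟨_, rfl⟩
  have hCd : ∀ ω ω', C ω = C ω' → ∀ l, (∃ i, ε i = ε' l) →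
      ⌊(2 : ℝ) ^ U * F.x ω (ε' l)⌋ = ⌊(2 : ℝ) ^ U * F.x ω' (ε' l)⌋ := by
    rintro ω ω' h1 l ⟨i, hi⟩
    have h2 := congrFun h1 (ε' l)
    rw [hC] at h2
    unfold ceI at h2
    have h3 : ε' l ∈ univ.image ε := by
      rw [← hi]
      exact mem_image_of_mem _ (mem_univ _)
    simp only [if_pos h3] at h2
    exact h2
  have h1 := CH_le_add h0 (fun ω => ceI (univ.image ε) (fun _ => J) (F.x ω)) XS
    (fun ω => (C ω, Z ω))
  have h2 : CH q (fun ω => ceI (univ.image ε) (fun _ => J) (F.x ω)) (fun ω => (XS ω, (C ω, Z ω))) ≤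
      CH q (fun ω => F.X J ω (ε' jl)) (fun ω => (XS ω, Z ω)) := by
    refine (CH_mono_left h0 (X' := fun ω => F.X J ω (ε' jl)) fun ω ω' _ _ hh => ?_).trans
      (CH_mono_cond h0 fun ω ω' _ _ hh => ?_)
    · have h3 := Prod.ext_iff.mp hh
      have h4 := (Prod.ext_iff.mp h3.2).1
      refine funext fun k => ?_
      unfold ceI
      by_cases hk : k ∈ univ.image ε
      · obtain ⟨j, _, rfl⟩ := mem_image.1 hk
        obtain ⟨i, hi⟩ := hεε j
        simp only [if_pos hk]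
        rw [← hi]
        by_cases hil : i = jl
        · rw [hil]
          exact h3.1
        · have h5 := congrFun h4 i
          rw [hXS] at h5
          simp only [if_neg hil] at h5
          exact h5
      · simp only [if_neg hk]
    · have h3 := Prod.ext_iff.mp hh
      exact Prod.ext h3.1 (Prod.ext_iff.mp h3.2).2
  have h3 : CH q XS (fun ω => (C ω, Z ω)) ≤
      ∑ j, (if j = jl then (0 : ℝ) else ((J : ℝ) - U) * Real.log 2 + 2) := by
    have h4 := Pool.EXW.chain_le hq (fun (j : Fin n) ω => if j = jl then 0 else F.X J ω (ε' j))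
      (fun ω => (C ω, Z ω)) (fun j => if j = jl then (0 : ℝ) else ((J : ℝ) - U) * Real.log 2 + 2)
      (fun j => by
        by_cases hj : j = jl
        · simp only [if_pos hj]
          have h5 := CH_le_int h0 hq.sum_one (fun _ => (0 : ℤ)) (fun ω => ((fun l : Fin n =>
            if l < jl then (if l = jl then 0 else F.X J ω (ε' l)) else 0), C ω, Z ω)) (fun _ => 0)
            (fun _ _ _ _ _ => by simp)
          rw [Ex_const hq.sum_one, mul_zero, zero_add, Real.log_one] at h5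
          rw [hj]
          exact h5
        · simp only [if_neg hj]
          refine dig_le hq hU (fun ω => F.x ω (ε' j)) _ fun ω ω' _ _ hh => ?_
          have h5 := (Prod.ext_iff.mp (Prod.ext_iff.mp hh).2).1
          exact hCd ω ω' h5 j (hεε' j))
    rw [hXS]
    exact h4
  have h4 : ∑ j : Fin n, (if j = jl then (0 : ℝ) else ((J : ℝ) - U) * Real.log 2 + 2) =
      n * (((J : ℝ) - U) * Real.log 2 + 2) - (((J : ℝ) - U) * Real.log 2 + 2) := by
    have h5 := Finset.add_sum_erase univ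
      (fun j : Fin n => (if j = jl then (0 : ℝ) else ((J : ℝ) - U) * Real.log 2 + 2)) (mem_univ jl)
    rw [← h5]
    simp only [if_true, zero_add]
    rw [Finset.sum_congr rfl (g := fun _ => ((J : ℝ) - U) * Real.log 2 + 2)
      (fun j hj => if_neg (Finset.ne_of_mem_erase hj)), Finset.sum_const,
      Finset.card_erase_of_mem (mem_univ _), Finset.card_univ, Fintype.card_fin, nsmul_eq_mul]
    have h6 : ((n - 1 : ℕ) : ℝ) = (n : ℝ) - 1 := by
      have : 1 ≤ n := by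
        have := jl.2
        omega
      push_cast [Nat.cast_sub this]
      ring
    rw [h6]
    ring
  rw [h4] at h3
  have h5 : (fun ω => ((fun l => if l = jl then 0 else F.X J ω (ε' l)), Z ω)) =
      fun ω => (XS ω, Z ω) := by rw [hXS]
  rw [h5]
  have h6 : E ≤ CH q (fun ω => ceI (univ.image ε) (fun _ => J) (F.x ω)) (fun ω => (C ω, Z ω)) := by
    rw [hC]
    exact h
  linarith

/-! ### Classes -/

/-- The terms of a chart. -/
theorem chart_num {J : ℕ} {s e cm L : ℝ} (hL0 : 0 ≤ L) (hL1 : L ≤ 1) (he : 0 ≤ e) :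
    ((J : ℝ) - ⌊(s - e) * J⌋₊ + ⌊e * J⌋₊) * L + cm ≤ (1 - s) * L * J + (2 * (e * J) + 1 + cm) := by
  have h1 := Nat.lt_floor_add_one ((s - e) * (J : ℝ))
  have hJ : (0 : ℝ) ≤ J := Nat.cast_nonneg J
  have h2 := Nat.floor_le (show 0 ≤ e * (J : ℝ) by positivity)
  have h3 : ((J : ℝ) - ⌊(s - e) * J⌋₊ + ⌊e * J⌋₊) ≤ (1 - s) * J + (2 * (e * J) + 1) := by
    linarith only [h1, h2]
  have h4 := mul_le_mul_of_nonneg_right h3 hL0
  have h5 : (2 * (e * J) + 1) * L ≤ (2 * (e * J) + 1) * 1 :=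
    mul_le_mul_of_nonneg_left hL1 (by positivity)
  linarith only [h4, h5]

/-- **The volume decreases**: the sum of the numbers is monotone in the window. -/
theorem vol_mono {S : PCl m} (hne : S.Ne) (hpos : Bas S (fun _ F A => 0 < Pe F.p A))
    {L : Finset (Fin m) → Fin m → ℝ → ℝ → ℝ} (hL : LamW S L) {ε ε' : Fin n → Fin m}
    (hεε : ∀ j, ∃ i, ε i = ε' j) {w w' : ℝ} (hww : w ≤ w') (hw : w ∈ Wv L ε) (hw' : w' ≤ 1)
    (hex : VExa S L ε' w') :
    ∑ j : Fin n, vs L ε w (j + 1) ≤ ∑ j : Fin n, vs L ε' w' (j + 1) := by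
  by_contra hcon
  push Not at hcon
  obtain ⟨hw0, hw1, hg, hct⟩ := hw
  obtain ⟨D, hD⟩ : ∃ D, D = ∑ j : Fin n, vs L ε w (j + 1) - ∑ j : Fin n, vs L ε' w' (j + 1) :=
    ⟨_, rfl⟩
  have hD0 : 0 < D := by rw [hD]; linarith
  have hl2 : 1 / 2 < Real.log 2 := by
    have := Real.log_two_gt_d9
    linarith only [this]
  have hl21 : Real.log 2 ≤ 1 := by
    have := Real.log_two_lt_d9
    linarith only [this]
  have hn0 : (0 : ℝ) ≤ n := Nat.cast_nonneg n
  obtain ⟨e, he⟩ : ∃ e : ℝ, e = D / (32 * ((n : ℝ) + 1)) := ⟨_, rfl⟩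
  have he0 : 0 < e := by rw [he]; positivity
  have he1 : 2 * (n * e) ≤ D / 16 := by
    have : ((n : ℝ) + 1) * e = D / 32 := by
      rw [he]
      field_simp
    nlinarith only [this, he0]
  obtain ⟨K, hK⟩ := vst_att hL hw0 hw1 hg hct he0
  have hall : Bas S (fun J F A => ∀ j : Fin n, Lb F ((Iio j).image ε) (ε j) K ⌊e * J⌋₊ J ⌊w * J⌋₊
      ⌊min (vs L ε w j + e) 1 * J⌋₊ ⌊(vs L ε w (j + 1) - e) * J⌋₊ A) :=
    Bas.fin fun j => hK j j le_rfl
  obtain ⟨cm, hcm⟩ : ∃ cm : ℝ, cm = Real.log (2 * m + 9) := ⟨_, rfl⟩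
  have hcm0 : 0 ≤ cm := by
    rw [hcm]
    refine Real.log_nonneg ?_
    have : (0 : ℝ) ≤ m := Nat.cast_nonneg m
    linarith
  obtain ⟨J₁, hJ₁⟩ := exists_nat_gt (n * (1 + cm) / (D / 16))
  refine Pool.TOP.bas_no hne (((hex (D / 4) (by linarith)).and (hall.and hpos)).mono J₁ ?_)
  rintro J hJ F A ⟨h1, h2, h3⟩
  have hJ0 : (0 : ℝ) ≤ J := Nat.cast_nonneg J
  have hJ1 : (J₁ : ℝ) ≤ J := by exact_mod_cast hJ
  have hJ2 := hJ₁.trans_le hJ1
  rw [div_lt_iff₀ (by linarith)] at hJ2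
  have hwJ : ⌊w' * (J : ℝ)⌋₊ ≤ J := Pool.GEN.fl_le hw' J
  have h4 := vol_fam h3 hεε (Nat.floor_le_floor (mul_le_mul_of_nonneg_right hww hJ0)) hwJ h2
    (fun j => Pool.GEN.fl_le (min_le_right _ _) J)
    (fun j => Pool.GEN.fl_le (by linarith [vs_le1 hL ε hw1.le (j + 1 : ℕ)]) J) h1
  have h5 : ∑ j : Fin n, (((J : ℝ) - ⌊(vs L ε w (j + 1) - e) * J⌋₊ + ⌊e * J⌋₊) * Real.log 2 +
      Real.log (2 * m + 9)) ≤ ∑ j : Fin n, ((1 - vs L ε w (j + 1)) * Real.log 2 * J +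
        (2 * (e * J) + 1 + cm)) := by
    rw [← hcm]
    exact Finset.sum_le_sum fun j _ => chart_num (by linarith) hl21 he0.le
  have h6 : ∑ j : Fin n, ((1 - vs L ε w (j + 1)) * Real.log 2 * J + (2 * (e * J) + 1 + cm)) =
      (n - ∑ j : Fin n, vs L ε w (j + 1)) * Real.log 2 * J + n * (2 * (e * J) + 1 + cm) := by
    rw [Finset.sum_add_distrib, ← Finset.sum_mul, ← Finset.sum_mul, Finset.sum_sub_distrib,
      Finset.sum_const, Finset.sum_const, Finset.card_univ, Fintype.card_fin, nsmul_eq_mul,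
      nsmul_eq_mul, mul_one]
  have h7 : ∑ j : Fin n, (1 - vs L ε' w' (j + 1)) = n - ∑ j : Fin n, vs L ε' w' (j + 1) := by
    rw [Finset.sum_sub_distrib, Finset.sum_const, Finset.card_univ, Fintype.card_fin,
      nsmul_eq_mul, mul_one]
  rw [h7] at h4
  rw [h6] at h5
  have h8 := h4.trans h5
  have h9 : (3 / 4 * D) * Real.log 2 * J ≤ n * (2 * (e * J) + 1 + cm) := by
    rw [show ∑ j : Fin n, vs L ε w (j + 1) = ∑ j : Fin n, vs L ε' w' (j + 1) + D by
      rw [hD]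
      ring] at h8
    linarith only [h8]
  have h10 : (3 / 4 * D) * (1 / 2) * J ≤ (3 / 4 * D) * Real.log 2 * J :=
    mul_le_mul_of_nonneg_right (mul_le_mul_of_nonneg_left hl2.le (by linarith)) hJ0
  have h11 : n * (2 * (e * J) + 1 + cm) = 2 * (n * e) * J + n * (1 + cm) := by ring
  have h12 := mul_le_mul_of_nonneg_right he1 hJ0
  have h13 : 0 ≤ D * (J : ℝ) := by positivity
  linarith only [h9, h10, h11, h12, h13, hJ2]

/-- **The largest number** grows at most by the growth of the sum. -/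
theorem top_le {S : PCl m} (hne : S.Ne)
    (hpos : ∀ (τ : ℝ) (J : ℕ) (F : Fam m J) (A : F.Ω → Prop), 0 < τ → S.St τ J F A → 0 < Pe F.p A)
    {L : Finset (Fin m) → Fin m → ℝ → ℝ → ℝ} (hL : LamW S L) {ε ε' : Fin n → Fin m}
    (hεi : Function.Injective ε) (hεε : ∀ j, ∃ i, ε i = ε' j) (hεε' : ∀ j, ∃ i, ε' i = ε j)
    {w w' : ℝ} (hww : w ≤ w') (hw : w ∈ Wv L ε) (hw' : w' ∈ Wv L ε') (hex : VExa S L ε w)
    (hex' : VExa S L ε' w') {jl : Fin n} (hjl : ∀ j, j ≤ jl) :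
    vs L ε' w' (jl + 1) ≤ vs L ε w (jl + 1) +
      (∑ j : Fin n, vs L ε' w' (j + 1) - ∑ j : Fin n, vs L ε w (j + 1)) := by
  classical
  by_contra hcon
  push Not at hcon
  obtain ⟨hw0, hw1, hg, hct⟩ := hw
  obtain ⟨hw0', hw1', hg', hct'⟩ := hw'
  have hmono : Monotone (vs L ε w) := hg.mono hL hw1.le
  obtain ⟨t₀, ht₀⟩ : ∃ t₀, t₀ = vs L ε w (jl + 1) := ⟨_, rfl⟩
  obtain ⟨t', ht'⟩ : ∃ t', t' = vs L ε' w' (jl + 1) := ⟨_, rfl⟩
  obtain ⟨V₀, hV₀⟩ : ∃ V₀, V₀ = ∑ j : Fin n, vs L ε w (j + 1) := ⟨_, rfl⟩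
  obtain ⟨V', hV'⟩ : ∃ V', V' = ∑ j : Fin n, vs L ε' w' (j + 1) := ⟨_, rfl⟩
  rw [← ht₀, ← ht', ← hV₀, ← hV'] at hcon
  obtain ⟨D, hD⟩ : ∃ D, D = t' - t₀ - (V' - V₀) := ⟨_, rfl⟩
  have hD0 : 0 < D := by rw [hD]; linarith
  have ht₀1 : t₀ ≤ 1 := by rw [ht₀]; exact vs_le1 hL ε hw1.le _
  have ht₀0 : 0 ≤ t₀ := by rw [ht₀]; exact hw0.le.trans (le_vs hL ε hw1.le _)
  have ht'1 : t' ≤ 1 := by rw [ht']; exact vs_le1 hL ε' hw1'.le _
  have hl2 : 1 / 2 < Real.log 2 := by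
    have := Real.log_two_gt_d9
    linarith only [this]
  have hl20 : 0 < Real.log 2 := by linarith
  have hl21 : Real.log 2 ≤ 1 := by
    have := Real.log_two_lt_d9
    linarith only [this]
  have hn0 : (0 : ℝ) ≤ n := Nat.cast_nonneg n
  -- fullness in the cells
  have hful := Pool.EXW.full_cls hpos (ε := ε) (w := w) (u := t₀)
    (s := fun j => vs L ε w (j + 1)) (r := fun j => vs L ε w j) ht₀0
    (fun j => by
      rw [ht₀]
      exact hmono (by
        have : (j : ℕ) ≤ jl := hjl j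
        omega))
    (fun j => by
      rw [ht₀]
      exact hmono (by
        have : (j : ℕ) ≤ jl := hjl j
        omega)) hex
    (fun e he => by
      obtain ⟨K, hK⟩ := vst_att hL hw0 hw1 hg hct he
      exact ⟨K, fun j => hK j j le_rfl⟩) (D / 16) (by linarith)
  have hcard : (univ.image ε).card = n := by
    rw [Finset.card_image_of_injective _ hεi, Finset.card_univ, Fintype.card_fin]
  rw [hcard] at hful
  obtain ⟨e, he⟩ : ∃ e : ℝ, e = D / (64 * ((n : ℝ) + 1)) := ⟨_, rfl⟩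
  have he0 : 0 < e := by rw [he]; positivity
  have he1 : ((n : ℝ) + 1) * e = D / 64 := by
    rw [he]
    field_simp
  obtain ⟨K, hK⟩ := vst_att hL hw0 hw1 hg hct he0
  obtain ⟨K', hK'⟩ := vst_att hL hw0' hw1' hg' hct' he0
  have hall : Bas S (fun J F A => ∀ j : Fin n, Lb F ((Iio j).image ε) (ε j) K ⌊e * J⌋₊ J ⌊w * J⌋₊
      ⌊min (vs L ε w j + e) 1 * J⌋₊ ⌊(vs L ε w (j + 1) - e) * J⌋₊ A) :=
    Bas.fin fun j => hK j j le_rfl
  obtain ⟨cm, hcm⟩ : ∃ cm : ℝ, cm = Real.log (2 * m + 9) := ⟨_, rfl⟩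
  have hcm0 : 0 ≤ cm := by
    rw [hcm]
    refine Real.log_nonneg ?_
    have : (0 : ℝ) ≤ m := Nat.cast_nonneg m
    linarith
  obtain ⟨J₁, hJ₁⟩ := exists_nat_gt (((n + 1) * (1 + cm) + 2 * n) / (D / 16))
  refine Pool.TOP.bas_no hne (((hex' (D / 16) (by linarith)).and (hall.and
    ((hK' jl jl le_rfl).and (hful.and
      (⟨1, one_pos, 0, fun J _ F A hA => hpos 1 J F A one_pos hA⟩ :
        Bas S (fun _ F A => 0 < Pe F.p A)))))).mono J₁ ?_)
  rintro J hJ F A ⟨h1, h2, h2', h2'', h3⟩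
  have hJ0 : (0 : ℝ) ≤ J := Nat.cast_nonneg J
  have hJ1 : (J₁ : ℝ) ≤ J := by exact_mod_cast hJ
  have hJ2 := hJ₁.trans_le hJ1
  rw [div_lt_iff₀ (by linarith)] at hJ2
  have hwJ : ⌊w' * (J : ℝ)⌋₊ ≤ J := Pool.GEN.fl_le hw1'.le J
  have hUJ : ⌊t₀ * (J : ℝ)⌋₊ ≤ J := Pool.GEN.fl_le ht₀1 J
  have hq := isLaw_cond F.isLaw h3
  obtain ⟨U, hU⟩ : ∃ U, U = ⌊t₀ * (J : ℝ)⌋₊ := ⟨_, rfl⟩
  rw [← hU] at hUJ
  have hU1 : (U : ℝ) ≤ t₀ * J := by
    rw [hU]
    exact Nat.floor_le (by positivity)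
  have h4 := top_fam h3 hεε (Nat.floor_le_floor (mul_le_mul_of_nonneg_right hww hJ0)) hwJ h2
    (fun j => Pool.GEN.fl_le (min_le_right _ _) J)
    (fun j => Pool.GEN.fl_le (by linarith [vs_le1 hL ε hw1.le (j + 1 : ℕ)]) J) h2'
    (Pool.GEN.fl_le (min_le_right _ _) J)
    (Pool.GEN.fl_le (by linarith [vs_le1 hL ε' hw1'.le (jl + 1 : ℕ)]) J) h1
    (fun V z z' hz => one_full hq hεε' hεε hUJ jl
      (fun ω => (z' (slam F ⌊w * (J : ℝ)⌋₊ ω), F.W ω)) (by
        have := h2'' V z z' hz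
        rw [← hU] at this
        exact this))
  have h5 : ∑ j : Fin n, (((J : ℝ) - ⌊(vs L ε w (j + 1) - e) * J⌋₊ + ⌊e * J⌋₊) * Real.log 2 +
      Real.log (2 * m + 9)) ≤ ∑ j : Fin n, ((1 - vs L ε w (j + 1)) * Real.log 2 * J +
        (2 * (e * J) + 1 + cm)) := by
    rw [← hcm]
    exact Finset.sum_le_sum fun j _ => chart_num (by linarith) hl21 he0.le
  have h6 : ∑ j : Fin n, ((1 - vs L ε w (j + 1)) * Real.log 2 * J + (2 * (e * J) + 1 + cm)) =
      (n - V₀) * Real.log 2 * J + n * (2 * (e * J) + 1 + cm) := by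
    rw [Finset.sum_add_distrib, ← Finset.sum_mul, ← Finset.sum_mul, Finset.sum_sub_distrib,
      Finset.sum_const, Finset.sum_const, Finset.card_univ, Fintype.card_fin, nsmul_eq_mul,
      nsmul_eq_mul, mul_one, hV₀]
  have h7 : ∑ j : Fin n, (1 - vs L ε' w' (j + 1)) = n - V' := by
    rw [Finset.sum_sub_distrib, Finset.sum_const, Finset.card_univ, Fintype.card_fin,
      nsmul_eq_mul, mul_one, hV']
  have h8 := chart_num (J := J) (s := vs L ε' w' (jl + 1)) (e := e) (cm := cm) hl20.le hl21 he0.le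
  rw [← ht'] at h8
  rw [h7, ← ht', ← hcm] at h4
  rw [h6] at h5
  have h9 : (n : ℝ) * (((J - U : ℕ) : ℝ) * Real.log 2) = n * (((J : ℝ) - U) * Real.log 2) := by
    rw [Nat.cast_sub hUJ]
  rw [h9] at h4
  have h10 : (1 - t₀) * Real.log 2 * J ≤ ((J : ℝ) - U) * Real.log 2 := by
    have := mul_le_mul_of_nonneg_right hU1 hl20.le
    linarith only [this]
  have h11 : D * Real.log 2 * J ≤ D / 16 * Real.log 2 * J + D / 16 * J + 2 * n +
      (n + 1) * (2 * (e * J) + 1 + cm) := by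
    have e1 : D * Real.log 2 * J = (t' - t₀ - (V' - V₀)) * Real.log 2 * J := by rw [hD]
    rw [← hcm] at h5
    linarith only [e1, h4, h5, h8, h10]
  have h12 : D * (1 / 2) * J ≤ D * Real.log 2 * J :=
    mul_le_mul_of_nonneg_right (mul_le_mul_of_nonneg_left hl2.le hD0.le) hJ0
  have h13 : D / 16 * Real.log 2 * J ≤ D / 16 * 1 * J :=
    mul_le_mul_of_nonneg_right (mul_le_mul_of_nonneg_left hl21 (by linarith)) hJ0
  have h14 : ((n : ℝ) + 1) * (2 * (e * J) + 1 + cm) = 2 * (((n : ℝ) + 1) * e) * J +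
      (n + 1) * (1 + cm) := by ring
  rw [he1] at h14
  have h15 : 0 ≤ D * (J : ℝ) := by positivity
  linarith only [h11, h12, h13, h14, h15, hJ2]

end Pool.R1
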